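import Mathlib

/-!
# A robust weighted Caro–Wei bound

In a graph with positive vertex weights `p` there is a clique of size at least
`∑ p v / δ v + X / (3 M ^ 3)`, where `δ v` is the weight of the closed non-neighbourhood of `v`,
`M ≥ δ v` and `X` is the weight of the triples `(x, v, w)` with `x` not adjacent to `v`, `w` and
`v`, `w` adjacent.
-/

namespace MP5cc280

open Finset SimpleGraph

section CW

variable {V : Type*} (G : SimpleGraph V) [DecidableRel G.Adj] (p : V → ℝ)

/-- indicator of being equal or not adjacent -/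
def nb (x y : V) : ℝ := if G.Adj x y then 0 else 1

/-- weight of the closed non-neighbourhood of `x` in `S` -/
def del (S : Finset V) (x : V) : ℝ := ∑ y ∈ S, nb G x y * p y

/-- weight of the open cherries in `S` -/
def chy (S : Finset V) : ℝ :=
  ∑ x ∈ S, ∑ v ∈ S, ∑ w ∈ S, nb G x v * nb G x w * (1 - nb G v w) * (p x * p v * p w)

variable {G p}

theorem nb_nonneg (x y : V) : 0 ≤ nb G x y := by
  unfold nb
  split_ifs <;> norm_num

theorem nb_le_one (x y : V) : nb G x y ≤ 1 := by
  unfold nb
  split_ifs <;> norm_num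

theorem nb_symm (x y : V) : nb G x y = nb G y x := by
  unfold nb
  simp only [G.adj_comm]

theorem nb_self (x : V) : nb G x x = 1 := by
  unfold nb
  rw [if_neg (G.loopless.irrefl x)]

theorem nb_of_adj {x y : V} (h : G.Adj x y) : nb G x y = 0 := if_pos h

theorem nb_sq (x y : V) : (1 - nb G x y) * (1 - nb G x y) = 1 - nb G x y := by
  unfold nb
  split_ifs <;> norm_num

variable [DecidableEq V]

theorem sum_nbr (S : Finset V) (v : V) (F : V → ℝ) :
    ∑ w ∈ S.filter (fun w => G.Adj v w), F w = ∑ w ∈ S, (1 - nb G v w) * F w := by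
  rw [sum_filter]
  refine sum_congr rfl fun w _ => ?_
  unfold nb
  split_ifs <;> ring

theorem del_pos {S : Finset V} (hp : ∀ x ∈ S, 0 < p x) {x : V} (hx : x ∈ S) :
    p x ≤ del G p S x := by
  have h : nb G x x * p x ≤ ∑ y ∈ S, nb G x y * p y :=
    single_le_sum (f := fun y => nb G x y * p y)
      (fun y hy => mul_nonneg (nb_nonneg _ _) (hp y hy).le) hx
  rw [nb_self, one_mul] at h
  exact h

theorem del_mono {S T : Finset V} (hST : S ⊆ T) (hp : ∀ x ∈ T, 0 < p x) (x : V) :
    del G p S x ≤ del G p T x :=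
  sum_le_sum_of_subset_of_nonneg hST
    (fun y hy _ => mul_nonneg (nb_nonneg _ _) (hp y hy).le)

theorem chy_nonneg {S : Finset V} (hp : ∀ x ∈ S, 0 < p x) : 0 ≤ chy G p S := by
  refine sum_nonneg fun x hx => sum_nonneg fun v hv => sum_nonneg fun w hw => ?_
  have h1 := nb_nonneg (G := G) x v
  have h2 := nb_nonneg (G := G) x w
  have h3 := nb_le_one (G := G) v w
  have h4 := hp x hx
  have h5 := hp v hv
  have h6 := hp w hw
  have h7 : 0 ≤ 1 - nb G v w := by linarith
  positivity

/-- one step: the gain for the vertex `v` -/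
theorem cw_step {S : Finset V} (hp : ∀ x ∈ S, 0 < p x) {M : ℝ} (hM : 0 < M)
    (hdel : ∀ x ∈ S, del G p S x ≤ M) (v : V) :
    ∑ w ∈ S, (1 - nb G v w) * (p w / del G p S w) +
      1 / M ^ 2 * ∑ w ∈ S, (1 - nb G v w) * (p w * ∑ x ∈ S, nb G w x * nb G v x * p x) ≤
      ∑ w ∈ S.filter (fun w => G.Adj v w),
        p w / del G p (S.filter (fun w => G.Adj v w)) w := by
  rw [mul_sum, ← sum_add_distrib, sum_nbr]
  refine sum_le_sum fun w hw => ?_
  by_cases hvw : G.Adj v w
  · have hn : nb G v w = 0 := nb_of_adj hvw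
    rw [hn, sub_zero, one_mul, one_mul, one_mul]
    set e : ℝ := ∑ x ∈ S, nb G w x * nb G v x * p x with he
    have he0 : 0 ≤ e := sum_nonneg fun x hx =>
      mul_nonneg (mul_nonneg (nb_nonneg _ _) (nb_nonneg _ _)) (hp x hx).le
    have hd : del G p (S.filter (fun w => G.Adj v w)) w = del G p S w - e := by
      have h1 : del G p (S.filter (fun w => G.Adj v w)) w =
          ∑ y ∈ S, (1 - nb G v y) * (nb G w y * p y) := sum_nbr S v (fun y => nb G w y * p y)
      rw [h1, del, he, ← sum_sub_distrib]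
      refine sum_congr rfl fun y _ => ?_
      ring
    have hpos : 0 < del G p (S.filter (fun w => G.Adj v w)) w := by
      have hwS : w ∈ S.filter (fun w => G.Adj v w) := mem_filter.2 ⟨hw, hvw⟩
      exact (hp w hw).trans_le (del_pos (fun x hx => hp x (mem_filter.1 hx).1) hwS)
    rw [hd] at hpos ⊢
    have hDM := hdel w hw
    set d := del G p S w with hdd
    have hd0 : 0 < d := by linarith
    have hpw := hp w hw
    have h1 : 1 / d + 1 / M ^ 2 * e ≤ 1 / (d - e) := by
      have h2 : 1 / M ^ 2 ≤ 1 / (d * (d - e)) := by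
        apply one_div_le_one_div_of_le (by positivity)
        nlinarith
      have h3 : 1 / (d - e) = 1 / d + 1 / (d * (d - e)) * e := by
        field_simp
        ring
      rw [h3]
      have := mul_le_mul_of_nonneg_right h2 he0
      linarith
    have h4 := mul_le_mul_of_nonneg_left h1 hpw.le
    calc p w / d + 1 / M ^ 2 * (p w * e) = p w * (1 / d + 1 / M ^ 2 * e) := by ring
      _ ≤ p w * (1 / (d - e)) := h4
      _ = p w / (d - e) := by ring
  · have hn : nb G v w = 1 := if_neg hvw
    rw [hn]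
    simp

theorem cw_first {S : Finset V} (hp : ∀ x ∈ S, 0 < p x) :
    ∑ v ∈ S, p v * ∑ w ∈ S, (1 - nb G v w) * (p w / del G p S w) =
      (∑ v ∈ S, p v) * (∑ w ∈ S, p w / del G p S w) - ∑ v ∈ S, p v := by
  have h1 : ∀ v ∈ S, p v * ∑ w ∈ S, (1 - nb G v w) * (p w / del G p S w) =
      p v * (∑ w ∈ S, p w / del G p S w) -
        ∑ w ∈ S, nb G w v * p v * (p w / del G p S w) := by
    intro v _
    rw [mul_sum, mul_sum, ← sum_sub_distrib]
    refine sum_congr rfl fun w _ => ?_
    rw [nb_symm v w]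
    ring
  rw [sum_congr rfl h1, sum_sub_distrib, ← sum_mul, sum_comm]
  congr 1
  refine sum_congr rfl fun w hw => ?_
  rw [← sum_mul]
  change del G p S w * (p w / del G p S w) = p w
  have hd : del G p S w ≠ 0 := ((hp w hw).trans_le (del_pos hp hw)).ne'
  rw [mul_div_cancel₀ _ hd]

theorem cw_second {S : Finset V} :
    ∑ v ∈ S, p v * ∑ w ∈ S, (1 - nb G v w) * (p w * ∑ x ∈ S, nb G w x * nb G v x * p x) =
      chy G p S := by
  have h1 : ∀ v ∈ S, p v * ∑ w ∈ S, (1 - nb G v w) *
      (p w * ∑ x ∈ S, nb G w x * nb G v x * p x) =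
      ∑ w ∈ S, ∑ x ∈ S, nb G x v * nb G x w * (1 - nb G v w) * (p x * p v * p w) := by
    intro v _
    rw [mul_sum]
    refine sum_congr rfl fun w _ => ?_
    rw [mul_sum, mul_sum, mul_sum]
    refine sum_congr rfl fun x _ => ?_
    rw [nb_symm w x, nb_symm v x]
    ring
  rw [sum_congr rfl h1, chy]
  have h2 : ∀ v ∈ S, ∑ w ∈ S, ∑ x ∈ S,
      nb G x v * nb G x w * (1 - nb G v w) * (p x * p v * p w) =
      ∑ x ∈ S, ∑ w ∈ S, nb G x v * nb G x w * (1 - nb G v w) * (p x * p v * p w) :=
    fun v _ => sum_comm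
  rw [sum_congr rfl h2, sum_comm]

theorem cw_third {S : Finset V} (hp : ∀ x ∈ S, 0 < p x) {M : ℝ}
    (hdel : ∀ x ∈ S, del G p S x ≤ M) :
    ((∑ v ∈ S, p v) - 3 * M) * chy G p S ≤
      ∑ v ∈ S, p v * chy G p (S.filter (fun w => G.Adj v w)) := by
  have h0 : ∀ v ∈ S, chy G p (S.filter (fun w => G.Adj v w)) =
      ∑ x ∈ S, ∑ a ∈ S, ∑ b ∈ S, (1 - nb G v x) * ((1 - nb G v a) * ((1 - nb G v b) *
        (nb G x a * nb G x b * (1 - nb G a b) * (p x * p a * p b)))) := by
    intro v _
    rw [chy, sum_nbr]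
    refine sum_congr rfl fun x _ => ?_
    rw [sum_nbr, mul_sum]
    refine sum_congr rfl fun a _ => ?_
    rw [sum_nbr, mul_sum, mul_sum]
  have h1 : ∑ v ∈ S, p v * chy G p (S.filter (fun w => G.Adj v w)) =
      ∑ x ∈ S, ∑ a ∈ S, ∑ b ∈ S, (∑ v ∈ S, p v * ((1 - nb G v x) * ((1 - nb G v a) *
        (1 - nb G v b)))) * (nb G x a * nb G x b * (1 - nb G a b) * (p x * p a * p b)) := by
    have e1 : ∀ v ∈ S, p v * chy G p (S.filter (fun w => G.Adj v w)) =
        ∑ x ∈ S, ∑ a ∈ S, ∑ b ∈ S, p v * ((1 - nb G v x) * ((1 - nb G v a) *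
        (1 - nb G v b))) * (nb G x a * nb G x b * (1 - nb G a b) * (p x * p a * p b)) := by
      intro v hv
      rw [h0 v hv, mul_sum]
      refine sum_congr rfl fun x _ => ?_
      rw [mul_sum]
      refine sum_congr rfl fun a _ => ?_
      rw [mul_sum]
      refine sum_congr rfl fun b _ => ?_
      ring
    rw [sum_congr rfl e1, sum_comm]
    refine sum_congr rfl fun x _ => ?_
    rw [sum_comm]
    refine sum_congr rfl fun a _ => ?_
    rw [sum_comm]
    refine sum_congr rfl fun b _ => ?_
    rw [sum_mul]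
  rw [h1, chy, mul_sum]
  refine sum_le_sum fun x hx => ?_
  rw [mul_sum]
  refine sum_le_sum fun a ha => ?_
  rw [mul_sum]
  refine sum_le_sum fun b hb => ?_
  refine mul_le_mul_of_nonneg_right ?_ ?_
  · have h3 : ∀ v ∈ S, p v - (nb G x v * p v + nb G a v * p v + nb G b v * p v) ≤
        p v * ((1 - nb G v x) * ((1 - nb G v a) * (1 - nb G v b))) := by
      intro v hv
      rw [nb_symm x v, nb_symm a v, nb_symm b v]
      have hpv := hp v hv
      have k : ∀ α β γ : ℝ, 0 ≤ α → α ≤ 1 → 0 ≤ β → β ≤ 1 → 0 ≤ γ → γ ≤ 1 →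
          1 - (α + β + γ) ≤ (1 - α) * ((1 - β) * (1 - γ)) := by
        intro α β γ a1 a2 b1 b2 c1 c2
        have h1 : 1 - (β + γ) ≤ (1 - β) * (1 - γ) := by nlinarith
        have h2 : (1 - β) * (1 - γ) ≤ 1 := by nlinarith
        have h3 : 0 ≤ (1 - β) * (1 - γ) := mul_nonneg (by linarith) (by linarith)
        nlinarith
      have h4 := mul_le_mul_of_nonneg_left (k _ _ _ (nb_nonneg (G := G) v x) (nb_le_one v x)
        (nb_nonneg (G := G) v a) (nb_le_one v a) (nb_nonneg (G := G) v b) (nb_le_one v b)) hpv.le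
      calc p v - (nb G v x * p v + nb G v a * p v + nb G v b * p v) =
          p v * (1 - (nb G v x + nb G v a + nb G v b)) := by ring
        _ ≤ _ := h4
    have h4 := sum_le_sum h3
    rw [sum_sub_distrib, sum_add_distrib, sum_add_distrib] at h4
    have e1 : ∑ v ∈ S, nb G x v * p v ≤ M := hdel x hx
    have e2 : ∑ v ∈ S, nb G a v * p v ≤ M := hdel a ha
    have e3 : ∑ v ∈ S, nb G b v * p v ≤ M := hdel b hb
    linarith
  · have h1 := nb_nonneg (G := G) x a
    have h2 := nb_nonneg (G := G) x b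
    have h3 := nb_le_one (G := G) a b
    have h4 := hp x hx
    have h5 := hp a ha
    have h6 := hp b hb
    have h7 : 0 ≤ 1 - nb G a b := by linarith
    positivity

/-- **Robust weighted Caro–Wei.** -/
theorem caro_wei {M : ℝ} (hM : 0 < M) (S : Finset V) : (∀ x ∈ S, 0 < p x) →
    (∀ x ∈ S, del G p S x ≤ M) →
    ∃ K ⊆ S, G.IsClique (K : Set V) ∧
      ∑ v ∈ S, p v / del G p S v + 1 / (3 * M ^ 3) * chy G p S ≤ K.card := by
  induction S using Finset.strongInduction with
  | H S ih =>
    intro hp hdel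
    rcases S.eq_empty_or_nonempty with rfl | hne
    · exact ⟨∅, Subset.refl _, by simp, by simp [chy]⟩
    · have hstep : ∑ v ∈ S, p v * (∑ w ∈ S, p w / del G p S w + 1 / (3 * M ^ 3) * chy G p S) ≤
          ∑ v ∈ S, p v * (1 + (∑ w ∈ S.filter (fun w => G.Adj v w),
            p w / del G p (S.filter (fun w => G.Adj v w)) w +
            1 / (3 * M ^ 3) * chy G p (S.filter (fun w => G.Adj v w)))) := by
        have a1 : ∑ v ∈ S, p v * (∑ w ∈ S, (1 - nb G v w) * (p w / del G p S w) +
            1 / M ^ 2 * ∑ w ∈ S, (1 - nb G v w) *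
              (p w * ∑ x ∈ S, nb G w x * nb G v x * p x)) ≤
            ∑ v ∈ S, p v * ∑ w ∈ S.filter (fun w => G.Adj v w),
              p w / del G p (S.filter (fun w => G.Adj v w)) w :=
          sum_le_sum fun v hv => mul_le_mul_of_nonneg_left (cw_step hp hM hdel v) (hp v hv).le
        have a2 : ∑ v ∈ S, p v * (∑ w ∈ S, (1 - nb G v w) * (p w / del G p S w) +
            1 / M ^ 2 * ∑ w ∈ S, (1 - nb G v w) *
              (p w * ∑ x ∈ S, nb G w x * nb G v x * p x)) =
            (∑ v ∈ S, p v) * (∑ w ∈ S, p w / del G p S w) - ∑ v ∈ S, p v +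
              1 / M ^ 2 * chy G p S := by
          rw [← cw_first hp, ← cw_second, mul_sum, ← sum_add_distrib]
          refine sum_congr rfl fun v _ => ?_
          ring
        have a3 := mul_le_mul_of_nonneg_left (cw_third hp hdel)
          (by positivity : (0 : ℝ) ≤ 1 / (3 * M ^ 3))
        rw [← sum_mul]
        have e1 : ∑ v ∈ S, p v * (1 + (∑ w ∈ S.filter (fun w => G.Adj v w),
            p w / del G p (S.filter (fun w => G.Adj v w)) w +
            1 / (3 * M ^ 3) * chy G p (S.filter (fun w => G.Adj v w)))) =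
            ∑ v ∈ S, p v + ∑ v ∈ S, p v * ∑ w ∈ S.filter (fun w => G.Adj v w),
              p w / del G p (S.filter (fun w => G.Adj v w)) w +
            1 / (3 * M ^ 3) * ∑ v ∈ S, p v * chy G p (S.filter (fun w => G.Adj v w)) := by
          rw [mul_sum, ← sum_add_distrib, ← sum_add_distrib]
          refine sum_congr rfl fun v _ => ?_
          ring
        rw [e1]
        have e2 : 1 / (3 * M ^ 3) * (((∑ v ∈ S, p v) - 3 * M) * chy G p S) =
            1 / (3 * M ^ 3) * ((∑ v ∈ S, p v) * chy G p S) - 1 / M ^ 2 * chy G p S := by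
          field_simp
        rw [e2] at a3
        rw [a2] at a1
        have e3 : (∑ v ∈ S, p v) * (∑ w ∈ S, p w / del G p S w +
            1 / (3 * M ^ 3) * chy G p S) = (∑ v ∈ S, p v) * (∑ w ∈ S, p w / del G p S w) +
            1 / (3 * M ^ 3) * ((∑ v ∈ S, p v) * chy G p S) := by ring
        rw [e3]
        linarith
      obtain ⟨v, hv, hle⟩ := exists_le_of_sum_le hne hstep
      have hle' := le_of_mul_le_mul_left hle (hp v hv)
      have hss : S.filter (fun w => G.Adj v w) ⊂ S := by
        refine ⟨filter_subset _ _, fun h => ?_⟩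
        exact G.loopless.irrefl v (mem_filter.1 (h hv)).2
      obtain ⟨K, hK, hKc, hKs⟩ := ih _ hss (fun x hx => hp x (mem_filter.1 hx).1)
        (fun x hx => (del_mono hss.1 hp x).trans (hdel x (mem_filter.1 hx).1))
      have hvK : v ∉ K := fun h => G.loopless.irrefl v (mem_filter.1 (hK h)).2
      refine ⟨insert v K, ?_, ?_, ?_⟩
      · intro x hx
        rw [mem_insert] at hx
        rcases hx with rfl | hx
        · exact hv
        · exact (mem_filter.1 (hK hx)).1
      · rw [coe_insert, isClique_insert]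
        refine ⟨hKc, fun w hw _ => ?_⟩
        exact (mem_filter.1 (hK hw)).2
      · rw [card_insert_of_notMem hvK]
        push_cast
        linarith

end CW

end MP5cc280
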