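import Pool.Agent.H.MP_5cc280_co.OneAbove
import Pool.Agent.H.MP_5cc280_co.CW

/-!
# The power sums of the codegrees of the `u`-cliques

For a `K_{ω+1}`-free graph of maximum degree `Δ` and `s (u-1) ≤ ω - 1`,
`∑ (codegree)^s ≤ ((ω-u)/(ω-1) Δ)^s k_u`.
-/

namespace MP5cc280

open Finset SimpleGraph

section real

/-- tangent line -/
theorem bal_tangent (s : ℕ) {x d : ℝ} (hx : 0 ≤ x) (hd : 0 ≤ d) :
    0 ≤ x ^ (s + 1) - (s + 1) * x * d ^ s + s * d ^ (s + 1) := by
  induction s with
  | zero => simp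
  | succ n ih =>
    have h1 := mul_nonneg hx ih
    have h2 : 0 ≤ (n + 1) * d ^ n * (x - d) ^ 2 := by positivity
    have e : x ^ (n + 1 + 1) - ((n + 1 : ℕ) + 1) * x * d ^ (n + 1) +
        ((n + 1 : ℕ) : ℝ) * d ^ (n + 1 + 1) =
        x * (x ^ (n + 1) - (n + 1) * x * d ^ n + n * d ^ (n + 1)) +
        (n + 1) * d ^ n * (x - d) ^ 2 := by
      push_cast
      ring
    rw [e]
    linarith

theorem bal_face (n : ℕ) {x d : ℝ} (hx : 0 < x) (hx1 : x ≤ 1) (hd : 0 ≤ d)
    (hs : (n + 1) * (1 - x) ≤ 1) :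
    (n + 1) * x ^ n * (1 - x) * (x - d) ≤ (x ^ (n + 1) - d ^ (n + 1)) * (1 - d) := by
  have h1 := bal_tangent n hx.le hd
  have h2 : 0 ≤ (x - d) * (x ^ (n + 1) - d ^ (n + 1)) := by
    rcases le_total x d with h | h
    · have h3 := pow_le_pow_left₀ hx.le h (n + 1)
      exact mul_nonneg_of_nonpos_of_nonpos (by linarith) (by linarith)
    · have h3 := pow_le_pow_left₀ hd h (n + 1)
      exact mul_nonneg (by linarith) (by linarith)
  have h3 : 0 ≤ (1 - (n + 1) * (1 - x)) * ((x - d) * (x ^ (n + 1) - d ^ (n + 1))) :=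
    mul_nonneg (by linarith) h2
  have h4 : 0 ≤ d * (1 - x) * (x ^ (n + 1) - (n + 1) * x * d ^ n + n * d ^ (n + 1)) :=
    mul_nonneg (mul_nonneg hd (by linarith)) h1
  have e : x * ((x ^ (n + 1) - d ^ (n + 1)) * (1 - d) -
      (n + 1) * x ^ n * (1 - x) * (x - d)) =
      (1 - (n + 1) * (1 - x)) * ((x - d) * (x ^ (n + 1) - d ^ (n + 1))) +
      d * (1 - x) * (x ^ (n + 1) - (n + 1) * x * d ^ n + n * d ^ (n + 1)) := by
    ring
  have h5 : 0 ≤ x * ((x ^ (n + 1) - d ^ (n + 1)) * (1 - d) -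
      (n + 1) * x ^ n * (1 - x) * (x - d)) := by
    rw [e]
    linarith
  have h6 := nonneg_of_mul_nonneg_right h5 hx
  linarith

/-- the inequality for one `(u+1)`-clique -/
theorem bal_clique {ι : Type*} [DecidableEq ι] {T : Finset ι} {u : ℕ} (hu : 1 ≤ u)
    (hT : T.card = u + 1) {α : ι → ℝ} {τ : ℝ} (hα : ∀ x ∈ T, 0 < α x)
    (h1 : ∀ x ∈ T, α x + τ < 1)
    (hc : ∀ x ∈ T, ∑ y ∈ T.erase x, α y + τ ≤ 1) :
    ∑ x ∈ T, ((u : ℝ) - 1) / (1 - (α x + τ)) ≤ ∑ x ∈ T, 1 / α x := by
  have hu0 : (0 : ℝ) < u := by exact_mod_cast hu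
  have hu1 : (1 : ℝ) ≤ u := by exact_mod_cast hu
  have key : ∀ x ∈ T, ((u : ℝ) - 1) / (1 - (α x + τ)) ≤
      (∑ l ∈ T.erase x, 1 / α l) / u := by
    intro x hx
    have hce : (T.erase x).card = u := by
      rw [card_erase_of_mem hx, hT]
      rfl
    set A := ∑ l ∈ T.erase x, α l with hA
    set B := ∑ l ∈ T.erase x, 1 / α l with hB
    have hne : (T.erase x).Nonempty := by
      rw [← card_pos, hce]
      omega
    have hA0 : 0 < A := sum_pos (fun l hl => hα l (mem_of_mem_erase hl)) hne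
    have hB0 : 0 < B := sum_pos (fun l hl => one_div_pos.2 (hα l (mem_of_mem_erase hl))) hne
    have hAB : (u : ℝ) ^ 2 ≤ A * B := by
      have h := sum_sq_le_sum_mul_sum_of_sq_le_mul (T.erase x) (r := fun _ => (1 : ℝ))
        (f := fun l => α l) (g := fun l => 1 / α l)
        (fun l hl => (hα l (mem_of_mem_erase hl)).le)
        (fun l hl => (one_div_pos.2 (hα l (mem_of_mem_erase hl))).le)
        (fun l hl => by
          rw [one_pow, mul_one_div_cancel (hα l (mem_of_mem_erase hl)).ne'])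
      rw [sum_const, hce, nsmul_eq_mul, mul_one] at h
      exact h
    have h2 : ∀ j ∈ T.erase x, A - α j ≤ 1 - (α x + τ) := by
      intro j hj
      have hjT := mem_of_mem_erase hj
      have hxj : x ∈ T.erase j := mem_erase.2 ⟨(ne_of_mem_erase hj).symm, hx⟩
      have h3 := hc j hjT
      have h4 : ∑ y ∈ T.erase j, α y = ∑ y ∈ T, α y - α j := by
        rw [← add_sum_erase T α hjT]
        ring
      have h5 : A = ∑ y ∈ T, α y - α x := by
        rw [hA, ← add_sum_erase T α hx]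
        ring
      rw [h4] at h3
      linarith
    have h3 := sum_le_sum h2
    rw [sum_sub_distrib, sum_const, sum_const, hce, nsmul_eq_mul, nsmul_eq_mul, ← hA] at h3
    have h4 : 0 < 1 - (α x + τ) := by linarith [h1 x hx]
    rw [div_le_div_iff₀ h4 hu0]
    have h5 : ((u : ℝ) - 1) * A * B ≤ u * (1 - (α x + τ)) * B :=
      mul_le_mul_of_nonneg_right (by linarith) hB0.le
    have h6 : ((u : ℝ) - 1) * u ^ 2 ≤ (u - 1) * (A * B) :=
      mul_le_mul_of_nonneg_left hAB (by linarith)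
    have h7 : u * (((u : ℝ) - 1) * u) ≤ u * (B * (1 - (α x + τ))) := by nlinarith
    exact le_of_mul_le_mul_left h7 hu0
  refine (sum_le_sum key).trans (le_of_eq ?_)
  rw [← sum_div]
  have e : ∑ x ∈ T, ∑ l ∈ T.erase x, 1 / α l = u * ∑ l ∈ T, 1 / α l := by
    have h : ∀ x ∈ T, ∑ l ∈ T.erase x, 1 / α l = ∑ l ∈ T, 1 / α l - 1 / α x := by
      intro x hx
      rw [← add_sum_erase T (fun l => 1 / α l) hx]
      ring
    rw [sum_congr rfl h, sum_sub_distrib, sum_const, hT, nsmul_eq_mul]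
    push_cast
    ring
  rw [e, mul_div_cancel_left₀ _ hu0.ne']

end real

section graph

variable {V : Type*} [Fintype V] [DecidableEq V] {G : SimpleGraph V} [DecidableRel G.Adj]

theorem sum_erase2 (F : Finset V → V → ℝ) (j : ℕ) :
    ∑ A ∈ G.cliqueFinset (j+1), ∑ a ∈ A, F (A.erase a) a
      = ∑ D ∈ G.cliqueFinset j, ∑ v ∈ cnb G D, F D v := by
  rw [sum_sigma', sum_sigma']
  refine sum_bij' (fun x _ => ⟨x.1.erase x.2, x.2⟩) (fun y _ => ⟨insert y.2 y.1, y.2⟩) ?_ ?_ ?_ ?_ ?_
  · rintro ⟨A, a⟩ hx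
    simp only [mem_sigma] at hx
    have := (mem_pair_iff (G := G)).1 hx
    rw [mem_sigma, mem_cnb]
    exact ⟨this.1, this.2.1⟩
  · rintro ⟨D, v⟩ hy
    rw [mem_sigma, mem_cnb] at hy
    simp only at hy
    simp only [mem_sigma]
    refine ⟨?_, mem_insert_self _ _⟩
    rw [mem_cliqueFinset_iff] at hy ⊢
    exact hy.1.insert hy.2
  · rintro ⟨A, a⟩ hx
    simp only [mem_sigma] at hx
    simp [insert_erase hx.2]
  · rintro ⟨D, v⟩ hy
    rw [mem_sigma, mem_cnb] at hy
    simp only at hy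
    have hv : v ∉ D := fun h => G.loopless.irrefl v (hy.2 v h)
    simp [erase_insert hv]
  · rintro ⟨A, a⟩ hx
    rfl

theorem cnb_insert (D : Finset V) (v : V) :
    cnb G (insert v D) = (cnb G D).filter (fun y => G.Adj v y) := by
  ext y
  rw [mem_filter, mem_cnb, mem_cnb]
  constructor
  · intro h
    exact ⟨fun d hd => h d (mem_insert_of_mem hd), (h v (mem_insert_self _ _)).symm⟩
  · rintro ⟨h1, h2⟩ d hd
    rw [mem_insert] at hd
    rcases hd with rfl | hd
    · exact h2.symm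
    · exact h1 d hd

theorem del_cnb (D : Finset V) (v : V) :
    del G (fun _ => (1 : ℝ)) (cnb G D) v = (cm G D : ℝ) - cm G (insert v D) := by
  rw [← card_cnb, ← card_cnb, cnb_insert, del]
  have h := card_filter_add_card_filter_not (s := cnb G D) (fun y => G.Adj v y)
  have h2 : ∑ y ∈ cnb G D, nb G v y * 1 =
      (((cnb G D).filter (fun y => ¬ G.Adj v y)).card : ℝ) := by
    rw [card_eq_sum_ones, Nat.cast_sum, sum_filter]
    refine sum_congr rfl fun y _ => ?_
    unfold nb
    split_ifs <;> simp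
  rw [h2, ← h]
  push_cast
  ring

/-- the local Caro–Wei inequality in the common neighbourhood of a clique -/
theorem local_cw {u w : ℕ} (hf : G.CliqueFree (w + 1)) {Q : Finset V}
    (hQ : Q ∈ G.cliqueFinset u) :
    ∑ v ∈ cnb G Q, 1 / ((cm G Q : ℝ) - cm G (insert v Q)) ≤ (w : ℝ) - u := by
  have hQ' := mem_cliqueFinset_iff.1 hQ
  have hM : (0 : ℝ) < (cm G Q : ℝ) + 1 := by positivity
  obtain ⟨K, hK, hKc, hKs⟩ := caro_wei (G := G) (p := fun _ => (1 : ℝ)) hM (cnb G Q)
    (fun _ _ => one_pos) (fun x _ => by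
      rw [del_cnb]
      have : (0 : ℝ) ≤ cm G (insert x Q) := Nat.cast_nonneg _
      linarith)
  have h1 : (0 : ℝ) ≤ 1 / (3 * ((cm G Q : ℝ) + 1) ^ 3) *
      chy G (fun _ => (1 : ℝ)) (cnb G Q) :=
    mul_nonneg (by positivity) (chy_nonneg (fun _ _ => one_pos))
  have h2 : ∑ v ∈ cnb G Q, 1 / ((cm G Q : ℝ) - cm G (insert v Q)) ≤ K.card := by
    have h3 : ∑ v ∈ cnb G Q, 1 / del G (fun _ => (1 : ℝ)) (cnb G Q) v =
        ∑ v ∈ cnb G Q, 1 / ((cm G Q : ℝ) - cm G (insert v Q)) :=
      sum_congr rfl fun v _ => by rw [del_cnb]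
    rw [h3] at hKs
    linarith
  have h4 : K.card + u ≤ w := by
    by_contra hlt
    push Not at hlt
    have hd : Disjoint K Q := by
      rw [Finset.disjoint_left]
      intro x hx hxQ
      exact G.loopless.irrefl x (mem_cnb.1 (hK hx) x hxQ)
    have hcl : G.IsClique ((K ∪ Q : Finset V) : Set V) := by
      intro x hx y hy hxy
      rw [mem_coe, mem_union] at hx hy
      rcases hx with hx | hx <;> rcases hy with hy | hy
      · exact hKc hx hy hxy
      · exact mem_cnb.1 (hK hx) y hy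
      · exact (mem_cnb.1 (hK hy) x hx).symm
      · exact hQ'.1 hx hy hxy
    have hcard : (K ∪ Q).card = K.card + u := by
      rw [card_union_of_disjoint hd, hQ'.2]
    exact (hf.mono (by omega : w + 1 ≤ K.card + u)) (K ∪ Q) ⟨hcl, hcard⟩
  have h5 : (K.card : ℝ) + u ≤ w := by exact_mod_cast h4
  linarith

theorem cm_lt {u : ℕ} {T : Finset V} (hT : T ∈ G.cliqueFinset (u + 1)) {a : V}
    (ha : a ∈ T) : cm G T < cm G (T.erase a) := by
  rw [mem_cliqueFinset_iff] at hT
  rw [← card_cnb, ← card_cnb]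
  refine card_lt_card ⟨?_, fun h => ?_⟩
  · intro y hy
    exact mem_cnb.2 (fun d hd => mem_cnb.1 hy d (mem_of_mem_erase hd))
  · have h1 : a ∈ cnb G (T.erase a) := mem_cnb.2 (fun d hd =>
      hT.1 ha (mem_of_mem_erase hd) (ne_of_mem_erase hd).symm)
    exact G.loopless.irrefl a (mem_cnb.1 (h h1) a ha)

/-- the private parts of the common neighbourhoods of the faces of a clique -/
theorem sum_private_le {u : ℕ} {T : Finset V} (hT : T ∈ G.cliqueFinset (u + 1))
    {x : V} (hx : x ∈ T) :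
    ∑ y ∈ T.erase x, ((cm G (T.erase y) : ℝ) - cm G T) + cm G T ≤ G.degree x := by
  have hT' := mem_cliqueFinset_iff.1 hT
  have h1 : ∀ y ∈ T, (cm G (T.erase y) : ℝ) - cm G T =
      ((cnb G (T.erase y) \ cnb G T).card : ℝ) := by
    intro y _
    have hsub : cnb G T ⊆ cnb G (T.erase y) := fun z hz =>
      mem_cnb.2 (fun d hd => mem_cnb.1 hz d (mem_of_mem_erase hd))
    rw [card_sdiff_of_subset hsub, Nat.cast_sub (card_le_card hsub)]
    rfl
  rw [sum_congr rfl (fun y hy => h1 y (mem_of_mem_erase hy))]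
  have h2 : ∑ y ∈ T.erase x, (cnb G (T.erase y) \ cnb G T).card =
      ((T.erase x).biUnion (fun y => cnb G (T.erase y) \ cnb G T)).card := by
    rw [card_biUnion]
    intro a ha b hb hab
    refine Finset.disjoint_left.2 ?_
    intro v hva hvb
    rw [mem_sdiff] at hva hvb
    refine hva.2 (mem_cnb.2 fun d hd => ?_)
    by_cases h : d = a
    · exact mem_cnb.1 hvb.1 d (mem_erase.2 ⟨fun h2 => hab (h.symm.trans h2), hd⟩)
    · exact mem_cnb.1 hva.1 d (mem_erase.2 ⟨h, hd⟩)
  have h3 : Disjoint ((T.erase x).biUnion (fun y => cnb G (T.erase y) \ cnb G T)) (cnb G T) := by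
    rw [Finset.disjoint_left]
    intro v hv hv2
    rw [mem_biUnion] at hv
    obtain ⟨y, _, hy⟩ := hv
    exact (mem_sdiff.1 hy).2 hv2
  have h4 : ((T.erase x).biUnion (fun y => cnb G (T.erase y) \ cnb G T)).card + cm G T ≤
      G.degree x := by
    rw [← card_cnb, ← card_union_of_disjoint h3, ← card_neighborFinset_eq_degree]
    refine card_le_card ?_
    intro v hv
    rw [mem_neighborFinset]
    rw [mem_union, mem_biUnion] at hv
    rcases hv with ⟨y, hy, hvy⟩ | hv
    · exact (mem_cnb.1 (mem_sdiff.1 hvy).1 x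
        (mem_erase.2 ⟨(ne_of_mem_erase hy).symm, hx⟩)).symm
    · exact (mem_cnb.1 hv x hx).symm
  have h5 : ((∑ y ∈ T.erase x, (cnb G (T.erase y) \ cnb G T).card + cm G T : ℕ) : ℝ) ≤
      G.degree x := by
    rw [h2]
    exact_mod_cast h4
  push_cast at h5
  exact h5

/-- **The power sum of the codegrees.** -/
theorem power_sum_le {u w n Δ : ℕ} (hu : 2 ≤ u) (huw : u < w) (hf : G.CliqueFree (w + 1))
    (hΔ : ∀ v, G.degree v ≤ Δ) (hn : (n + 1) * (u - 1) ≤ w - 1) :
    ∑ Q ∈ G.cliqueFinset u, (cm G Q : ℝ) ^ (n + 1) ≤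
      (((w : ℝ) - u) / (w - 1) * Δ) ^ (n + 1) * kk G u := by
  have hw1 : (0 : ℝ) < (w : ℝ) - 1 := by
    have : (1 : ℝ) < w := by exact_mod_cast (by omega : 1 < w)
    linarith
  have hwu : (0 : ℝ) < (w : ℝ) - u := by
    have : (u : ℝ) < w := by exact_mod_cast huw
    linarith
  have hu1 : (1 : ℝ) < u := by exact_mod_cast (by omega : 1 < u)
  set X : ℝ := ((w : ℝ) - u) / (w - 1) with hX
  have hX0 : 0 < X := div_pos hwu hw1
  have hX1 : 1 - X = ((u : ℝ) - 1) / (w - 1) := by
    rw [hX]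
    field_simp
    ring
  have hXle : X ≤ 1 := by
    have : 0 < 1 - X := by
      rw [hX1]
      exact div_pos (by linarith) hw1
    linarith
  have hnX : ((n : ℝ) + 1) * (1 - X) ≤ 1 := by
    rw [hX1, mul_div_assoc', div_le_one hw1]
    have h1 : ((n + 1) * (u - 1) : ℕ) ≤ w - 1 := hn
    have h2 : (((n + 1) * (u - 1) : ℕ) : ℝ) ≤ ((w - 1 : ℕ) : ℝ) := by exact_mod_cast h1
    rw [Nat.cast_mul, Nat.cast_sub (by omega), Nat.cast_sub (by omega)] at h2
    push_cast at h2
    exact h2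
  set A0 : ℝ := (n + 1) * X ^ n * (1 - X) with hA0
  have hA0n : 0 ≤ A0 := mul_nonneg (by positivity) (by linarith)
  rcases (G.cliqueFinset (u + 1)).eq_empty_or_nonempty with hemp | ⟨T0, hT0⟩
  · -- no `(u+1)`-clique: all codegrees vanish
    have h0 : ∀ Q ∈ G.cliqueFinset u, (cm G Q : ℝ) ^ (n + 1) = 0 := by
      intro Q hQ
      have h1 : cm G Q = 0 := by
        rw [← card_cnb, card_eq_zero, eq_empty_iff_forall_notMem]
        intro v hv
        have h2 : insert v Q ∈ G.cliqueFinset (u + 1) := by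
          rw [mem_cliqueFinset_iff] at hQ ⊢
          exact hQ.insert (fun d hd => mem_cnb.1 hv d hd)
        rw [hemp] at h2
        simp at h2
      rw [h1]
      simp
    rw [sum_congr rfl h0]
    simp only [sum_const_zero]
    positivity
  · have hΔ0 : (0 : ℝ) < Δ := by
      have hc : T0.card = u + 1 := (mem_cliqueFinset_iff.1 hT0).2
      obtain ⟨x, hx⟩ : T0.Nonempty := by
        rw [← card_pos, hc]
        omega
      obtain ⟨y, hy⟩ : (T0.erase x).Nonempty := by
        rw [← card_pos, card_erase_of_mem hx, hc]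
        omega
      have h1 := sum_private_le hT0 hx
      have h2 : (0 : ℝ) < ∑ y ∈ T0.erase x, ((cm G (T0.erase y) : ℝ) - cm G T0) := by
        refine sum_pos (fun z hz => ?_) ⟨y, hy⟩
        have := cm_lt hT0 (mem_of_mem_erase hz)
        have : (cm G T0 : ℝ) < cm G (T0.erase z) := by exact_mod_cast this
        linarith
      have h3 : (G.degree x : ℝ) ≤ Δ := by exact_mod_cast hΔ x
      have h4 : (0 : ℝ) ≤ cm G T0 := Nat.cast_nonneg _
      linarith
    -- local inequality at one `(u+1)`-clique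
    have hloc : ∀ T ∈ G.cliqueFinset (u + 1),
        ∑ a ∈ T, (((cm G (T.erase a) : ℝ) / Δ) ^ (n + 1) - X ^ (n + 1)) / cm G (T.erase a) ≤
        ∑ a ∈ T, A0 / (w - 1) * (1 / ((cm G (T.erase a) : ℝ) - cm G T) -
          ((w : ℝ) - u) / cm G (T.erase a)) := by
      intro T hT
      have hTc : T.card = u + 1 := (mem_cliqueFinset_iff.1 hT).2
      have hα : ∀ a ∈ T, 0 < ((cm G (T.erase a) : ℝ) - cm G T) / Δ := by
        intro a ha
        have := cm_lt hT ha
        have : (cm G T : ℝ) < cm G (T.erase a) := by exact_mod_cast this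
        exact div_pos (by linarith) hΔ0
      have hcon : ∀ x ∈ T, ∑ y ∈ T.erase x, ((cm G (T.erase y) : ℝ) - cm G T) / Δ +
          (cm G T : ℝ) / Δ ≤ 1 := by
        intro x hx
        rw [← sum_div, ← add_div, div_le_one hΔ0]
        refine (sum_private_le hT hx).trans ?_
        exact_mod_cast hΔ x
      have hsum : ∀ a ∈ T, ((cm G (T.erase a) : ℝ) - cm G T) / Δ + (cm G T : ℝ) / Δ =
          (cm G (T.erase a) : ℝ) / Δ := by
        intro a _
        ring
      have hlt : ∀ a ∈ T, ((cm G (T.erase a) : ℝ) - cm G T) / Δ + (cm G T : ℝ) / Δ < 1 := by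
        intro a ha
        obtain ⟨x, hx⟩ : (T.erase a).Nonempty := by
          rw [← card_pos, card_erase_of_mem ha, hTc]
          omega
        have haT : a ∈ T.erase x := mem_erase.2 ⟨(ne_of_mem_erase hx).symm, ha⟩
        have hxT := mem_of_mem_erase hx
        obtain ⟨y, hy⟩ : ((T.erase x).erase a).Nonempty := by
          rw [← card_pos, card_erase_of_mem haT, card_erase_of_mem hxT, hTc]
          omega
        have h1 := hcon x hxT
        rw [← add_sum_erase (T.erase x) _ haT] at h1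
        have h2 : 0 < ∑ y ∈ (T.erase x).erase a, ((cm G (T.erase y) : ℝ) - cm G T) / Δ :=
          sum_pos (fun z hz => hα z (mem_of_mem_erase (mem_of_mem_erase hz))) ⟨y, hy⟩
        linarith
      have hcl := bal_clique (by omega) hTc hα hlt hcon
      have hface : ∀ a ∈ T,
          (((cm G (T.erase a) : ℝ) / Δ) ^ (n + 1) - X ^ (n + 1)) / cm G (T.erase a) +
          A0 / (w - 1) * (1 / (((cm G (T.erase a) : ℝ) - cm G T) / Δ) -
            ((u : ℝ) - 1) / (1 - (((cm G (T.erase a) : ℝ) - cm G T) / Δ +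
              (cm G T : ℝ) / Δ))) / Δ ≤
          A0 / (w - 1) * (1 / ((cm G (T.erase a) : ℝ) - cm G T) -
          ((w : ℝ) - u) / cm G (T.erase a)) := by
        intro a ha
        have hdlt := hlt a ha
        have hαa := hα a ha
        rw [hsum a ha] at hdlt ⊢
        have hcmp : (0 : ℝ) < cm G (T.erase a) := by
          exact_mod_cast cm_erase_pos hT ha
        set d : ℝ := (cm G (T.erase a) : ℝ) / Δ with hd
        have hdpos : 0 < d := div_pos hcmp hΔ0
        have hcd : (cm G (T.erase a) : ℝ) = d * Δ := by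
          rw [hd, div_mul_cancel₀ _ hΔ0.ne']
        have hface := bal_face n hX0 hXle hdpos.le hnX
        rw [← hA0] at hface
        have hgap : 0 < (cm G (T.erase a) : ℝ) - cm G T := by
          by_contra hneg
          have := div_nonpos_of_nonpos_of_nonneg (not_lt.1 hneg) hΔ0.le
          linarith
        set g : ℝ := (cm G (T.erase a) : ℝ) - cm G T with hg
        rw [hcd]
        have e1 : A0 / (w - 1) * (1 / g - ((w : ℝ) - u) / (d * Δ)) -
            (d ^ (n + 1) - X ^ (n + 1)) / (d * Δ) -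
            A0 / (w - 1) * (1 / (g / Δ) - ((u : ℝ) - 1) / (1 - d)) / Δ =
            ((X ^ (n + 1) - d ^ (n + 1)) * (1 - d) - A0 * (X * (1 - d) - (1 - X) * d)) /
              (d * Δ * (1 - d)) := by
          have hd1 : 1 - d ≠ 0 := by linarith
          rw [hX1]
          rw [hX]
          field_simp
          ring
        have e2 : X * (1 - d) - (1 - X) * d = X - d := by ring
        rw [e2] at e1
        have h3 : 0 ≤ ((X ^ (n + 1) - d ^ (n + 1)) * (1 - d) - A0 * (X - d)) /
              (d * Δ * (1 - d)) := by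
          apply div_nonneg
          · linarith
          · have : 0 < 1 - d := by linarith
            positivity
        rw [← e1] at h3
        linarith
      have h4 := sum_le_sum hface
      rw [sum_add_distrib] at h4
      have h5 : 0 ≤ ∑ a ∈ T, A0 / (w - 1) * (1 / (((cm G (T.erase a) : ℝ) - cm G T) / Δ) -
            ((u : ℝ) - 1) / (1 - (((cm G (T.erase a) : ℝ) - cm G T) / Δ +
              (cm G T : ℝ) / Δ))) / Δ := by
        rw [← sum_div, ← mul_sum, sum_sub_distrib]
        exact div_nonneg (mul_nonneg (div_nonneg hA0n hw1.le) (by linarith)) hΔ0.le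
      linarith
    -- sum over the cliques
    have hS := sum_le_sum hloc
    have e1 := sum_eraseR (G := G) (fun Q =>
      (((cm G Q : ℝ) / Δ) ^ (n + 1) - X ^ (n + 1)) / cm G Q) u
    rw [e1] at hS
    have e2 : ∑ T ∈ G.cliqueFinset (u + 1), ∑ a ∈ T, A0 / (w - 1) *
        (1 / ((cm G (T.erase a) : ℝ) - cm G T) - ((w : ℝ) - u) / cm G (T.erase a)) =
        A0 / (w - 1) * (∑ Q ∈ G.cliqueFinset u, ∑ v ∈ cnb G Q,
          1 / ((cm G Q : ℝ) - cm G (insert v Q)) -
          ∑ Q ∈ G.cliqueFinset u, (cm G Q : ℝ) * (((w : ℝ) - u) / cm G Q)) := by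
      rw [← sum_erase2 (G := G) (fun Q v => 1 / ((cm G Q : ℝ) - cm G (insert v Q))) u,
        ← sum_eraseR (G := G) (fun Q => ((w : ℝ) - u) / cm G Q) u, ← sum_sub_distrib, mul_sum]
      refine sum_congr rfl fun T _ => ?_
      rw [← sum_sub_distrib, mul_sum]
      refine sum_congr rfl fun a ha => ?_
      rw [insert_erase ha]
    rw [e2] at hS
    have h6 : ∑ Q ∈ G.cliqueFinset u, ∑ v ∈ cnb G Q,
          1 / ((cm G Q : ℝ) - cm G (insert v Q)) ≤
          ∑ Q ∈ G.cliqueFinset u, (cm G Q : ℝ) * (((w : ℝ) - u) / cm G Q) := by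
      refine sum_le_sum fun Q hQ => ?_
      rcases Nat.eq_zero_or_pos (cm G Q) with h0 | h0
      · rw [← card_cnb, card_eq_zero] at h0
        rw [h0, sum_empty]
        have h01 : (cm G Q : ℝ) = 0 := by
          rw [← card_cnb, h0]
          simp
        rw [h01]
        simp
      · have h01 : (cm G Q : ℝ) ≠ 0 := by exact_mod_cast h0.ne'
        rw [mul_div_cancel₀ _ h01]
        exact local_cw hf hQ
    have h7 : ∑ Q ∈ G.cliqueFinset u, (cm G Q : ℝ) *
        ((((cm G Q : ℝ) / Δ) ^ (n + 1) - X ^ (n + 1)) / cm G Q) ≤ 0 := by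
      refine hS.trans ?_
      exact mul_nonpos_of_nonneg_of_nonpos (div_nonneg hA0n hw1.le) (by linarith)
    have h8 : ∑ Q ∈ G.cliqueFinset u, (((cm G Q : ℝ) / Δ) ^ (n + 1) - X ^ (n + 1)) ≤
        ∑ Q ∈ G.cliqueFinset u, (cm G Q : ℝ) *
        ((((cm G Q : ℝ) / Δ) ^ (n + 1) - X ^ (n + 1)) / cm G Q) := by
      refine sum_le_sum fun Q _ => ?_
      rcases Nat.eq_zero_or_pos (cm G Q) with h0 | h0
      · rw [h0]
        simp only [Nat.cast_zero, zero_div, zero_mul, ne_eq, Nat.add_eq_zero_iff, one_ne_zero,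
          and_false, not_false_eq_true, zero_pow, zero_sub]
        have : 0 < X ^ (n + 1) := by positivity
        linarith
      · have h01 : (cm G Q : ℝ) ≠ 0 := by exact_mod_cast h0.ne'
        rw [mul_div_cancel₀ _ h01]
    have h9 := h8.trans h7
    rw [sum_sub_distrib, sum_const, nsmul_eq_mul] at h9
    have h10 : ∑ Q ∈ G.cliqueFinset u, ((cm G Q : ℝ) / Δ) ^ (n + 1) =
        (∑ Q ∈ G.cliqueFinset u, (cm G Q : ℝ) ^ (n + 1)) / (Δ : ℝ) ^ (n + 1) := by
      rw [sum_div]
      refine sum_congr rfl fun Q _ => ?_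
      rw [div_pow]
    rw [h10] at h9
    have h11 : (∑ Q ∈ G.cliqueFinset u, (cm G Q : ℝ) ^ (n + 1)) / (Δ : ℝ) ^ (n + 1) ≤
        kk G u * X ^ (n + 1) := by
      have : ((G.cliqueFinset u).card : ℝ) = kk G u := rfl
      rw [this] at h9
      linarith
    rw [div_le_iff₀ (by positivity)] at h11
    refine h11.trans (le_of_eq ?_)
    rw [mul_pow]
    ring

end graph

end MP5cc280
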