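import Pool.Agent.H.MP_5cc280_co.MoonMoser

/-!
Copies, automorphisms, disjoint unions; the extremal function `exu` of the problem.
-/

namespace MP5cc280

open Finset SimpleGraph

section Copies

variable {V W V' : Type*} {G : SimpleGraph V} {H : SimpleGraph W} {G' : SimpleGraph V'}

instance finite_copy [Finite V] [Finite W] : Finite (Copy H G) :=
  Finite.of_injective (fun f : Copy H G => (fun a => f a)) (fun _ _ h => Copy.ext (congrFun h))

instance finite_iso [Finite V] [Finite W] : Finite (H ≃g G) :=
  Finite.of_injective (fun f : H ≃g G => (fun a => f a)) (fun _ _ h => RelIso.ext (congrFun h))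

/-- the copy given by an isomorphism onto a subgraph -/
def ofSub (x : Σ S : G.Subgraph, H ≃g S.coe) : Copy H G :=
  ⟨x.1.hom.comp x.2.toEmbedding.toHom, by
    intro a b hab
    have h1 : x.1.hom (x.2 a) = x.1.hom (x.2 b) := hab
    exact x.2.injective (Subtype.ext h1)⟩

lemma ofSub_apply (x : Σ S : G.Subgraph, H ≃g S.coe) (a : W) : ofSub x a = (x.2 a : V) := rfl

lemma ofSub_bij : Function.Bijective (ofSub (G := G) (H := H)) := by
  constructor
  · rintro ⟨S, e⟩ ⟨S', e'⟩ h
    have happ : ∀ a, (e a : V) = (e' a : V) := fun a => by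
      have := congrArg (fun f : Copy H G => f a) h
      exact this
    have hS : S = S' := by
      apply Subgraph.ext
      · ext x
        constructor
        · intro hx
          have h1 : (e (e.symm ⟨x, hx⟩) : V) = x := by simp
          rw [← h1, happ]; exact Subtype.property _
        · intro hx
          have h1 : (e' (e'.symm ⟨x, hx⟩) : V) = x := by simp
          rw [← h1, ← happ]; exact Subtype.property _
      · have key : ∀ (S : G.Subgraph) (e : H ≃g S.coe) (x y : V), S.Adj x y ↔
            ∃ a b, H.Adj a b ∧ (e a : V) = x ∧ (e b : V) = y := by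
          intro S e x y
          constructor
          · intro hxy
            refine ⟨e.symm ⟨x, S.edge_vert hxy⟩, e.symm ⟨y, S.edge_vert hxy.symm⟩, ?_, ?_, ?_⟩
            · rw [← e.map_adj_iff]
              simpa using hxy
            · simp
            · simp
          · rintro ⟨a, b, hab, rfl, rfl⟩
            exact e.map_adj_iff.2 hab
        ext x y
        rw [key S e, key S' e']
        simp only [happ]
    subst hS
    have : e = e' := RelIso.ext (fun a => Subtype.ext (happ a))
    rw [this]
  · intro f
    refine ⟨⟨f.toSubgraph, f.isoToSubgraph⟩, ?_⟩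
    apply Copy.ext
    intro a
    rfl

/-- labelled copies = copies times automorphisms -/
lemma card_copy [Fintype V] [Finite W] :
    Nat.card (Copy H G) = G.copyCount H * Nat.card (H ≃g H) := by
  classical
  rw [← Nat.card_congr (Equiv.ofBijective _ (ofSub_bij (G := G) (H := H))), Nat.card_sigma,
    copyCount]
  rw [← Finset.sum_filter_add_sum_filter_not univ (fun S : G.Subgraph => Nonempty (H ≃g S.coe))]
  have h2 : ∑ S ∈ univ.filter (fun S : G.Subgraph => ¬ Nonempty (H ≃g S.coe)),
      Nat.card (H ≃g S.coe) = 0 := by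
    apply sum_eq_zero
    intro S hS
    rw [mem_filter] at hS
    have : IsEmpty (H ≃g S.coe) := not_nonempty_iff.1 hS.2
    exact Nat.card_of_isEmpty
  have h1 : ∀ S ∈ univ.filter (fun S : G.Subgraph => Nonempty (H ≃g S.coe)),
      Nat.card (H ≃g S.coe) = Nat.card (H ≃g H) := by
    intro S hS
    rw [mem_filter] at hS
    obtain ⟨e⟩ := hS.2
    exact Nat.card_congr
      ⟨fun f => f.trans e.symm, fun f => f.trans e, fun f => by ext a; simp,
        fun f => by ext a; simp⟩
  rw [h2, add_zero, sum_congr rfl h1, sum_const, smul_eq_mul]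

lemma aut_pos [Finite W] : 0 < Nat.card (H ≃g H) :=
  Nat.card_pos_iff.2 ⟨⟨Iso.refl⟩, inferInstance⟩

lemma copyCount_congr [Fintype V] [Fintype V'] [Finite W] (e : G ≃g G') :
    G.copyCount H = G'.copyCount H := by
  have h1 := card_copy (G := G) (H := H)
  have h2 := card_copy (G := G') (H := H)
  have h3 : Nat.card (Copy H G) = Nat.card (Copy H G') :=
    Nat.card_congr ⟨fun f => e.toCopy.comp f, fun f => e.symm.toCopy.comp f,
      fun f => by ext a; simp, fun f => by ext a; simp⟩
  rw [h1, h2] at h3
  exact Nat.eq_of_mul_eq_mul_right aut_pos h3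

lemma copyCount_congr_left [Fintype V] [Finite W] {W' : Type*} [Finite W'] {H' : SimpleGraph W'}
    (e : H ≃g H') : G.copyCount H = G.copyCount H' := by
  have h1 := card_copy (G := G) (H := H)
  have h2 := card_copy (G := G) (H := H')
  have h3 : Nat.card (Copy H G) = Nat.card (Copy H' G) :=
    Nat.card_congr ⟨fun f => f.comp e.symm.toCopy, fun f => f.comp e.toCopy,
      fun f => by ext a; simp, fun f => by ext a; simp⟩
  have h4 : Nat.card (H ≃g H) = Nat.card (H' ≃g H') :=
    Nat.card_congr ⟨fun f => (e.symm.trans f).trans e, fun f => (e.trans f).trans e.symm,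
      fun f => by ext a; simp, fun f => by ext a; simp⟩
  rw [h1, h2, h4] at h3
  exact Nat.eq_of_mul_eq_mul_right aut_pos h3

lemma iso_induce {V : Type*} {G : SimpleGraph V} {s : Finset V} {t : ℕ}
    (hs : G.IsClique s ∧ s.card = t) :
    Nonempty ((⊤ : SimpleGraph (Fin t)) ≃g ((⊤ : G.Subgraph).induce (s : Set V)).coe) := by
  classical
  have e0 : Fin t ≃ s := (Finset.equivFinOfCardEq hs.2).symm
  have e1 : Fin t ≃ ((⊤ : G.Subgraph).induce (s : Set V)).verts :=
    e0.trans (Equiv.subtypeEquivRight (fun x => by simp))
  have hmem : ∀ x : ((⊤ : G.Subgraph).induce (s : Set V)).verts, (x : V) ∈ (s : Set V) :=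
    fun x => x.2
  refine ⟨⟨e1, ?_⟩⟩
  intro a b
  rw [top_adj, Subgraph.coe_adj, Subgraph.induce_adj]
  constructor
  · rintro ⟨_, _, h⟩ hab
    subst hab
    exact h.ne rfl
  · intro hab
    have hne : (e1 a : V) ≠ (e1 b : V) := fun h => hab (e1.injective (Subtype.ext h))
    exact ⟨hmem _, hmem _, Subgraph.top_adj.2 (hs.1 (hmem _) (hmem _) hne)⟩

lemma clique_adj {S : G.Subgraph} {t : ℕ} (e : (⊤ : SimpleGraph (Fin t)) ≃g S.coe) (x y : V) :
    S.Adj x y ↔ x ∈ S.verts ∧ y ∈ S.verts ∧ x ≠ y := by
  constructor
  · intro hxy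
    exact ⟨S.edge_vert hxy, S.edge_vert hxy.symm, hxy.ne⟩
  · rintro ⟨hx, hy, hne⟩
    have h1 : (⊤ : SimpleGraph (Fin t)).Adj (e.symm ⟨x, hx⟩) (e.symm ⟨y, hy⟩) := by
      rw [top_adj]
      intro h
      exact hne (congrArg Subtype.val (e.symm.injective h))
    rw [← e.map_adj_iff] at h1
    simpa using h1

/-- copies of a clique -/
lemma copyCount_top [Fintype V] [DecidableEq V] [DecidableRel G.Adj] (t : ℕ) :
    G.copyCount (⊤ : SimpleGraph (Fin t)) = kk G t := by
  classical
  have key : Nat.card {S : G.Subgraph // Nonempty ((⊤ : SimpleGraph (Fin t)) ≃g S.coe)}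
      = Nat.card {s : Finset V // G.IsNClique t s} := by
    refine Nat.card_eq_of_bijective
      (fun S => ⟨univ.filter (fun x => x ∈ S.1.verts), ?_⟩) ⟨?_, ?_⟩
    · obtain ⟨S, ⟨e⟩⟩ := S
      rw [isNClique_iff]
      constructor
      · intro x hx y hy hxy
        simp only [coe_filter, mem_univ, true_and, Set.mem_ofPred_eq] at hx hy
        exact S.adj_sub ((clique_adj e x y).2 ⟨hx, hy, hxy⟩)
      · have h1 := Fintype.card_congr e.toEquiv
        rw [Fintype.card_fin, Fintype.card_subtype] at h1
        exact h1.symm
    · rintro ⟨S, ⟨e⟩⟩ ⟨S', ⟨e'⟩⟩ h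
      have hv : S.verts = S'.verts := by
        ext x
        have := congrArg (fun s : {s : Finset V // G.IsNClique t s} => x ∈ s.1) h
        simpa using this
      apply Subtype.ext
      apply Subgraph.ext hv
      ext x y
      rw [clique_adj e, clique_adj e', hv]
    · rintro ⟨s, hs⟩
      rw [isNClique_iff] at hs
      refine ⟨⟨(⊤ : G.Subgraph).induce s, iso_induce hs⟩, ?_⟩
      apply Subtype.ext
      ext x
      simp
  rw [copyCount, kk]
  have e1 : Nat.card {S : G.Subgraph // Nonempty ((⊤ : SimpleGraph (Fin t)) ≃g S.coe)}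
      = (univ.filter (fun S : G.Subgraph => Nonempty ((⊤ : SimpleGraph (Fin t)) ≃g S.coe))).card := by
    rw [Nat.card_eq_fintype_card, Fintype.card_subtype]
  have e2 : Nat.card {s : Finset V // G.IsNClique t s} = (G.cliqueFinset t).card := by
    rw [Nat.card_eq_fintype_card, Fintype.card_subtype]
    rfl
  rw [← e2, ← key, e1]
  apply congrArg Finset.card
  ext S
  simp only [mem_filter, mem_univ, true_and]

end Copies

section Sums

variable {V V' W : Type*} {G : SimpleGraph V} {G' : SimpleGraph V'} {H : SimpleGraph W}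

/-- copies in a disjoint union -/
def sumCopy (x : Copy H G ⊕ Copy H G') : Copy H (G ⊕g G') :=
  match x with
  | .inl f => (Embedding.sumInl : G ↪g G ⊕g G').toCopy.comp f
  | .inr f => (Embedding.sumInr : G' ↪g G ⊕g G').toCopy.comp f

lemma sumCopy_inj [Nonempty W] : Function.Injective (sumCopy (G := G) (G' := G') (H := H)) := by
  rintro (f | f) (g | g) h
  · congr 1
    ext a
    have := congrArg (fun k : Copy H (G ⊕g G') => k a) h
    exact Sum.inl_injective this
  · obtain ⟨a⟩ := ‹Nonempty W›
    have := congrArg (fun k : Copy H (G ⊕g G') => k a) h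
    exact absurd this (by simp [sumCopy, Embedding.sumInl, Embedding.sumInr])
  · obtain ⟨a⟩ := ‹Nonempty W›
    have := congrArg (fun k : Copy H (G ⊕g G') => k a) h
    exact absurd this (by simp [sumCopy, Embedding.sumInl, Embedding.sumInr])
  · congr 1
    ext a
    have := congrArg (fun k : Copy H (G ⊕g G') => k a) h
    exact Sum.inr_injective this

lemma copyCount_sum_le [Fintype V] [Fintype V'] [Finite W] [Nonempty W] :
    G.copyCount H + G'.copyCount H ≤ (G ⊕g G').copyCount H := by
  have h1 := card_copy (G := G) (H := H)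
  have h2 := card_copy (G := G') (H := H)
  have h3 := card_copy (G := G ⊕g G') (H := H)
  have h4 : Nat.card (Copy H G ⊕ Copy H G') ≤ Nat.card (Copy H (G ⊕g G')) :=
    Nat.card_le_card_of_injective _ sumCopy_inj
  rw [Nat.card_sum, h1, h2, h3, ← add_mul] at h4
  exact Nat.le_of_mul_le_mul_right h4 aut_pos

/-- if `H` is connected, copies in a disjoint union live in one of the two parts -/
lemma sumCopy_surj (hH : H.Connected) :
    Function.Surjective (sumCopy (G := G) (G' := G') (H := H)) := by
  intro f
  have hside : ∀ a b : W, (f a).isLeft = (f b).isLeft := by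
    intro a b
    obtain ⟨p⟩ := hH.preconnected a b
    induction p with
    | nil => rfl
    | cons h p ih =>
      rw [← ih]
      have := f.toHom.map_adj h
      rename_i x y z
      revert this
      change (G ⊕g G').Adj (f x) (f y) → _
      rcases f x with v | v <;> rcases f y with w | w <;> simp
  obtain ⟨a0⟩ := hH.nonempty
  rcases hfa : f a0 with v0 | v0
  · have hall : ∀ a, ∃ v, f a = Sum.inl v := by
      intro a
      have := hside a a0
      rw [hfa] at this
      rcases h : f a with v | v
      · exact ⟨v, rfl⟩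
      · rw [h] at this; simp at this
    choose g hg using hall
    refine ⟨.inl ⟨⟨g, ?_⟩, ?_⟩, ?_⟩
    · intro a b hab
      have := f.toHom.map_adj hab
      change (G ⊕g G').Adj (f a) (f b) at this
      rw [hg a, hg b] at this
      simpa using this
    · intro a b hab
      apply f.injective
      change f a = f b
      rw [hg a, hg b]
      exact congrArg Sum.inl hab
    · apply Copy.ext
      intro a
      exact (hg a).symm
  · have hall : ∀ a, ∃ v, f a = Sum.inr v := by
      intro a
      have := hside a a0
      rw [hfa] at this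
      rcases h : f a with v | v
      · rw [h] at this; simp at this
      · exact ⟨v, rfl⟩
    choose g hg using hall
    refine ⟨.inr ⟨⟨g, ?_⟩, ?_⟩, ?_⟩
    · intro a b hab
      have := f.toHom.map_adj hab
      change (G ⊕g G').Adj (f a) (f b) at this
      rw [hg a, hg b] at this
      simpa using this
    · intro a b hab
      apply f.injective
      change f a = f b
      rw [hg a, hg b]
      exact congrArg Sum.inr hab
    · apply Copy.ext
      intro a
      exact (hg a).symm

lemma copyCount_sum [Fintype V] [Fintype V'] [Finite W] (hH : H.Connected) :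
    (G ⊕g G').copyCount H = G.copyCount H + G'.copyCount H := by
  have h1 := card_copy (G := G) (H := H)
  have h2 := card_copy (G := G') (H := H)
  have h3 := card_copy (G := G ⊕g G') (H := H)
  have : Nonempty W := hH.nonempty
  have h4 : Nat.card (Copy H G ⊕ Copy H G') = Nat.card (Copy H (G ⊕g G')) :=
    Nat.card_eq_of_bijective _ ⟨sumCopy_inj, sumCopy_surj hH⟩
  rw [Nat.card_sum, h1, h2, h3, ← add_mul] at h4
  exact (Nat.eq_of_mul_eq_mul_right aut_pos h4).symm

lemma free_sum (hH : H.Connected) (h1 : H.Free G) (h2 : H.Free G') : H.Free (G ⊕g G') := by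
  rintro ⟨f⟩
  obtain ⟨x, -⟩ := sumCopy_surj (G := G) (G' := G') hH f
  rcases x with g | g
  · exact h1 ⟨g⟩
  · exact h2 ⟨g⟩

end Sums

section Star

variable {V : Type*} [Fintype V] {G : SimpleGraph V} [DecidableRel G.Adj]

lemma star_free_iff (Δ : ℕ) :
    (starGraph (0 : Fin (Δ+2))).Free G ↔ ∀ v, G.degree v ≤ Δ := by
  classical
  constructor
  · intro h v
    by_contra hlt
    push Not at hlt
    apply h
    have hcard : Δ + 1 ≤ Fintype.card (G.neighborSet v) := by
      rw [card_neighborSet_eq_degree]; exact hlt
    have hle : Fintype.card (Fin (Δ+1)) ≤ Fintype.card (G.neighborSet v) := by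
      simpa using hcard
    obtain ⟨g⟩ : Nonempty (Fin (Δ+1) ↪ G.neighborSet v) := Function.Embedding.nonempty_of_card_le hle
    let f : Fin (Δ+2) → V := Fin.cons v (fun i => (g i : V))
    have f0 : f 0 = v := rfl
    have fs : ∀ i : Fin (Δ+1), f i.succ = g i := fun i => by simp [f]
    have hadj : ∀ i : Fin (Δ+1), G.Adj v (g i) := fun i => (g i).2
    refine ⟨⟨⟨f, ?_⟩, ?_⟩⟩
    · intro a b hab
      rw [starGraph_adj] at hab
      obtain ⟨hne, h0⟩ := hab
      rcases h0 with rfl | rfl
      · rcases Fin.eq_zero_or_eq_succ b with rfl | ⟨j, rfl⟩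
        · exact absurd rfl hne
        · rw [f0, fs]; exact hadj j
      · rcases Fin.eq_zero_or_eq_succ a with rfl | ⟨j, rfl⟩
        · exact absurd rfl hne
        · rw [f0, fs]; exact (hadj j).symm
    · intro a b hab
      change f a = f b at hab
      rcases Fin.eq_zero_or_eq_succ a with rfl | ⟨i, rfl⟩ <;>
        rcases Fin.eq_zero_or_eq_succ b with rfl | ⟨j, rfl⟩
      · rfl
      · rw [f0, fs] at hab
        have := hadj j
        rw [← hab] at this
        exact absurd this (G.loopless.irrefl v)
      · rw [f0, fs] at hab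
        have := hadj i
        rw [hab] at this
        exact absurd this (G.loopless.irrefl v)
      · rw [fs, fs] at hab
        have : i = j := g.injective (Subtype.ext hab)
        rw [this]
  · rintro h ⟨f⟩
    have hv := h (f 0)
    have h1 : (univ.image (fun i : Fin (Δ+1) => f i.succ)) ⊆ G.neighborFinset (f 0) := by
      intro x hx
      rw [mem_image] at hx
      obtain ⟨i, -, rfl⟩ := hx
      rw [mem_neighborFinset]
      apply f.toHom.map_adj
      rw [starGraph_adj]
      exact ⟨(Fin.succ_ne_zero i).symm, Or.inl rfl⟩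
    have h2 : (univ.image (fun i : Fin (Δ+1) => f i.succ)).card = Δ+1 := by
      rw [card_image_of_injective]
      · simp
      · intro i j hij
        exact Fin.succ_injective _ (f.injective hij)
    have h3 := card_le_card h1
    rw [h2, card_neighborFinset_eq_degree] at h3
    omega

end Star

end MP5cc280
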