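import Pool.Agent.H.MP_5cc280_co.Dev

/-!
# Every graph is eventually Turán-good, in densities

For every graph `H` and all large `n`, every `K_{n+1}`-free graph has at most the homomorphism
density of `H` of the complete graph `K_n`.
-/

namespace MP5cc280

open Finset SimpleGraph

section misc

theorem prod_sub_ge {α : Type*} [DecidableEq α] (s : Finset α) (a c : α → ℝ)
    (h : ∀ i ∈ s, 0 ≤ c i ∧ c i ≤ a i) :
    ∏ i ∈ s, a i - ∑ i ∈ s, c i * ∏ k ∈ s.erase i, a k ≤ ∏ i ∈ s, (a i - c i) ∧
    ∏ i ∈ s, (a i - c i) ≤ ∏ i ∈ s, a i ∧ 0 ≤ ∏ i ∈ s, (a i - c i) := by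
  induction s using Finset.induction_on with
  | empty => simp
  | insert j s hj ih =>
    obtain ⟨h1, h2, h3⟩ := ih (fun i hi => h i (mem_insert_of_mem hi))
    obtain ⟨h4, h5⟩ := h j (mem_insert_self _ _)
    rw [prod_insert hj, prod_insert hj, sum_insert hj, erase_insert hj]
    have e : ∑ i ∈ s, c i * ∏ k ∈ (insert j s).erase i, a k =
        a j * ∑ i ∈ s, c i * ∏ k ∈ s.erase i, a k := by
      rw [mul_sum]
      refine sum_congr rfl fun i hi => ?_
      have hne : i ≠ j := fun h => hj (h ▸ hi)
      rw [erase_insert_of_ne hne.symm, prod_insert (fun h => hj (mem_of_mem_erase h))]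
      ring
    rw [e]
    have h6 : 0 ≤ a j := h4.trans h5
    refine ⟨?_, ?_, ?_⟩
    · nlinarith [mul_le_mul_of_nonneg_left h1 h6, mul_le_mul_of_nonneg_left h2 h4]
    · have a1 : 0 ≤ ∏ i ∈ s, a i := h3.trans h2
      nlinarith [mul_nonneg h4 h3, mul_le_mul_of_nonneg_left h2 h6]
    · exact mul_nonneg (by linarith) h3

theorem one_sub_pow_le (s : ℕ) {e : ℝ} (h0 : 0 ≤ e) (h1 : e ≤ 1) :
    (1 - e) ^ s ≤ 1 - s * e + s ^ 2 * e ^ 2 := by
  induction s with
  | zero => simp
  | succ s ih =>
    rw [pow_succ]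
    have h2 : 0 ≤ 1 - e := by linarith
    have h3 := mul_le_mul_of_nonneg_right ih h2
    refine h3.trans ?_
    push_cast
    have h4 : 0 ≤ (s : ℝ) ^ 2 * e ^ 2 * e := by positivity
    have h5 : 0 ≤ (s : ℝ) * e ^ 2 := by positivity
    have h6 : 0 ≤ e ^ 2 := by positivity
    nlinarith

end misc

section max

variable {ι V : Type*} [Fintype ι] [Fintype V] [DecidableEq ι] [DecidableEq V]
  {G : SimpleGraph V} [DecidableRel G.Adj] {p : V → ℝ}

theorem Ex_fix (hp1 : ∑ v, p v = 1) {v : V} (hv : 0 < p v) (i : ι) (A : (ι → V) → ℝ) :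
    ∑ x : ι → V, (if x i = v then 1 else 0) * (∏ k ∈ univ.erase i, p (x k)) * A x =
      Ex p (fun x => A (Function.update x i v)) := by
  have h1 := Ex_update (p := p) hp1 i (fun x => (if x i = v then 1 else 0) / p v * A x)
  have h2 : (fun x : ι → V => ∑ w, p w * ((if Function.update x i w i = v then 1 else 0) / p v *
      A (Function.update x i w))) = fun x => A (Function.update x i v) := by
    funext x
    rw [sum_eq_single v]
    · rw [Function.update_self, if_pos rfl]
      field_simp
    · intro w _ hw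
      rw [Function.update_self, if_neg hw]
      ring
    · intro h
      exact absurd (mem_univ v) h
  rw [h2] at h1
  rw [h1, Ex]
  refine sum_congr rfl fun x _ => ?_
  by_cases hx : x i = v
  · rw [if_pos hx, ← mul_prod_erase univ (fun k => p (x k)) (mem_univ i)]
    simp only [hx]
    field_simp
  · rw [if_neg hx]
    ring

/-- the derivative of the density at a maximum -/
theorem max_deriv {A : (ι → V) → ℝ} (hA : ∀ x, 0 ≤ A x) (hp : ∀ v, 0 ≤ p v)
    (hp1 : ∑ v, p v = 1)
    (hmax : ∀ q : V → ℝ, (∀ v, 0 ≤ q v) → ∑ v, q v = 1 → Ex q A ≤ Ex p A) {v : V}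
    (hv : 0 < p v) :
    Fintype.card ι * Ex p A ≤ ∑ i : ι, Ex p (fun x => A (Function.update x i v)) := by
  set s := Fintype.card ι with hs
  set t := Ex p A with ht
  set Dv := ∑ i : ι, Ex p (fun x => A (Function.update x i v)) with hDv
  have ht0 : 0 ≤ t := Ex_nonneg hp (fun x _ => hA x)
  have hpv1 : p v ≤ 1 := by
    rw [← hp1]
    exact single_le_sum (fun w _ => hp w) (mem_univ v)
  have key : ∀ e : ℝ, 0 < e → e < p v → t - e * Dv ≤ (1 - e) ^ s * t := by
    intro e he hev
    have h1e : 0 < 1 - e := by linarith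
    set c : V → ℝ := fun w => if w = v then e else 0 with hc
    have hc0 : ∀ w, 0 ≤ c w ∧ c w ≤ p w := by
      intro w
      simp only [hc]
      split_ifs with h
      · rw [h]
        exact ⟨he.le, hev.le⟩
      · exact ⟨le_rfl, hp w⟩
    have hcs : ∑ w, c w = e := by
      simp only [hc]
      rw [sum_ite_eq' univ v]
      simp
    have hq := hmax (fun w => (p w - c w) / (1 - e))
      (fun w => div_nonneg (by linarith [(hc0 w).2]) h1e.le) (by
        rw [← sum_div, sum_sub_distrib, hp1, hcs, div_self h1e.ne'])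
    have e1 : Ex (fun w => (p w - c w) / (1 - e)) A =
        (∑ x : ι → V, (∏ i, (p (x i) - c (x i))) * A x) / (1 - e) ^ s := by
      unfold Ex
      rw [sum_div]
      refine sum_congr rfl fun x _ => ?_
      rw [prod_div_distrib, prod_const, card_univ]
      ring
    rw [e1, div_le_iff₀ (by positivity)] at hq
    have e2 : ∀ x : ι → V, (∏ i, p (x i)) * A x - e * ∑ i : ι, (if x i = v then 1 else 0) *
        (∏ k ∈ univ.erase i, p (x k)) * A x ≤ (∏ i, (p (x i) - c (x i))) * A x := by
      intro x
      have h1 := (prod_sub_ge univ (fun i => p (x i)) (fun i => c (x i))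
        (fun i _ => hc0 (x i))).1
      have h2 := mul_le_mul_of_nonneg_right h1 (hA x)
      refine le_trans (le_of_eq ?_) h2
      rw [sub_mul, mul_sum, sum_mul]
      congr 1
      refine sum_congr rfl fun i _ => ?_
      simp only [hc]
      split_ifs <;> ring
    have e3 := sum_le_sum (s := univ) (fun x _ => e2 x)
    rw [sum_sub_distrib, ← mul_sum, sum_comm] at e3
    have e4 : ∑ i : ι, ∑ x : ι → V, (if x i = v then 1 else 0) *
        (∏ k ∈ univ.erase i, p (x k)) * A x = Dv :=
      sum_congr rfl fun i _ => Ex_fix hp1 hv i A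
    rw [e4] at e3
    have e5 : ∑ x : ι → V, (∏ i, p (x i)) * A x = t := rfl
    rw [e5] at e3
    linarith
  by_contra hlt
  push Not at hlt
  set gap := (s : ℝ) * t - Dv with hgap
  have hgap0 : 0 < gap := by linarith
  have hden : 0 < 2 * (t * (s : ℝ) ^ 2 + 1) := by positivity
  set e := min (p v / 2) (gap / (2 * (t * (s : ℝ) ^ 2 + 1))) with he
  have he0 : 0 < e := lt_min (by linarith) (div_pos hgap0 hden)
  have he1 : e < p v := (min_le_left _ _).trans_lt (by linarith)
  have he2 : e ≤ gap / (2 * (t * (s : ℝ) ^ 2 + 1)) := min_le_right _ _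
  have h1 := key e he0 he1
  have h2 := mul_le_mul_of_nonneg_right (one_sub_pow_le s he0.le (by linarith)) ht0
  have h3 : e * gap ≤ (s : ℝ) ^ 2 * e ^ 2 * t := by
    have : t - e * Dv ≤ (1 - s * e + (s : ℝ) ^ 2 * e ^ 2) * t := h1.trans h2
    nlinarith
  have h4 : gap ≤ (s : ℝ) ^ 2 * e * t := by
    have h5 : e * gap ≤ e * ((s : ℝ) ^ 2 * e * t) := by
      refine h3.trans (le_of_eq ?_)
      ring
    exact le_of_mul_le_mul_left h5 he0
  rw [le_div_iff₀ hden] at he2
  have h6 : (s : ℝ) ^ 2 * e * t * 2 ≤ gap := by nlinarith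
  nlinarith

/-- a maximiser exists -/
theorem exists_max [Nonempty V] (A : (ι → V) → ℝ) :
    ∃ p : V → ℝ, (∀ v, 0 ≤ p v) ∧ ∑ v, p v = 1 ∧
      ∀ q : V → ℝ, (∀ v, 0 ≤ q v) → ∑ v, q v = 1 → Ex q A ≤ Ex p A := by
  have hcont : Continuous (fun p : V → ℝ => Ex p A) := by
    unfold Ex
    refine continuous_finsetSum _ fun x _ => ?_
    refine Continuous.mul ?_ continuous_const
    refine continuous_finsetProd _ fun i _ => continuous_apply _
  have hne : (stdSimplex ℝ V).Nonempty := by
    obtain ⟨v⟩ := ‹Nonempty V›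
    exact ⟨_, single_mem_stdSimplex ℝ v⟩
  obtain ⟨p, hp, hmax⟩ := (isCompact_stdSimplex (𝕜 := ℝ) V).exists_isMaxOn hne
    hcont.continuousOn
  exact ⟨p, hp.1, hp.2, fun q h1 h2 => hmax ⟨h1, h2⟩⟩

theorem AE_nonneg (Es : List (ι × ι)) (x : ι → V) : 0 ≤ AE G Es x := by
  unfold AE
  apply List.prod_nonneg
  intro r hr
  rw [List.mem_map] at hr
  obtain ⟨e, _, rfl⟩ := hr
  have := nb_le_one (G := G) (x e.1) (x e.2)
  linarith

theorem AE_le_one (Es : List (ι × ι)) (x : ι → V) : AE G Es x ≤ 1 := by
  induction Es with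
  | nil => simp [AE]
  | cons e Es ih =>
    have h1 := nb_nonneg (G := G) (x e.1) (x e.2)
    have h2 := nb_le_one (G := G) (x e.1) (x e.2)
    have h3 := AE_nonneg (G := G) Es x
    have e1 : AE G (e :: Es) x = (1 - nb G (x e.1) (x e.2)) * AE G Es x := by
      unfold AE
      rw [List.map_cons, List.prod_cons]
    rw [e1]
    nlinarith

theorem AE_le {Es : List (ι × ι)} {e : ι × ι} (he : e ∈ Es) (x : ι → V) :
    AE G Es x ≤ 1 - nb G (x e.1) (x e.2) := by
  induction Es with
  | nil => exact absurd he (by simp)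
  | cons f Es ih =>
    have e1 : AE G (f :: Es) x = (1 - nb G (x f.1) (x f.2)) * AE G Es x := by
      unfold AE
      rw [List.map_cons, List.prod_cons]
    rw [e1]
    have h1 := nb_nonneg (G := G) (x f.1) (x f.2)
    have h2 := nb_le_one (G := G) (x f.1) (x f.2)
    have h3 := AE_nonneg (G := G) Es x
    have h4 := AE_le_one (G := G) Es x
    rcases List.mem_cons.1 he with rfl | he
    · nlinarith
    · have h5 := ih he
      nlinarith

theorem AE_ge (Es : List (ι × ι)) (x : ι → V) :
    1 - (Es.map fun e => nb G (x e.1) (x e.2)).sum ≤ AE G Es x := by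
  induction Es with
  | nil => simp [AE]
  | cons f Es ih =>
    have e1 : AE G (f :: Es) x = (1 - nb G (x f.1) (x f.2)) * AE G Es x := by
      unfold AE
      rw [List.map_cons, List.prod_cons]
    rw [e1, List.map_cons, List.sum_cons]
    have h1 := nb_nonneg (G := G) (x f.1) (x f.2)
    have h4 := AE_le_one (G := G) Es x
    nlinarith

theorem Ex_AE_top_ge (n : ℕ) (hn : 0 < n) (Es : List (ι × ι)) (hEs : ∀ f ∈ Es, f.1 ≠ f.2) :
    1 - (Es.length : ℝ) / n ≤
      Ex (fun _ : Fin n => 1 / (n : ℝ)) (fun x => AE ⊤ Es x) := by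
  have h1 := Ex_le (p := fun _ : Fin n => 1 / (n : ℝ)) (fun _ => by positivity)
    (f := fun x => 1 - (Es.map fun e => nb (⊤ : SimpleGraph (Fin n)) (x e.1) (x e.2)).sum)
    (g := fun x => AE ⊤ Es x) (fun x _ => AE_ge Es x)
  refine le_trans (le_of_eq ?_) h1
  rw [Ex_sub, Ex_one (top_sum n hn)]
  congr 1
  clear h1
  induction Es with
  | nil =>
    have e : (fun x : ι → Fin n => (List.map (fun e : ι × ι =>
        nb (⊤ : SimpleGraph (Fin n)) (x e.1) (x e.2)) []).sum) = fun _ => 0 := by
      funext x
      simp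
    rw [e, Ex_const (top_sum n hn)]
    simp
  | cons f Es ih =>
    have e : (fun x : ι → Fin n => (List.map (fun e : ι × ι =>
        nb (⊤ : SimpleGraph (Fin n)) (x e.1) (x e.2)) (f :: Es)).sum) =
        fun x => 1 * nb (⊤ : SimpleGraph (Fin n)) (x f.1) (x f.2) +
          (List.map (fun e : ι × ι => nb (⊤ : SimpleGraph (Fin n)) (x e.1) (x e.2)) Es).sum := by
      funext x
      rw [List.map_cons, List.sum_cons, one_mul]
    rw [e, Ex_add, ← ih (fun g hg => hEs g (List.mem_cons_of_mem _ hg)),
      Ex_nb (top_sum n hn) (hEs f List.mem_cons_self) (F := fun _ => 1) (fun _ _ => rfl)]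
    have e2 : (fun x : ι → Fin n => (1 : ℝ) * del (⊤ : SimpleGraph (Fin n))
        (fun _ => 1 / (n : ℝ)) univ (x f.2)) = fun _ => 1 / (n : ℝ) := by
      funext x
      rw [top_del n hn, one_mul]
    rw [e2, Ex_const (top_sum n hn), List.length_cons]
    push_cast
    ring

/-- vertices of the maximiser have large degree -/
theorem max_del {Es : List (ι × ι)} (hEs : ∀ f ∈ Es, f.1 ≠ f.2) (hne : 0 < Es.length)
    (hp : ∀ v, 0 ≤ p v) (hp1 : ∑ v, p v = 1)
    (hmax : ∀ q : V → ℝ, (∀ v, 0 ≤ q v) → ∑ v, q v = 1 →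
      Ex q (fun x => AE G Es x) ≤ Ex p (fun x => AE G Es x)) {v : V} (hv : 0 < p v) :
    del G p univ v ≤ 1 - Ex p (fun x => AE G Es x) := by
  classical
  set t := Ex p (fun x => AE G Es x) with ht
  have h1 := max_deriv (fun x => AE_nonneg (G := G) Es x) hp hp1 hmax hv
  have key : ∀ i : ι, Ex p (fun x => AE G Es (Function.update x i v)) ≤
      if (∃ e ∈ Es, e.1 = i ∨ e.2 = i) then 1 - del G p univ v else t := by
    intro i
    split_ifs with hi
    · obtain ⟨e, he, hei⟩ := hi
      have hne := hEs e he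
      -- the other end
      obtain ⟨k, hk, hle⟩ : ∃ k, k ≠ i ∧ ∀ x : ι → V,
          AE G Es (Function.update x i v) ≤ 1 - nb G v (x k) := by
        rcases hei with rfl | rfl
        · refine ⟨e.2, hne.symm, fun x => ?_⟩
          have := AE_le (G := G) he (Function.update x e.1 v)
          rw [Function.update_self, Function.update_of_ne hne.symm] at this
          exact this
        · refine ⟨e.1, hne, fun x => ?_⟩
          have := AE_le (G := G) he (Function.update x e.2 v)
          rw [Function.update_self, Function.update_of_ne hne] at this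
          rw [nb_symm]
          exact this
      have h2 := Ex_le (p := p) hp (f := fun x : ι → V => AE G Es (Function.update x i v))
        (g := fun x => 1 - nb G v (x k)) (fun x _ => hle x)
      refine h2.trans (le_of_eq ?_)
      rw [Ex_sub, Ex_one hp1, Ex_coord hp1 k (fun w => nb G v w), del]
      congr 1
      refine sum_congr rfl fun w _ => ?_
      ring
    · refine le_of_eq ?_
      rw [ht]
      congr 1
      funext x
      unfold AE
      congr 1
      apply List.map_congr_left
      intro e he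
      have h3 : e.1 ≠ i := fun h => hi ⟨e, he, Or.inl h⟩
      have h4 : e.2 ≠ i := fun h => hi ⟨e, he, Or.inr h⟩
      rw [Function.update_of_ne h3, Function.update_of_ne h4]
  have h2 := h1.trans (sum_le_sum (s := univ) (fun i _ => key i))
  rw [sum_ite, sum_const, sum_const, nsmul_eq_mul, nsmul_eq_mul] at h2
  have h3 := card_filter_add_card_filter_not (s := (univ : Finset ι))
    (fun i => ∃ e ∈ Es, e.1 = i ∨ e.2 = i)
  rw [card_univ] at h3
  set r := (univ.filter (fun i : ι => ∃ e ∈ Es, e.1 = i ∨ e.2 = i)).card with hr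
  set r' := (univ.filter (fun i : ι => ¬ ∃ e ∈ Es, e.1 = i ∨ e.2 = i)).card with hr'
  have hr0 : 0 < r := by
    rw [hr, card_pos]
    obtain ⟨e, he⟩ := List.exists_mem_of_length_pos hne
    exact ⟨e.1, mem_filter.2 ⟨mem_univ _, e, he, Or.inl rfl⟩⟩
  have h4 : (Fintype.card ι : ℝ) = r + r' := by exact_mod_cast h3.symm
  rw [h4] at h2
  have h5 : (r : ℝ) * t ≤ r * (1 - del G p univ v) := by linarith
  have h6 : (0 : ℝ) < r := by exact_mod_cast hr0
  have h7 := le_of_mul_le_mul_left h5 h6
  linarith

/-- **Every graph is eventually Turán-good (weighted, list form).** -/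
theorem even_list {Es : List (ι × ι)} (hEs : ∀ f ∈ Es, f.1 ≠ f.2) (hdif : Es.Pairwise dif)
    {n : ℕ} (hn : 0 < n)
    (hbig : 2 ^ Es.length * cM ι (3 * (Es.length : ℝ) ^ 3) Es.length ≤ n)
    (hG : G.CliqueFree (n + 1)) {q : V → ℝ} (hq : ∀ v, 0 ≤ q v) (hq1 : ∑ v, q v = 1) :
    Ex q (fun x => AE G Es x) ≤ Ex (fun _ : Fin n => 1 / (n : ℝ)) (fun x => AE ⊤ Es x) := by
  have hn' : (0 : ℝ) < n := by exact_mod_cast hn
  rcases Nat.eq_zero_or_pos Es.length with h0 | hpos
  · have h0' := List.eq_nil_of_length_eq_zero h0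
    subst h0'
    have e1 : (fun x : ι → V => AE G [] x) = fun _ => 1 := by
      funext x
      simp [AE]
    have e2 : (fun x : ι → Fin n => AE (⊤ : SimpleGraph (Fin n)) [] x) = fun _ => 1 := by
      funext x
      simp [AE]
    rw [e1, e2, Ex_one hq1, Ex_one (top_sum n hn)]
  · have hV : Nonempty V := by
      by_contra hemp
      rw [not_nonempty_iff] at hemp
      simp at hq1
    obtain ⟨p, hp, hp1, hmax⟩ := exists_max (ι := ι) (fun x : ι → V => AE G Es x)
    refine (hmax q hq hq1).trans ?_
    by_contra hlt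
    push Not at hlt
    set t := Ex p (fun x => AE G Es x) with ht
    set C : ℝ := (Es.length : ℝ) with hC
    have hC1 : 1 ≤ C := by
      rw [hC]
      exact_mod_cast hpos
    have hT0 := Ex_AE_top_ge n hn Es hEs
    have hdel : ∀ v, 0 < p v → del G p univ v ≤ C / n := by
      intro v hv
      have h1 := max_del hEs hpos hp hp1 hmax hv
      rw [← ht] at h1
      linarith
    -- the support
    set S : Finset V := univ.filter (fun v => 0 < p v) with hS
    have hSp : ∀ v ∈ S, 0 < p v := fun v hv => (mem_filter.1 hv).2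
    have hout : ∀ v, v ∉ S → p v = 0 := by
      intro v hv
      rw [hS, mem_filter] at hv
      push Not at hv
      exact le_antisymm (hv (mem_univ v)) (hp v)
    have hsumS : ∀ F : V → ℝ, (∀ v, v ∉ S → F v = 0) → ∑ v ∈ S, F v = ∑ v, F v := by
      intro F hF
      exact sum_subset (subset_univ S) (fun v _ hv => hF v hv)
    have hdS : ∀ v, del G p S v = del G p univ v := by
      intro v
      exact hsumS _ (fun w hw => by rw [hout w hw, mul_zero])
    have hcS : chy G p S = chy G p univ := by
      unfold chy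
      rw [← hsumS (fun x => ∑ v, ∑ w, nb G x v * nb G x w * (1 - nb G v w) *
        (p x * p v * p w)) (fun x hx => by
          refine sum_eq_zero fun v _ => sum_eq_zero fun w _ => ?_
          rw [hout x hx]
          ring)]
      refine sum_congr rfl fun x _ => ?_
      rw [← hsumS (fun v => ∑ w, nb G x v * nb G x w * (1 - nb G v w) *
        (p x * p v * p w)) (fun v hv => by
          refine sum_eq_zero fun w _ => ?_
          rw [hout v hv]
          ring)]
      refine sum_congr rfl fun v _ => ?_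
      exact hsumS _ (fun w hw => by
          rw [hout w hw]
          ring)
    obtain ⟨K, hKS, hKc, hKs⟩ := caro_wei (G := G) (p := p) (M := C / n) (by positivity) S hSp
      (fun v hv => by
        rw [hdS]
        exact hdel v (hSp v hv))
    have hKn : (K.card : ℝ) ≤ n := by
      by_contra hgt
      push Not at hgt
      have h1 : n + 1 ≤ K.card := by
        have : n < K.card := by exact_mod_cast hgt
        exact this
      exact (hG.mono h1) K ⟨hKc, rfl⟩
    rw [hcS] at hKs
    have hdpos : ∀ v ∈ S, 0 < del G p univ v := by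
      intro v hv
      rw [← hdS]
      exact (hSp v hv).trans_le (del_pos hSp hv)
    -- the basic inequality
    have hb1 : ∑ v ∈ S, p v / (n * del G p univ v) +
        (n : ℝ) ^ 2 * chy G p univ / (3 * C ^ 3) ≤ 1 := by
      have e1 : ∑ v ∈ S, p v / (n * del G p univ v) =
          (∑ v ∈ S, p v / del G p S v) / n := by
        rw [sum_div]
        refine sum_congr rfl fun v hv => ?_
        rw [hdS]
        have := hdpos v hv
        field_simp
      have e2 : (n : ℝ) ^ 2 * chy G p univ / (3 * C ^ 3) =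
          (1 / (3 * (C / n) ^ 3) * chy G p univ) / n := by
        field_simp
      rw [e1, e2, ← add_div, div_le_one hn']
      linarith
    set Dd : ℝ := ∑ v, p v * zf G p n v with hDd
    have hb2 : ∑ v, p v * zf G p n v ^ 2 / C + (n : ℝ) ^ 2 * chy G p univ / (3 * C ^ 3) ≤
        Dd := by
      have h1 : ∀ v ∈ S, p v * zf G p n v ^ 2 / C + p v - p v / (n * del G p univ v) ≤
          p v * zf G p n v := by
        intro v hv
        have hd := hdpos v hv
        have hpv := hSp v hv
        have hy := hdel v hpv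
        unfold zf
        set d := del G p univ v with hdd
        have hy1 : n * d ≤ C := by
          rw [le_div_iff₀ hn'] at hy
          linarith
        have hy0 : 0 < n * d := by positivity
        set y := (n : ℝ) * d with hydef
        have h2 : (y - 1) ^ 2 / C ≤ (y - 1) ^ 2 / y :=
          div_le_div_of_nonneg_left (by positivity) hy0 hy1
        have h3 : (y - 1) ^ 2 / y + 1 - 1 / y = y - 1 := by
          field_simp
          ring
        have h4 : (y - 1) ^ 2 / C + 1 - 1 / y ≤ y - 1 := by linarith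
        have h5 := mul_le_mul_of_nonneg_left h4 hpv.le
        calc p v * (y - 1) ^ 2 / C + p v - p v / y =
            p v * ((y - 1) ^ 2 / C + 1 - 1 / y) := by ring
          _ ≤ p v * (y - 1) := h5
      have h2 := sum_le_sum h1
      rw [sum_sub_distrib, sum_add_distrib] at h2
      rw [hsumS (fun v => p v * zf G p n v ^ 2 / C) (fun v hv => by rw [hout v hv]; ring),
        hsumS (fun v => p v) (fun v hv => hout v hv),
        hsumS (fun v => p v * zf G p n v) (fun v hv => by rw [hout v hv]; ring), hp1,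
        ← hDd] at h2
      linarith
    have hchy0 : 0 ≤ chy G p univ := by
      rw [← hcS]
      exact chy_nonneg hSp
    have hZ0 : 0 ≤ ∑ v, p v * zf G p n v ^ 2 / C :=
      sum_nonneg fun v _ => div_nonneg (mul_nonneg (hp v) (sq_nonneg _)) (by linarith)
    have hX0 : 0 ≤ (n : ℝ) ^ 2 * chy G p univ / (3 * C ^ 3) := by positivity
    have hD0 : 0 ≤ Dd := by linarith
    have M : Mod G p n (3 * C ^ 3) C Dd :=
      { nn := hp
        one := hp1
        kap := by exact_mod_cast hn
        A0 := by positivity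
        C1 := hC1
        hD := rfl
        D0 := hD0
        hZ := by
          have h1 : ∑ v, p v * zf G p n v ^ 2 / C ≤ Dd := by linarith
          rw [← sum_div, div_le_iff₀ (by linarith)] at h1
          have h2 : C ≤ 3 * C ^ 3 := by nlinarith [sq_nonneg C, sq_nonneg (C - 1)]
          nlinarith
        hX := by
          have h1 : (n : ℝ) ^ 2 * chy G p univ / (3 * C ^ 3) ≤ Dd := by linarith
          rw [div_le_iff₀ (by positivity)] at h1
          linarith
        hC := fun v hv => by
          have hvS : v ∈ S := mem_filter.2 ⟨mem_univ v, hv⟩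
          have h1 := hdpos v hvS
          have h2 := hdel v hv
          rw [le_div_iff₀ hn'] at h2
          unfold zf
          rw [abs_le]
          constructor
          · have : 0 < n * del G p univ v := by positivity
            linarith
          · linarith }
    have h1 := dv_le hn M Es hEs hdif hpos hbig
    rw [← ht] at h1
    linarith

end max

section homs

variable {ι V : Type*} [Fintype ι] [Fintype V] [DecidableEq ι] [DecidableEq V]

open Classical in
/-- list of the edges of a graph -/
noncomputable def eL (H : SimpleGraph ι) : List (ι × ι) :=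
  H.edgeFinset.toList.map (fun e => e.out)

theorem eL_mk (e : Sym2 ι) : s(e.out.1, e.out.2) = e := Quot.out_eq e

theorem mem_eL {H : SimpleGraph ι} {f : ι × ι} (hf : f ∈ eL H) : H.Adj f.1 f.2 := by
  classical
  unfold eL at hf
  rw [List.mem_map] at hf
  obtain ⟨e, he, rfl⟩ := hf
  rw [mem_toList, mem_edgeFinset, ← eL_mk e, mem_edgeSet] at he
  exact he

theorem eL_pair (H : SimpleGraph ι) : (eL H).Pairwise dif := by
  classical
  unfold eL
  rw [List.pairwise_map]
  refine (nodup_toList _).imp (fun {e f} hef => ?_)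
  constructor
  · rintro ⟨h1, h2⟩
    apply hef
    rw [← eL_mk e, ← eL_mk f, h1, h2]
  · rintro ⟨h1, h2⟩
    apply hef
    rw [← eL_mk e, ← eL_mk f, h1, h2, Sym2.eq_swap]

theorem eL_adj {H : SimpleGraph ι} {a b : ι} (h : H.Adj a b) :
    (a, b) ∈ eL H ∨ (b, a) ∈ eL H := by
  classical
  have h1 : s(a, b) ∈ H.edgeFinset := by
    rw [mem_edgeFinset, mem_edgeSet]
    exact h
  have h2 : (s(a, b) : Sym2 ι).out ∈ eL H := by
    unfold eL
    rw [List.mem_map]
    exact ⟨s(a, b), mem_toList.2 h1, rfl⟩
  have h3 := eL_mk s(a, b)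
  rw [Sym2.eq_iff] at h3
  rcases h3 with ⟨h4, h5⟩ | ⟨h4, h5⟩
  · left
    have h6 : (a, b) = (s(a, b) : Sym2 ι).out := Prod.ext h4.symm h5.symm
    rw [h6]
    exact h2
  · right
    have h6 : (b, a) = (s(a, b) : Sym2 ι).out := Prod.ext h4.symm h5.symm
    rw [h6]
    exact h2

theorem AE_hom {G : SimpleGraph V} [DecidableRel G.Adj] (H : SimpleGraph ι) (x : ι → V)
    (hx : ∀ a b, H.Adj a b → G.Adj (x a) (x b)) : AE G (eL H) x = 1 := by
  have h : ∀ e ∈ eL H, 1 - nb G (x e.1) (x e.2) = 1 := by
    intro e he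
    rw [nb_of_adj (hx _ _ (mem_eL he)), sub_zero]
  unfold AE
  rw [List.map_congr_left h]
  simp

theorem AE_nhom {G : SimpleGraph V} [DecidableRel G.Adj] (H : SimpleGraph ι) (x : ι → V)
    (hx : ¬ ∀ a b, H.Adj a b → G.Adj (x a) (x b)) : AE G (eL H) x = 0 := by
  push Not at hx
  obtain ⟨a, b, hab, hn⟩ := hx
  have key : ∃ e ∈ eL H, ¬ G.Adj (x e.1) (x e.2) := by
    rcases eL_adj hab with h | h
    · exact ⟨(a, b), h, hn⟩
    · exact ⟨(b, a), h, fun hc => hn hc.symm⟩
  obtain ⟨e, he, hne⟩ := key
  have h1 := AE_le (G := G) he x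
  have h2 := AE_nonneg (G := G) (eL H) x
  have h3 : nb G (x e.1) (x e.2) = 1 := if_neg hne
  linarith

theorem Ex_unif (G : SimpleGraph V) [DecidableRel G.Adj] (H : SimpleGraph ι) :
    Ex (fun _ : V => 1 / (Fintype.card V : ℝ)) (fun x => AE G (eL H) x) =
      Nat.card (H →g G) / (Fintype.card V : ℝ) ^ Fintype.card ι := by
  classical
  have e1 : Nat.card (H →g G) =
      (univ.filter (fun x : ι → V => ∀ a b, H.Adj a b → G.Adj (x a) (x b))).card := by
    rw [← Fintype.card_subtype, ← Nat.card_eq_fintype_card]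
    exact Nat.card_congr ⟨fun f => ⟨f, fun a b h => f.map_adj h⟩,
      fun x => ⟨x.1, fun {a b} h => x.2 a b h⟩, fun f => rfl, fun x => rfl⟩
  unfold Ex
  rw [e1, card_eq_sum_ones, Nat.cast_sum, sum_filter, sum_div]
  refine sum_congr rfl fun x _ => ?_
  rw [prod_const, card_univ]
  beta_reduce
  by_cases hx : ∀ a b, H.Adj a b → G.Adj (x a) (x b)
  · rw [AE_hom H x hx, if_pos hx, one_div, inv_pow, mul_one, Nat.cast_one, one_div]
  · rw [AE_nhom H x hx, if_neg hx]
    simp

/-- the property that `K_n` maximises the homomorphism density of `H` among the `K_{n+1}`-free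
graphs -/
def HomGood (H : SimpleGraph ι) (n : ℕ) : Prop :=
  ∀ (m : ℕ) (G : SimpleGraph (Fin m)), G.CliqueFree (n + 1) →
    (Nat.card (H →g G) : ℝ) * (n : ℝ) ^ Fintype.card ι ≤
      Nat.card (H →g (⊤ : SimpleGraph (Fin n))) * (m : ℝ) ^ Fintype.card ι

theorem cM_eq {e s : ℕ} (hs : Fintype.card ι = s) :
    cM ι (3 * (e : ℝ) ^ 3) e =
      (((s + 1) * (1 + 9 * s * e ^ 3 + 6 * s ^ 2 * e ^ 4) : ℕ) : ℝ) := by
  unfold cM cL cK
  rw [hs]
  push_cast
  ring

/-- **Every graph is eventually Turán-good, in densities.** -/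
theorem good_explicit (H : SimpleGraph ι) {e s n : ℕ} (hs : Fintype.card ι = s)
    (he : Nat.card H.edgeSet = e) (hn0 : 0 < n)
    (hn : 2 ^ e * ((s + 1) * (1 + 9 * s * e ^ 3 + 6 * s ^ 2 * e ^ 4)) ≤ n) : HomGood H n := by
  intro m G hG
  classical
  have hn' : (0 : ℝ) < n := by exact_mod_cast hn0
  have hlen : (eL H).length = e := by
    unfold eL
    rw [List.length_map, length_toList, ← he, Nat.card_eq_fintype_card, ← edgeFinset_card]
  have hbig : 2 ^ (eL H).length * cM ι (3 * ((eL H).length : ℝ) ^ 3) (eL H).length ≤ n := by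
    rw [hlen, cM_eq hs]
    exact_mod_cast hn
  rcases Nat.eq_zero_or_pos m with rfl | hm
  · rcases isEmpty_or_nonempty ι with hι | hι
    · have h0 : Fintype.card ι = 0 := Fintype.card_eq_zero
      rw [h0, pow_zero, pow_zero, mul_one, mul_one]
      have h1 : Nat.card (H →g G) ≤ Nat.card (H →g (⊤ : SimpleGraph (Fin n))) := by
        have : ∀ a : ι, False := fun a => hι.elim a
        refine Nat.card_le_card_of_injective
          (fun _ => ⟨fun a => (this a).elim, fun {a} _ => (this a).elim⟩) ?_
        intro f g _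
        ext a
        exact (this a).elim
      exact_mod_cast h1
    · have h1 : IsEmpty (H →g G) := ⟨fun f => (f (Classical.arbitrary ι)).elim0⟩
      rw [Nat.card_of_isEmpty]
      simp only [Nat.cast_zero, zero_mul]
      positivity
  · have hm' : (0 : ℝ) < m := by exact_mod_cast hm
    have h := even_list (G := G) (fun f hf => (mem_eL hf).ne) (eL_pair H) hn0 hbig hG
      (q := fun _ => 1 / (m : ℝ)) (fun _ => by positivity) (top_sum m hm)
    have e1 := Ex_unif G H
    have e2 := Ex_unif (⊤ : SimpleGraph (Fin n)) H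
    rw [Fintype.card_fin] at e1 e2
    rw [e1, e2, div_le_div_iff₀ (by positivity) (by positivity)] at h
    exact h

end homs

end MP5cc280
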