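import Pool.Agent.H.MP_5cc280_co.Two
import Pool.Agent.H.MP_5cc280_co.Even

/-!
# Counting copies of a graph with `u` dominating vertices
-/

namespace MP5cc280

open Finset SimpleGraph

section upper

variable {V W : Type*} [Fintype V] [DecidableEq V] {G : SimpleGraph V} [DecidableRel G.Adj]
  [Fintype W] [DecidableEq W] {H : SimpleGraph W}

/-- `H` without the vertices of `D` -/
def rest (H : SimpleGraph W) (D : Finset W) : SimpleGraph {w : W // w ∉ D} :=
  H.comap Subtype.val

theorem card_rest (D : Finset W) {u : ℕ} (hD : D.card = u) :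
    Fintype.card {w : W // w ∉ D} + u = Fintype.card W := by
  have h := Fintype.card_subtype_compl (fun w : W => w ∈ D)
  rw [Fintype.card_coe, hD] at h
  have h2 : D.card ≤ Fintype.card W := card_le_univ D
  omega

/-- homomorphisms with values in `S` -/
abbrev HomsIn {ι : Type*} (Hp : SimpleGraph ι) (G : SimpleGraph V) (S : Finset V) :=
  {x : ι → V // (∀ i, x i ∈ S) ∧ ∀ a b, Hp.Adj a b → G.Adj (x a) (x b)}

/-- a copy gives a clique with an enumeration and a homomorphism to its common neighbourhood -/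
def splitCopy {D : Finset W} {u : ℕ} (hD : D.card = u) (hdom : ∀ v ∈ D, ∀ w, w ≠ v → H.Adj v w)
    (f : Copy H G) : Σ Q : {Q // Q ∈ G.cliqueFinset u},
      (D ↪ (Q.1 : Finset V)) × HomsIn (rest H D) G (cnb G Q.1) :=
  ⟨⟨D.image f, by
    rw [mem_cliqueFinset_iff, isNClique_iff]
    constructor
    · intro x hx y hy hxy
      rw [mem_coe, mem_image] at hx hy
      obtain ⟨a, ha, rfl⟩ := hx
      obtain ⟨b, hb, rfl⟩ := hy
      exact f.toHom.map_adj (hdom a ha b (fun h => hxy (by rw [h])))
    · rw [card_image_of_injective D (f := fun a => f a) (fun a b h => f.injective h), hD]⟩,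
   ⟨fun d => ⟨f d, mem_image_of_mem _ d.2⟩, fun a b h => by
      have h1 : f a = f b := congrArg Subtype.val h
      exact Subtype.ext (f.injective h1)⟩,
   ⟨fun i => f i.1, fun i => by
      rw [mem_cnb]
      intro d hd
      rw [mem_image] at hd
      obtain ⟨a, ha, rfl⟩ := hd
      have hne : (i : W) ≠ a := fun h => i.2 (h ▸ ha)
      exact (f.toHom.map_adj (hdom a ha i hne)).symm,
    fun a b hab => f.toHom.map_adj hab⟩⟩

theorem splitCopy_inj {D : Finset W} {u : ℕ} (hD : D.card = u)
    (hdom : ∀ v ∈ D, ∀ w, w ≠ v → H.Adj v w) :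
    Function.Injective (splitCopy (G := G) hD hdom) := by
  intro f g hfg
  have h1 := congrArg (fun z : (Σ Q : {Q // Q ∈ G.cliqueFinset u},
      (D ↪ (Q.1 : Finset V)) × HomsIn (rest H D) G (cnb G Q.1)) =>
      fun d : D => ((z.2.1 d : (z.1.1 : Finset V)) : V)) hfg
  have h2 := congrArg (fun z : (Σ Q : {Q // Q ∈ G.cliqueFinset u},
      (D ↪ (Q.1 : Finset V)) × HomsIn (rest H D) G (cnb G Q.1)) => z.2.2.1) hfg
  apply Copy.ext
  intro w
  by_cases hw : w ∈ D
  · exact congrFun h1 ⟨w, hw⟩
  · exact congrFun h2 ⟨w, hw⟩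

theorem card_copy_le {D : Finset W} {u : ℕ} (hD : D.card = u)
    (hdom : ∀ v ∈ D, ∀ w, w ≠ v → H.Adj v w) :
    Nat.card (Copy H G) ≤
      ∑ Q ∈ G.cliqueFinset u, u.factorial * Nat.card (HomsIn (rest H D) G (cnb G Q)) := by
  refine (Nat.card_le_card_of_injective _ (splitCopy_inj (G := G) hD hdom)).trans
    (le_of_eq ?_)
  rw [Nat.card_sigma]
  have h : ∀ Q : {Q // Q ∈ G.cliqueFinset u},
      Nat.card ((D ↪ (Q.1 : Finset V)) × HomsIn (rest H D) G (cnb G Q.1)) =
      u.factorial * Nat.card (HomsIn (rest H D) G (cnb G Q.1)) := by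
    intro Q
    have hQ := (mem_cliqueFinset_iff.1 Q.2).2
    rw [Nat.card_prod, Nat.card_eq_fintype_card (α := (D ↪ (Q.1 : Finset V))),
      Fintype.card_embedding_eq, Fintype.card_coe, Fintype.card_coe, hD, hQ,
      Nat.descFactorial_self]
  rw [Fintype.sum_congr _ _ h]
  exact sum_coe_sort (G.cliqueFinset u)
    (fun Q => u.factorial * Nat.card (HomsIn (rest H D) G (cnb G Q)))

theorem homsIn_le {ι : Type*} [Fintype ι] [DecidableEq ι] {Hp : SimpleGraph ι} {u w : ℕ}
    (hgood : HomGood Hp (w - u)) (huw : u < w) (hf : G.CliqueFree (w + 1)) {Q : Finset V}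
    (hQ : Q ∈ G.cliqueFinset u) :
    (Nat.card (HomsIn Hp G (cnb G Q)) : ℝ) * ((w - u : ℕ) : ℝ) ^ Fintype.card ι ≤
      Nat.card (Hp →g (⊤ : SimpleGraph (Fin (w - u)))) * (cm G Q : ℝ) ^ Fintype.card ι := by
  have hQ' := mem_cliqueFinset_iff.1 hQ
  set S := cnb G Q with hS
  let e := S.equivFin
  let G' : SimpleGraph (Fin S.card) := G.comap (fun i => ((e.symm i : S) : V))
  have hG' : G'.CliqueFree (w - u + 1) := by
    intro t ht
    have hinj : Function.Injective (fun i : Fin S.card => ((e.symm i : S) : V)) := fun i j h =>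
      e.symm.injective (Subtype.ext h)
    have hd : Disjoint (t.image (fun i => ((e.symm i : S) : V))) Q := by
      rw [Finset.disjoint_left]
      intro x hx hxQ
      rw [mem_image] at hx
      obtain ⟨i, _, rfl⟩ := hx
      exact G.loopless.irrefl _ (mem_cnb.1 (e.symm i).2 _ hxQ)
    have hcl : G.IsClique ((t.image (fun i => ((e.symm i : S) : V)) ∪ Q : Finset V) : Set V) := by
      intro x hx y hy hxy
      rw [mem_coe, mem_union, mem_image] at hx hy
      rcases hx with ⟨i, hi, rfl⟩ | hx <;> rcases hy with ⟨j, hj, rfl⟩ | hy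
      · exact ht.1 hi hj (fun h => hxy (by rw [h]))
      · exact mem_cnb.1 (e.symm i).2 y hy
      · exact (mem_cnb.1 (e.symm j).2 x hx).symm
      · exact hQ'.1 hx hy hxy
    refine hf _ ⟨hcl, ?_⟩
    rw [card_union_of_disjoint hd, card_image_of_injective _ hinj, ht.2, hQ'.2]
    omega
  have h1 := hgood S.card G' hG'
  have h2 : Nat.card (HomsIn Hp G S) ≤ Nat.card (Hp →g G') := by
    refine Nat.card_le_card_of_injective (fun x => ⟨fun i => e ⟨x.1 i, x.2.1 i⟩, ?_⟩) ?_
    · intro a b hab
      change G.Adj ((e.symm (e ⟨x.1 a, x.2.1 a⟩) : S) : V)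
        ((e.symm (e ⟨x.1 b, x.2.1 b⟩) : S) : V)
      rw [Equiv.symm_apply_apply, Equiv.symm_apply_apply]
      exact x.2.2 a b hab
    · intro x y hxy
      apply Subtype.ext
      funext i
      have h3 := congrArg (fun f : Hp →g G' => f i) hxy
      have h4 := e.injective h3
      exact congrArg Subtype.val h4
  have h3 : (Nat.card (HomsIn Hp G S) : ℝ) ≤ Nat.card (Hp →g G') := by exact_mod_cast h2
  refine (mul_le_mul_of_nonneg_right h3 (by positivity)).trans ?_
  exact h1

/-- the constant of the theorem -/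
noncomputable def cLim (H : SimpleGraph W) (D : Finset W) (u w : ℕ) : ℝ :=
  u.factorial * Nat.card (rest H D →g (⊤ : SimpleGraph (Fin (w - u)))) /
    (Nat.card (H ≃g H) * ((w : ℝ) - 1) ^ Fintype.card {w : W // w ∉ D})

/-- **Upper bound.** -/
theorem copies_le_gen {D : Finset W} {u w n Δ : ℕ} (hD : D.card = u)
    (hdom : ∀ v ∈ D, ∀ w, w ≠ v → H.Adj v w) (hcard : Fintype.card {w : W // w ∉ D} = n + 1)
    (hu : 2 ≤ u) (huw : u < w) (hf : G.CliqueFree (w + 1)) (hΔ : ∀ v, G.degree v ≤ Δ)
    (hn : n = 1 ∨ (n + 1) * (u - 1) ≤ w - 1) (hgood : HomGood (rest H D) (w - u)) :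
    (G.copyCount H : ℝ) ≤ cLim H D u w * (Δ : ℝ) ^ (n + 1) * kk G u := by
  have haut : (0 : ℝ) < Nat.card (H ≃g H) := by exact_mod_cast aut_pos (H := H)
  have hw1 : (0 : ℝ) < (w : ℝ) - 1 := by
    have : (1 : ℝ) < w := by exact_mod_cast (by omega : 1 < w)
    linarith
  have hκ : (0 : ℝ) < ((w - u : ℕ) : ℝ) := by exact_mod_cast (by omega : 0 < w - u)
  have h1 : (Nat.card (Copy H G) : ℝ) ≤
      ∑ Q ∈ G.cliqueFinset u, (u.factorial : ℝ) *
        (Nat.card (HomsIn (rest H D) G (cnb G Q)) : ℝ) := by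
    exact_mod_cast card_copy_le (G := G) hD hdom
  have h2 : ∀ Q ∈ G.cliqueFinset u, (Nat.card (HomsIn (rest H D) G (cnb G Q)) : ℝ) ≤
      Nat.card (rest H D →g (⊤ : SimpleGraph (Fin (w - u)))) / ((w - u : ℕ) : ℝ) ^ (n + 1) *
        (cm G Q : ℝ) ^ (n + 1) := by
    intro Q hQ
    have h3 := homsIn_le hgood huw hf hQ
    rw [hcard] at h3
    rw [div_mul_eq_mul_div, le_div_iff₀ (by positivity)]
    exact h3
  have h3 : (Nat.card (Copy H G) : ℝ) ≤ u.factorial *
      (Nat.card (rest H D →g (⊤ : SimpleGraph (Fin (w - u)))) / ((w - u : ℕ) : ℝ) ^ (n + 1) *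
        ∑ Q ∈ G.cliqueFinset u, (cm G Q : ℝ) ^ (n + 1)) := by
    refine h1.trans ?_
    rw [mul_sum, mul_sum]
    exact sum_le_sum fun Q hQ => mul_le_mul_of_nonneg_left (h2 Q hQ) (by positivity)
  have h4 := power_sum hu huw hf hΔ hn
  have h5 : (Nat.card (Copy H G) : ℝ) ≤ u.factorial *
      (Nat.card (rest H D →g (⊤ : SimpleGraph (Fin (w - u)))) / ((w - u : ℕ) : ℝ) ^ (n + 1) *
        ((((w : ℝ) - u) / (w - 1) * Δ) ^ (n + 1) * kk G u)) := by
    refine h3.trans ?_
    exact mul_le_mul_of_nonneg_left (mul_le_mul_of_nonneg_left h4 (by positivity))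
      (by positivity)
  have h6 : (Nat.card (Copy H G) : ℝ) = G.copyCount H * Nat.card (H ≃g H) := by
    exact_mod_cast card_copy (G := G) (H := H)
  rw [h6, ← le_div_iff₀ haut] at h5
  refine h5.trans (le_of_eq ?_)
  unfold cLim
  rw [hcard]
  have h7 : ((w - u : ℕ) : ℝ) = (w : ℝ) - u := by
    rw [Nat.cast_sub huw.le]
  rw [h7] at hκ ⊢
  rw [mul_pow, div_pow]
  field_simp

end upper

section lower

variable {W : Type*} [Fintype W] [DecidableEq W] {H : SimpleGraph W}

theorem copyCount_mono {V V' : Type*} [Fintype V] [Fintype V'] {G : SimpleGraph V}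
    {G' : SimpleGraph V'} {W : Type*} [Finite W] {H : SimpleGraph W} (f : Copy G G') :
    G.copyCount H ≤ G'.copyCount H := by
  have h1 := card_copy (G := G) (H := H)
  have h2 := card_copy (G := G') (H := H)
  have h3 : Nat.card (Copy H G) ≤ Nat.card (Copy H G') := by
    refine Nat.card_le_card_of_injective (fun g => f.comp g) ?_
    intro g g' h
    apply Copy.ext
    intro a
    have := congrArg (fun k : Copy H G' => k a) h
    exact f.injective this
  rw [h1, h2] at h3
  exact Nat.le_of_mul_le_mul_right h3 aut_pos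

/-- an enumeration of the colours not used by `g` -/
noncomputable def freeCol {D : Finset W} {u w : ℕ} (hD : D.card = u) (g : D ↪ Fin w) :
    Fin (w - u) ↪ Fin w :=
  ((univ \ univ.image g).orderEmbOfFin (by
    rw [card_sdiff_of_subset (subset_univ _), card_image_of_injective _ g.injective, card_univ,
      Fintype.card_fin, card_univ, Fintype.card_coe, hD])).toEmbedding

theorem freeCol_ne {D : Finset W} {u w : ℕ} (hD : D.card = u) (g : D ↪ Fin w)
    (i : Fin (w - u)) (d : D) : freeCol hD g i ≠ g d := by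
  intro h
  have h1 : freeCol hD g i ∈ univ \ univ.image g := orderEmbOfFin_mem _ _ _
  rw [mem_sdiff] at h1
  exact h1.2 (mem_image.2 ⟨d, mem_univ _, h.symm⟩)

/-- copies in the balanced complete multipartite graph -/
noncomputable def mkCopy {D : Finset W} {u w m : ℕ} (hD : D.card = u)
    (z : (D ↪ Fin w) × (rest H D →g (⊤ : SimpleGraph (Fin (w - u)))) × (W ↪ Fin m)) :
    Copy H (completeEquipartiteGraph w m) :=
  ⟨⟨fun v => (if h : v ∈ D then z.1 ⟨v, h⟩ else freeCol hD z.1 (z.2.1 ⟨v, h⟩), z.2.2 v), by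
    intro a b hab
    rw [completeEquipartiteGraph_adj]
    simp only
    by_cases ha : a ∈ D <;> by_cases hb : b ∈ D
    · rw [dif_pos ha, dif_pos hb]
      intro h
      exact hab.ne (congrArg Subtype.val (z.1.injective h))
    · rw [dif_pos ha, dif_neg hb]
      exact (freeCol_ne hD z.1 _ _).symm
    · rw [dif_neg ha, dif_pos hb]
      exact freeCol_ne hD z.1 _ _
    · rw [dif_neg ha, dif_neg hb]
      intro h
      have h1 := (freeCol hD z.1).injective h
      have h2 : (rest H D).Adj ⟨a, ha⟩ ⟨b, hb⟩ := hab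
      exact (z.2.1.map_adj h2) h1⟩, by
    intro a b hab
    exact z.2.2.injective (congrArg Prod.snd hab)⟩

theorem mkCopy_inj {D : Finset W} {u w m : ℕ} (hD : D.card = u) :
    Function.Injective (mkCopy (H := H) (w := w) (m := m) hD) := by
  rintro ⟨g, c, e⟩ ⟨g', c', e'⟩ h
  have hv : ∀ v, (mkCopy (H := H) hD (g, c, e)) v = (mkCopy (H := H) hD (g', c', e')) v :=
    fun v => by rw [h]
  have hg : g = g' := by
    ext d
    have h1 := congrArg Prod.fst (hv d)
    change (if h : (d : W) ∈ D then g ⟨d, h⟩ else freeCol hD g (c ⟨d, h⟩)) =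
      (if h : (d : W) ∈ D then g' ⟨d, h⟩ else freeCol hD g' (c' ⟨d, h⟩)) at h1
    rw [dif_pos d.2, dif_pos d.2] at h1
    exact congrArg Fin.val h1
  subst hg
  have hc : c = c' := by
    ext i
    have h1 := congrArg Prod.fst (hv i)
    change (if h : (i : W) ∈ D then g ⟨i, h⟩ else freeCol hD g (c ⟨i, h⟩)) =
      (if h : (i : W) ∈ D then g ⟨i, h⟩ else freeCol hD g (c' ⟨i, h⟩)) at h1
    rw [dif_neg i.2, dif_neg i.2] at h1
    exact congrArg Fin.val ((freeCol hD g).injective h1)
  have he : e = e' := by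
    ext v
    have h1 := congrArg Prod.snd (hv v)
    exact congrArg Fin.val h1
  rw [hc, he]

theorem card_copy_ge {D : Finset W} {u : ℕ} (hD : D.card = u) (w m : ℕ) :
    w.descFactorial u * (Nat.card (rest H D →g (⊤ : SimpleGraph (Fin (w - u)))) *
      m.descFactorial (Fintype.card W)) ≤
      Nat.card (Copy H (completeEquipartiteGraph w m)) := by
  refine le_trans (le_of_eq ?_) (Nat.card_le_card_of_injective _ (mkCopy_inj (H := H) hD))
  rw [Nat.card_prod, Nat.card_prod, Nat.card_eq_fintype_card (α := (D ↪ Fin w)),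
    Nat.card_eq_fintype_card (α := (W ↪ Fin m)), Fintype.card_embedding_eq,
    Fintype.card_embedding_eq, Fintype.card_fin, Fintype.card_fin, Fintype.card_coe, hD]

/-- the number of proper colourings of `H` -/
theorem card_col {D : Finset W} {u : ℕ} (hD : D.card = u)
    (hdom : ∀ v ∈ D, ∀ w, w ≠ v → H.Adj v w) (w : ℕ) :
    Nat.card (H →g (⊤ : SimpleGraph (Fin w))) =
      w.descFactorial u * Nat.card (rest H D →g (⊤ : SimpleGraph (Fin (w - u)))) := by
  let F : (D ↪ Fin w) × (rest H D →g (⊤ : SimpleGraph (Fin (w - u)))) →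
      (H →g (⊤ : SimpleGraph (Fin w))) := fun z =>
    ⟨fun v => if h : v ∈ D then z.1 ⟨v, h⟩ else freeCol hD z.1 (z.2 ⟨v, h⟩), by
    intro a b hab
    rw [top_adj]
    by_cases ha : a ∈ D <;> by_cases hb : b ∈ D
    · rw [dif_pos ha, dif_pos hb]
      intro h
      exact hab.ne (congrArg Subtype.val (z.1.injective h))
    · rw [dif_pos ha, dif_neg hb]
      exact (freeCol_ne hD z.1 _ _).symm
    · rw [dif_neg ha, dif_pos hb]
      exact freeCol_ne hD z.1 _ _
    · rw [dif_neg ha, dif_neg hb]
      intro h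
      have h1 := (freeCol hD z.1).injective h
      have h2 : (rest H D).Adj ⟨a, ha⟩ ⟨b, hb⟩ := hab
      exact (z.2.map_adj h2) h1⟩
  have hF : ∀ z v, F z v = if h : v ∈ D then z.1 ⟨v, h⟩ else freeCol hD z.1 (z.2 ⟨v, h⟩) :=
    fun _ _ => rfl
  have hbij : Function.Bijective F := by
    constructor
    · rintro ⟨g, c⟩ ⟨g', c'⟩ h
      have hv : ∀ v, F (g, c) v = F (g', c') v := fun v => by rw [h]
      have hg : g = g' := by
        ext d
        have h1 := hv d
        rw [hF, hF, dif_pos d.2, dif_pos d.2] at h1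
        exact congrArg Fin.val h1
      subst hg
      have hc : c = c' := by
        ext i
        have h1 := hv i
        rw [hF, hF, dif_neg i.2, dif_neg i.2] at h1
        exact congrArg Fin.val ((freeCol hD g).injective h1)
      rw [hc]
    · intro c
      let g : D ↪ Fin w := ⟨fun d => c d, fun a b h => by
        by_contra hne
        have hne' : (b : W) ≠ a := fun h => hne (Subtype.ext h.symm)
        exact (c.map_adj (hdom a a.2 b hne')) h⟩
      have hrange : ∀ i : {v : W // v ∉ D}, ∃ j, freeCol hD g j = c i := by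
        intro i
        have h1 : c i ∈ (univ \ univ.image g : Finset (Fin w)) := by
          rw [mem_sdiff]
          refine ⟨mem_univ _, fun h => ?_⟩
          rw [mem_image] at h
          obtain ⟨d, _, hd⟩ := h
          have hne : (i : W) ≠ d := fun h => i.2 (h ▸ d.2)
          exact (c.map_adj (hdom d d.2 i hne)) hd
        have h2 : c i ∈ Set.range ((univ \ univ.image g : Finset (Fin w)).orderEmbOfFin (by
            rw [card_sdiff_of_subset (subset_univ _), card_image_of_injective _ g.injective,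
              card_univ, Fintype.card_fin, card_univ, Fintype.card_coe, hD] :
              (univ \ univ.image g : Finset (Fin w)).card = w - u)) := by
          rw [range_orderEmbOfFin]
          exact h1
        exact h2
      choose c' hc' using hrange
      refine ⟨(g, ⟨c', ?_⟩), ?_⟩
      · intro a b hab
        rw [top_adj]
        intro h
        have h1 : c a = c b := by rw [← hc', ← hc', h]
        have h2 : H.Adj (a : W) (b : W) := hab
        exact (c.map_adj h2) h1
      · ext v
        rw [hF]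
        by_cases hv : v ∈ D
        · rw [dif_pos hv]
          rfl
        · rw [dif_neg hv]
          exact congrArg Fin.val (hc' ⟨v, hv⟩)
  rw [← Nat.card_eq_of_bijective F hbij, Nat.card_prod,
    Nat.card_eq_fintype_card (α := (D ↪ Fin w)), Fintype.card_embedding_eq,
    Fintype.card_fin, Fintype.card_coe, hD]

end lower

end MP5cc280
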