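import Pool.Agent.H.MP_5cc280_co.Ex

/-!
# Homomorphism densities: the deviation from the complete graph
-/

namespace MP5cc280

open Finset SimpleGraph

section Dev

variable {ι V : Type*} [Fintype ι] [Fintype V] [DecidableEq ι] [DecidableEq V]
  (G : SimpleGraph V) [DecidableRel G.Adj] (p : V → ℝ)

/-- the weighted graph `(G, p)` is close to `K_κ` with uniform weights: `D` measures the distance -/
structure Mod (κ A C D : ℝ) : Prop where
  nn : ∀ v, 0 ≤ p v
  one : ∑ v, p v = 1
  kap : 1 ≤ κ
  A0 : 0 ≤ A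
  C1 : 1 ≤ C
  hD : ∑ v, p v * zf G p κ v = D
  D0 : 0 ≤ D
  hZ : ∑ v, p v * zf G p κ v ^ 2 ≤ A * D
  hX : κ ^ 2 * chy G p univ ≤ A * D
  hC : ∀ v, 0 < p v → |zf G p κ v| ≤ C

variable {G p} {κ A C D : ℝ}

theorem Mod.chy_le (M : Mod G p κ A C D) : chy G p univ ≤ A * D / κ / κ := by
  have hκ : 0 < κ := lt_of_lt_of_le one_pos M.kap
  rw [div_div, le_div_iff₀ (by positivity)]
  have := M.hX
  nlinarith

theorem dev_half {a κ : ℝ} (ha : 0 ≤ a) (hκ : 1 ≤ κ) : a / κ ≤ a :=
  div_le_self ha hκ

theorem dev_z (M : Mod G p κ A C D) : ∀ (m : ℕ) (J : ι → ι → Prop), (sp J).card ≤ m → ∀ k : ι,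
    |Ex p (fun x => Bp G J x * zf G p κ (x k))| ≤
      (1 + m * (A + 2 * C * Fintype.card ι * A)) * D ∧
    ((sp J).Nonempty → |Ex p (fun x => Bp G J x * zf G p κ (x k))| ≤
      (1 + m * (A + 2 * C * Fintype.card ι * A)) * D / κ) := by
  have hκ : 0 < κ := lt_of_lt_of_le one_pos M.kap
  have hA := M.A0
  have hC1 := M.C1
  have hD0 := M.D0
  set L : ℝ := A + 2 * C * Fintype.card ι * A with hL
  have hL0 : 0 ≤ L := by positivity
  have hempty : ∀ (J : ι → ι → Prop) (k : ι), sp J = ∅ →
      |Ex p (fun x => Bp G J x * zf G p κ (x k))| = D := by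
    intro J k hJ
    have e : (fun x : ι → V => Bp G J x * zf G p κ (x k)) = fun x => zf G p κ (x k) := by
      funext x
      rw [Bp_of_sp_empty hJ, one_mul]
    rw [e, Ex_coord M.one k (fun v => zf G p κ v), M.hD, abs_of_nonneg M.D0]
  intro m
  induction m with
  | zero =>
    intro J hJ k
    have h0 : sp J = ∅ := card_eq_zero.1 (by omega)
    refine ⟨?_, fun hne => ?_⟩
    · rw [hempty J k h0]
      simp
    · rw [h0] at hne
      exact absurd hne (by simp)
  | succ m ih =>
    intro J hJ k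
    rcases (sp J).eq_empty_or_nonempty with h0 | hne
    · refine ⟨?_, fun hne => ?_⟩
      · rw [hempty J k h0]
        have : 0 ≤ ((m + 1 : ℕ) : ℝ) * L * D := by positivity
        linarith
      · rw [h0] at hne
        exact absurd hne (by simp)
    · have key : |Ex p (fun x => Bp G J x * zf G p κ (x k))| ≤
          (1 + ((m + 1 : ℕ) : ℝ) * L) * D / κ := by
        obtain ⟨i, j, hij, hik, hJij⟩ : ∃ i j : ι, i ≠ j ∧ i ≠ k ∧ (J i j ∨ J j i) := by
          obtain ⟨a, ha⟩ := hne
          obtain ⟨b, hb, hab⟩ := mem_sp.1 ha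
          by_cases hak : a = k
          · exact ⟨b, a, hb, fun h => hb (h.trans hak.symm), hab.symm⟩
          · exact ⟨a, b, hb.symm, hak, hab⟩
        have hstep := Ex_step (G := G) M.nn M.one hκ hij hJij (g := fun x => zf G p κ (x k))
          (C := C) (by linarith) (fun x w => by
            change zf G p κ (Function.update x i w k) = zf G p κ (x k)
            rw [Function.update_of_ne hik.symm]) (fun x hx => M.hC _ (hx k))
        have hlt := sp_mrg hij hJij
        have h1 := (ih (mrg J i j) (by omega) k).1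
        have h2 : |Ex p (fun x => Bp G (mrg J i j) x * (zf G p κ (x k) * zf G p κ (x j)))| ≤
            A * D := by
          have h3 := Ex_abs_le (p := p) M.nn
            (f := fun x => Bp G (mrg J i j) x * (zf G p κ (x k) * zf G p κ (x j)))
            (g := fun x => 1 / 2 * (zf G p κ (x k) ^ 2 + zf G p κ (x j) ^ 2)) (fun x _ => by
              rw [abs_mul, abs_of_nonneg (Bp_nonneg _ _)]
              have b1 := Bp_le_one (G := G) (mrg J i j) x
              have b2 : |zf G p κ (x k) * zf G p κ (x j)| ≤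
                  1 / 2 * (zf G p κ (x k) ^ 2 + zf G p κ (x j) ^ 2) := by
                rw [abs_le]
                constructor <;> nlinarith [sq_nonneg (zf G p κ (x k) + zf G p κ (x j)),
                  sq_nonneg (zf G p κ (x k) - zf G p κ (x j))]
              have b3 := Bp_nonneg (G := G) (mrg J i j) x
              have b4 := abs_nonneg (zf G p κ (x k) * zf G p κ (x j))
              calc Bp G (mrg J i j) x * |zf G p κ (x k) * zf G p κ (x j)| ≤
                  1 * |zf G p κ (x k) * zf G p κ (x j)| :=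
                    mul_le_mul_of_nonneg_right b1 b4
                _ ≤ _ := by rw [one_mul]; exact b2)
          rw [Ex_mul, Ex_add, Ex_coord M.one k (fun v => zf G p κ v ^ 2),
            Ex_coord M.one j (fun v => zf G p κ v ^ 2)] at h3
          have := M.hZ
          linarith
        have h4 := M.chy_le
        set E := Ex p (fun x => Bp G J x * zf G p κ (x k)) with hE
        set E1 := Ex p (fun x => Bp G (mrg J i j) x * zf G p κ (x k)) with hE1
        set E2 := Ex p (fun x => Bp G (mrg J i j) x * (zf G p κ (x k) * zf G p κ (x j))) with hE2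
        have h5 : |E| ≤ |E - (E1 + E2) / κ| + |(E1 + E2) / κ| := by
          have := abs_add_le (E - (E1 + E2) / κ) ((E1 + E2) / κ)
          rwa [sub_add_cancel] at this
        have h6 : |(E1 + E2) / κ| ≤ ((1 + m * L) * D + A * D) / κ := by
          rw [abs_div, abs_of_pos hκ]
          exact div_le_div_of_nonneg_right ((abs_add_le _ _).trans (add_le_add h1 h2)) hκ.le
        have h7 : C * (2 * Fintype.card ι * chy G p univ) ≤
            2 * C * Fintype.card ι * A * D / κ := by
          have h8 : A * D / κ / κ ≤ A * D / κ := dev_half (by positivity) M.kap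
          have h9 : 2 * C * Fintype.card ι * chy G p univ ≤
              2 * C * Fintype.card ι * (A * D / κ) :=
            mul_le_mul_of_nonneg_left (h4.trans h8) (by positivity)
          calc C * (2 * Fintype.card ι * chy G p univ) =
              2 * C * Fintype.card ι * chy G p univ := by ring
            _ ≤ 2 * C * Fintype.card ι * (A * D / κ) := h9
            _ = 2 * C * Fintype.card ι * A * D / κ := by ring
        have h10 : 2 * C * Fintype.card ι * A * D / κ + ((1 + m * L) * D + A * D) / κ =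
            (1 + ((m + 1 : ℕ) : ℝ) * L) * D / κ := by
          rw [hL]
          push_cast
          ring
        linarith
      refine ⟨key.trans (dev_half ?_ M.kap), fun _ => key⟩
      positivity

/-- the complete graph with uniform weights -/
theorem top_del (n : ℕ) (hn : 0 < n) (v : Fin n) :
    del (⊤ : SimpleGraph (Fin n)) (fun _ => 1 / (n : ℝ)) univ v = 1 / n := by
  unfold del
  rw [sum_eq_single v]
  · rw [nb_self, one_mul]
  · intro w _ hw
    rw [nb_of_adj ((top_adj _ _).2 hw.symm), zero_mul]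
  · intro h
    exact absurd (mem_univ v) h

theorem top_sum (n : ℕ) (hn : 0 < n) : ∑ _v : Fin n, 1 / (n : ℝ) = 1 := by
  rw [sum_const, card_univ, Fintype.card_fin, nsmul_eq_mul, mul_one_div_cancel]
  exact_mod_cast hn.ne'

theorem top_zf (n : ℕ) (hn : 0 < n) (v : Fin n) :
    zf (⊤ : SimpleGraph (Fin n)) (fun _ => 1 / (n : ℝ)) n v = 0 := by
  unfold zf
  rw [top_del n hn, mul_one_div_cancel, sub_self]
  exact_mod_cast hn.ne'

theorem top_chy (n : ℕ) :
    chy (⊤ : SimpleGraph (Fin n)) (fun _ => 1 / (n : ℝ)) univ = 0 := by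
  unfold chy
  refine sum_eq_zero fun x _ => sum_eq_zero fun v _ => sum_eq_zero fun w _ => ?_
  by_cases h1 : x = v
  · by_cases h2 : x = w
    · subst h1
      subst h2
      rw [nb_self]
      ring
    · rw [nb_of_adj ((top_adj x w).2 h2)]
      ring
  · rw [nb_of_adj ((top_adj x v).2 h1)]
    ring

theorem top_mod (n : ℕ) (hn : 0 < n) {A C : ℝ} (hA : 0 ≤ A) (hC : 1 ≤ C) :
    Mod (⊤ : SimpleGraph (Fin n)) (fun _ => 1 / (n : ℝ)) n A C 0 where
  nn := fun _ => by positivity
  one := top_sum n hn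
  kap := by exact_mod_cast hn
  A0 := hA
  C1 := hC
  hD := by
    refine sum_eq_zero fun v _ => ?_
    rw [top_zf n hn, mul_zero]
  D0 := le_rfl
  hZ := by
    rw [mul_zero]
    refine le_of_eq (sum_eq_zero fun v _ => ?_)
    rw [top_zf n hn]
    ring
  hX := by
    rw [top_chy]
    simp
  hC := fun v _ => by
    rw [top_zf n hn, abs_zero]
    linarith

theorem top_step (n : ℕ) (hn : 0 < n) {J : ι → ι → Prop} {i j : ι} (hij : i ≠ j)
    (hJ : J i j ∨ J j i) :
    Ex (fun _ : Fin n => 1 / (n : ℝ)) (fun x => Bp ⊤ J x) =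
      Ex (fun _ : Fin n => 1 / (n : ℝ)) (fun x => Bp ⊤ (mrg J i j) x) / n := by
  have hn' : (0 : ℝ) < n := by exact_mod_cast hn
  have h := Ex_step (G := (⊤ : SimpleGraph (Fin n))) (p := fun _ => 1 / (n : ℝ))
    (fun _ => by positivity) (top_sum n hn) hn' hij hJ (g := fun _ => 1) (C := 1)
    zero_le_one (fun _ _ => rfl) (fun _ _ => by simp)
  rw [top_chy, mul_zero, mul_zero] at h
  simp only [mul_one, one_mul, top_zf n hn, mul_zero] at h
  rw [Ex_const (top_sum n hn), add_zero] at h
  have := abs_nonpos_iff.1 h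
  linarith

variable {n : ℕ}

variable (G p n) in
/-- deviation of the pattern density -/
noncomputable def dv (J : ι → ι → Prop) : ℝ :=
  Ex p (fun x => Bp G J x) - Ex (fun _ : Fin n => 1 / (n : ℝ)) (fun x => Bp ⊤ J x)

/-- one reduction step for the deviation -/
theorem dv_step (hn : 0 < n) (M : Mod G p n A C D) {J : ι → ι → Prop} {i j : ι} (hij : i ≠ j)
    (hJ : J i j ∨ J j i) :
    |dv G p n J| ≤ |dv G p n (mrg J i j)| / n +
      |Ex p (fun x => Bp G (mrg J i j) x * zf G p n (x j))| / n +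
      2 * Fintype.card ι * A * D / n / n := by
  have hn' : (0 : ℝ) < n := by exact_mod_cast hn
  have hstep := Ex_step (G := G) M.nn M.one hn' hij hJ (g := fun _ => 1)
    (C := 1) zero_le_one (fun _ _ => rfl) (fun _ _ => by simp)
  simp only [mul_one, one_mul] at hstep
  have h4 := M.chy_le
  have h5 : 2 * Fintype.card ι * chy G p univ ≤ 2 * Fintype.card ι * A * D / n / n := by
    calc 2 * Fintype.card ι * chy G p univ ≤ 2 * Fintype.card ι * (A * D / n / n) :=
          mul_le_mul_of_nonneg_left h4 (by positivity)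
      _ = _ := by ring
  unfold dv
  rw [top_step n hn hij hJ]
  set E := Ex p (fun x => Bp G J x) with hE
  set E1 := Ex p (fun x => Bp G (mrg J i j) x) with hE1
  set E2 := Ex p (fun x => Bp G (mrg J i j) x * zf G p n (x j)) with hE2
  set E0 := Ex (fun _ : Fin n => 1 / (n : ℝ)) (fun x => Bp ⊤ (mrg J i j) x) with hE0
  have e : E - E0 / n = (E - (E1 + E2) / n) + ((E1 - E0) / n + E2 / n) := by ring
  rw [e]
  refine (abs_add_le _ _).trans ?_
  have h6 : |(E1 - E0) / n + E2 / n| ≤ |E1 - E0| / n + |E2| / n := by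
    refine (abs_add_le _ _).trans (le_of_eq ?_)
    rw [abs_div, abs_div, abs_of_pos hn']
  linarith

variable (ι A C) in
/-- constants -/
noncomputable def cK : ℝ := 1 + Fintype.card ι * (A + 2 * C * Fintype.card ι * A)

variable (ι A C) in
/-- constants -/
noncomputable def cL : ℝ := cK ι A C + 2 * Fintype.card ι * A

variable (ι A C) in
/-- constants -/
noncomputable def cM : ℝ := Fintype.card ι * cL ι A C + cK ι A C + 2 * Fintype.card ι * A

theorem cK_pos (hA : 0 ≤ A) (hC : 1 ≤ C) : 0 < cK ι A C := by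
  unfold cK
  positivity

theorem cL_pos (hA : 0 ≤ A) (hC : 1 ≤ C) : 0 < cL ι A C := by
  unfold cL
  have := cK_pos (ι := ι) hA hC
  positivity

theorem cM_pos (hA : 0 ≤ A) (hC : 1 ≤ C) : 0 < cM ι A C := by
  unfold cM
  have := cK_pos (ι := ι) hA hC
  have := cL_pos (ι := ι) hA hC
  positivity

theorem dev_z' (M : Mod G p κ A C D) (J : ι → ι → Prop) (k : ι) :
    |Ex p (fun x => Bp G J x * zf G p κ (x k))| ≤ cK ι A C * D ∧
    ((sp J).Nonempty → |Ex p (fun x => Bp G J x * zf G p κ (x k))| ≤ cK ι A C * D / κ) := by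
  have h := dev_z M (Fintype.card ι) J (card_le_univ _) k
  exact h

theorem dev_a (hn : 0 < n) (M : Mod G p n A C D) : ∀ (m : ℕ) (J : ι → ι → Prop),
    (sp J).card ≤ m → |dv G p n J| ≤ m * cL ι A C * D / n := by
  have hn' : (0 : ℝ) < n := by exact_mod_cast hn
  have hA := M.A0
  have hC1 := M.C1
  have hD0 := M.D0
  have hK := cK_pos (ι := ι) hA hC1
  have hL := cL_pos (ι := ι) hA hC1
  have hempty : ∀ (J : ι → ι → Prop), sp J = ∅ → dv G p n J = 0 := by
    intro J hJ
    unfold dv
    have e1 : (fun x : ι → V => Bp G J x) = fun _ => 1 := by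
      funext x
      rw [Bp_of_sp_empty hJ]
    have e2 : (fun x : ι → Fin n => Bp ⊤ J x) = fun _ => 1 := by
      funext x
      rw [Bp_of_sp_empty hJ]
    rw [e1, e2, Ex_one M.one, Ex_one (top_sum n hn), sub_self]
  intro m
  induction m with
  | zero =>
    intro J hJ
    have h0 : sp J = ∅ := card_eq_zero.1 (by omega)
    rw [hempty J h0]
    simp
  | succ m ih =>
    intro J hJ
    rcases (sp J).eq_empty_or_nonempty with h0 | ⟨a, ha⟩
    · rw [hempty J h0, abs_zero]
      positivity
    · obtain ⟨b, hb, hab⟩ := mem_sp.1 ha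
      have h1 := dv_step hn M hb.symm hab
      have hlt := sp_mrg hb.symm hab
      have h2 := ih (mrg J a b) (by omega)
      have h3 := (dev_z' M (mrg J a b) b).1
      have h4 : |dv G p n (mrg J a b)| / n ≤ m * cL ι A C * D / n :=
        (dev_half (abs_nonneg _) M.kap).trans h2
      have h5 : |Ex p (fun x => Bp G (mrg J a b) x * zf G p n (x b))| / n ≤
          cK ι A C * D / n := div_le_div_of_nonneg_right h3 hn'.le
      have h6 : 2 * Fintype.card ι * A * D / n / n ≤ 2 * Fintype.card ι * A * D / n :=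
        dev_half (by positivity) M.kap
      have e : ((m + 1 : ℕ) : ℝ) * cL ι A C * D / n = m * cL ι A C * D / n +
          cK ι A C * D / n + 2 * Fintype.card ι * A * D / n := by
        unfold cL
        push_cast
        ring
      rw [e]
      linarith

/-- the pattern has two different proper edges -/
def two (J : ι → ι → Prop) : Prop :=
  ∃ a b c d : ι, a ≠ b ∧ (J a b ∨ J b a) ∧ c ≠ d ∧ (J c d ∨ J d c) ∧
    ¬ (c = a ∧ d = b) ∧ ¬ (c = b ∧ d = a)

theorem dev_b (hn : 0 < n) (M : Mod G p n A C D) {J : ι → ι → Prop} (hJ : two J) :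
    |dv G p n J| ≤ cM ι A C * D / n / n := by
  have hn' : (0 : ℝ) < n := by exact_mod_cast hn
  obtain ⟨a, b, c, d, hab, hJab, hcd, hJcd, h1, h2⟩ := hJ
  have hne : (sp (mrg J a b)).Nonempty := by
    by_cases hca : c = a
    · subst hca
      have hdb : d ≠ b := fun h => h1 ⟨rfl, h⟩
      exact ⟨b, mem_sp.2 ⟨d, hdb, Or.inl (Or.inr ⟨rfl, hcd.symm, hJcd⟩)⟩⟩
    · by_cases hda : d = a
      · subst hda
        have hcb : c ≠ b := fun h => h2 ⟨h, rfl⟩
        exact ⟨b, mem_sp.2 ⟨c, hcb, Or.inl (Or.inr ⟨rfl, hcd, hJcd.symm⟩)⟩⟩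
      · refine ⟨c, mem_sp.2 ⟨d, hcd.symm, ?_⟩⟩
        rcases hJcd with h | h
        · exact Or.inl (Or.inl ⟨h, hca, hda⟩)
        · exact Or.inr (Or.inl ⟨h, hda, hca⟩)
  have h3 := dv_step hn M hab hJab
  have h4 := dev_a hn M (Fintype.card ι) (mrg J a b) (card_le_univ _)
  have h5 := (dev_z' M (mrg J a b) b).2 hne
  have h6 : |dv G p n (mrg J a b)| / n ≤ Fintype.card ι * cL ι A C * D / n / n :=
    div_le_div_of_nonneg_right h4 hn'.le
  have h7 : |Ex p (fun x => Bp G (mrg J a b) x * zf G p n (x b))| / n ≤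
      cK ι A C * D / n / n := div_le_div_of_nonneg_right h5 hn'.le
  have e : cM ι A C * D / n / n = Fintype.card ι * cL ι A C * D / n / n +
      cK ι A C * D / n / n + 2 * Fintype.card ι * A * D / n / n := by
    unfold cM
    ring
  rw [e]
  linarith

/-- adding an edge to a pattern -/
def adde (J : ι → ι → Prop) (e : ι × ι) (a b : ι) : Prop := J a b ∨ (a = e.1 ∧ b = e.2)

theorem Bp_adde (J : ι → ι → Prop) (e : ι × ι) (x : ι → V) :
    Bp G (adde J e) x = Bp G J x * nb G (x e.1) (x e.2) := by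
  by_cases h : G.Adj (x e.1) (x e.2)
  · rw [nb_of_adj h, mul_zero]
    unfold Bp
    rw [if_neg]
    intro hc
    exact hc e.1 e.2 (Or.inr ⟨rfl, rfl⟩) h
  · have h1 : nb G (x e.1) (x e.2) = 1 := if_neg h
    rw [h1, mul_one]
    refine Bp_congr ⟨fun hc a b hab => hc a b (Or.inl hab), fun hc a b hab => ?_⟩
    rcases hab with hab | ⟨rfl, rfl⟩
    · exact hc a b hab
    · exact h

/-- the empty pattern -/
def noJ : ι → ι → Prop := fun _ _ => False

theorem Bp_no (x : ι → V) : Bp G noJ x = 1 := by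
  unfold Bp
  rw [if_pos]
  intro a b h
  exact h.elim

theorem dev_one (hκ : 0 < κ) (M : Mod G p κ A C D) {e : ι × ι} (he : e.1 ≠ e.2) :
    Ex p (fun x => Bp G (adde noJ e) x) = (1 + D) / κ := by
  have h1 : (fun x : ι → V => Bp G (adde noJ e) x) = fun x => 1 * nb G (x e.1) (x e.2) := by
    funext x
    rw [Bp_adde, Bp_no]
  rw [h1, Ex_nb (G := G) M.one he (F := fun _ => 1) (fun _ _ => rfl)]
  simp only [one_mul]
  rw [Ex_coord M.one e.2 (fun v => del G p univ v), eq_div_iff hκ.ne']
  have h2 : ∑ v, p v * zf G p κ v = κ * ∑ v, p v * del G p univ v - ∑ v, p v := by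
    rw [mul_sum, ← sum_sub_distrib]
    refine sum_congr rfl fun v _ => ?_
    unfold zf
    ring
  rw [M.hD, M.one] at h2
  linarith

theorem dev_c (hn : 0 < n) (M : Mod G p n A C D) {e : ι × ι} (he : e.1 ≠ e.2) :
    dv G p n (adde noJ e) = D / n := by
  have hn' : (0 : ℝ) < n := by exact_mod_cast hn
  unfold dv
  rw [dev_one hn' M he, dev_one hn' (top_mod n hn M.A0 M.C1) he]
  ring

variable (G) in
/-- indicator that all the pairs of the list are adjacent -/
def AE (Es : List (ι × ι)) (x : ι → V) : ℝ := (Es.map fun e => 1 - nb G (x e.1) (x e.2)).prod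

variable (G p n) in
/-- deviation with a list of adjacencies -/
noncomputable def dvA (J : ι → ι → Prop) (Es : List (ι × ι)) : ℝ :=
  Ex p (fun x => Bp G J x * AE G Es x) -
    Ex (fun _ : Fin n => 1 / (n : ℝ)) (fun x => Bp ⊤ J x * AE ⊤ Es x)

theorem dvA_nil (J : ι → ι → Prop) : dvA G p n J [] = dv G p n J := by
  unfold dvA dv AE
  simp

theorem Ex_AE_cons (J : ι → ι → Prop) (e : ι × ι) (Es : List (ι × ι)) :
    Ex p (fun x => Bp G J x * AE G (e :: Es) x) =
      Ex p (fun x => Bp G J x * AE G Es x) - Ex p (fun x => Bp G (adde J e) x * AE G Es x) := by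
  rw [← Ex_sub]
  congr 1
  funext x
  rw [Bp_adde]
  unfold AE
  rw [List.map_cons, List.prod_cons]
  ring

theorem dvA_cons (J : ι → ι → Prop) (e : ι × ι) (Es : List (ι × ι)) :
    dvA G p n J (e :: Es) = dvA G p n J Es - dvA G p n (adde J e) Es := by
  unfold dvA
  rw [Ex_AE_cons, Ex_AE_cons]
  ring

theorem two_adde {J : ι → ι → Prop} (h : two J) (e : ι × ι) : two (adde J e) := by
  obtain ⟨a, b, c, d, h1, h2, h3, h4, h5⟩ := h
  refine ⟨a, b, c, d, h1, ?_, h3, ?_, h5⟩
  · exact h2.imp Or.inl Or.inl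
  · exact h4.imp Or.inl Or.inl

theorem dvA_a (hn : 0 < n) (M : Mod G p n A C D) (Es : List (ι × ι)) :
    ∀ {J : ι → ι → Prop}, two J →
    |dvA G p n J Es| ≤ 2 ^ Es.length * (cM ι A C * D / n / n) := by
  induction Es with
  | nil =>
    intro J hJ
    rw [dvA_nil]
    simpa using dev_b hn M hJ
  | cons e Es ih =>
    intro J hJ
    rw [dvA_cons]
    refine (abs_sub _ _).trans ?_
    have h1 := ih hJ
    have h2 := ih (two_adde hJ e)
    rw [List.length_cons, pow_succ]
    linarith

/-- different unordered pairs -/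
def dif (e f : ι × ι) : Prop := ¬ (f.1 = e.1 ∧ f.2 = e.2) ∧ ¬ (f.1 = e.2 ∧ f.2 = e.1)

theorem dvA_b (hn : 0 < n) (M : Mod G p n A C D) {e : ι × ι} (he : e.1 ≠ e.2)
    (Es : List (ι × ι)) : (∀ f ∈ Es, f.1 ≠ f.2 ∧ dif e f) →
    |dvA G p n (adde noJ e) Es - D / n| ≤ (2 ^ Es.length - 1) * (cM ι A C * D / n / n) := by
  induction Es with
  | nil =>
    intro _
    rw [dvA_nil, dev_c hn M he]
    simp
  | cons f Es ih =>
    intro hEs
    rw [dvA_cons]
    have h1 := ih (fun g hg => hEs g (List.mem_cons_of_mem _ hg))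
    have hf := hEs f List.mem_cons_self
    have h2 := dvA_a hn M Es (J := adde (adde noJ e) f)
      ⟨e.1, e.2, f.1, f.2, he, Or.inl (Or.inl (Or.inr ⟨rfl, rfl⟩)), hf.1,
        Or.inl (Or.inr ⟨rfl, rfl⟩), hf.2.1, hf.2.2⟩
    have e1 : dvA G p n (adde noJ e) Es - dvA G p n (adde (adde noJ e) f) Es - D / n =
        (dvA G p n (adde noJ e) Es - D / n) - dvA G p n (adde (adde noJ e) f) Es := by ring
    rw [e1]
    refine (abs_sub _ _).trans ?_
    rw [List.length_cons, pow_succ]
    linarith

theorem dvA_c (hn : 0 < n) (M : Mod G p n A C D) (Es : List (ι × ι)) :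
    (∀ f ∈ Es, f.1 ≠ f.2) → Es.Pairwise dif →
    |dvA G p n (noJ : ι → ι → Prop) Es + Es.length * (D / n)| ≤
      2 ^ Es.length * (cM ι A C * D / n / n) := by
  have hD0 := M.D0
  have hpos : 0 ≤ cM ι A C * D / n / n := by
    have := cM_pos (ι := ι) M.A0 M.C1
    positivity
  induction Es with
  | nil =>
    intro _ _
    rw [dvA_nil]
    have h := dev_a hn M 0 (noJ : ι → ι → Prop) (by
      rw [Nat.le_zero, card_eq_zero, eq_empty_iff_forall_notMem]
      intro a ha
      obtain ⟨b, _, hb⟩ := mem_sp.1 ha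
      rcases hb with hb | hb
      · exact hb
      · exact hb)
    simp only [Nat.cast_zero, zero_mul, zero_div] at h
    simp only [List.length_nil, Nat.cast_zero, zero_mul, add_zero, pow_zero, one_mul]
    linarith
  | cons f Es ih =>
    intro hEs hpw
    rw [List.pairwise_cons] at hpw
    rw [dvA_cons]
    have h1 := ih (fun g hg => hEs g (List.mem_cons_of_mem _ hg)) hpw.2
    have h2 := dvA_b hn M (hEs f List.mem_cons_self) Es (fun g hg =>
      ⟨hEs g (List.mem_cons_of_mem _ hg), hpw.1 g hg⟩)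
    have e1 : dvA G p n noJ Es - dvA G p n (adde noJ f) Es +
        ((f :: Es).length : ℕ) * (D / n) =
        (dvA G p n noJ Es + Es.length * (D / n)) - (dvA G p n (adde noJ f) Es - D / n) := by
      rw [List.length_cons]
      push_cast
      ring
    rw [e1]
    refine (abs_sub _ _).trans ?_
    rw [List.length_cons, pow_succ]
    linarith

/-- **Comparison.** -/
theorem dv_le (hn : 0 < n) (M : Mod G p n A C D) (Es : List (ι × ι))
    (h1 : ∀ f ∈ Es, f.1 ≠ f.2) (h2 : Es.Pairwise dif) (h3 : 0 < Es.length)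
    (h4 : 2 ^ Es.length * cM ι A C ≤ n) :
    Ex p (fun x => AE G Es x) ≤
      Ex (fun _ : Fin n => 1 / (n : ℝ)) (fun x => AE ⊤ Es x) := by
  have hn' : (0 : ℝ) < n := by exact_mod_cast hn
  have hD0 := M.D0
  have h := dvA_c hn M Es h1 h2
  have h5 : 2 ^ Es.length * (cM ι A C * D / n / n) ≤ D / n := by
    have e : 2 ^ Es.length * (cM ι A C * D / n / n) =
        (2 ^ Es.length * cM ι A C) / n * (D / n) := by ring
    rw [e]
    have h6 : (2 ^ Es.length * cM ι A C) / n ≤ 1 := by
      rw [div_le_one hn']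
      exact h4
    exact mul_le_of_le_one_left (by positivity) h6
  have h7 : (1 : ℝ) ≤ Es.length := by exact_mod_cast h3
  have h8 : D / n ≤ Es.length * (D / n) := by
    have : 0 ≤ D / (n : ℝ) := by positivity
    nlinarith
  have h9 := (abs_le.1 h).2
  have h10 : dvA G p n (noJ : ι → ι → Prop) Es ≤ 0 := by linarith
  unfold dvA at h10
  simp only [Bp_no, one_mul] at h10
  linarith

end Dev

end MP5cc280
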