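import Pool.Agent.H.MP_5cc280_co.CW

/-!
# Homomorphism densities: comparison with a complete graph

Expectations over independent random vertices, and the comparison of the densities of
non-adjacency patterns in a weighted graph with those in `K_κ` (uniform weights).
-/

namespace MP5cc280

open Finset SimpleGraph

section Ex

variable {ι V : Type*} [Fintype ι] [Fintype V] [DecidableEq ι] [DecidableEq V]

/-- expectation of `f` for independent random vertices with distribution `p` -/
def Ex (p : V → ℝ) (f : (ι → V) → ℝ) : ℝ := ∑ x : ι → V, (∏ i, p (x i)) * f x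

variable {p : V → ℝ}

theorem Ex_one (hp1 : ∑ v, p v = 1) : Ex p (fun _ : ι → V => (1 : ℝ)) = 1 := by
  unfold Ex
  simp only [mul_one]
  have h := Finset.prod_univ_sum (fun _ : ι => (univ : Finset V)) (fun _ v => p v)
  simp only [hp1, prod_const_one, Fintype.piFinset_univ] at h
  exact h.symm

theorem Ex_add (f g : (ι → V) → ℝ) : Ex p (fun x => f x + g x) = Ex p f + Ex p g := by
  unfold Ex
  rw [← sum_add_distrib]
  refine sum_congr rfl fun x _ => ?_
  ring

theorem Ex_sub (f g : (ι → V) → ℝ) : Ex p (fun x => f x - g x) = Ex p f - Ex p g := by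
  unfold Ex
  rw [← sum_sub_distrib]
  refine sum_congr rfl fun x _ => ?_
  ring

theorem Ex_mul (c : ℝ) (f : (ι → V) → ℝ) : Ex p (fun x => c * f x) = c * Ex p f := by
  unfold Ex
  rw [mul_sum]
  refine sum_congr rfl fun x _ => ?_
  ring

theorem Ex_sum {α : Type*} (s : Finset α) (f : α → (ι → V) → ℝ) :
    Ex p (fun x => ∑ a ∈ s, f a x) = ∑ a ∈ s, Ex p (f a) := by
  unfold Ex
  rw [sum_comm]
  refine sum_congr rfl fun x _ => ?_
  rw [mul_sum]

theorem Ex_const (hp1 : ∑ v, p v = 1) (c : ℝ) : Ex p (fun _ : ι → V => c) = c := by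
  have h := Ex_mul (p := p) c (fun _ : ι → V => (1 : ℝ))
  simpa only [mul_one, Ex_one hp1] using h

theorem Ex_le (hp : ∀ v, 0 ≤ p v) {f g : (ι → V) → ℝ}
    (h : ∀ x, (∀ i, 0 < p (x i)) → f x ≤ g x) : Ex p f ≤ Ex p g := by
  unfold Ex
  refine sum_le_sum fun x _ => ?_
  by_cases hx : ∀ i, 0 < p (x i)
  · exact mul_le_mul_of_nonneg_left (h x hx) (prod_nonneg fun i _ => hp _)
  · push Not at hx
    obtain ⟨i, hi⟩ := hx
    have h0 : p (x i) = 0 := le_antisymm hi (hp _)
    have h1 : ∏ i, p (x i) = 0 := prod_eq_zero (mem_univ i) h0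
    rw [h1]
    simp

theorem Ex_nonneg (hp : ∀ v, 0 ≤ p v) {f : (ι → V) → ℝ}
    (h : ∀ x, (∀ i, 0 < p (x i)) → 0 ≤ f x) : 0 ≤ Ex p f := by
  have h1 := Ex_le (p := p) hp (f := fun _ => 0) (g := f) h
  have h2 : Ex p (fun _ : ι → V => (0 : ℝ)) = 0 := by
    unfold Ex
    simp
  rwa [h2] at h1

theorem Ex_abs_le (hp : ∀ v, 0 ≤ p v) {f g : (ι → V) → ℝ}
    (h : ∀ x, (∀ i, 0 < p (x i)) → |f x| ≤ g x) : |Ex p f| ≤ Ex p g := by
  rw [abs_le]
  constructor
  · have h1 := Ex_le (p := p) hp (f := fun x => (-1) * g x) (g := f) (fun x hx => by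
      have := (abs_le.1 (h x hx)).1
      linarith)
    rw [Ex_mul] at h1
    linarith
  · exact Ex_le hp (fun x hx => (abs_le.1 (h x hx)).2)

/-- resampling one coordinate -/
theorem Ex_update (hp1 : ∑ v, p v = 1) (i : ι) (f : (ι → V) → ℝ) :
    Ex p (fun x => ∑ w, p w * f (Function.update x i w)) = Ex p f := by
  unfold Ex
  have h1 : ∑ x : ι → V, (∏ k, p (x k)) * ∑ w, p w * f (Function.update x i w) =
      ∑ z : (ι → V) × V, (∏ k, p (z.1 k)) * (p z.2 * f (Function.update z.1 i z.2)) := by
    rw [Fintype.sum_prod_type]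
    refine sum_congr rfl fun x _ => ?_
    rw [mul_sum]
  let F : (ι → V) × V → (ι → V) × V := fun z => (Function.update z.1 i z.2, z.1 i)
  have hF : Function.Involutive F := by
    rintro ⟨x, w⟩
    simp only [F, Function.update_idem, Function.update_self, Function.update_eq_self]
  rw [h1, ← Equiv.sum_comp (Function.Involutive.toPerm F hF)]
  have h2 : ∀ z : (ι → V) × V, (∏ k, p ((Function.Involutive.toPerm F hF z).1 k)) *
      (p (Function.Involutive.toPerm F hF z).2 * f (Function.update
        (Function.Involutive.toPerm F hF z).1 i (Function.Involutive.toPerm F hF z).2)) =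
      (∏ k, p (z.1 k)) * f z.1 * p z.2 := by
    rintro ⟨x, w⟩
    change (∏ k, p (Function.update x i w k)) *
      (p (x i) * f (Function.update (Function.update x i w) i (x i))) = _
    rw [Function.update_idem, Function.update_eq_self]
    have e1 : ∏ k, p (Function.update x i w k) = p w * ∏ k ∈ univ \ {i}, p (x k) := by
      have e2 : ∀ k, p (Function.update x i w k) =
          Function.update (fun k => p (x k)) i (p w) k := by
        intro k
        by_cases hk : k = i
        · subst hk
          simp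
        · rw [Function.update_of_ne hk, Function.update_of_ne hk]
      rw [Fintype.prod_congr _ _ e2, prod_update_of_mem (mem_univ i)]
    have e3 : ∏ k, p (x k) = p (x i) * ∏ k ∈ univ \ {i}, p (x k) := by
      rw [← prod_sdiff (subset_univ {i}), prod_singleton, mul_comm]
    rw [e1]
    simp only
    rw [e3]
    ring
  rw [Fintype.sum_congr _ _ h2, Fintype.sum_prod_type]
  refine sum_congr rfl fun x _ => ?_
  simp only
  rw [← mul_sum, hp1, mul_one]

theorem Ex_coord (hp1 : ∑ v, p v = 1) (i : ι) (F : V → ℝ) :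
    Ex p (fun x => F (x i)) = ∑ w, p w * F w := by
  rw [← Ex_update hp1 i]
  simp only [Function.update_self]
  exact Ex_const hp1 _

theorem Ex_three (hp1 : ∑ v, p v = 1) {i j l : ι} (hij : i ≠ j) (hil : i ≠ l) (hjl : j ≠ l)
    (F : V → V → V → ℝ) :
    Ex p (fun x => F (x i) (x j) (x l)) = ∑ a, ∑ b, ∑ c, p a * (p b * (p c * F a b c)) := by
  rw [← Ex_update hp1 l]
  have e1 : (fun x : ι → V => ∑ w, p w * F (Function.update x l w i) (Function.update x l w j)
      (Function.update x l w l)) = fun x => ∑ w, p w * F (x i) (x j) w := by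
    funext x
    refine sum_congr rfl fun w _ => ?_
    rw [Function.update_of_ne hil, Function.update_of_ne hjl, Function.update_self]
  rw [e1, ← Ex_update hp1 j]
  have e2 : (fun x : ι → V => ∑ v, p v * ∑ w, p w * F (Function.update x j v i)
      (Function.update x j v j) w) = fun x => ∑ v, p v * ∑ w, p w * F (x i) v w := by
    funext x
    refine sum_congr rfl fun v _ => ?_
    rw [Function.update_of_ne hij, Function.update_self]
  rw [e2, Ex_coord hp1 i (fun a => ∑ v, p v * ∑ w, p w * F a v w)]
  refine sum_congr rfl fun a _ => ?_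
  rw [mul_sum]
  refine sum_congr rfl fun b _ => ?_
  rw [mul_sum, mul_sum]

end Ex

section pattern

variable {ι V : Type*} [Fintype ι] [Fintype V] [DecidableEq ι] [DecidableEq V]
  (G : SimpleGraph V) [DecidableRel G.Adj] (p : V → ℝ)

open Classical in
/-- indicator of the pattern `J` of non-adjacencies -/
noncomputable def Bp (J : ι → ι → Prop) (x : ι → V) : ℝ :=
  if ∀ a b, J a b → ¬ G.Adj (x a) (x b) then 1 else 0

/-- the pattern obtained by merging `i` into `j` -/
def mrg (J : ι → ι → Prop) (i j : ι) (a b : ι) : Prop :=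
  (J a b ∧ a ≠ i ∧ b ≠ i) ∨ (a = j ∧ b ≠ i ∧ (J i b ∨ J b i))

variable {G p}

theorem Bp_nonneg (J : ι → ι → Prop) (x : ι → V) : 0 ≤ Bp G J x := by
  unfold Bp
  split_ifs <;> norm_num

theorem Bp_le_one (J : ι → ι → Prop) (x : ι → V) : Bp G J x ≤ 1 := by
  unfold Bp
  split_ifs <;> norm_num

theorem Bp_congr {J J' : ι → ι → Prop} {x x' : ι → V}
    (h : (∀ a b, J a b → ¬ G.Adj (x a) (x b)) ↔ (∀ a b, J' a b → ¬ G.Adj (x' a) (x' b))) :
    Bp G J x = Bp G J' x' := by
  unfold Bp
  split_ifs with h1 h2 h2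
  · rfl
  · exact absurd (h.1 h1) h2
  · exact absurd (h.2 h2) h1
  · rfl

theorem Bp_update {J : ι → ι → Prop} {i j : ι} (hij : i ≠ j) (x : ι → V) (w : V) :
    Bp G (mrg J i j) (Function.update x i w) = Bp G (mrg J i j) x := by
  have h : (∀ a b, mrg J i j a b → ¬ G.Adj (Function.update x i w a)
      (Function.update x i w b)) ↔ (∀ a b, mrg J i j a b → ¬ G.Adj (x a) (x b)) := by
    refine forall_congr' fun a => forall_congr' fun b => ?_
    refine imp_congr_right fun hab => ?_
    have h1 : a ≠ i ∧ b ≠ i := by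
      rcases hab with ⟨_, h2, h3⟩ | ⟨rfl, h3, _⟩
      · exact ⟨h2, h3⟩
      · exact ⟨hij.symm, h3⟩
    rw [Function.update_of_ne h1.1, Function.update_of_ne h1.2]
  exact Bp_congr h

/-- pointwise comparison of a pattern and the merged pattern -/
theorem Bp_merge {J : ι → ι → Prop} {i j : ι} (hJ : J i j ∨ J j i) (x : ι → V) :
    |Bp G J x - Bp G (mrg J i j) x * nb G (x i) (x j)| ≤
      ∑ l, (nb G (x i) (x j) * nb G (x i) (x l) * (1 - nb G (x j) (x l)) +
        nb G (x j) (x i) * nb G (x j) (x l) * (1 - nb G (x i) (x l))) := by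
  have hnn : ∀ l ∈ (univ : Finset ι), 0 ≤ nb G (x i) (x j) * nb G (x i) (x l) *
      (1 - nb G (x j) (x l)) + nb G (x j) (x i) * nb G (x j) (x l) *
      (1 - nb G (x i) (x l)) := by
    intro l _
    have h1 := nb_nonneg (G := G) (x i) (x j)
    have h2 := nb_nonneg (G := G) (x i) (x l)
    have h3 := nb_le_one (G := G) (x j) (x l)
    have h4 := nb_nonneg (G := G) (x j) (x i)
    have h5 := nb_nonneg (G := G) (x j) (x l)
    have h6 := nb_le_one (G := G) (x i) (x l)
    have h7 : 0 ≤ 1 - nb G (x j) (x l) := by linarith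
    have h8 : 0 ≤ 1 - nb G (x i) (x l) := by linarith
    positivity
  by_cases hadj : G.Adj (x i) (x j)
  · have h0 : nb G (x i) (x j) = 0 := nb_of_adj hadj
    have h1 : Bp G J x = 0 := by
      unfold Bp
      rw [if_neg]
      intro h
      rcases hJ with hJ | hJ
      · exact h i j hJ hadj
      · exact h j i hJ hadj.symm
    rw [h1, h0, mul_zero, sub_zero, abs_zero]
    rw [h0] at hnn
    exact sum_nonneg hnn
  · have h1 : nb G (x i) (x j) = 1 := if_neg hadj
    have h1' : nb G (x j) (x i) = 1 := by rw [nb_symm, h1]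
    by_cases hall : ∀ l, G.Adj (x i) (x l) ↔ G.Adj (x j) (x l)
    · have h2 : Bp G J x = Bp G (mrg J i j) x := by
        have h3 : (∀ a b, J a b → ¬ G.Adj (x a) (x b)) ↔
            (∀ a b, mrg J i j a b → ¬ G.Adj (x a) (x b)) := by
          constructor
          · intro h a b hab
            rcases hab with ⟨hab, _, _⟩ | ⟨rfl, _, hab⟩
            · exact h a b hab
            · rw [← hall]
              rcases hab with hab | hab
              · exact h i b hab
              · exact fun hc => h b i hab hc.symm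
          · intro h a b hab
            by_cases ha : a = i
            · subst ha
              by_cases hb : b = a
              · subst hb
                exact G.loopless.irrefl _
              · rw [hall]
                exact h j b (Or.inr ⟨rfl, hb, Or.inl hab⟩)
            · by_cases hb : b = i
              · subst hb
                intro hc
                have := (hall a).1 hc.symm
                exact h j a (Or.inr ⟨rfl, ha, Or.inr hab⟩) this
              · exact h a b (Or.inl ⟨hab, ha, hb⟩)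
        exact Bp_congr h3
      rw [h2, h1, mul_one, sub_self, abs_zero]
      rw [h1] at hnn
      exact sum_nonneg hnn
    · push Not at hall
      obtain ⟨l, hl⟩ := hall
      have h3 : (1 : ℝ) ≤ nb G (x i) (x j) * nb G (x i) (x l) *
          (1 - nb G (x j) (x l)) + nb G (x j) (x i) * nb G (x j) (x l) *
          (1 - nb G (x i) (x l)) := by
        rw [h1, h1']
        rcases hl with ⟨ha, hb⟩ | ⟨ha, hb⟩
        · have e1 : nb G (x i) (x l) = 0 := nb_of_adj ha
          have e2 : nb G (x j) (x l) = 1 := if_neg hb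
          rw [e1, e2]
          norm_num
        · have e1 : nb G (x i) (x l) = 1 := if_neg ha
          have e2 : nb G (x j) (x l) = 0 := nb_of_adj hb
          rw [e1, e2]
          norm_num
      have h4 := single_le_sum hnn (mem_univ l)
      have h5 : |Bp G J x - Bp G (mrg J i j) x * nb G (x i) (x j)| ≤ 1 := by
        rw [h1, mul_one, abs_le]
        have a1 := Bp_nonneg (G := G) J x
        have a2 := Bp_le_one (G := G) J x
        have a3 := Bp_nonneg (G := G) (mrg J i j) x
        have a4 := Bp_le_one (G := G) (mrg J i j) x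
        constructor <;> linarith
      linarith

theorem Ex_cherry (hp : ∀ v, 0 ≤ p v) (hp1 : ∑ v, p v = 1) {i j : ι} (hij : i ≠ j) (l : ι) :
    Ex p (fun x => nb G (x i) (x j) * nb G (x i) (x l) * (1 - nb G (x j) (x l))) ≤
      chy G p univ := by
  have hX : 0 ≤ chy G p univ := by
    refine sum_nonneg fun x _ => sum_nonneg fun v _ => sum_nonneg fun w _ => ?_
    have h1 := nb_nonneg (G := G) x v
    have h2 := nb_nonneg (G := G) x w
    have h3 := nb_le_one (G := G) v w
    have h4 := hp x
    have h5 := hp v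
    have h6 := hp w
    have h7 : 0 ≤ 1 - nb G v w := by linarith
    positivity
  by_cases hlj : l = j
  · subst hlj
    have e : (fun x : ι → V => nb G (x i) (x l) * nb G (x i) (x l) *
        (1 - nb G (x l) (x l))) = fun _ => 0 := by
      funext x
      rw [nb_self]
      ring
    rw [e, Ex_const hp1]
    exact hX
  · by_cases hli : l = i
    · subst hli
      have e : (fun x : ι → V => nb G (x l) (x j) * nb G (x l) (x l) *
          (1 - nb G (x j) (x l))) = fun _ => 0 := by
        funext x
        rw [nb_self, nb_symm (x j) (x l)]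
        unfold nb
        split_ifs <;> norm_num
      rw [e, Ex_const hp1]
      exact hX
    · rw [Ex_three hp1 hij (Ne.symm hli) (Ne.symm hlj)
        (fun a b c => nb G a b * nb G a c * (1 - nb G b c)), chy]
      refine le_of_eq ?_
      refine sum_congr rfl fun a _ => ?_
      refine sum_congr rfl fun b _ => ?_
      refine sum_congr rfl fun c _ => ?_
      ring

/-- replacing a pattern by the merged pattern -/
theorem Ex_err (hp : ∀ v, 0 ≤ p v) (hp1 : ∑ v, p v = 1) {J : ι → ι → Prop} {i j : ι}
    (hij : i ≠ j) (hJ : J i j ∨ J j i) {g : (ι → V) → ℝ} {C : ℝ} (hC0 : 0 ≤ C)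
    (hC : ∀ x, (∀ k, 0 < p (x k)) → |g x| ≤ C) :
    |Ex p (fun x => Bp G J x * g x) -
      Ex p (fun x => Bp G (mrg J i j) x * g x * nb G (x i) (x j))| ≤
      C * (2 * Fintype.card ι * chy G p univ) := by
  rw [← Ex_sub]
  have h1 := Ex_abs_le (p := p) hp
    (f := fun x => Bp G J x * g x - Bp G (mrg J i j) x * g x * nb G (x i) (x j))
    (g := fun x => C * ∑ l, (nb G (x i) (x j) * nb G (x i) (x l) * (1 - nb G (x j) (x l)) +
        nb G (x j) (x i) * nb G (x j) (x l) * (1 - nb G (x i) (x l)))) (fun x hx => by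
      have e : Bp G J x * g x - Bp G (mrg J i j) x * g x * nb G (x i) (x j) =
          (Bp G J x - Bp G (mrg J i j) x * nb G (x i) (x j)) * g x := by ring
      rw [e, abs_mul, mul_comm C]
      exact mul_le_mul (Bp_merge hJ x) (hC x hx) (abs_nonneg _)
        ((abs_nonneg _).trans (Bp_merge hJ x)))
  refine h1.trans ?_
  rw [Ex_mul, Ex_sum]
  refine mul_le_mul_of_nonneg_left ?_ hC0
  have h2 : ∀ l ∈ (univ : Finset ι), Ex p (fun x : ι → V => nb G (x i) (x j) *
      nb G (x i) (x l) * (1 - nb G (x j) (x l)) +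
        nb G (x j) (x i) * nb G (x j) (x l) * (1 - nb G (x i) (x l))) ≤
      chy G p univ + chy G p univ := by
    intro l _
    rw [Ex_add]
    exact add_le_add (Ex_cherry hp hp1 hij l) (Ex_cherry hp hp1 hij.symm l)
  refine (sum_le_sum h2).trans (le_of_eq ?_)
  rw [sum_const, card_univ, nsmul_eq_mul]
  ring

theorem Ex_nb (hp1 : ∑ v, p v = 1) {i j : ι} (hij : i ≠ j) {F : (ι → V) → ℝ}
    (hF : ∀ x w, F (Function.update x i w) = F x) :
    Ex p (fun x => F x * nb G (x i) (x j)) = Ex p (fun x => F x * del G p univ (x j)) := by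
  rw [← Ex_update hp1 i]
  have e : (fun x : ι → V => ∑ w, p w * (F (Function.update x i w) *
      nb G (Function.update x i w i) (Function.update x i w j))) =
      fun x => F x * del G p univ (x j) := by
    funext x
    rw [del, mul_sum]
    refine sum_congr rfl fun w _ => ?_
    rw [hF, Function.update_self, Function.update_of_ne hij.symm, nb_symm w (x j)]
    ring
  rw [e]

variable (G p) in
/-- relative deviation of the non-degree -/
def zf (κ : ℝ) (v : V) : ℝ := κ * del G p univ v - 1

/-- the main reduction -/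
theorem Ex_step (hp : ∀ v, 0 ≤ p v) (hp1 : ∑ v, p v = 1) {κ : ℝ} (hκ : 0 < κ)
    {J : ι → ι → Prop} {i j : ι}
    (hij : i ≠ j) (hJ : J i j ∨ J j i) {g : (ι → V) → ℝ} {C : ℝ} (hC0 : 0 ≤ C)
    (hg : ∀ x w, g (Function.update x i w) = g x)
    (hC : ∀ x, (∀ k, 0 < p (x k)) → |g x| ≤ C) :
    |Ex p (fun x => Bp G J x * g x) - (Ex p (fun x => Bp G (mrg J i j) x * g x) +
      Ex p (fun x => Bp G (mrg J i j) x * (g x * zf G p κ (x j)))) / κ| ≤
      C * (2 * Fintype.card ι * chy G p univ) := by
  have h1 := Ex_err (G := G) (J := J) hp hp1 hij hJ hC0 hC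
  have h2 := Ex_nb (G := G) hp1 hij (F := fun x => Bp G (mrg J i j) x * g x)
    (fun x w => by
      change Bp G (mrg J i j) (Function.update x i w) * g (Function.update x i w) = _
      rw [Bp_update hij, hg])
  rw [h2] at h1
  have h3 : Ex p (fun x => Bp G (mrg J i j) x * g x * del G p univ (x j)) =
      (Ex p (fun x => Bp G (mrg J i j) x * g x) +
      Ex p (fun x => Bp G (mrg J i j) x * (g x * zf G p κ (x j)))) / κ := by
    rw [← Ex_add, eq_div_iff hκ.ne', mul_comm, ← Ex_mul]
    congr 1
    funext x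
    unfold zf
    ring
  rw [h3] at h1
  exact h1

open Classical in
/-- the vertices in a proper edge of the pattern -/
noncomputable def sp (J : ι → ι → Prop) : Finset ι :=
  univ.filter (fun a => ∃ b, b ≠ a ∧ (J a b ∨ J b a))

theorem mem_sp {J : ι → ι → Prop} {a : ι} : a ∈ sp J ↔ ∃ b, b ≠ a ∧ (J a b ∨ J b a) := by
  unfold sp
  simp

theorem sp_mrg {J : ι → ι → Prop} {i j : ι} (hij : i ≠ j) (hJ : J i j ∨ J j i) :
    (sp (mrg J i j)).card < (sp J).card := by
  refine card_lt_card ⟨?_, fun h => ?_⟩
  · intro a ha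
    rw [mem_sp] at ha ⊢
    obtain ⟨b, hb, hab⟩ := ha
    rcases hab with (⟨h1, _, _⟩ | ⟨rfl, h2, h3⟩) | (⟨h1, _, _⟩ | ⟨rfl, h2, h3⟩)
    · exact ⟨b, hb, Or.inl h1⟩
    · exact ⟨i, hij, hJ.symm⟩
    · exact ⟨b, hb, Or.inr h1⟩
    · exact ⟨i, h2.symm, h3.symm⟩
  · have h1 : i ∈ sp J := mem_sp.2 ⟨j, hij.symm, hJ⟩
    have h2 := mem_sp.1 (h h1)
    obtain ⟨b, hb, hab⟩ := h2
    rcases hab with (⟨_, h3, _⟩ | ⟨h3, _, _⟩) | (⟨_, _, h3⟩ | ⟨_, h3, _⟩)
    · exact h3 rfl
    · exact hij h3
    · exact h3 rfl
    · exact h3 rfl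

theorem Bp_of_sp_empty {J : ι → ι → Prop} (h : sp J = ∅) (x : ι → V) : Bp G J x = 1 := by
  unfold Bp
  rw [if_pos]
  intro a b hab
  by_cases hne : b = a
  · subst hne
    exact G.loopless.irrefl _
  · exfalso
    have : a ∈ sp J := mem_sp.2 ⟨b, hne, Or.inl hab⟩
    rw [h] at this
    simp at this

end pattern

end MP5cc280
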