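import Pool.Agent.H.MP_5cc280_co.Basic

/-!
The extremal function of the problem, its superadditivity (Fekete), the balanced complete
multipartite graphs.
-/

namespace MP5cc280

open Finset SimpleGraph Filter Topology

/-- The family `{K_{1,Δ+1}, K_{ω+1}}`. -/
def FF (Δ ω : ℕ) : Set (Σ n : ℕ, SimpleGraph (Fin n)) :=
  {⟨Δ+2, starGraph 0⟩, ⟨ω+1, ⊤⟩}

/-- all values of `N(H,G)` for `G` free of the members of `F` with exactly `p` copies of `K_u` -/
def exSet {W : Type*} (u p : ℕ) (H : SimpleGraph W) (F : Set (Σ n : ℕ, SimpleGraph (Fin n))) :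
    Set ℕ :=
  {N | ∃ (n : ℕ) (G : SimpleGraph (Fin n)), (∀ A ∈ F, A.2.Free G) ∧
    G.copyCount (⊤ : SimpleGraph (Fin u)) = p ∧ G.copyCount H = N}

/-- `ex_u(p,H,F)` -/
noncomputable def exu {W : Type*} (u p : ℕ) (H : SimpleGraph W)
    (F : Set (Σ n : ℕ, SimpleGraph (Fin n))) : ℕ :=
  sSup (exSet u p H F)

section
variable {W : Type*} [Finite W] {H : SimpleGraph W}

lemma mem_exSet {V : Type*} [Fintype V] (G : SimpleGraph V) {u : ℕ}
    {F : Set (Σ n : ℕ, SimpleGraph (Fin n))} (h : ∀ A ∈ F, A.2.Free G) :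
    G.copyCount H ∈ exSet u (G.copyCount (⊤ : SimpleGraph (Fin u))) H F := by
  let e := Iso.map (Fintype.equivFin V) G
  refine ⟨Fintype.card V, G.map (Fintype.equivFin V).toEmbedding, ?_, ?_, ?_⟩
  · intro A hA
    exact (free_congr Iso.refl e).1 (h A hA)
  · exact (copyCount_congr e).symm
  · exact (copyCount_congr e).symm

lemma conn_FF {Δ ω : ℕ} : ∀ A ∈ FF Δ ω, A.2.Connected := by
  intro A hA
  rcases hA with rfl | rfl
  · exact connected_starGraph _
  · exact connected_top

lemma exSet_add [Nonempty W] {u p q N M : ℕ} (hu : 1 ≤ u)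
    {F : Set (Σ n : ℕ, SimpleGraph (Fin n))} (hF : ∀ A ∈ F, A.2.Connected)
    (hN : N ∈ exSet u p H F) (hM : M ∈ exSet u q H F) :
    ∃ K ∈ exSet u (p+q) H F, N + M ≤ K := by
  obtain ⟨n, G, h1, h2, h3⟩ := hN
  obtain ⟨m, G', h1', h2', h3'⟩ := hM
  have : Nonempty (Fin u) := ⟨⟨0, hu⟩⟩
  have hs : (G ⊕g G').copyCount (⊤ : SimpleGraph (Fin u)) = p + q := by
    rw [copyCount_sum connected_top, h2, h2']
  have hm := mem_exSet (H := H) (G ⊕g G') (u := u) (F := F)
    (fun A hA => free_sum (hF A hA) (h1 A hA) (h1' A hA))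
  rw [hs] at hm
  refine ⟨_, hm, ?_⟩
  rw [← h3, ← h3']
  exact copyCount_sum_le

lemma exu_mem {u p : ℕ} {F : Set (Σ n : ℕ, SimpleGraph (Fin n))}
    (hne : (exSet u p H F).Nonempty) (hb : BddAbove (exSet u p H F)) :
    exu u p H F ∈ exSet u p H F := Nat.sSup_mem hne hb

/-- Fekete: the limit exists and is the supremum of the ratios -/
lemma fekete [Nonempty W] {u : ℕ} (hu : 1 ≤ u)
    {F : Set (Σ n : ℕ, SimpleGraph (Fin n))} (hF : ∀ A ∈ F, A.2.Connected)
    (hne : ∀ p, (exSet u p H F).Nonempty) {B : ℝ}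
    (hB : ∀ p, ∀ N ∈ exSet u p H F, (N : ℝ) ≤ B * p) :
    ∃ c : ℝ, Tendsto (fun p : ℕ => (exu u p H F : ℝ) / p) atTop (𝓝 c) ∧
      (∀ p, 0 < p → ∀ N ∈ exSet u p H F, (N : ℝ) / p ≤ c) ∧ c ≤ B := by
  have hbd : ∀ p, BddAbove (exSet u p H F) := by
    intro p
    refine ⟨⌈B * p⌉₊, fun N hN => ?_⟩
    exact_mod_cast (hB p N hN).trans (Nat.le_ceil _)
  have hmem : ∀ p, exu u p H F ∈ exSet u p H F := fun p => exu_mem (hne p) (hbd p)
  have hle : ∀ p, ∀ N ∈ exSet u p H F, N ≤ exu u p H F := fun p N hN => le_csSup (hbd p) hN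
  let v : ℕ → ℝ := fun p => -(exu u p H F : ℝ)
  have hsub : Subadditive v := by
    intro m n
    obtain ⟨K, hK, hK2⟩ := exSet_add hu hF (hmem m) (hmem n)
    have := hK2.trans (hle _ K hK)
    have : ((exu u m H F : ℝ) + exu u n H F) ≤ exu u (m+n) H F := by exact_mod_cast this
    simp only [v]
    linarith
  have hB0 : 0 ≤ B := by
    have := hB 1 _ (hmem 1)
    have h0 : (0:ℝ) ≤ exu u 1 H F := Nat.cast_nonneg _
    simp at this; linarith
  have hratio : ∀ p : ℕ, (exu u p H F : ℝ) / p ≤ B := by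
    intro p
    rcases Nat.eq_zero_or_pos p with rfl | hp
    · simpa using hB0
    · rw [div_le_iff₀ (by exact_mod_cast hp)]
      exact hB p _ (hmem p)
  have hbdd : BddBelow (Set.range fun n : ℕ => v n / n) := by
    refine ⟨-B, ?_⟩
    rintro _ ⟨n, rfl⟩
    have := hratio n
    simp only [v, neg_div]
    linarith
  have ht := hsub.tendsto_lim hbdd
  have ht2 : Tendsto (fun p : ℕ => (exu u p H F : ℝ) / p) atTop (𝓝 (-hsub.lim)) := by
    have := ht.neg
    refine this.congr (fun p => ?_)
    simp only [v]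
    ring
  refine ⟨-hsub.lim, ht2, ?_, ?_⟩
  · intro p hp N hN
    have h1 := hsub.lim_le_div hbdd (n := p) (by omega)
    have h2 : (N : ℝ) / p ≤ (exu u p H F : ℝ) / p := by
      have := hle p N hN
      gcongr
    simp only [v, neg_div] at h1
    linarith
  · exact le_of_tendsto' ht2 hratio

end

/-- clique numbers of the balanced complete multipartite graph -/
lemma kk_equi (r q j : ℕ) : kk (completeEquipartiteGraph r q) j = r.choose j * q ^ j := by
  induction j with
  | zero => rw [kk_zero]; simp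
  | succ j ih =>
    have h := sum_cm (G := completeEquipartiteGraph r q) j
    have hc : ∀ D ∈ (completeEquipartiteGraph r q).cliqueFinset j,
        cm (completeEquipartiteGraph r q) D = (r - j) * q := by
      intro D hD
      rw [mem_cliqueFinset_iff, isNClique_iff] at hD
      have e : (univ.filter (fun v : Fin r × Fin q => ∀ d ∈ D,
          (completeEquipartiteGraph r q).Adj v d)) = (D.image Prod.fst)ᶜ ×ˢ univ := by
        ext v
        simp only [mem_filter, mem_univ, true_and, mem_product, mem_compl, mem_image, and_true]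
        constructor
        · rintro h ⟨d, hd, hdv⟩
          exact (completeEquipartiteGraph_adj.1 (h d hd)) hdv.symm
        · intro h d hd
          rw [completeEquipartiteGraph_adj]
          intro hv
          exact h ⟨d, hd, hv.symm⟩
      have e2 : (D.image Prod.fst).card = j := by
        rw [card_image_of_injOn, hD.2]
        intro x hx y hy hxy
        by_contra hne
        exact (completeEquipartiteGraph_adj.1 (hD.1 hx hy hne)) hxy
      rw [cm, e, card_product, card_compl, e2]
      simp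
    rw [sum_congr rfl hc, sum_const, smul_eq_mul] at h
    have ih' : ((completeEquipartiteGraph r q).cliqueFinset j).card = r.choose j * q ^ j := ih
    rw [ih'] at h
    have h2 : r.choose (j+1) * (j+1) = r.choose j * (r - j) := Nat.choose_succ_right_eq _ _
    have h3 : (j+1) * kk (completeEquipartiteGraph r q) (j+1)
        = (j+1) * (r.choose (j+1) * q ^ (j+1)) := by
      rw [← h]
      calc r.choose j * q ^ j * ((r - j) * q) = (r.choose j * (r - j)) * q ^ (j+1) := by ring
        _ = (j+1) * (r.choose (j+1) * q ^ (j+1)) := by rw [← h2]; ring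
    exact Nat.eq_of_mul_eq_mul_left (by omega) h3

lemma equi_free {r q Δ ω : ℕ} (h1 : (r-1) * q ≤ Δ) (h2 : r ≤ ω) :
    ∀ A ∈ FF Δ ω, A.2.Free (completeEquipartiteGraph r q) := by
  intro A hA
  rcases hA with rfl | rfl
  · rw [star_free_iff]
    intro v
    rw [degree_completeEquipartiteGraph]
    exact h1
  · change (⊤ : SimpleGraph (Fin (ω+1))).Free (completeEquipartiteGraph r q)
    rw [← cliqueFree_iff_top_free, Fintype.card_fin]
    have h3 : kk (completeEquipartiteGraph r q) (ω+1) = 0 := by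
      rw [kk_equi, Nat.choose_eq_zero_of_lt (by omega)]; simp
    rw [kk, card_eq_zero, cliqueFinset_eq_empty_iff] at h3
    exact h3

section
variable {W : Type*} [Finite W] {H : SimpleGraph W}

lemma exSet_nonempty [Nonempty W] {u Δ ω : ℕ} (hu : 1 ≤ u) (h1 : u ≤ ω) (h2 : ω ≤ Δ) (p : ℕ) :
    (exSet u p H (FF Δ ω)).Nonempty := by
  induction p with
  | zero =>
    have h := mem_exSet (H := H) (completeEquipartiteGraph 0 0) (u := u) (F := FF Δ ω)
      (equi_free (by simp) (by omega))
    rw [copyCount_top, kk_equi, Nat.choose_eq_zero_of_lt (by omega)] at h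
    simp only [zero_mul] at h
    exact ⟨_, h⟩
  | succ p ih =>
    have h := mem_exSet (H := H) (completeEquipartiteGraph u 1) (u := u) (F := FF Δ ω)
      (equi_free (by omega) h1)
    rw [copyCount_top, kk_equi] at h
    simp only [Nat.choose_self, one_pow, mul_one] at h
    obtain ⟨N, hN⟩ := ih
    obtain ⟨K, hK, -⟩ := exSet_add hu conn_FF hN h
    exact ⟨K, hK⟩

end

end MP5cc280
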