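import Mathlib

/-!
# A finite dimensional optimisation problem

`u + 1` positive numbers, all partial sums omitting one of them are at most `1`; the ratio
`∑ x_i^(s-1) / ∑ 1/x_i` is maximised by `u` equal small numbers and one large number.
-/

namespace MP5cc280

open Finset

/-- the one-parameter function: `u` parts of size `ε`, one part of size `1 - (u-1) ε` -/
noncomputable def gfun (u s : ℕ) (ε : ℝ) : ℝ :=
  (u * ε ^ (s - 1) + (1 - (u - 1) * ε) ^ (s - 1)) / (u / ε + 1 / (1 - (u - 1) * ε))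

theorem opt_convex_singleton (f : ℝ → ℝ) (a : ℝ) : ConvexOn ℝ {a} f := by
  refine ⟨convex_singleton a, ?_⟩
  intro x hx y hy p q _ _ hpq
  rw [Set.mem_singleton_iff] at hx hy
  rw [hx, hy, ← add_smul, ← add_smul, hpq, one_smul, one_smul]

theorem opt_concave_singleton (f : ℝ → ℝ) (a : ℝ) : ConcaveOn ℝ {a} f := by
  refine ⟨convex_singleton a, ?_⟩
  intro x hx y hy p q _ _ hpq
  rw [Set.mem_singleton_iff] at hx hy
  rw [hx, hy, ← add_smul, ← add_smul, hpq, one_smul, one_smul]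

theorem convex_spread {f : ℝ → ℝ} {a d : ℝ} (hf : ConvexOn ℝ (Set.Icc a d) f) {b c : ℝ}
    (hab : a ≤ b) (hbc : b ≤ c) (hsum : a + d = b + c) : f b + f c ≤ f a + f d := by
  have hcd : c ≤ d := by linarith
  rcases eq_or_lt_of_le (show a ≤ d by linarith) with h | h
  · have h1 : b = a := by linarith
    have h2 : c = d := by linarith
    rw [h1, h2]
  · have hda : 0 < d - a := by linarith
    have ha : a ∈ Set.Icc a d := ⟨le_rfl, h.le⟩
    have hd : d ∈ Set.Icc a d := ⟨h.le, le_rfl⟩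
    have h1 : f ((d - b) / (d - a) * a + (b - a) / (d - a) * d) ≤
        (d - b) / (d - a) * f a + (b - a) / (d - a) * f d :=
      hf.2 ha hd (div_nonneg (by linarith) hda.le) (div_nonneg (by linarith) hda.le)
        (by field_simp; ring)
    have h2 : f ((d - c) / (d - a) * a + (c - a) / (d - a) * d) ≤
        (d - c) / (d - a) * f a + (c - a) / (d - a) * f d :=
      hf.2 ha hd (div_nonneg (by linarith) hda.le) (div_nonneg (by linarith) hda.le)
        (by field_simp; ring)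
    have e1 : (d - b) / (d - a) * a + (b - a) / (d - a) * d = b := by
      field_simp
      ring
    have e2 : (d - c) / (d - a) * a + (c - a) / (d - a) * d = c := by
      field_simp
      ring
    rw [e1] at h1
    rw [e2] at h2
    have e3 : (d - b) / (d - a) + (d - c) / (d - a) = 1 := by
      field_simp
      linarith
    have e4 : (b - a) / (d - a) + (c - a) / (d - a) = 1 := by
      field_simp
      linarith
    calc f b + f c ≤ ((d - b) / (d - a) + (d - c) / (d - a)) * f a +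
          ((b - a) / (d - a) + (c - a) / (d - a)) * f d := by linarith
      _ = f a + f d := by rw [e3, e4]; ring

theorem absorb {ι : Type*} [DecidableEq ι] {f : ℝ → ℝ} {τ : ℝ}
    (hf : ConvexOn ℝ (Set.Icc τ 1) f) (y : ι → ℝ) (S : Finset ι) :
    ∀ B : ℝ, (∀ i ∈ S, y i ≤ B) → B + ∑ i ∈ S, (y i - min (y i) τ) ≤ 1 →
      ∑ i ∈ S, f (y i) + f B ≤
        ∑ i ∈ S, f (min (y i) τ) + f (B + ∑ i ∈ S, (y i - min (y i) τ)) := by
  induction S using Finset.induction_on with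
  | empty => intro B _ _; simp
  | insert i S hi ih =>
    intro B hB h1
    rw [sum_insert hi] at h1
    rw [sum_insert hi, sum_insert hi, sum_insert hi]
    have hyB : y i ≤ B := hB i (mem_insert_self _ _)
    have hnn : 0 ≤ ∑ j ∈ S, (y j - min (y j) τ) :=
      sum_nonneg fun j _ => sub_nonneg.2 (min_le_left _ _)
    rcases le_total (y i) τ with hy | hy
    · rw [min_eq_left hy] at h1 ⊢
      rw [sub_self, zero_add] at h1 ⊢
      have := ih B (fun j hj => hB j (mem_insert_of_mem hj)) h1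
      linarith
    · rw [min_eq_right hy] at h1 ⊢
      have h2 := ih (B + (y i - τ)) (fun j hj => (hB j (mem_insert_of_mem hj)).trans
        (by linarith)) (by linarith)
      have h3 : f (y i) + f B ≤ f τ + f (B + (y i - τ)) :=
        convex_spread (hf.subset (Set.Icc_subset_Icc_right (by linarith)) (convex_Icc _ _))
          hy hyB (by ring)
      rw [← add_assoc B]
      linarith

/-- reduction of `u` numbers with sum at most `1` to the pattern `(a,…,a,1-(u-1)a)` -/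
theorem reduce {ι : Type*} [DecidableEq ι] {f : ℝ → ℝ} {m τ : ℝ} (hm : 0 < m) (hmτ : m ≤ τ)
    (hconv : ConvexOn ℝ (Set.Icc τ 1) f) (hconc : ConcaveOn ℝ (Set.Icc m τ) f)
    (hmono : ∀ x y, 0 < x → x ≤ y → f x ≤ f y) {u : ℕ} (hu : 2 ≤ u) {S : Finset ι}
    (hS : S.card = u) {y : ι → ℝ} (hy : ∀ i ∈ S, m ≤ y i) (hsum : ∑ i ∈ S, y i ≤ 1) :
    ∃ a, m ≤ a ∧ u * a ≤ 1 ∧ ∑ i ∈ S, f (y i) ≤ (u - 1) * f a + f (1 - (u - 1) * a) := by
  have hne : S.Nonempty := by
    rw [← card_pos, hS]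
    omega
  obtain ⟨i0, hi0, hmax⟩ := exists_max_image S y hne
  have hcard : (S.erase i0).card = u - 1 := by rw [card_erase_of_mem hi0, hS]
  have hcardR : ((S.erase i0).card : ℝ) = u - 1 := by
    rw [hcard, Nat.cast_sub (by omega)]
    simp
  have hu1 : (0 : ℝ) < u - 1 := by
    have : (2 : ℝ) ≤ u := by exact_mod_cast hu
    linarith
  have hsplit := add_sum_erase S y hi0
  have hfs := add_sum_erase S (fun i => f (y i)) hi0
  set R := S.erase i0 with hR
  have hRS : ∀ i ∈ R, i ∈ S := fun i hi => mem_of_mem_erase hi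
  have hmin : ∑ i ∈ R, (y i - min (y i) τ) = ∑ i ∈ R, y i - ∑ i ∈ R, min (y i) τ :=
    sum_sub_distrib _ _
  have hmpos : ∑ i ∈ R, m ≤ ∑ i ∈ R, min (y i) τ :=
    sum_le_sum fun i hi => le_min (hy i (hRS i hi)) hmτ
  rw [sum_const, nsmul_eq_mul, hcardR] at hmpos
  have h1 := absorb hconv y R (y i0) (fun i hi => hmax i (hRS i hi)) (by
    rw [hmin]
    have : 0 ≤ ∑ i ∈ R, min (y i) τ := le_trans (by positivity) hmpos
    linarith)
  set a := (∑ i ∈ R, min (y i) τ) / (u - 1) with ha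
  have haS : (u - 1) * a = ∑ i ∈ R, min (y i) τ := by
    rw [ha]
    field_simp
  have hma : m ≤ a := by
    rw [ha, le_div_iff₀ hu1]
    linarith
  have haB : a ≤ y i0 := by
    rw [ha, div_le_iff₀ hu1]
    have : ∑ i ∈ R, min (y i) τ ≤ ∑ _i ∈ R, y i0 :=
      sum_le_sum fun i hi => (min_le_left _ _).trans (hmax i (hRS i hi))
    rw [sum_const, nsmul_eq_mul, hcardR] at this
    linarith
  have hB' : y i0 + ∑ i ∈ R, (y i - min (y i) τ) ≤ 1 - (u - 1) * a := by
    rw [hmin, haS]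
    linarith
  have hnn : 0 ≤ ∑ j ∈ R, (y j - min (y j) τ) :=
    sum_nonneg fun j _ => sub_nonneg.2 (min_le_left _ _)
  have hi0pos : 0 < y i0 := hm.trans_le (hy i0 hi0)
  refine ⟨a, hma, ?_, ?_⟩
  · have : (u : ℝ) * a = (u - 1) * a + a := by ring
    rw [this]
    linarith
  · have h2 : ∑ i ∈ R, f (min (y i) τ) ≤ (u - 1) * f a := by
      have h3 := hconc.le_map_sum (t := R) (w := fun _ => 1 / ((u : ℝ) - 1))
        (p := fun i => min (y i) τ) (fun _ _ => by positivity) (by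
          rw [sum_const, nsmul_eq_mul, hcardR]
          field_simp) (fun i hi => ⟨le_min (hy i (hRS i hi)) hmτ, min_le_right _ _⟩)
      simp only [smul_eq_mul] at h3
      rw [← mul_sum, ← mul_sum] at h3
      have e : 1 / ((u : ℝ) - 1) * ∑ i ∈ R, min (y i) τ = a := by
        rw [ha]
        ring
      rw [e] at h3
      have h4 := mul_le_mul_of_nonneg_left h3 hu1.le
      rw [← mul_assoc, mul_one_div_cancel hu1.ne', one_mul] at h4
      exact h4
    have h5 := hmono _ _ (by linarith : 0 < y i0 + ∑ i ∈ R, (y i - min (y i) τ)) hB'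
    linarith

/-- the function `x ^ (n+1) - c / x` -/
noncomputable def phi (n : ℕ) (c x : ℝ) : ℝ := x ^ (n + 1) - c / x

theorem phi_deriv (n : ℕ) (c : ℝ) {x : ℝ} (hx : 0 < x) :
    HasDerivAt (phi n c) ((n + 1 : ℕ) * x ^ n + c / x ^ 2) x := by
  have h1 := hasDerivAt_pow (n + 1) x
  have h2 := (hasDerivAt_inv hx.ne').const_mul c
  have h3 := h1.sub h2
  have e : (fun x : ℝ => x ^ (n + 1)) - (fun x : ℝ => c * x⁻¹) = phi n c := by
    funext y
    simp only [Pi.sub_apply, phi, div_eq_mul_inv]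
  have e2 : ((n + 1 : ℕ) : ℝ) * x ^ (n + 1 - 1) - c * -(x ^ 2)⁻¹ =
      (n + 1 : ℕ) * x ^ n + c / x ^ 2 := by
    rw [Nat.add_sub_cancel, div_eq_mul_inv]
    ring
  rw [← e, ← e2]
  exact h3

theorem phi_deriv2 (n : ℕ) (c : ℝ) {x : ℝ} (hx : 0 < x) :
    HasDerivAt (deriv (phi n c)) (((n + 1 : ℕ) * (n : ℝ) * x ^ (n + 2) - 2 * c) / x ^ 3) x := by
  have e0 : deriv (phi n c) =ᶠ[nhds x] fun x => (n + 1 : ℕ) * x ^ n + c * (x ^ 2)⁻¹ := by
    filter_upwards [Ioi_mem_nhds hx] with y hy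
    rw [(phi_deriv n c hy).deriv, div_eq_mul_inv]
  have h1 := (hasDerivAt_pow n x).const_mul ((n + 1 : ℕ) : ℝ)
  have h2 := ((hasDerivAt_pow 2 x).inv (pow_ne_zero 2 hx.ne')).const_mul c
  have h3 := h1.add h2
  have h4 := h3.congr_of_eventuallyEq e0
  have e2 : ((n + 1 : ℕ) : ℝ) * ((n : ℝ) * x ^ (n - 1)) +
      c * (-((2 : ℕ) * x ^ (2 - 1)) / (x ^ 2) ^ 2) =
      ((n + 1 : ℕ) * (n : ℝ) * x ^ (n + 2) - 2 * c) / x ^ 3 := by
    rcases n with _ | n
    · field_simp
      push_cast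
      ring
    · rw [Nat.add_sub_cancel]
      field_simp
      push_cast
      ring
  rw [← e2]
  exact h4

theorem phi_mono (n : ℕ) {c : ℝ} (hc : 0 ≤ c) : ∀ x y, 0 < x → x ≤ y → phi n c x ≤ phi n c y := by
  intro x y hx hxy
  rw [phi, phi]
  have h1 : x ^ (n + 1) ≤ y ^ (n + 1) := pow_le_pow_left₀ hx.le hxy _
  have h2 : c / y ≤ c / x := div_le_div_of_nonneg_left hc hx hxy
  linarith

/-- `phi` is concave on `(0, τ]` and convex on `[τ, 1]` -/
theorem phi_shape (n : ℕ) {c : ℝ} (hc : 0 < c) :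
    ∃ τ : ℝ, 0 < τ ∧ τ ≤ 1 ∧ ConcaveOn ℝ (Set.Ioc 0 τ) (phi n c) ∧
      ConvexOn ℝ (Set.Icc τ 1) (phi n c) := by
  have hconc : ∀ τ : ℝ, (∀ x, 0 < x → x ≤ τ → (n + 1 : ℕ) * (n : ℝ) * x ^ (n + 2) ≤ 2 * c) →
      ConcaveOn ℝ (Set.Ioc 0 τ) (phi n c) := by
    intro τ h
    refine concaveOn_of_deriv2_nonpos' (convex_Ioc 0 τ) ?_ ?_ ?_
    · intro x hx
      exact (phi_deriv n c hx.1).differentiableAt.differentiableWithinAt
    · intro x hx
      exact (phi_deriv2 n c hx.1).differentiableAt.differentiableWithinAt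
    · intro x hx
      rw [Function.iterate_succ_apply, Function.iterate_one, (phi_deriv2 n c hx.1).deriv]
      refine div_nonpos_of_nonpos_of_nonneg ?_ (pow_nonneg hx.1.le 3)
      linarith [h x hx.1 hx.2]
  have hconv : ∀ τ : ℝ, 0 < τ → (∀ x, τ ≤ x → 2 * c ≤ (n + 1 : ℕ) * (n : ℝ) * x ^ (n + 2)) →
      ConvexOn ℝ (Set.Icc τ 1) (phi n c) := by
    intro τ hτ h
    refine convexOn_of_deriv2_nonneg' (convex_Icc τ 1) ?_ ?_ ?_
    · intro x hx
      exact (phi_deriv n c (hτ.trans_le hx.1)).differentiableAt.differentiableWithinAt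
    · intro x hx
      exact (phi_deriv2 n c (hτ.trans_le hx.1)).differentiableAt.differentiableWithinAt
    · intro x hx
      have hx0 := hτ.trans_le hx.1
      rw [Function.iterate_succ_apply, Function.iterate_one, (phi_deriv2 n c hx0).deriv]
      refine div_nonneg ?_ (pow_nonneg hx0.le 3)
      linarith [h x hx.1]
  by_cases h1 : (n + 1 : ℕ) * (n : ℝ) ≤ 2 * c
  · refine ⟨1, one_pos, le_rfl, hconc 1 ?_, ?_⟩
    · intro x hx hx1
      have h2 : x ^ (n + 2) ≤ 1 := pow_le_one₀ hx.le hx1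
      have h3 : (0 : ℝ) ≤ (n + 1 : ℕ) * (n : ℝ) := by positivity
      nlinarith
    · rw [Set.Icc_self]
      exact opt_convex_singleton _ _
  · push Not at h1
    have hpos : (0 : ℝ) < (n + 1 : ℕ) * (n : ℝ) := by linarith
    set q := 2 * c / ((n + 1 : ℕ) * (n : ℝ)) with hq
    have hq0 : 0 < q := by positivity
    have hq1 : q ≤ 1 := by
      rw [hq, div_le_one hpos]
      exact h1.le
    have hqe : (n + 1 : ℕ) * (n : ℝ) * q = 2 * c := by
      rw [hq, mul_div_cancel₀ _ hpos.ne']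
    have hne : n + 2 ≠ 0 := by omega
    have hτe : (q ^ (((n + 2 : ℕ) : ℝ)⁻¹)) ^ (n + 2) = q := Real.rpow_inv_natCast_pow hq0.le hne
    set τ := q ^ (((n + 2 : ℕ) : ℝ)⁻¹) with hτ
    have hτ0 : 0 < τ := Real.rpow_pos_of_pos hq0 _
    have hτ1 : τ ≤ 1 := Real.rpow_le_one hq0.le hq1 (by positivity)
    refine ⟨τ, hτ0, hτ1, hconc τ ?_, hconv τ hτ0 ?_⟩
    · intro x hx hxτ
      have h2 : x ^ (n + 2) ≤ q := by
        rw [← hτe]
        exact pow_le_pow_left₀ hx.le hxτ _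
      calc (n + 1 : ℕ) * (n : ℝ) * x ^ (n + 2) ≤ (n + 1 : ℕ) * (n : ℝ) * q :=
            mul_le_mul_of_nonneg_left h2 hpos.le
        _ = 2 * c := hqe
    · intro x hxτ
      have h2 : q ≤ x ^ (n + 2) := by
        rw [← hτe]
        exact pow_le_pow_left₀ hτ0.le hxτ _
      calc 2 * c = (n + 1 : ℕ) * (n : ℝ) * q := hqe.symm
        _ ≤ (n + 1 : ℕ) * (n : ℝ) * x ^ (n + 2) := mul_le_mul_of_nonneg_left h2 hpos.le

/-- **The optimisation lemma.** -/
theorem opt {ι : Type*} [DecidableEq ι] {u n : ℕ} (hu : 2 ≤ u) {c : ℝ} (hc : 0 < c)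
    (hg : ∀ ε : ℝ, 0 < ε → u * ε ≤ 1 → gfun u (n + 2) ε ≤ c) {T : Finset ι}
    (hT : T.card = u + 1) {x : ι → ℝ} (hx : ∀ i ∈ T, 0 < x i)
    (hs : ∀ i ∈ T, ∑ j ∈ T.erase i, x j ≤ 1) :
    ∑ i ∈ T, x i ^ (n + 1) ≤ c * ∑ i ∈ T, 1 / x i := by
  obtain ⟨τ, hτ0, hτ1, hconc, hconv⟩ := phi_shape n hc
  have hne : T.Nonempty := by
    rw [← card_pos, hT]
    omega
  obtain ⟨i0, hi0, hmin⟩ := exists_min_image T x hne
  set m := x i0 with hm
  have hm0 : 0 < m := hx i0 hi0
  have hmono := phi_mono n hc.le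
  obtain ⟨τ', hmτ', hconv', hconc'⟩ : ∃ τ', m ≤ τ' ∧ ConvexOn ℝ (Set.Icc τ' 1) (phi n c) ∧
      ConcaveOn ℝ (Set.Icc m τ') (phi n c) := by
    rcases le_total m τ with h | h
    · exact ⟨τ, h, hconv, hconc.subset (fun y hy => ⟨hm0.trans_le hy.1, hy.2⟩) (convex_Icc _ _)⟩
    · refine ⟨m, le_rfl, hconv.subset (Set.Icc_subset_Icc_left h) (convex_Icc _ _), ?_⟩
      rw [Set.Icc_self]
      exact opt_concave_singleton _ _
  obtain ⟨a, hma, hua, ha⟩ := reduce hm0 hmτ' hconv' hconc' hmono hu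
    (S := T.erase i0) (y := x) (by rw [card_erase_of_mem hi0, hT]; rfl)
    (fun i hi => hmin i (mem_of_mem_erase hi)) (hs i0 hi0)
  have ha0 : 0 < a := hm0.trans_le hma
  have huR : (2 : ℝ) ≤ u := by exact_mod_cast hu
  have hB : 0 < 1 - (u - 1) * a := by
    have : (u : ℝ) * a = (u - 1) * a + a := by ring
    linarith
  have h1 := hg a ha0 hua
  rw [gfun, div_le_iff₀ (by positivity)] at h1
  have e1 : n + 2 - 1 = n + 1 := rfl
  rw [e1] at h1
  have h2 : (u : ℝ) * phi n c a + phi n c (1 - (u - 1) * a) ≤ 0 := by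
    have e2 : (u : ℝ) * phi n c a + phi n c (1 - (u - 1) * a) =
        u * a ^ (n + 1) + (1 - (u - 1) * a) ^ (n + 1) -
          c * (u / a + 1 / (1 - (u - 1) * a)) := by
      rw [phi, phi]
      ring
    rw [e2]
    linarith
  have h3 : ∑ i ∈ T, phi n c (x i) ≤ 0 := by
    rw [← add_sum_erase T (fun i => phi n c (x i)) hi0]
    have h4 := hmono m a hm0 hma
    have e3 : (u : ℝ) * phi n c a = phi n c a + (u - 1) * phi n c a := by ring
    simp only [← hm]
    linarith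
  have e4 : ∑ i ∈ T, phi n c (x i) = ∑ i ∈ T, x i ^ (n + 1) - c * ∑ i ∈ T, 1 / x i := by
    rw [mul_sum, ← sum_sub_distrib]
    refine sum_congr rfl fun i _ => ?_
    rw [phi]
    ring
  rw [e4] at h3
  linarith

end MP5cc280
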