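import Pool.Agent.H.MP_5cc280_co.Ext
import Pool.Agent.H.MP_5cc280_co.Opt

/-!
# Copies of the join of a clique and an independent set
-/

namespace MP5cc280

open Finset SimpleGraph

section

variable {V : Type*} [Fintype V] [DecidableEq V] {G : SimpleGraph V} [DecidableRel G.Adj]
  {W : Type*} [Fintype W] [DecidableEq W] {H : SimpleGraph W}

variable (G) in
/-- the subgraph with vertex set `Q ∪ R` and all edges of `G` in it with an end in `Q` -/
def jsub (Q R : Finset V) : G.Subgraph where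
  verts := {x | x ∈ Q ∨ x ∈ R}
  Adj x y := G.Adj x y ∧ (x ∈ Q ∨ x ∈ R) ∧ (y ∈ Q ∨ y ∈ R) ∧ (x ∈ Q ∨ y ∈ Q)
  adj_sub := fun h => h.1
  edge_vert := fun h => h.2.1
  symm := ⟨fun _ _ h => ⟨h.1.symm, h.2.2.1, h.2.1, h.2.2.2.symm⟩⟩

theorem jsub_adj {Q R : Finset V} {x y : V} :
    (jsub G Q R).Adj x y ↔ G.Adj x y ∧ (x ∈ Q ∨ x ∈ R) ∧ (y ∈ Q ∨ y ∈ R) ∧ (x ∈ Q ∨ y ∈ Q) :=
  Iff.rfl

theorem jsub_verts {Q R : Finset V} {x : V} : x ∈ (jsub G Q R).verts ↔ x ∈ Q ∨ x ∈ R := Iff.rfl

variable (G) in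
/-- common neighbours -/
def cnb (Q : Finset V) : Finset V := univ.filter (fun v => ∀ d ∈ Q, G.Adj v d)

theorem card_cnb (Q : Finset V) : (cnb G Q).card = cm G Q := rfl

theorem mem_cnb {Q : Finset V} {v : V} : v ∈ cnb G Q ↔ ∀ d ∈ Q, G.Adj v d := by
  simp [cnb]

theorem cnb_not_mem {Q R : Finset V} (hR : R ⊆ cnb G Q) {r : V} (hr : r ∈ R) : r ∉ Q := by
  intro h
  exact G.loopless.irrefl r (mem_cnb.1 (hR hr) r h)

theorem jsub_iso {D : Finset W} {u s : ℕ} (hD : D.card = u) (hW : Fintype.card W = u + s)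
    (hadj : ∀ a b, H.Adj a b ↔ a ≠ b ∧ (a ∈ D ∨ b ∈ D)) {Q R : Finset V} (hQ : G.IsClique Q)
    (hQc : Q.card = u) (hR : R ⊆ cnb G Q) (hRc : R.card = s) :
    Nonempty (H ≃g (jsub G Q R).coe) := by
  let e1 : D ≃ Q := Finset.equivOfCardEq (by rw [hD, hQc])
  have hDc : Dᶜ.card = s := by
    rw [card_compl, hD, hW]
    omega
  let e2 : (Dᶜ : Finset W) ≃ R := Finset.equivOfCardEq (by rw [hDc, hRc])
  let f : W → V := fun w => if h : w ∈ D then (e1 ⟨w, h⟩ : V) else (e2 ⟨w, mem_compl.2 h⟩ : V)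
  have f1 : ∀ w (h : w ∈ D), f w = (e1 ⟨w, h⟩ : V) := fun w h => dif_pos h
  have f2 : ∀ w (h : w ∉ D), f w = (e2 ⟨w, mem_compl.2 h⟩ : V) := fun w h => dif_neg h
  have fQ : ∀ w, f w ∈ Q ↔ w ∈ D := by
    intro w
    constructor
    · intro hw
      by_contra h
      rw [f2 w h] at hw
      exact cnb_not_mem hR (Subtype.property _) hw
    · intro h
      rw [f1 w h]
      exact Subtype.property _
  have fR : ∀ w, w ∉ D → f w ∈ R := by
    intro w h
    rw [f2 w h]
    exact Subtype.property _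
  have fV : ∀ w, f w ∈ Q ∨ f w ∈ R := by
    intro w
    by_cases h : w ∈ D
    · exact Or.inl ((fQ w).2 h)
    · exact Or.inr (fR w h)
  have finj : Function.Injective f := by
    intro a b hab
    by_cases ha : a ∈ D
    · have hb : b ∈ D := (fQ b).1 (hab ▸ (fQ a).2 ha)
      rw [f1 a ha, f1 b hb] at hab
      have := e1.injective (Subtype.ext hab)
      exact congrArg Subtype.val this
    · have hb : b ∉ D := fun hb => ha ((fQ a).1 (hab ▸ (fQ b).2 hb))
      rw [f2 a ha, f2 b hb] at hab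
      have := e2.injective (Subtype.ext hab)
      exact congrArg Subtype.val this
  have fsurj : ∀ x, (x ∈ Q ∨ x ∈ R) → ∃ w, f w = x := by
    rintro x (hx | hx)
    · refine ⟨(e1.symm ⟨x, hx⟩ : D), ?_⟩
      rw [f1 _ (Subtype.property _)]
      simp
    · refine ⟨(e2.symm ⟨x, hx⟩ : (Dᶜ : Finset W)), ?_⟩
      rw [f2 _ (mem_compl.1 (Subtype.property _))]
      simp
  let F : W ≃ (jsub G Q R).verts := Equiv.ofBijective (fun w => ⟨f w, fV w⟩)
    ⟨fun a b h => finj (congrArg Subtype.val h), fun x => by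
      obtain ⟨w, hw⟩ := fsurj x.1 x.2
      exact ⟨w, Subtype.ext hw⟩⟩
  refine ⟨⟨F, ?_⟩⟩
  intro a b
  rw [Subgraph.coe_adj]
  change (jsub G Q R).Adj (f a) (f b) ↔ H.Adj a b
  rw [jsub_adj, hadj]
  constructor
  · rintro ⟨h1, _, _, h4⟩
    refine ⟨fun hab => ?_, ?_⟩
    · rw [hab] at h1
      exact G.loopless.irrefl _ h1
    · rw [fQ, fQ] at h4
      exact h4
  · rintro ⟨hne, h4⟩
    refine ⟨?_, fV a, fV b, ?_⟩
    · have hfne : f a ≠ f b := fun h => hne (finj h)
      by_cases ha : a ∈ D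
      · by_cases hb : b ∈ D
        · exact hQ ((fQ a).2 ha) ((fQ b).2 hb) hfne
        · exact (mem_cnb.1 (hR (fR b hb)) _ ((fQ a).2 ha)).symm
      · have hb : b ∈ D := h4.resolve_left ha
        exact mem_cnb.1 (hR (fR a ha)) _ ((fQ b).2 hb)
    · rw [fQ, fQ]
      exact h4

theorem mem_Q_iff {Q R : Finset V} (hQ : G.IsClique Q) (hR : R ⊆ cnb G Q) (hRc : 2 ≤ R.card)
    (x : V) : x ∈ Q ↔ x ∈ (jsub G Q R).verts ∧
      ∀ y ∈ (jsub G Q R).verts, y ≠ x → (jsub G Q R).Adj x y := by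
  constructor
  · intro hx
    refine ⟨Or.inl hx, fun y hy hne => ⟨?_, Or.inl hx, hy, Or.inl hx⟩⟩
    rcases hy with hy | hy
    · exact hQ hx hy hne.symm
    · exact (mem_cnb.1 (hR hy) x hx).symm
  · rintro ⟨hx, h⟩
    rcases hx with hx | hx
    · exact hx
    · obtain ⟨y, hy, hne⟩ := exists_mem_ne (by omega : 1 < R.card) x
      have h1 := (h y (Or.inr hy) hne).2.2.2
      exact h1.resolve_right (cnb_not_mem hR hy)

theorem join_surj {D : Finset W} {u s : ℕ} (hD : D.card = u) (hW : Fintype.card W = u + s)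
    (hadj : ∀ a b, H.Adj a b ↔ a ≠ b ∧ (a ∈ D ∨ b ∈ D)) {S : G.Subgraph} (e : H ≃g S.coe) :
    ∃ Q R : Finset V, G.IsNClique u Q ∧ R ⊆ cnb G Q ∧ R.card = s ∧ jsub G Q R = S := by
  have key : ∀ x y : V, S.Adj x y ↔ ∃ a b, H.Adj a b ∧ (e a : V) = x ∧ (e b : V) = y := by
    intro x y
    constructor
    · intro hxy
      refine ⟨e.symm ⟨x, S.edge_vert hxy⟩, e.symm ⟨y, S.edge_vert hxy.symm⟩, ?_, ?_, ?_⟩
      · rw [← e.map_adj_iff]
        simpa using hxy
      · simp
      · simp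
    · rintro ⟨a, b, hab, rfl, rfl⟩
      exact e.map_adj_iff.2 hab
  have einj : Function.Injective (fun w => (e w : V)) := fun a b h =>
    e.injective (Subtype.ext h)
  have gadj : ∀ a b, a ≠ b → (a ∈ D ∨ b ∈ D) → G.Adj (e a : V) (e b : V) := fun a b h1 h2 =>
    S.adj_sub ((key _ _).2 ⟨a, b, (hadj a b).2 ⟨h1, h2⟩, rfl, rfl⟩)
  refine ⟨D.image (fun w => (e w : V)), Dᶜ.image (fun w => (e w : V)), ?_, ?_, ?_, ?_⟩
  · rw [isNClique_iff]
    refine ⟨?_, ?_⟩
    · intro x hx y hy hxy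
      rw [mem_coe, mem_image] at hx hy
      obtain ⟨a, ha, rfl⟩ := hx
      obtain ⟨b, hb, rfl⟩ := hy
      exact gadj a b (fun h => hxy (by rw [h])) (Or.inl ha)
    · rw [card_image_of_injective _ einj, hD]
  · intro x hx
    rw [mem_image] at hx
    obtain ⟨b, hb, rfl⟩ := hx
    rw [mem_cnb]
    intro d hd
    rw [mem_image] at hd
    obtain ⟨a, ha, rfl⟩ := hd
    exact gadj b a (fun h => (mem_compl.1 hb) (h ▸ ha)) (Or.inr ha)
  · rw [card_image_of_injective _ einj, card_compl, hD, hW]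
    omega
  · have hv : ∀ x, x ∈ (jsub G (D.image (fun w => (e w : V)))
        (Dᶜ.image (fun w => (e w : V)))).verts ↔ x ∈ S.verts := by
      intro x
      rw [jsub_verts, mem_image, mem_image]
      constructor
      · rintro (⟨a, _, rfl⟩ | ⟨a, _, rfl⟩)
        · exact Subtype.property _
        · exact Subtype.property _
      · intro hx
        have h1 : (e (e.symm ⟨x, hx⟩) : V) = x := by simp
        by_cases h : e.symm ⟨x, hx⟩ ∈ D
        · exact Or.inl ⟨_, h, h1⟩
        · exact Or.inr ⟨_, mem_compl.2 h, h1⟩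
    apply Subgraph.ext
    · ext x
      exact hv x
    · ext x y
      change (jsub G (D.image (fun w => (e w : V))) (Dᶜ.image (fun w => (e w : V)))).Adj x y ↔ _
      rw [jsub_adj, key]
      constructor
      · rintro ⟨h1, h2, h3, h4⟩
        have h2' := (hv x).1 h2
        have h3' := (hv y).1 h3
        refine ⟨e.symm ⟨x, h2'⟩, e.symm ⟨y, h3'⟩, ?_, by simp, by simp⟩
        rw [hadj]
        refine ⟨fun h => ?_, ?_⟩
        · have h5 := e.symm.injective h
          have h6 : x = y := congrArg Subtype.val h5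
          rw [h6] at h1
          exact G.loopless.irrefl _ h1
        · rcases h4 with h4 | h4
          · rw [mem_image] at h4
            obtain ⟨a, ha, rfl⟩ := h4
            left
            have : e.symm ⟨(e a : V), h2'⟩ = a := by simp
            rw [this]
            exact ha
          · rw [mem_image] at h4
            obtain ⟨a, ha, rfl⟩ := h4
            right
            have : e.symm ⟨(e a : V), h3'⟩ = a := by simp
            rw [this]
            exact ha
      · rintro ⟨a, b, hab, rfl, rfl⟩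
        have h1 := (hadj a b).1 hab
        refine ⟨gadj a b h1.1 h1.2, (hv _).2 (Subtype.property _),
          (hv _).2 (Subtype.property _), ?_⟩
        rcases h1.2 with h | h
        · exact Or.inl (mem_image_of_mem _ h)
        · exact Or.inr (mem_image_of_mem _ h)

/-- **Copies of a join.** -/
theorem copyCount_join {D : Finset W} {u s : ℕ} (hD : D.card = u) (hW : Fintype.card W = u + s)
    (hs : 2 ≤ s) (hadj : ∀ a b, H.Adj a b ↔ a ≠ b ∧ (a ∈ D ∨ b ∈ D)) :
    G.copyCount H = ∑ Q ∈ G.cliqueFinset u, (cm G Q).choose s := by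
  classical
  have hP : ((G.cliqueFinset u).sigma (fun Q => (cnb G Q).powersetCard s)).card =
      ∑ Q ∈ G.cliqueFinset u, (cm G Q).choose s := by
    rw [card_sigma]
    refine sum_congr rfl fun Q _ => ?_
    rw [card_powersetCard, card_cnb]
  have key : Nat.card {x : (_ : Finset V) × Finset V //
      G.IsNClique u x.1 ∧ x.2 ⊆ cnb G x.1 ∧ x.2.card = s} =
      Nat.card {S : G.Subgraph // Nonempty (H ≃g S.coe)} := by
    refine Nat.card_eq_of_bijective (fun x => ⟨jsub G x.1.1 x.1.2, ?_⟩) ⟨?_, ?_⟩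
    · obtain ⟨⟨Q, R⟩, hx⟩ := x
      obtain ⟨hQ, hR, hRc⟩ := hx
      rw [isNClique_iff] at hQ
      exact jsub_iso hD hW hadj hQ.1 hQ.2 hR hRc
    · rintro ⟨⟨Q, R⟩, hx⟩ ⟨⟨Q', R'⟩, hx'⟩ h
      obtain ⟨hQ, hR, hRc⟩ := hx
      obtain ⟨hQ', hR', hRc'⟩ := hx'
      simp only at hQ hR hRc hQ' hR' hRc'
      have h : jsub G Q R = jsub G Q' R' := congrArg Subtype.val h
      have e1 : Q = Q' := by
        ext x
        rw [mem_Q_iff hQ.1 hR (by omega), mem_Q_iff hQ'.1 hR' (by omega), h]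
      subst e1
      have e2 : R = R' := by
        ext x
        have h3 : x ∈ (jsub G Q R).verts ↔ x ∈ (jsub G Q R').verts := by rw [h]
        rw [jsub_verts, jsub_verts] at h3
        constructor
        · intro hx
          exact (h3.1 (Or.inr hx)).resolve_left (cnb_not_mem hR hx)
        · intro hx
          exact (h3.2 (Or.inr hx)).resolve_left (cnb_not_mem hR' hx)
      subst e2
      rfl
    · rintro ⟨S, ⟨e⟩⟩
      obtain ⟨Q, R, hQ, hR, hRc, hS⟩ := join_surj hD hW hadj e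
      exact ⟨⟨⟨Q, R⟩, hQ, hR, hRc⟩, Subtype.ext hS⟩
  have e1 : Nat.card {S : G.Subgraph // Nonempty (H ≃g S.coe)}
      = (univ.filter (fun S : G.Subgraph => Nonempty (H ≃g S.coe))).card := by
    rw [Nat.card_eq_fintype_card, Fintype.card_subtype]
  have e2 : Nat.card {x : (_ : Finset V) × Finset V //
      G.IsNClique u x.1 ∧ x.2 ⊆ cnb G x.1 ∧ x.2.card = s} =
      ((G.cliqueFinset u).sigma (fun Q => (cnb G Q).powersetCard s)).card := by
    rw [Nat.card_eq_fintype_card]
    refine Fintype.card_of_subtype _ ?_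
    rintro ⟨Q, R⟩
    rw [mem_sigma, mem_cliqueFinset_iff, mem_powersetCard]
  rw [← hP, ← e2, key, e1, copyCount]
  apply congrArg Finset.card
  ext S
  simp only [mem_filter, mem_univ, true_and]

end

end MP5cc280
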