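import Pool.Agent.H.MP_5cc280_co.OneAbove

/-!
# Properties of the one-parameter function and the limit `Δ → ∞`
-/

namespace MP5cc280

open Finset Filter Topology

theorem lim_B {u : ℕ} {ε : ℝ} (hε : 0 < ε) (h : u * ε ≤ 1) : 0 < 1 - (u - 1) * ε := by
  have : (u : ℝ) * ε = (u - 1) * ε + ε := by ring
  linarith

theorem gfun_pos {u s : ℕ} (hu : 2 ≤ u) {ε : ℝ} (hε : 0 < ε) (h : u * ε ≤ 1) :
    0 < gfun u s ε := by
  have hB := lim_B hε h
  have hu0 : (0 : ℝ) < u := by exact_mod_cast (by omega : 0 < u)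
  rw [gfun]
  positivity

/-- the numerator is at most `2` -/
theorem lim_num {u n : ℕ} (hu : 2 ≤ u) {ε : ℝ} (hε : 0 < ε) (h : u * ε ≤ 1) :
    u * ε ^ (n + 1) + (1 - (u - 1) * ε) ^ (n + 1) ≤ 2 := by
  have hB := lim_B hε h
  have hu2 : (2 : ℝ) ≤ u := by exact_mod_cast hu
  have hε1 : ε ≤ 1 := by nlinarith
  have hB1 : 1 - (u - 1) * ε ≤ 1 := by
    have : 0 ≤ ((u : ℝ) - 1) * ε := mul_nonneg (by linarith) hε.le
    linarith
  have h1 : ε ^ (n + 1) ≤ ε := by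
    rw [pow_succ]
    exact mul_le_of_le_one_left hε.le (pow_le_one₀ hε.le hε1)
  have h2 : (1 - (u - 1) * ε) ^ (n + 1) ≤ 1 := pow_le_one₀ hB.le hB1
  have h3 : (u : ℝ) * ε ^ (n + 1) ≤ u * ε := mul_le_mul_of_nonneg_left h1 (by linarith)
  linarith

theorem gfun_le_eps {u n : ℕ} (hu : 2 ≤ u) {ε : ℝ} (hε : 0 < ε) (h : u * ε ≤ 1) :
    gfun u (n + 2) ε ≤ ε := by
  have hB := lim_B hε h
  have hu2 : (2 : ℝ) ≤ u := by exact_mod_cast hu
  have e1 : n + 2 - 1 = n + 1 := rfl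
  rw [gfun, e1, div_le_iff₀ (by positivity)]
  have h1 := lim_num (n := n) hu hε h
  have h2 : ε * (u / ε + 1 / (1 - (u - 1) * ε)) = u + ε / (1 - (u - 1) * ε) := by
    field_simp
  rw [h2]
  have h3 : 0 < ε / (1 - (u - 1) * ε) := div_pos hε hB
  linarith

theorem gfun_le_two {u n : ℕ} (hu : 2 ≤ u) {ε : ℝ} (hε : 0 < ε) (h : u * ε ≤ 1) :
    gfun u (n + 2) ε ≤ 2 / (u ^ 2 + 1) := by
  have hB := lim_B hε h
  have hu2 : (2 : ℝ) ≤ u := by exact_mod_cast hu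
  have e1 : n + 2 - 1 = n + 1 := rfl
  have hB1 : 1 - (u - 1) * ε ≤ 1 := by
    have : 0 ≤ ((u : ℝ) - 1) * ε := mul_nonneg (by linarith) hε.le
    linarith
  rw [gfun, e1]
  have h1 := lim_num (n := n) hu hε h
  have h2 : (u : ℝ) ^ 2 + 1 ≤ u / ε + 1 / (1 - (u - 1) * ε) := by
    have h3 : (u : ℝ) ^ 2 ≤ u / ε := by
      rw [le_div_iff₀ hε]
      nlinarith
    have h4 : 1 ≤ 1 / (1 - (u - 1) * ε) := by
      rw [le_div_iff₀ hB]
      linarith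
    linarith
  exact div_le_div₀ (by norm_num) h1 (by positivity) h2

theorem gfun_balanced {u s : ℕ} (hu : 2 ≤ u) (hs : 1 ≤ s) : gfun u s (1 / u) = 1 / (u : ℝ) ^ s := by
  have hu0 : (0 : ℝ) < u := by exact_mod_cast (by omega : 0 < u)
  obtain ⟨k, rfl⟩ : ∃ k, s = k + 1 := ⟨s - 1, by omega⟩
  have e : (1 : ℝ) - (u - 1) * (1 / u) = 1 / u := by
    field_simp
    ring
  rw [gfun, e, Nat.add_sub_cancel, div_pow, one_pow, pow_succ]
  field_simp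

theorem gfun_two_le {u : ℕ} (hu : 2 ≤ u) {ε : ℝ} (hε : 0 < ε) (h : u * ε ≤ 1) :
    gfun u 2 ε ≤ 1 / (u : ℝ) ^ 2 := by
  have hB := lim_B hε h
  have hu0 : (0 : ℝ) < u := by exact_mod_cast (by omega : 0 < u)
  have e1 : 2 - 1 = 1 := rfl
  rw [gfun, e1, pow_one, pow_one, div_le_div_iff₀ (by positivity) (by positivity), one_mul]
  set B : ℝ := 1 - (u - 1) * ε with hBd
  have h1 : u / ε + 1 / B = (u * B + ε) / (ε * B) := by
    field_simp
  rw [h1, le_div_iff₀ (by positivity)]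
  have key : u * B + ε - (u * ε + B) * u ^ 2 * (ε * B) =
      (1 - u * ε) ^ 2 * (u + u * ε) + ε * (1 - (u * ε) ^ 2) := by
    rw [hBd]
    ring
  have h2 : 0 ≤ (1 - u * ε) ^ 2 * (u + u * ε) + ε * (1 - (u * ε) ^ 2) := by
    have h3 : (u * ε) ^ 2 ≤ 1 := pow_le_one₀ (by positivity) h
    have h4 : 0 ≤ 1 - (u * ε) ^ 2 := by linarith
    positivity
  linarith

theorem gfun_lower {u s : ℕ} (hu : 2 ≤ u) (hs : 2 ≤ s) :
    1 / (4 * u * (u + 1) * s) ≤ gfun u s (1 / (u * s)) := by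
  have hu2 : (2 : ℝ) ≤ u := by exact_mod_cast hu
  have hs2 : (2 : ℝ) ≤ s := by exact_mod_cast hs
  have hu0 : (0 : ℝ) < u := by linarith
  have hs0 : (0 : ℝ) < s := by linarith
  set ε : ℝ := 1 / (u * s) with hεd
  have hε : 0 < ε := by positivity
  have hus : (u : ℝ) * ε = 1 / s := by
    rw [hεd]
    field_simp
  have h : u * ε ≤ 1 := by
    rw [hus, div_le_one hs0]
    linarith
  have hB := lim_B hε h
  have hB1 : 1 - (u - 1) * ε ≤ 1 := by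
    have : 0 ≤ ((u : ℝ) - 1) * ε := mul_nonneg (by linarith) hε.le
    linarith
  have hBs : 1 - 1 / (s : ℝ) ≤ 1 - (u - 1) * ε := by
    rw [← hus]
    have : (u : ℝ) * ε = (u - 1) * ε + ε := by ring
    linarith
  obtain ⟨k, rfl⟩ : ∃ k, s = k + 1 := ⟨s - 1, by omega⟩
  have hk1 : (1 : ℝ) ≤ k := by
    have : 1 ≤ k := by omega
    exact_mod_cast this
  -- `B ^ k ≥ 1/4`
  have hquarter : (1 : ℝ) / 4 ≤ (1 - (u - 1) * ε) ^ k := by
    have h5 : (1 / 4 : ℝ) ≤ (1 - 1 / ((k : ℝ) + 1)) ^ k := by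
      have h6 : (1 : ℝ) - 1 / ((k : ℝ) + 1) = (1 + 1 / (k : ℝ))⁻¹ := by
        field_simp
        ring
      rw [h6, inv_pow, one_div, inv_le_inv₀ (by norm_num) (by positivity)]
      have h7 : (1 + 1 / (k : ℝ)) ^ k ≤ Real.exp 1 := by
        have h8 : 1 + 1 / (k : ℝ) ≤ Real.exp (1 / k) := by
          have := Real.add_one_le_exp (1 / (k : ℝ))
          linarith
        calc (1 + 1 / (k : ℝ)) ^ k ≤ (Real.exp (1 / k)) ^ k := pow_le_pow_left₀ (by positivity) h8 _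
          _ = Real.exp 1 := by
              rw [← Real.exp_nat_mul]
              congr 1
              field_simp
      have h9 := Real.exp_one_lt_d9
      linarith
    refine h5.trans (pow_le_pow_left₀ ?_ ?_ _)
    · rw [sub_nonneg, div_le_one (by positivity)]
      linarith
    · push_cast at hBs
      exact hBs
  rw [gfun, Nat.add_sub_cancel]
  have hnum : (1 : ℝ) / 4 ≤ u * ε ^ k + (1 - (u - 1) * ε) ^ k := by
    have : 0 ≤ (u : ℝ) * ε ^ k := by positivity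
    linarith
  have hBB : ε ≤ 1 - (u - 1) * ε := by
    have : (u : ℝ) * ε = (u - 1) * ε + ε := by ring
    linarith
  have hden : u / ε + 1 / (1 - (u - 1) * ε) ≤ (u + 1) / ε := by
    rw [add_div]
    have := one_div_le_one_div_of_le hε hBB
    linarith
  have hd0 : 0 < u / ε + 1 / (1 - (u - 1) * ε) := by positivity
  calc 1 / (4 * (u : ℝ) * (u + 1) * ((k + 1 : ℕ) : ℝ)) = (1 / 4) / ((u + 1) / ε) := by
        rw [hεd]
        field_simp
    _ ≤ (u * ε ^ k + (1 - (u - 1) * ε) ^ k) / (u / ε + 1 / (1 - (u - 1) * ε)) :=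
        div_le_div₀ (by positivity) hnum hd0 hden

theorem gfun_cont {u s : ℕ} {δ : ℝ} (hu : 2 ≤ u) (hδ : 0 < δ) :
    ContinuousOn (gfun u s) (Set.Icc δ (1 / u)) := by
  have hu0 : (0 : ℝ) < u := by exact_mod_cast (by omega : 0 < u)
  have hmem : ∀ x ∈ Set.Icc δ (1 / (u : ℝ)), 0 < x ∧ u * x ≤ 1 := by
    intro x hx
    refine ⟨hδ.trans_le hx.1, ?_⟩
    have := mul_le_mul_of_nonneg_left hx.2 hu0.le
    rwa [mul_one_div_cancel hu0.ne'] at this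
  unfold gfun
  refine ContinuousOn.div ?_ ?_ ?_
  · fun_prop
  · refine ContinuousOn.add ?_ ?_
    · exact continuousOn_const.div continuousOn_id fun x hx => (hmem x hx).1.ne'
    · refine continuousOn_const.div (by fun_prop) fun x hx => ?_
      exact (lim_B (hmem x hx).1 (hmem x hx).2).ne'
  · intro x hx
    have h1 := lim_B (hmem x hx).1 (hmem x hx).2
    have h2 := (hmem x hx).1
    positivity

/-- the maximum is attained -/
theorem gfun_max {u n : ℕ} (hu : 2 ≤ u) :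
    ∃ M, IsGreatest (gfun u (n + 2) '' Set.Ioc 0 (1 / (u : ℝ))) M := by
  have hu0 : (0 : ℝ) < u := by exact_mod_cast (by omega : 0 < u)
  have h1 : (u : ℝ) * (1 / u) ≤ 1 := by
    rw [mul_one_div_cancel hu0.ne']
  have h0 : (0 : ℝ) < 1 / u := by positivity
  set δ := gfun u (n + 2) (1 / u) with hδ
  have hδ0 : 0 < δ := gfun_pos hu h0 h1
  have hδ1 : δ ≤ 1 / u := gfun_le_eps hu h0 h1
  obtain ⟨x, hx, hmax⟩ := isCompact_Icc.exists_isMaxOn (Set.nonempty_Icc.2 hδ1)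
    (gfun_cont (s := n + 2) hu hδ0)
  refine ⟨gfun u (n + 2) x, ⟨x, ⟨hδ0.trans_le hx.1, hx.2⟩, rfl⟩, ?_⟩
  rintro _ ⟨y, hy, rfl⟩
  rcases le_total δ y with h | h
  · exact hmax ⟨h, hy.2⟩
  · have hy1 : u * y ≤ 1 := by
      have := mul_le_mul_of_nonneg_left hy.2 hu0.le
      exact this.trans h1
    have h2 := gfun_le_eps (n := n) hu hy.1 hy1
    have h3 : gfun u (n + 2) (1 / u) ≤ gfun u (n + 2) x := hmax ⟨hδ1, le_rfl⟩
    linarith

theorem lim_choose (x s : ℕ) : (((x + 1 - s : ℕ) : ℝ)) ^ s / s.factorial ≤ (x.choose s : ℝ) := by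
  have h1 := Nat.pow_sub_le_descFactorial x s
  rw [Nat.descFactorial_eq_factorial_mul_choose] at h1
  have h2 : (0 : ℝ) < s.factorial := by exact_mod_cast Nat.factorial_pos s
  rw [div_le_iff₀ h2]
  have h3 : ((x + 1 - s : ℕ) : ℝ) ^ s ≤ s.factorial * x.choose s := by exact_mod_cast h1
  linarith

theorem lim_floor {a : ℝ} (ha : 0 ≤ a) :
    Tendsto (fun n : ℕ => ((⌊a * n⌋₊ : ℕ) : ℝ) / n) atTop (𝓝 a) :=
  (tendsto_nat_floor_mul_div_atTop ha).comp tendsto_natCast_atTop_atTop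

theorem lim_floor_sub {a : ℝ} (ha : 0 ≤ a) (s : ℕ) :
    Tendsto (fun n : ℕ => ((⌊a * n⌋₊ + 1 - s : ℕ) : ℝ) / n) atTop (𝓝 a) := by
  have h1 := lim_floor ha
  have h2 : Tendsto (fun n : ℕ => ((⌊a * n⌋₊ : ℕ) : ℝ) / n - s / n) atTop (𝓝 (a - 0)) :=
    h1.sub (tendsto_const_div_atTop_nhds_zero_nat _)
  have h3 : Tendsto (fun n : ℕ => ((⌊a * n⌋₊ : ℕ) : ℝ) / n + 1 / n) atTop (𝓝 (a + 0)) :=
    h1.add (tendsto_const_div_atTop_nhds_zero_nat _)
  rw [sub_zero] at h2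
  rw [add_zero] at h3
  refine tendsto_of_tendsto_of_tendsto_of_le_of_le h2 h3 ?_ ?_
  · intro n
    simp only
    rw [← sub_div]
    have h4 : ((⌊a * n⌋₊ : ℕ) : ℝ) ≤ ((⌊a * n⌋₊ + 1 - s : ℕ) : ℝ) + s := by
      have : ⌊a * (n : ℝ)⌋₊ ≤ (⌊a * (n : ℝ)⌋₊ + 1 - s) + s := by omega
      exact_mod_cast this
    exact div_le_div_of_nonneg_right (by linarith) (Nat.cast_nonneg n)
  · intro n
    simp only
    rw [← add_div]
    have h4 : ((⌊a * n⌋₊ + 1 - s : ℕ) : ℝ) ≤ ((⌊a * n⌋₊ : ℕ) : ℝ) + 1 := by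
      have : (⌊a * (n : ℝ)⌋₊ + 1 - s) ≤ ⌊a * (n : ℝ)⌋₊ + 1 := by omega
      exact_mod_cast this
    exact div_le_div_of_nonneg_right h4 (Nat.cast_nonneg n)

/-- the lower bound function -/
noncomputable def lowf (u s : ℕ) (ε : ℝ) (Δ : ℕ) : ℝ :=
  ((((⌊(1 - (u - 1) * ε) * Δ⌋₊ + 1 - s : ℕ) : ℝ) / Δ) ^ s /
      (((⌊(1 - (u - 1) * ε) * Δ⌋₊ : ℕ) : ℝ) / Δ) +
    u * ((((⌊ε * Δ⌋₊ + 1 - s : ℕ) : ℝ) / Δ) ^ s / (((⌊ε * Δ⌋₊ : ℕ) : ℝ) / Δ))) /
  (1 / (((⌊(1 - (u - 1) * ε) * Δ⌋₊ : ℕ) : ℝ) / Δ) + u / (((⌊ε * Δ⌋₊ : ℕ) : ℝ) / Δ)) /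
  s.factorial

theorem lowf_tendsto {u s : ℕ} (hu : 2 ≤ u) (hs : 2 ≤ s) {ε : ℝ} (hε : 0 < ε) (h : u * ε ≤ 1) :
    Tendsto (lowf u s ε) atTop (𝓝 (gfun u s ε / s.factorial)) := by
  have hB := lim_B hε h
  have hu0 : (0 : ℝ) < u := by exact_mod_cast (by omega : 0 < u)
  set B : ℝ := 1 - (u - 1) * ε with hBd
  have a1 := lim_floor hε.le
  have a2 := lim_floor_sub hε.le s
  have b1 := lim_floor hB.le
  have b2 := lim_floor_sub hB.le s
  have n1 := ((b2.pow s).div b1 hB.ne').add (((a2.pow s).div a1 hε.ne').const_mul (u : ℝ))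
  have d1 := (tendsto_const_nhds (x := (1 : ℝ))).div b1 hB.ne'
  have d2 := (tendsto_const_nhds (x := (u : ℝ))).div a1 hε.ne'
  have d3 := d1.add d2
  have hd : (1 : ℝ) / B + u / ε ≠ 0 := by positivity
  have t := (n1.div d3 hd).div_const (s.factorial : ℝ)
  have e : (B ^ s / B + u * (ε ^ s / ε)) / (1 / B + u / ε) = gfun u s ε := by
    obtain ⟨k, rfl⟩ : ∃ k, s = k + 1 := ⟨s - 1, by omega⟩
    rw [gfun, Nat.add_sub_cancel, ← hBd, pow_succ, pow_succ, mul_div_assoc, mul_div_assoc,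
      div_self hB.ne', div_self hε.ne', mul_one, mul_one, add_comm (B ^ k), add_comm (1 / B)]
  rw [e] at t
  exact t

/-- algebra: the ratio of `cmg_ratio` is at least `lowf` times `Δ ^ s` -/
theorem lowf_le {u s Δ a b : ℕ} (ha : 0 < a) (hb : 0 < b) (hΔ : 0 < Δ) :
    ((((b + 1 - s : ℕ) : ℝ) / Δ) ^ s / ((b : ℝ) / Δ) +
      u * ((((a + 1 - s : ℕ) : ℝ) / Δ) ^ s / ((a : ℝ) / Δ))) /
      (1 / ((b : ℝ) / Δ) + u / ((a : ℝ) / Δ)) / s.factorial ≤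
    (((b.choose s : ℝ) / b + u * ((a.choose s : ℝ) / a)) / (1 / (b : ℝ) + u * (1 / (a : ℝ)))) /
      (Δ : ℝ) ^ s := by
  have ha' : (0 : ℝ) < a := by exact_mod_cast ha
  have hb' : (0 : ℝ) < b := by exact_mod_cast hb
  have hΔ' : (0 : ℝ) < Δ := by exact_mod_cast hΔ
  have hf : (0 : ℝ) < s.factorial := by exact_mod_cast Nat.factorial_pos s
  have h1 := lim_choose a s
  have h2 := lim_choose b s
  have hden : 1 / ((b : ℝ) / Δ) + u / ((a : ℝ) / Δ) = Δ * (1 / (b : ℝ) + u * (1 / (a : ℝ))) := by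
    field_simp
  have hd0 : 0 < 1 / (b : ℝ) + u * (1 / (a : ℝ)) := by positivity
  have hnum : ((((b + 1 - s : ℕ) : ℝ) / Δ) ^ s / ((b : ℝ) / Δ) +
      u * ((((a + 1 - s : ℕ) : ℝ) / Δ) ^ s / ((a : ℝ) / Δ))) / s.factorial =
      (Δ / (Δ : ℝ) ^ s) * ((((b + 1 - s : ℕ) : ℝ)) ^ s / s.factorial / b +
        u * ((((a + 1 - s : ℕ) : ℝ)) ^ s / s.factorial / a)) := by
    rw [div_pow, div_pow]
    field_simp
  have hle : (((b + 1 - s : ℕ) : ℝ)) ^ s / s.factorial / b +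
      u * ((((a + 1 - s : ℕ) : ℝ)) ^ s / s.factorial / a) ≤
      (b.choose s : ℝ) / b + u * ((a.choose s : ℝ) / a) := by
    gcongr
  rw [div_right_comm, hnum, hden]
  calc (Δ / (Δ : ℝ) ^ s) * ((((b + 1 - s : ℕ) : ℝ)) ^ s / s.factorial / b +
        u * ((((a + 1 - s : ℕ) : ℝ)) ^ s / s.factorial / a)) /
        (Δ * (1 / (b : ℝ) + u * (1 / (a : ℝ))))
      ≤ (Δ / (Δ : ℝ) ^ s) * ((b.choose s : ℝ) / b + u * ((a.choose s : ℝ) / a)) /
        (Δ * (1 / (b : ℝ) + u * (1 / (a : ℝ)))) := by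
        gcongr
    _ = _ := by
        field_simp

end MP5cc280
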