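import Mathlib

/-!
Clique counts of `K_{r+1}`-free graphs: the Moon-Moser inequality and the resulting chain of
ratio bounds, plus clique counts in neighbourhoods.
-/

namespace MP5cc280

open Finset SimpleGraph

variable {V : Type*} [Fintype V] [DecidableEq V] (G : SimpleGraph V) [DecidableRel G.Adj]

/-- number of `j`-cliques -/
def kk (j : ℕ) : ℕ := (G.cliqueFinset j).card

/-- number of vertices adjacent to all elements of `D` -/
def cm (D : Finset V) : ℕ := (univ.filter (fun v => ∀ d ∈ D, G.Adj v d)).card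

variable {G}

lemma mem_pair_iff {j : ℕ} {A : Finset V} {a : V} :
    (A ∈ G.cliqueFinset (j+1) ∧ a ∈ A) ↔
      (A.erase a ∈ G.cliqueFinset j ∧ (∀ d ∈ A.erase a, G.Adj a d) ∧ a ∈ A) := by
  simp only [mem_cliqueFinset_iff]
  constructor
  · rintro ⟨h, ha⟩
    refine ⟨?_, ?_, ha⟩
    · have := h.erase_of_mem ha
      simpa using this
    · intro d hd
      rw [mem_erase] at hd
      exact h.1 ha hd.2 (Ne.symm hd.1)
  · rintro ⟨h1, h2, ha⟩
    refine ⟨?_, ha⟩
    have := h1.insert h2
    rwa [insert_erase ha] at this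

/-- basic exchange: pairs `(A, a)` with `A` a `(j+1)`-clique and `a ∈ A` versus pairs `(D, v)` with
`D` a `j`-clique and `v` adjacent to all of `D`. -/
lemma sum_erase (f : Finset V → ℕ) (j : ℕ) :
    ∑ A ∈ G.cliqueFinset (j+1), ∑ a ∈ A, f (A.erase a)
      = ∑ D ∈ G.cliqueFinset j, cm G D * f D := by
  have h : ∀ D ∈ G.cliqueFinset j, cm G D * f D =
      ∑ _v ∈ univ.filter (fun v => ∀ d ∈ D, G.Adj v d), f D := by
    intro D _
    simp [cm]
  rw [sum_congr rfl h, sum_sigma', sum_sigma']
  refine sum_bij' (fun x _ => ⟨x.1.erase x.2, x.2⟩) (fun y _ => ⟨insert y.2 y.1, y.2⟩) ?_ ?_ ?_ ?_ ?_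
  · rintro ⟨A, a⟩ hx
    simp only [mem_sigma] at hx
    have := (mem_pair_iff (G := G)).1 hx
    simp only [mem_sigma, mem_filter, mem_univ, true_and]
    exact ⟨this.1, this.2.1⟩
  · rintro ⟨D, v⟩ hy
    simp only [mem_sigma, mem_filter, mem_univ, true_and] at hy
    simp only [mem_sigma]
    refine ⟨?_, mem_insert_self _ _⟩
    rw [mem_cliqueFinset_iff] at hy ⊢
    exact hy.1.insert hy.2
  · rintro ⟨A, a⟩ hx
    simp only [mem_sigma] at hx
    simp [insert_erase hx.2]
  · rintro ⟨D, v⟩ hy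
    simp only [mem_sigma, mem_filter, mem_univ, true_and] at hy
    have hv : v ∉ D := fun h => G.loopless.irrefl v (hy.2 v h)
    simp [erase_insert hv]
  · rintro ⟨A, a⟩ hx
    rfl

lemma sum_cm (j : ℕ) : ∑ D ∈ G.cliqueFinset j, cm G D = (j+1) * kk G (j+1) := by
  have := sum_erase (G := G) (fun _ => 1) j
  simp only [mul_one] at this
  rw [← this]
  have h2 : ∀ A ∈ G.cliqueFinset (j+1), ∑ _a ∈ A, 1 = j+1 := by
    intro A hA
    rw [mem_cliqueFinset_iff] at hA
    simp [hA.2]
  rw [sum_congr rfl h2, sum_const, smul_eq_mul, mul_comm]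
  rfl

/-- the counting inequality of Moon and Moser for one clique `A` of size `j+1`. -/
lemma sum_cm_erase_le {j : ℕ} {A : Finset V} (hA : A ∈ G.cliqueFinset (j+1)) :
    ∑ a ∈ A, cm G (A.erase a) ≤ Fintype.card V + j * cm G A := by
  have hcard : A.card = j+1 := by
    rw [mem_cliqueFinset_iff] at hA; exact hA.2
  have h1 : ∑ a ∈ A, cm G (A.erase a)
      = ∑ v : V, (A.filter (fun a => ∀ d ∈ A.erase a, G.Adj v d)).card := by
    simp only [cm, card_filter]
    rw [sum_comm]
  have h2 : Fintype.card V + j * cm G A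
      = ∑ v : V, (1 + j * (if ∀ d ∈ A, G.Adj v d then 1 else 0)) := by
    rw [sum_add_distrib, ← mul_sum]
    simp only [cm, card_filter, sum_const, smul_eq_mul, mul_one, card_univ]
  rw [h1, h2]
  refine sum_le_sum (fun v _ => ?_)
  by_cases hv : ∀ d ∈ A, G.Adj v d
  · rw [if_pos hv]
    calc (A.filter (fun a => ∀ d ∈ A.erase a, G.Adj v d)).card ≤ A.card := card_filter_le _ _
      _ = 1 + j * 1 := by rw [hcard]; ring
  · rw [if_neg hv]
    push Not at hv
    obtain ⟨d, hd, hnd⟩ := hv
    have : (A.filter (fun a => ∀ d ∈ A.erase a, G.Adj v d)) ⊆ {d} := by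
      intro a ha
      rw [mem_filter] at ha
      rw [mem_singleton]
      by_contra hne
      exact hnd (ha.2 d (mem_erase.2 ⟨fun h => hne h.symm, hd⟩))
    calc _ ≤ ({d} : Finset V).card := card_le_card this
      _ = 1 + j * 0 := by simp

/-- Moon-Moser -/
lemma moon_moser (j : ℕ) :
    ((j+2) * kk G (j+2)) ^ 2
      ≤ kk G (j+1) * (Fintype.card V * kk G (j+2) + (j+1) * ((j+3) * kk G (j+3))) := by
  have h1 : ((j+2) * kk G (j+2)) = ∑ D ∈ G.cliqueFinset (j+1), cm G D := by
    rw [sum_cm]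
  have h2 : (∑ D ∈ G.cliqueFinset (j+1), cm G D) ^ 2
      ≤ (G.cliqueFinset (j+1)).card * ∑ D ∈ G.cliqueFinset (j+1), cm G D ^ 2 :=
    sq_sum_le_card_mul_sum_sq
  have h3 : ∑ D ∈ G.cliqueFinset (j+1), cm G D ^ 2
      ≤ Fintype.card V * kk G (j+2) + (j+1) * ((j+3) * kk G (j+3)) := by
    have e1 : ∑ D ∈ G.cliqueFinset (j+1), cm G D ^ 2
        = ∑ A ∈ G.cliqueFinset (j+2), ∑ a ∈ A, cm G (A.erase a) := by
      rw [sum_erase]
      exact sum_congr rfl (fun D _ => by ring)
    rw [e1]
    calc _ ≤ ∑ A ∈ G.cliqueFinset (j+2), (Fintype.card V + (j+1) * cm G A) :=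
          sum_le_sum (fun A hA => sum_cm_erase_le hA)
      _ = _ := by
          rw [sum_add_distrib, ← mul_sum, sum_cm]
          simp only [sum_const, smul_eq_mul, kk]
          ring
  calc _ = (∑ D ∈ G.cliqueFinset (j+1), cm G D) ^ 2 := by rw [h1]
    _ ≤ _ := h2
    _ ≤ _ := Nat.mul_le_mul_left _ h3

lemma kk_zero : kk G 0 = 1 := by
  have : G.cliqueFinset 0 = {∅} := by
    ext s
    simp [mem_cliqueFinset_iff, isNClique_zero]
  simp [kk, this]

lemma kk_one : kk G 1 = Fintype.card V := by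
  have h := sum_cm (G := G) 0
  have h0 : G.cliqueFinset 0 = {∅} := by
    ext s
    simp [mem_cliqueFinset_iff, isNClique_zero]
  rw [h0] at h
  simp [cm] at h
  exact h.symm

lemma kk_eq_zero_of_cliqueFree {r j : ℕ} (h : G.CliqueFree (r+1)) (hj : r < j) : kk G j = 0 := by
  have : G.CliqueFree j := h.mono hj
  simp [kk, this.cliqueFinset]

/-- ratio bound: in a `K_{r+1}`-free graph `j r k_j ≤ (r-j+1) n k_{j-1}` -/
lemma ratio {r : ℕ} (h : G.CliqueFree (r+1)) :
    ∀ i j : ℕ, j + i = r → (j+1) * r * kk G (j+1) ≤ i * Fintype.card V * kk G j := by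
  intro i
  induction i with
  | zero =>
    intro j hj
    rw [kk_eq_zero_of_cliqueFree h (by omega)]
    simp
  | succ i ih =>
    intro j hj
    have ih' := ih (j+1) (by omega)
    rcases j with _ | j
    · -- j = 0
      rw [kk_zero, zero_add, kk_one]
      have : r = i+1 := by omega
      subst this
      apply le_of_eq; ring
    · rcases Nat.eq_zero_or_pos (kk G (j+2)) with h0 | hpos
      · rw [h0]; simp
      · have mm := moon_moser (G := G) j
        have key : (j+2) * kk G (j+2) * ((j+2) * r * kk G (j+2))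
            ≤ (j+2) * kk G (j+2) * ((i+1) * Fintype.card V * kk G (j+1)) := by
          calc (j+2) * kk G (j+2) * ((j+2) * r * kk G (j+2))
              = r * ((j+2) * kk G (j+2)) ^ 2 := by ring
            _ ≤ r * (kk G (j+1) * (Fintype.card V * kk G (j+2)
                  + (j+1) * ((j+3) * kk G (j+3)))) := Nat.mul_le_mul_left _ mm
            _ = kk G (j+1) * (r * Fintype.card V * kk G (j+2)
                  + (j+1) * ((j+1+1+1) * r * kk G (j+1+1+1))) := by ring
            _ ≤ kk G (j+1) * (r * Fintype.card V * kk G (j+2)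
                  + (j+1) * (i * Fintype.card V * kk G (j+1+1))) := by
                gcongr
            _ = (j+2) * kk G (j+2) * ((i+1) * Fintype.card V * kk G (j+1)) := by
                have : r = j + i + 2 := by omega
                subst this
                ring
        exact Nat.le_of_mul_le_mul_left key (by positivity)

/-- Zykov / Fisher-Ryan type chain: in a `K_{r+1}`-free graph on `n` vertices
`k_{s+i} C(r,s) r^i ≤ C(r,s+i) n^i k_s`. -/
lemma chain {r : ℕ} (h : G.CliqueFree (r+1)) (s i : ℕ) :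
    kk G (s+i) * r.choose s * r ^ i ≤ r.choose (s+i) * Fintype.card V ^ i * kk G s := by
  induction i with
  | zero => simp [mul_comm]
  | succ i ih =>
    rcases Nat.lt_or_ge r (s+(i+1)) with hlt | hle
    · rw [kk_eq_zero_of_cliqueFree h hlt]; simp
    · have hr := ratio h (r - (s+i)) (s+i) (by omega)
      have hc : r.choose (s+i+1) * (s+i+1) = r.choose (s+i) * (r - (s+i)) :=
        Nat.choose_succ_right_eq _ _
      have key : (s+i+1) * (kk G (s+(i+1)) * r.choose s * r ^ (i+1))
          ≤ (s+i+1) * (r.choose (s+(i+1)) * Fintype.card V ^ (i+1) * kk G s) := by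
        calc (s+i+1) * (kk G (s+(i+1)) * r.choose s * r ^ (i+1))
            = ((s+i+1) * r * kk G (s+i+1)) * (r.choose s * r ^ i) := by
              rw [show s + (i+1) = s+i+1 by ring]; ring
          _ ≤ ((r - (s+i)) * Fintype.card V * kk G (s+i)) * (r.choose s * r ^ i) :=
              Nat.mul_le_mul_right _ hr
          _ = ((r - (s+i)) * Fintype.card V) * (kk G (s+i) * r.choose s * r ^ i) := by ring
          _ ≤ ((r - (s+i)) * Fintype.card V) * (r.choose (s+i) * Fintype.card V ^ i * kk G s) :=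
              Nat.mul_le_mul_left _ ih
          _ = (r.choose (s+i) * (r - (s+i))) * (Fintype.card V ^ (i+1) * kk G s) := by ring
          _ = (s+i+1) * (r.choose (s+(i+1)) * Fintype.card V ^ (i+1) * kk G s) := by
              rw [← hc, show s + (i+1) = s+i+1 by ring]; ring
      exact Nat.le_of_mul_le_mul_left key (by omega)

/-- cliques inside the neighbourhood of `v` -/
lemma kk_induce (v : V) (j : ℕ) :
    kk (G.induce {x | G.Adj v x}) j
      = ((G.cliqueFinset j).filter (fun D => ∀ d ∈ D, G.Adj v d)).card := by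
  classical
  rw [kk, ← card_map ⟨Finset.map (Function.Embedding.subtype (fun x => x ∈ {x | G.Adj v x})),
    Finset.map_injective _⟩]
  congr 1
  ext D
  simp only [mem_map, mem_cliqueFinset_iff, Function.Embedding.coeFn_mk, mem_filter]
  constructor
  · rintro ⟨s, hs, rfl⟩
    refine ⟨(isNClique_induce_iff _ _ _).1 hs, ?_⟩
    intro d hd
    simp only [mem_map, Function.Embedding.subtype_apply] at hd
    obtain ⟨y, _, rfl⟩ := hd
    exact y.2
  · rintro ⟨hD, hv⟩
    refine ⟨D.subtype (fun x => x ∈ {x | G.Adj v x}), ?_, ?_⟩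
    · rw [isNClique_induce_iff]
      have : (D.subtype (fun x => x ∈ {x | G.Adj v x})).map
          (Function.Embedding.subtype (fun x => x ∈ {x | G.Adj v x})) = D := by
        rw [Finset.subtype_map, filter_true_of_mem]
        intro x hx; exact hv x hx
      rw [this]; exact hD
    · rw [Finset.subtype_map, filter_true_of_mem]
      intro x hx; exact hv x hx

lemma sum_kk_induce (j : ℕ) :
    ∑ v : V, kk (G.induce {x | G.Adj v x}) j = (j+1) * kk G (j+1) := by
  simp only [kk_induce]
  rw [← sum_cm]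
  simp only [cm, card_filter]
  rw [sum_comm]

lemma cliqueFree_induce {r : ℕ} (h : G.CliqueFree (r+2)) (v : V) :
    (G.induce {x | G.Adj v x}).CliqueFree (r+1) := by
  intro s hs
  have h1 := (isNClique_induce_iff _ _ _).1 hs
  refine h _ (h1.insert (a := v) ?_)
  intro b hb
  simp only [mem_map, Function.Embedding.subtype_apply] at hb
  obtain ⟨y, _, rfl⟩ := hb
  exact y.2

/-- The main inequality. With `r = ω - 1`: if `G` is `K_{ω+1}`-free of maximum degree at most `Δ`,
then `k_t C(ω,u) (ω-1)^(t-u) ≤ C(ω,t) Δ^(t-u) k_u`, for `1 ≤ u ≤ t`. -/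
theorem main_bound {r Δ : ℕ} (h : G.CliqueFree (r+2)) (hΔ : ∀ v, G.degree v ≤ Δ) (s i : ℕ) :
    kk G (s+1+i) * (r+1).choose (s+1) * r ^ i
      ≤ (r+1).choose (s+1+i) * Δ ^ i * kk G (s+1) := by
  have h1 : ∀ v : V, kk (G.induce {x | G.Adj v x}) (s+i) * r.choose s * r ^ i
      ≤ r.choose (s+i) * Δ ^ i * kk (G.induce {x | G.Adj v x}) s := by
    intro v
    refine (chain (cliqueFree_induce h v) s i).trans ?_
    have : Fintype.card {x // x ∈ {x | G.Adj v x}} ≤ Δ := by
      refine le_trans (le_of_eq ?_) (hΔ v)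
      rw [← card_neighborSet_eq_degree]
      exact Fintype.card_congr (Equiv.refl _)
    gcongr
  have h2 := sum_le_sum (fun v (_ : v ∈ (univ : Finset V)) => h1 v)
  rw [← sum_mul, ← sum_mul, ← mul_sum, sum_kk_induce, sum_kk_induce] at h2
  -- (s+i+1) k_{s+i+1} C(r,s) r^i ≤ C(r,s+i) Δ^i (s+1) k_{s+1}
  have c1 : (r+1).choose (s+1) * (s+1) = (r+1) * r.choose s := (Nat.add_one_mul_choose_eq r s).symm
  have c2 : (r+1).choose (s+i+1) * (s+i+1) = (r+1) * r.choose (s+i) :=
    (Nat.add_one_mul_choose_eq r (s+i)).symm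
  have key : (s+1) * (s+i+1) * (kk G (s+1+i) * (r+1).choose (s+1) * r ^ i)
      ≤ (s+1) * (s+i+1) * ((r+1).choose (s+1+i) * Δ ^ i * kk G (s+1)) := by
    rw [show s+1+i = s+i+1 by ring]
    calc (s+1) * (s+i+1) * (kk G (s+i+1) * (r+1).choose (s+1) * r ^ i)
        = ((r+1).choose (s+1) * (s+1)) * ((s+i+1) * kk G (s+i+1) * r ^ i) := by ring
      _ = (r+1) * ((s+i+1) * kk G (s+i+1) * r.choose s * r ^ i) := by rw [c1]; ring
      _ ≤ (r+1) * (r.choose (s+i) * Δ ^ i * ((s+1) * kk G (s+1))) := Nat.mul_le_mul_left _ h2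
      _ = ((r+1) * r.choose (s+i)) * (Δ ^ i * ((s+1) * kk G (s+1))) := by ring
      _ = (s+1) * (s+i+1) * ((r+1).choose (s+i+1) * Δ ^ i * kk G (s+1)) := by rw [← c2]; ring
  exact Nat.le_of_mul_le_mul_left key (by positivity)

end MP5cc280
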