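import Pool.Agent.H.MP_5cc280_co.Join

/-!
# The main inequality for `K_{u+2}`-free graphs and the unbalanced complete multipartite graphs
-/

namespace MP5cc280

open Finset SimpleGraph

section upper

variable {V : Type*} [Fintype V] [DecidableEq V] {G : SimpleGraph V} [DecidableRel G.Adj]

/-- real version of `sum_erase` -/
theorem sum_eraseR (f : Finset V → ℝ) (j : ℕ) :
    ∑ A ∈ G.cliqueFinset (j+1), ∑ a ∈ A, f (A.erase a)
      = ∑ D ∈ G.cliqueFinset j, (cm G D : ℝ) * f D := by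
  have h : ∀ D ∈ G.cliqueFinset j, (cm G D : ℝ) * f D =
      ∑ _v ∈ univ.filter (fun v => ∀ d ∈ D, G.Adj v d), f D := by
    intro D _
    simp [cm]
  rw [sum_congr rfl h, sum_sigma', sum_sigma']
  refine sum_bij' (fun x _ => ⟨x.1.erase x.2, x.2⟩) (fun y _ => ⟨insert y.2 y.1, y.2⟩) ?_ ?_ ?_ ?_ ?_
  · rintro ⟨A, a⟩ hx
    simp only [mem_sigma] at hx
    have := (mem_pair_iff (G := G)).1 hx
    simp only [mem_sigma, mem_filter, mem_univ, true_and]
    exact ⟨this.1, this.2.1⟩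
  · rintro ⟨D, v⟩ hy
    simp only [mem_sigma, mem_filter, mem_univ, true_and] at hy
    simp only [mem_sigma]
    refine ⟨?_, mem_insert_self _ _⟩
    rw [mem_cliqueFinset_iff] at hy ⊢
    exact hy.1.insert hy.2
  · rintro ⟨A, a⟩ hx
    simp only [mem_sigma] at hx
    simp [insert_erase hx.2]
  · rintro ⟨D, v⟩ hy
    simp only [mem_sigma, mem_filter, mem_univ, true_and] at hy
    have hv : v ∉ D := fun h => G.loopless.irrefl v (hy.2 v h)
    simp [erase_insert hv]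
  · rintro ⟨A, a⟩ hx
    rfl

/-- in a `K_{u+2}`-free graph the common neighbourhoods of the `u`-subsets of a `(u+1)`-clique
through `y` are disjoint subsets of the neighbourhood of `y` -/
theorem sum_cm_le_degree {u : ℕ} (hf : G.CliqueFree (u + 2)) {T : Finset V}
    (hT : T ∈ G.cliqueFinset (u + 1)) {y : V} (hy : y ∈ T) :
    ∑ a ∈ T.erase y, cm G (T.erase a) ≤ G.degree y := by
  rw [mem_cliqueFinset_iff] at hT
  have h1 : ∑ a ∈ T.erase y, cm G (T.erase a) =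
      ((T.erase y).biUnion (fun a => cnb G (T.erase a))).card := by
    rw [card_biUnion]
    · rfl
    · intro a ha b hb hab
      refine Finset.disjoint_left.2 ?_
      intro v hva hvb
      have hva' := mem_cnb.1 hva
      have hvb' := mem_cnb.1 hvb
      refine hf (insert v T) (hT.insert (a := v) ?_)
      intro d hd
      by_cases h : d = a
      · exact hvb' d (mem_erase.2 ⟨fun h2 => hab (h.symm.trans h2), hd⟩)
      · exact hva' d (mem_erase.2 ⟨h, hd⟩)
  rw [h1, ← card_neighborFinset_eq_degree]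
  refine card_le_card ?_
  intro v hv
  rw [mem_biUnion] at hv
  obtain ⟨a, ha, hva⟩ := hv
  rw [mem_neighborFinset]
  rw [mem_erase] at ha
  exact (mem_cnb.1 hva y (mem_erase.2 ⟨ha.1.symm, hy⟩)).symm

theorem cm_erase_pos {u : ℕ} {T : Finset V} (hT : T ∈ G.cliqueFinset (u + 1)) {a : V}
    (ha : a ∈ T) : 0 < cm G (T.erase a) := by
  rw [mem_cliqueFinset_iff] at hT
  rw [← card_cnb, card_pos]
  refine ⟨a, mem_cnb.2 ?_⟩
  intro d hd
  rw [mem_erase] at hd
  exact hT.1 ha hd.2 hd.1.symm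

/-- **Main inequality.** -/
theorem main_ineq {u n Δ : ℕ} (hu : 2 ≤ u) (hf : G.CliqueFree (u + 2))
    (hΔ : ∀ v, G.degree v ≤ Δ) {c : ℝ} (hc : 0 < c)
    (hg : ∀ ε : ℝ, 0 < ε → u * ε ≤ 1 → gfun u (n + 2) ε ≤ c) :
    ∑ Q ∈ G.cliqueFinset u, (cm G Q : ℝ) ^ (n + 2) ≤ c * (Δ : ℝ) ^ (n + 2) * kk G u := by
  have e1 : ∑ Q ∈ G.cliqueFinset u, (cm G Q : ℝ) ^ (n + 2) =
      ∑ T ∈ G.cliqueFinset (u + 1), ∑ a ∈ T, (cm G (T.erase a) : ℝ) ^ (n + 1) := by
    rw [sum_eraseR (fun D => (cm G D : ℝ) ^ (n + 1))]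
    refine sum_congr rfl fun Q _ => ?_
    rw [← pow_succ']
  have e2 : ∀ T ∈ G.cliqueFinset (u + 1), ∑ a ∈ T, (cm G (T.erase a) : ℝ) ^ (n + 1) ≤
      c * (Δ : ℝ) ^ (n + 2) * ∑ a ∈ T, 1 / (cm G (T.erase a) : ℝ) := by
    intro T hT
    have hTc : T.card = u + 1 := by
      rw [mem_cliqueFinset_iff] at hT
      exact hT.2
    have hpos : ∀ a ∈ T, (0 : ℝ) < cm G (T.erase a) := fun a ha => by
      exact_mod_cast cm_erase_pos hT ha
    have hdeg : ∀ y ∈ T, ∑ a ∈ T.erase y, (cm G (T.erase a) : ℝ) ≤ Δ := by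
      intro y hy
      have h1 := (sum_cm_le_degree hf hT hy).trans (hΔ y)
      exact_mod_cast h1
    have hΔ0 : (0 : ℝ) < Δ := by
      obtain ⟨y, hy⟩ : T.Nonempty := by
        rw [← card_pos, hTc]
        omega
      have hne : (T.erase y).Nonempty := by
        rw [← card_pos, card_erase_of_mem hy, hTc]
        omega
      refine lt_of_lt_of_le (sum_pos (fun a ha => hpos a (mem_of_mem_erase ha)) hne) (hdeg y hy)
    have h := opt (n := n) hu hc hg hTc (x := fun a => (cm G (T.erase a) : ℝ) / Δ)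
      (fun a ha => div_pos (hpos a ha) hΔ0) (fun y hy => by
        rw [← sum_div, div_le_one hΔ0]
        exact hdeg y hy)
    have h2 : ∑ a ∈ T, ((cm G (T.erase a) : ℝ) / Δ) ^ (n + 1) =
        (∑ a ∈ T, (cm G (T.erase a) : ℝ) ^ (n + 1)) / (Δ : ℝ) ^ (n + 1) := by
      rw [sum_div]
      exact sum_congr rfl fun a _ => div_pow _ _ _
    have h3 : ∑ a ∈ T, 1 / ((cm G (T.erase a) : ℝ) / Δ) =
        (Δ : ℝ) * ∑ a ∈ T, 1 / (cm G (T.erase a) : ℝ) := by
      rw [mul_sum]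
      refine sum_congr rfl fun a ha => ?_
      have := (hpos a ha).ne'
      field_simp
    rw [h2, h3, div_le_iff₀ (pow_pos hΔ0 _)] at h
    calc _ ≤ _ := h
      _ = _ := by ring
  have e3 : ∑ T ∈ G.cliqueFinset (u + 1), ∑ a ∈ T, 1 / (cm G (T.erase a) : ℝ) ≤ kk G u := by
    rw [sum_eraseR (fun D => 1 / (cm G D : ℝ)), kk, card_eq_sum_ones]
    push_cast
    refine sum_le_sum fun Q _ => ?_
    rw [mul_one_div]
    exact div_self_le_one _
  calc _ = _ := e1
    _ ≤ ∑ T ∈ G.cliqueFinset (u + 1),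
        c * (Δ : ℝ) ^ (n + 2) * ∑ a ∈ T, 1 / (cm G (T.erase a) : ℝ) := sum_le_sum e2
    _ = c * (Δ : ℝ) ^ (n + 2) * ∑ T ∈ G.cliqueFinset (u + 1),
        ∑ a ∈ T, 1 / (cm G (T.erase a) : ℝ) := by rw [mul_sum]
    _ ≤ _ := mul_le_mul_of_nonneg_left e3 (by positivity)

/-- the bound for the number of copies -/
theorem copies_le {W : Type*} [Fintype W] [DecidableEq W] {H : SimpleGraph W} {D : Finset W}
    {u n Δ : ℕ} (hD : D.card = u) (hW : Fintype.card W = u + (n + 2))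
    (hadj : ∀ a b, H.Adj a b ↔ a ≠ b ∧ (a ∈ D ∨ b ∈ D)) (hu : 2 ≤ u)
    (hf : G.CliqueFree (u + 2)) (hΔ : ∀ v, G.degree v ≤ Δ) {c : ℝ} (hc : 0 < c)
    (hg : ∀ ε : ℝ, 0 < ε → u * ε ≤ 1 → gfun u (n + 2) ε ≤ c) :
    (G.copyCount H : ℝ) ≤ c * (Δ : ℝ) ^ (n + 2) / (n + 2).factorial * kk G u := by
  rw [copyCount_join hD hW (by omega) hadj]
  push_cast
  have h1 : ∑ Q ∈ G.cliqueFinset u, ((cm G Q).choose (n + 2) : ℝ) ≤
      ∑ Q ∈ G.cliqueFinset u, (cm G Q : ℝ) ^ (n + 2) / (n + 2).factorial :=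
    sum_le_sum fun Q _ => Nat.choose_le_pow_div _ _
  rw [← sum_div] at h1
  refine h1.trans ?_
  have h2 : (0 : ℝ) < (n + 2).factorial := by exact_mod_cast Nat.factorial_pos _
  rw [div_mul_eq_mul_div, div_le_div_iff_of_pos_right h2]
  exact main_ineq hu hf hΔ hc hg

end upper

section lower

variable {u : ℕ} (m : Fin (u + 1) → ℕ)

/-- the complete multipartite graph with parts of size `m i` -/
abbrev cmg : SimpleGraph (Σ i : Fin (u + 1), Fin (m i)) :=
  completeMultipartiteGraph (fun i => Fin (m i))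

instance : DecidableRel (cmg m).Adj := fun a b =>
  decidable_of_iff (a.1 ≠ b.1) Iff.rfl

theorem cmg_adj {a b : Σ i : Fin (u + 1), Fin (m i)} : (cmg m).Adj a b ↔ a.1 ≠ b.1 := Iff.rfl

variable {m}

theorem cmg_inj {T : Finset (Σ i : Fin (u + 1), Fin (m i))} (hT : (cmg m).IsClique T) :
    Set.InjOn Sigma.fst (T : Set (Σ i : Fin (u + 1), Fin (m i))) := by
  intro a ha b hb hab
  by_contra hne
  exact (hT ha hb hne) hab

theorem cmg_card {T : Finset (Σ i : Fin (u + 1), Fin (m i))} (hT : (cmg m).IsClique T) :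
    (T.image Sigma.fst).card = T.card := card_image_of_injOn (cmg_inj hT)

theorem cmg_free : (cmg m).CliqueFree (u + 2) := by
  intro T hT
  have h1 := cmg_card hT.1
  have h2 := card_le_univ (T.image Sigma.fst)
  rw [h1, hT.2, Fintype.card_fin] at h2
  omega

theorem cmg_cm {Q : Finset (Σ i : Fin (u + 1), Fin (m i))} :
    cm (cmg m) Q = ∑ i ∈ (Q.image Sigma.fst)ᶜ, m i := by
  have e : (univ.filter (fun v : (Σ i : Fin (u + 1), Fin (m i)) => ∀ d ∈ Q, (cmg m).Adj v d)) =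
      ((Q.image Sigma.fst)ᶜ).sigma (fun _ => univ) := by
    ext v
    rw [mem_filter, mem_sigma, mem_compl, mem_image]
    constructor
    · rintro ⟨-, h⟩
      refine ⟨?_, mem_univ _⟩
      rintro ⟨d, hd, hdv⟩
      exact (h d hd) hdv.symm
    · rintro ⟨h, -⟩
      refine ⟨mem_univ _, fun d hd hv => h ⟨d, hd, hv.symm⟩⟩
  rw [cm, e, card_sigma]
  simp

theorem cmg_image {T : Finset (Σ i : Fin (u + 1), Fin (m i))}
    (hT : T ∈ (cmg m).cliqueFinset (u + 1)) : T.image Sigma.fst = univ := by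
  rw [mem_cliqueFinset_iff] at hT
  rw [← card_eq_iff_eq_univ, cmg_card hT.1, hT.2, Fintype.card_fin]

theorem cmg_cm_erase {T : Finset (Σ i : Fin (u + 1), Fin (m i))}
    (hT : T ∈ (cmg m).cliqueFinset (u + 1)) {a : Σ i : Fin (u + 1), Fin (m i)} (ha : a ∈ T) :
    cm (cmg m) (T.erase a) = m a.1 := by
  have hT' := hT
  rw [mem_cliqueFinset_iff] at hT'
  have h1 : (T.erase a).image Sigma.fst = univ.erase a.1 := by
    rw [← cmg_image hT]
    ext i
    simp only [mem_image, mem_erase]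
    constructor
    · rintro ⟨b, ⟨hb1, hb2⟩, rfl⟩
      exact ⟨fun h => hb1 (cmg_inj hT'.1 hb2 ha h), b, hb2, rfl⟩
    · rintro ⟨hi, b, hb, rfl⟩
      exact ⟨b, ⟨fun h => hi (by rw [h]), hb⟩, rfl⟩
  rw [cmg_cm, h1]
  have h2 : (univ.erase a.1 : Finset (Fin (u + 1)))ᶜ = {a.1} := by
    ext i
    simp
  rw [h2, sum_singleton]

theorem cmg_sum {T : Finset (Σ i : Fin (u + 1), Fin (m i))}
    (hT : T ∈ (cmg m).cliqueFinset (u + 1)) (F : Fin (u + 1) → ℝ) :
    ∑ a ∈ T, F a.1 = ∑ i, F i := by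
  have hT' := hT
  rw [mem_cliqueFinset_iff] at hT'
  rw [← cmg_image hT, sum_image (cmg_inj hT'.1)]

theorem cmg_kk_pos (hm : ∀ i, 0 < m i) : 0 < kk (cmg m) (u + 1) := by
  rw [kk, card_pos]
  refine ⟨univ.image (fun i => (⟨i, ⟨0, hm i⟩⟩ : Σ i : Fin (u + 1), Fin (m i))), ?_⟩
  rw [mem_cliqueFinset_iff, isNClique_iff]
  constructor
  · intro a ha b hb hab
    rw [mem_coe, mem_image] at ha hb
    obtain ⟨i, -, rfl⟩ := ha
    obtain ⟨j, -, rfl⟩ := hb
    intro h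
    simp only at h
    apply hab
    rw [h]
  · rw [card_image_of_injective, card_univ, Fintype.card_fin]
    intro i j h
    exact congrArg Sigma.fst h

/-- sums over the `u`-cliques -/
theorem cmg_sum_cm (hm : ∀ i, 0 < m i) (F : ℕ → ℝ) :
    ∑ Q ∈ (cmg m).cliqueFinset u, F (cm (cmg m) Q) =
      kk (cmg m) (u + 1) * ∑ i, F (m i) / m i := by
  have h1 := sum_eraseR (G := cmg m) (fun Q => F (cm (cmg m) Q) / cm (cmg m) Q) u
  have h2 : ∀ T ∈ (cmg m).cliqueFinset (u + 1),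
      ∑ a ∈ T, F (cm (cmg m) (T.erase a)) / cm (cmg m) (T.erase a) = ∑ i, F (m i) / m i := by
    intro T hT
    rw [← cmg_sum hT (fun i => F (m i) / m i)]
    refine sum_congr rfl fun a ha => ?_
    rw [cmg_cm_erase hT ha]
  rw [sum_congr rfl h2, sum_const, nsmul_eq_mul] at h1
  rw [kk, h1]
  refine sum_congr rfl fun Q hQ => ?_
  have h3 : (cm (cmg m) Q : ℝ) ≠ 0 := by
    rw [mem_cliqueFinset_iff] at hQ
    have h4 : ((Q.image Sigma.fst)ᶜ : Finset (Fin (u + 1))).Nonempty := by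
      rw [← card_pos, card_compl, cmg_card hQ.1, hQ.2, Fintype.card_fin]
      omega
    have h5 : 0 < cm (cmg m) Q := by
      rw [cmg_cm]
      exact sum_pos (fun i _ => hm i) h4
    exact_mod_cast h5.ne'
  rw [mul_div_cancel₀ _ h3]

theorem cmg_degree (v : Σ i : Fin (u + 1), Fin (m i)) :
    (cmg m).degree v = ∑ i ∈ univ.erase v.1, m i := by
  have e : (cmg m).neighborFinset v = (univ.erase v.1).sigma (fun _ => univ) := by
    ext w
    rw [mem_neighborFinset, mem_sigma, mem_erase]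
    constructor
    · intro h
      exact ⟨⟨fun h2 => h h2.symm, mem_univ _⟩, mem_univ _⟩
    · rintro ⟨⟨h, -⟩, -⟩
      exact fun h2 => h h2.symm
  rw [← card_neighborFinset_eq_degree, e, card_sigma]
  simp

theorem cmg_FF {Δ : ℕ} (h : ∀ j, ∑ i ∈ univ.erase j, m i ≤ Δ) :
    ∀ A ∈ FF Δ (u + 1), A.2.Free (cmg m) := by
  intro A hA
  rcases hA with rfl | rfl
  · rw [star_free_iff]
    intro v
    rw [cmg_degree]
    exact h v.1
  · change (⊤ : SimpleGraph (Fin (u+1+1))).Free (cmg m)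
    rw [← cliqueFree_iff_top_free, Fintype.card_fin]
    exact cmg_free

/-- the ratio given by a complete multipartite graph -/
theorem cmg_ratio {W : Type*} [Fintype W] [DecidableEq W] [Nonempty W] {H : SimpleGraph W}
    {D : Finset W} {s Δ : ℕ}
    (hD : D.card = u) (hW : Fintype.card W = u + s) (hs : 2 ≤ s)
    (hadj : ∀ a b, H.Adj a b ↔ a ≠ b ∧ (a ∈ D ∨ b ∈ D)) (hm : ∀ i, 0 < m i)
    (hdeg : ∀ j, ∑ i ∈ univ.erase j, m i ≤ Δ) {c : ℝ}
    (hc : ∀ p, 0 < p → ∀ N ∈ exSet u p H (FF Δ (u + 1)), (N : ℝ) / p ≤ c) :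
    (∑ i, ((m i).choose s : ℝ) / m i) / (∑ i, 1 / (m i : ℝ)) ≤ c := by
  have h1 := mem_exSet (H := H) (cmg m) (u := u) (F := FF Δ (u + 1)) (cmg_FF hdeg)
  have h2 : ((cmg m).copyCount H : ℝ) =
      kk (cmg m) (u + 1) * ∑ i, ((m i).choose s : ℝ) / m i := by
    rw [copyCount_join hD hW hs hadj]
    push_cast
    exact cmg_sum_cm hm (fun k => (k.choose s : ℝ))
  have h3 : ((cmg m).copyCount (⊤ : SimpleGraph (Fin u)) : ℝ) =
      kk (cmg m) (u + 1) * ∑ i, 1 / (m i : ℝ) := by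
    rw [copyCount_top, ← cmg_sum_cm hm (fun _ => (1 : ℝ)), sum_const, nsmul_eq_mul, mul_one]
    rfl
  have h4 : (0 : ℝ) < kk (cmg m) (u + 1) := by exact_mod_cast cmg_kk_pos hm
  have h5 : (0 : ℝ) < ∑ i, 1 / (m i : ℝ) :=
    sum_pos (fun i _ => one_div_pos.2 (by exact_mod_cast hm i)) univ_nonempty
  have h6 : 0 < (cmg m).copyCount (⊤ : SimpleGraph (Fin u)) := by
    have : (0 : ℝ) < (cmg m).copyCount (⊤ : SimpleGraph (Fin u)) := by
      rw [h3]
      positivity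
    exact_mod_cast this
  have h7 := hc _ h6 _ h1
  rw [h2, h3, mul_div_mul_left _ _ h4.ne'] at h7
  exact h7

end lower

end MP5cc280
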