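import Pool.Agent.H.MP_5cc280_co.Tur

/-!
From the upper bound for the extremal function to the limits.
-/

namespace MP5cc280

open Finset SimpleGraph Filter Topology

theorem bal_of_upper {W : Type} [Fintype W] [DecidableEq W] [Nonempty W] {H : SimpleGraph W}
    {D : Finset W} {u w s : ℕ} (hD : D.card = u)
    (hdom : ∀ v ∈ D, ∀ w, w ≠ v → H.Adj v w) (hcard : Fintype.card W = u + s)
    (hu : 2 ≤ u) (huw : u < w)
    (hcol : 0 < Nat.card (H →g (⊤ : SimpleGraph (Fin w))))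
    (hup : ∀ Δ, w ≤ Δ → ∀ p, ∀ N ∈ exSet u p H (FF Δ w),
      (N : ℝ) ≤ Lc H u w * (Δ : ℝ) ^ s * p) :
    0 < Lc H u w ∧ ∃ c : ℕ → ℝ,
      (∀ Δ, w ≤ Δ →
        (∀ p, IsGreatest (exSet u p H (FF Δ w)) (exu u p H (FF Δ w))) ∧
        Tendsto (fun p : ℕ => (exu u p H (FF Δ w) : ℝ) / p) atTop (𝓝 (c Δ)) ∧
        rho H u w Δ ≤ c Δ ∧ c Δ ≤ Lc H u w * (Δ : ℝ) ^ (Fintype.card W - u)) ∧
      Tendsto (fun Δ : ℕ => c Δ / (Δ : ℝ) ^ (Fintype.card W - u)) atTop (𝓝 (Lc H u w)) ∧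
      Tendsto (fun Δ : ℕ => c Δ / rho H u w Δ) atTop (𝓝 1) := by
  classical
  have hs : Fintype.card W - u = s := by omega
  have hw2 : 2 ≤ w := by omega
  have hw1 : (0 : ℝ) < (w : ℝ) - 1 := by
    have : (2 : ℝ) ≤ w := by exact_mod_cast hw2
    linarith
  have haut : (0 : ℝ) < Nat.card (H ≃g H) := by exact_mod_cast aut_pos (H := H)
  have hch : (0 : ℝ) < (w.choose u : ℝ) := by exact_mod_cast Nat.choose_pos huw.le
  have hL : 0 < Lc H u w := by
    unfold Lc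
    have h1 : (0 : ℝ) < Nat.card (H →g (⊤ : SimpleGraph (Fin w))) := by exact_mod_cast hcol
    positivity
  have main : ∀ Δ, w ≤ Δ → ∃ c : ℝ,
      (∀ p, IsGreatest (exSet u p H (FF Δ w)) (exu u p H (FF Δ w))) ∧
      Tendsto (fun p : ℕ => (exu u p H (FF Δ w) : ℝ) / p) atTop (𝓝 c) ∧
      rho H u w Δ ≤ c ∧ c ≤ Lc H u w * (Δ : ℝ) ^ (Fintype.card W - u) := by
    intro Δ hΔ
    have hnonempty := exSet_nonempty (H := H) (u := u) (ω := w) (by omega) huw.le hΔ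
    have hup' := hup Δ hΔ
    obtain ⟨c, hc1, hc2, hc3⟩ := fekete (H := H) (u := u) (by omega) conn_FF hnonempty hup'
    refine ⟨c, fun p => ?_, hc1, ?_, ?_⟩
    · have hb : BddAbove (exSet u p H (FF Δ w)) := by
        refine ⟨⌈Lc H u w * (Δ : ℝ) ^ s * p⌉₊, fun N hN => ?_⟩
        exact_mod_cast (hup' p N hN).trans (Nat.le_ceil _)
      exact ⟨exu_mem (hnonempty p) hb, fun N hN => le_csSup hb hN⟩
    · have hm := mem_exSet (H := H) (turanGraph (tn Δ w) w) (u := u) (F := FF Δ w)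
        (turan_FF hw2)
      have hq : 0 < Δ / (w - 1) := Nat.div_pos (by omega) (by omega)
      have h3 := copyCount_mono (H := (⊤ : SimpleGraph (Fin u))) (turanLow (Δ := Δ) hw2)
      rw [copyCount_top (G := completeEquipartiteGraph w (Δ / (w - 1))), kk_equi] at h3
      have hpos : 0 < (turanGraph (tn Δ w) w).copyCount (⊤ : SimpleGraph (Fin u)) :=
        lt_of_lt_of_le (Nat.mul_pos (Nat.choose_pos huw.le) (pow_pos hq u)) h3
      exact hc2 _ hpos _ hm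
    · rw [hs]
      exact hc3
  choose! c hc using main
  have t1 : Tendsto (fun Δ : ℕ => Lc H u w * ((w : ℝ) - 1) ^ (Fintype.card W - u) *
      ((Δ / (w - 1) + 1 - Fintype.card W : ℕ) : ℝ) ^ Fintype.card W /
      ((Δ / (w - 1) + 1 : ℕ) : ℝ) ^ u /
      (Δ : ℝ) ^ (Fintype.card W - u)) atTop (𝓝 (Lc H u w)) :=
    low_tendsto hw2 _ (by omega)
  have ev : ∀ᶠ Δ : ℕ in atTop, w ≤ Δ := eventually_ge_atTop w
  have tr : Tendsto (fun Δ : ℕ => rho H u w Δ / (Δ : ℝ) ^ (Fintype.card W - u)) atTop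
      (𝓝 (Lc H u w)) := by
    refine tendsto_of_tendsto_of_tendsto_of_le_of_le' t1 tendsto_const_nhds ?_ ?_
    · filter_upwards [ev] with Δ hΔ
      exact div_le_div_of_nonneg_right
        (rho_ge hD hdom hw2 huw.le (Nat.div_pos (by omega) (by omega))) (by positivity)
    · filter_upwards [ev] with Δ hΔ
      have hΔ' : (0 : ℝ) < Δ := by exact_mod_cast (by omega : 0 < Δ)
      rw [div_le_iff₀ (by positivity)]
      exact (hc Δ hΔ).2.2.1.trans (hc Δ hΔ).2.2.2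
  have tc : Tendsto (fun Δ : ℕ => c Δ / (Δ : ℝ) ^ (Fintype.card W - u)) atTop
      (𝓝 (Lc H u w)) := by
    refine tendsto_of_tendsto_of_tendsto_of_le_of_le' tr tendsto_const_nhds ?_ ?_
    · filter_upwards [ev] with Δ hΔ
      exact div_le_div_of_nonneg_right (hc Δ hΔ).2.2.1 (by positivity)
    · filter_upwards [ev] with Δ hΔ
      have hΔ' : (0 : ℝ) < Δ := by exact_mod_cast (by omega : 0 < Δ)
      rw [div_le_iff₀ (by positivity)]
      exact (hc Δ hΔ).2.2.2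
  refine ⟨hL, c, fun Δ hΔ => hc Δ hΔ, tc, ?_⟩
  have t3 := tc.div tr hL.ne'
  rw [div_self hL.ne'] at t3
  refine t3.congr' ?_
  filter_upwards [ev] with Δ hΔ
  have hΔ' : (0 : ℝ) < (Δ : ℝ) ^ (Fintype.card W - u) := by
    have : (0 : ℝ) < Δ := by exact_mod_cast (by omega : 0 < Δ)
    positivity
  change (c Δ / (Δ : ℝ) ^ (Fintype.card W - u)) /
    (rho H u w Δ / (Δ : ℝ) ^ (Fintype.card W - u)) = c Δ / rho H u w Δ
  rw [div_div_div_cancel_right₀ hΔ'.ne']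

end MP5cc280
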