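import Pool.Agent.H.MP_5cc280_co.PColG

/-!
Many proper colourings.
-/

namespace MP5cc280

open Finset SimpleGraph

theorem card_col_ge {W : Type*} [Fintype W] [DecidableEq W] {H : SimpleGraph W}
    {T : Finset W} {N w : ℕ} (hT : T.card = N) (hNw : N ≤ w)
    (y : {e : W // e ∉ T} → {t : W // t ∈ T}) (hy : Function.Injective y)
    (hadj : ∀ e : {e : W // e ∉ T}, ¬ H.Adj e (y e))
    (hE : w = N ∨ ∀ a ∉ T, ∀ b ∉ T, ¬ H.Adj a b) :
    w.descFactorial N * (w - N + 1) ^ Fintype.card {e : W // e ∉ T} ≤
      Nat.card (H →g (⊤ : SimpleGraph (Fin w))) := by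
  classical
  have h := card_col_geM (H := H) (w := w) hT (fun e => {y e}) (fun e t ht => by
    rw [mem_singleton] at ht
    rw [ht]
    exact hadj e) (fun a b t ha hb => by
    rw [mem_singleton] at ha hb
    exact hy (ha.symm.trans hb)) hE
  refine le_trans (le_of_eq ?_) h
  congr 1
  simp only [card_singleton]
  rw [prod_const, card_univ]

end MP5cc280
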