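import Pool.Agent.H.MP_5cc280_co.PColG

/-!
Many proper colourings, two adjacent vertices outside `T`.
-/

namespace MP5cc280

open Finset SimpleGraph

variable {W : Type*} [Fintype W] [DecidableEq W] {H : SimpleGraph W} {T : Finset W} {w : ℕ}

theorem card_col_ge_edge {N : ℕ} (hT : T.card = N) (hNw : N ≤ w)
    (M : {e : W // e ∉ T} → Finset {t : W // t ∈ T})
    (hM : ∀ (e : {e : W // e ∉ T}) (t : {t : W // t ∈ T}), t ∈ M e → ¬ H.Adj e t)
    (hdis : ∀ a b t, t ∈ M a → t ∈ M b → a = b)
    {a b : {e : W // e ∉ T}} (hab : a ≠ b) (hall : ∀ e, e = a ∨ e = b) :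
    (w.descFactorial N : ℝ) * (((w : ℝ) - N + (M a).card) * ((w : ℝ) - N + (M b).card) -
      ((w : ℝ) - N)) ≤ Nat.card (H →g (⊤ : SimpleGraph (Fin w))) := by
  classical
  obtain ⟨P, hP⟩ : ∃ P : ({t : W // t ∈ T} ↪ Fin w) → Finset (Fin w × Fin w),
      ∀ g, P g = (colOK M g a ×ˢ colOK M g b).filter (fun z => z.1 ≠ z.2) :=
    ⟨fun g => (colOK M g a ×ˢ colOK M g b).filter (fun z => z.1 ≠ z.2), fun g => rfl⟩
  have hPc : ∀ g, ((w : ℝ) - N + (M a).card) * ((w : ℝ) - N + (M b).card) - ((w : ℝ) - N) ≤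
      ((P g).card : ℝ) := by
    intro g
    have h1 := Finset.card_filter_add_card_filter_not (s := colOK M g a ×ˢ colOK M g b)
      (fun z => z.1 ≠ z.2)
    rw [← hP, card_product, card_colOK hT, card_colOK hT] at h1
    have h2 : ((colOK M g a ×ˢ colOK M g b).filter (fun z => ¬ z.1 ≠ z.2)).card ≤ w - N := by
      have h3 : ((univ.image g)ᶜ : Finset (Fin w)).card = w - N := by
        rw [card_compl, card_image_of_injective _ g.injective, card_univ, Fintype.card_fin,
          Fintype.card_coe, hT]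
      rw [← h3]
      refine Finset.card_le_card_of_injOn (fun z => z.1) ?_ ?_
      · intro z hz
        rw [Finset.mem_coe, mem_filter, mem_product, not_not] at hz
        obtain ⟨⟨hza, hzb⟩, hze⟩ := hz
        rw [Finset.mem_coe, mem_compl]
        intro hx
        rw [← hze] at hzb
        unfold colOK at hza hzb
        rw [mem_union, mem_compl] at hza hzb
        rcases hza with hza | hza
        · exact hza hx
        rcases hzb with hzb | hzb
        · exact hzb hx
        rw [mem_image] at hza hzb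
        obtain ⟨s, hs, hs2⟩ := hza
        obtain ⟨t, ht, ht2⟩ := hzb
        have h4 : s = t := g.injective (hs2.trans ht2.symm)
        rw [← h4] at ht
        exact hab (hdis _ _ _ hs ht)
      · intro z hz z' hz' h
        rw [Finset.mem_coe, mem_filter, not_not] at hz hz'
        have h4 : z.1 = z'.1 := h
        refine Prod.ext h4 ?_
        rw [← hz.2, ← hz'.2, h4]
    have h5 : (w - N + (M a).card) * (w - N + (M b).card) ≤ (P g).card + (w - N) := by
      omega
    have h6 : (((w - N + (M a).card) * (w - N + (M b).card) : ℕ) : ℝ) ≤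
        (((P g).card + (w - N) : ℕ) : ℝ) := Nat.cast_le.2 h5
    push_cast [Nat.cast_sub hNw] at h6
    linarith
  let S := Σ g : {t : W // t ∈ T} ↪ Fin w, {z : Fin w × Fin w // z ∈ P g}
  have hcard : (w.descFactorial N : ℝ) * (((w : ℝ) - N + (M a).card) *
      ((w : ℝ) - N + (M b).card) - ((w : ℝ) - N)) ≤ (Nat.card S : ℝ) := by
    rw [Nat.card_eq_fintype_card, Fintype.card_sigma]
    have h1 : (w.descFactorial N : ℝ) = ((univ : Finset ({t : W // t ∈ T} ↪ Fin w)).card : ℝ) := by
      rw [card_univ, Fintype.card_embedding_eq, Fintype.card_fin, Fintype.card_coe, hT]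
    rw [h1, ← nsmul_eq_mul, ← Finset.sum_const, Nat.cast_sum]
    refine Finset.sum_le_sum fun g _ => ?_
    rw [Fintype.card_coe]
    exact hPc g
  have hadjM : ∀ (e : {e : W // e ∉ T}) (t : {t : W // t ∈ T}), H.Adj e t → t ∉ M e :=
    fun e t h h2 => hM e t h2 h
  have hmem : ∀ (g : {t : W // t ∈ T} ↪ Fin w) (z : {z : Fin w × Fin w // z ∈ P g}),
      z.1.1 ∈ colOK M g a ∧ z.1.2 ∈ colOK M g b ∧ z.1.1 ≠ z.1.2 := by
    rintro g ⟨z, hz⟩
    rw [hP, mem_filter, mem_product] at hz
    exact ⟨hz.1.1, hz.1.2, hz.2⟩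
  have hout : ∀ (z : S) (e : {e : W // e ∉ T}),
      (if e = a then z.2.1.1 else z.2.1.2) ∈ colOK M z.1 e := by
    intro z e
    by_cases he : e = a
    · rw [if_pos he, he]
      exact (hmem z.1 z.2).1
    · rw [if_neg he]
      have h1 : e = b := (hall e).resolve_left he
      rw [h1]
      exact (hmem z.1 z.2).2.1
  let F : S → (H →g (⊤ : SimpleGraph (Fin w))) := fun z =>
    ⟨fun v => if h : v ∈ T then z.1 ⟨v, h⟩ else
        (if (⟨v, h⟩ : {e : W // e ∉ T}) = a then z.2.1.1 else z.2.1.2), by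
      intro x y hxy
      rw [top_adj]
      by_cases hx : x ∈ T <;> by_cases hy : y ∈ T
      · rw [dif_pos hx, dif_pos hy]
        intro h
        exact hxy.ne (congrArg Subtype.val (z.1.injective h))
      · rw [dif_pos hx, dif_neg hy]
        exact (colOK_ne (hout z ⟨y, hy⟩) (hadjM ⟨y, hy⟩ ⟨x, hx⟩ hxy.symm)).symm
      · rw [dif_neg hx, dif_pos hy]
        exact colOK_ne (hout z ⟨x, hx⟩) (hadjM ⟨x, hx⟩ ⟨y, hy⟩ hxy)
      · rw [dif_neg hx, dif_neg hy]
        have hne : (⟨x, hx⟩ : {e : W // e ∉ T}) ≠ ⟨y, hy⟩ := fun h =>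
          hxy.ne (congrArg Subtype.val h)
        have h3 := (hmem z.1 z.2).2.2
        by_cases hxa : (⟨x, hx⟩ : {e : W // e ∉ T}) = a
        · have hya : (⟨y, hy⟩ : {e : W // e ∉ T}) ≠ a := fun h => hne (hxa.trans h.symm)
          rw [if_pos hxa, if_neg hya]
          exact h3
        · have hxb := (hall ⟨x, hx⟩).resolve_left hxa
          have hya : (⟨y, hy⟩ : {e : W // e ∉ T}) = a := by
            rcases hall ⟨y, hy⟩ with h | h
            · exact h
            · exact absurd (hxb.trans h.symm) hne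
          rw [if_neg hxa, if_pos hya]
          exact h3.symm⟩
  have hF : Function.Injective F := by
    rintro ⟨g, c⟩ ⟨g', c'⟩ h
    have hv : ∀ v, F ⟨g, c⟩ v = F ⟨g', c'⟩ v := fun v => by rw [h]
    have hg : g = g' := by
      ext d
      have h1 := hv d
      change (if h : (d : W) ∈ T then g ⟨d, h⟩ else
        (if (⟨d, h⟩ : {e : W // e ∉ T}) = a then c.1.1 else c.1.2)) =
        (if h : (d : W) ∈ T then g' ⟨d, h⟩ else
        (if (⟨d, h⟩ : {e : W // e ∉ T}) = a then c'.1.1 else c'.1.2)) at h1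
      rw [dif_pos d.2, dif_pos d.2] at h1
      exact congrArg Fin.val h1
    subst hg
    have hc : ∀ e : {e : W // e ∉ T}, (if e = a then c.1.1 else c.1.2) =
        (if e = a then c'.1.1 else c'.1.2) := by
      intro e
      have h1 := hv e
      change (if h : (e : W) ∈ T then g ⟨e, h⟩ else
        (if (⟨e, h⟩ : {e : W // e ∉ T}) = a then c.1.1 else c.1.2)) =
        (if h : (e : W) ∈ T then g ⟨e, h⟩ else
        (if (⟨e, h⟩ : {e : W // e ∉ T}) = a then c'.1.1 else c'.1.2)) at h1
      rw [dif_neg e.2, dif_neg e.2] at h1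
      exact h1
    have hc1 := hc a
    rw [if_pos rfl, if_pos rfl] at hc1
    have hc2 := hc b
    rw [if_neg hab.symm, if_neg hab.symm] at hc2
    have hcc : c = c' := Subtype.ext (Prod.ext hc1 hc2)
    rw [hcc]
  have hfin : Finite (H →g (⊤ : SimpleGraph (Fin w))) :=
    Finite.of_injective (fun g : (H →g (⊤ : SimpleGraph (Fin w))) => (fun a => g a))
      (fun g g' h => RelHom.ext (congrFun h))
  exact hcard.trans (Nat.cast_le.2 (Nat.card_le_card_of_injective F hF))

end MP5cc280
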