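import Mathlib

/-!
Many proper colourings, for a clique `T` whose vertices have at most one non-neighbour.
-/

namespace MP5cc280

open Finset SimpleGraph

section

variable {W : Type*} [Fintype W] [DecidableEq W] {H : SimpleGraph W} {T : Finset W} {w : ℕ}

/-- the colours allowed at `e` -/
def colOK (M : {e : W // e ∉ T} → Finset {t : W // t ∈ T}) (g : {t : W // t ∈ T} ↪ Fin w)
    (e : {e : W // e ∉ T}) : Finset (Fin w) :=
  (univ.image g)ᶜ ∪ (M e).image g

theorem card_colOK {N : ℕ} (hT : T.card = N)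
    (M : {e : W // e ∉ T} → Finset {t : W // t ∈ T}) (g : {t : W // t ∈ T} ↪ Fin w)
    (e : {e : W // e ∉ T}) : (colOK M g e).card = w - N + (M e).card := by
  unfold colOK
  rw [card_union_of_disjoint, card_compl, card_image_of_injective _ g.injective,
    card_image_of_injective _ g.injective, card_univ, Fintype.card_fin, Fintype.card_coe, hT]
  rw [Finset.disjoint_left]
  intro x hx hx2
  rw [mem_compl] at hx
  apply hx
  rw [mem_image] at hx2 ⊢
  obtain ⟨t, _, ht⟩ := hx2
  exact ⟨t, mem_univ _, ht⟩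

theorem colOK_ne {M : {e : W // e ∉ T} → Finset {t : W // t ∈ T}}
    {g : {t : W // t ∈ T} ↪ Fin w} {e : {e : W // e ∉ T}} {x : Fin w} (hx : x ∈ colOK M g e)
    {t : {t : W // t ∈ T}} (ht : t ∉ M e) : x ≠ g t := by
  rintro rfl
  unfold colOK at hx
  rw [mem_union, mem_compl, mem_image, mem_image] at hx
  rcases hx with h | ⟨s, hs, h⟩
  · exact h ⟨t, mem_univ _, rfl⟩
  · exact ht (g.injective h ▸ hs)

theorem card_col_geM {N : ℕ} (hT : T.card = N)
    (M : {e : W // e ∉ T} → Finset {t : W // t ∈ T})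
    (hM : ∀ (e : {e : W // e ∉ T}) (t : {t : W // t ∈ T}), t ∈ M e → ¬ H.Adj e t)
    (hdis : ∀ a b t, t ∈ M a → t ∈ M b → a = b)
    (hE : w = N ∨ ∀ a ∉ T, ∀ b ∉ T, ¬ H.Adj a b) :
    w.descFactorial N * ∏ e, (w - N + (M e).card) ≤
      Nat.card (H →g (⊤ : SimpleGraph (Fin w))) := by
  classical
  let S := Σ g : {t : W // t ∈ T} ↪ Fin w, (e : {e : W // e ∉ T}) → {x : Fin w // x ∈ colOK M g e}
  have hcard : Nat.card S = w.descFactorial N * ∏ e, (w - N + (M e).card) := by
    rw [Nat.card_eq_fintype_card, Fintype.card_sigma]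
    have h1 : ∀ g : {t : W // t ∈ T} ↪ Fin w,
        Fintype.card ((e : {e : W // e ∉ T}) → {x : Fin w // x ∈ colOK M g e}) =
        ∏ e, (w - N + (M e).card) := by
      intro g
      rw [Fintype.card_pi]
      refine prod_congr rfl fun e _ => ?_
      rw [Fintype.card_coe, card_colOK hT]
    rw [sum_congr rfl (fun g _ => h1 g), sum_const, card_univ, Fintype.card_embedding_eq,
      Fintype.card_fin, Fintype.card_coe, hT, smul_eq_mul]
  have hfull : w = N → ∀ (g : {t : W // t ∈ T} ↪ Fin w) (e : {e : W // e ∉ T}) (x : Fin w),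
      x ∈ colOK M g e → ∃ t ∈ M e, g t = x := by
    intro hw g e x hx
    unfold colOK at hx
    rw [mem_union] at hx
    rcases hx with h | h
    · exfalso
      have h1 : ((univ.image g)ᶜ : Finset (Fin w)).card = 0 := by
        rw [card_compl, card_image_of_injective _ g.injective, card_univ, Fintype.card_fin,
          Fintype.card_coe, hT, hw, Nat.sub_self]
      rw [card_eq_zero] at h1
      rw [h1] at h
      exact notMem_empty _ h
    · exact mem_image.1 h
  have hadjM : ∀ (e : {e : W // e ∉ T}) (t : {t : W // t ∈ T}), H.Adj e t → t ∉ M e :=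
    fun e t h h2 => hM e t h2 h
  let F : S → (H →g (⊤ : SimpleGraph (Fin w))) := fun z =>
    ⟨fun v => if h : v ∈ T then z.1 ⟨v, h⟩ else (z.2 ⟨v, h⟩ : Fin w), by
      intro a b hab
      rw [top_adj]
      by_cases ha : a ∈ T <;> by_cases hb : b ∈ T
      · rw [dif_pos ha, dif_pos hb]
        intro h
        exact hab.ne (congrArg Subtype.val (z.1.injective h))
      · rw [dif_pos ha, dif_neg hb]
        exact (colOK_ne (z.2 ⟨b, hb⟩).2 (hadjM ⟨b, hb⟩ ⟨a, ha⟩ hab.symm)).symm
      · rw [dif_neg ha, dif_pos hb]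
        exact colOK_ne (z.2 ⟨a, ha⟩).2 (hadjM ⟨a, ha⟩ ⟨b, hb⟩ hab)
      · rw [dif_neg ha, dif_neg hb]
        rcases hE with hw | hE
        · intro h
          obtain ⟨s, hs, hs2⟩ := hfull hw z.1 ⟨a, ha⟩ _ (z.2 ⟨a, ha⟩).2
          obtain ⟨t, ht, ht2⟩ := hfull hw z.1 ⟨b, hb⟩ _ (z.2 ⟨b, hb⟩).2
          have h3 : s = t := z.1.injective (by rw [hs2, ht2, h])
          subst h3
          have h4 := hdis _ _ _ hs ht
          exact hab.ne (congrArg Subtype.val h4)
        · exact absurd hab (hE a ha b hb)⟩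
  have hF : Function.Injective F := by
    rintro ⟨g, c⟩ ⟨g', c'⟩ h
    have hv : ∀ v, F ⟨g, c⟩ v = F ⟨g', c'⟩ v := fun v => by rw [h]
    have hg : g = g' := by
      ext d
      have h1 := hv d
      change (if h : (d : W) ∈ T then g ⟨d, h⟩ else (c ⟨d, h⟩ : Fin w)) =
        (if h : (d : W) ∈ T then g' ⟨d, h⟩ else (c' ⟨d, h⟩ : Fin w)) at h1
      rw [dif_pos d.2, dif_pos d.2] at h1
      exact congrArg Fin.val h1
    subst hg
    have hc : c = c' := by
      funext e
      have h1 := hv e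
      change (if h : (e : W) ∈ T then g ⟨e, h⟩ else (c ⟨e, h⟩ : Fin w)) =
        (if h : (e : W) ∈ T then g ⟨e, h⟩ else (c' ⟨e, h⟩ : Fin w)) at h1
      rw [dif_neg e.2, dif_neg e.2] at h1
      exact Subtype.ext h1
    rw [hc]
  have hfin : Finite (H →g (⊤ : SimpleGraph (Fin w))) :=
    Finite.of_injective (fun g : (H →g (⊤ : SimpleGraph (Fin w))) => (fun a => g a))
      (fun g g' h => RelHom.ext (congrFun h))
  rw [← hcard]
  exact Nat.card_le_card_of_injective F hF

end

end MP5cc280
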