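import Pool.Agent.H.MP_5cc280_co.Cnt

/-!
Copies of a graph with a clique `T` and all other vertices adjacent to all but one vertex of `T`.
-/

namespace MP5cc280

open Finset SimpleGraph

variable {V : Type*} [Fintype V] [DecidableEq V] {G : SimpleGraph V} [DecidableRel G.Adj]
  {W : Type*} [Fintype W] [DecidableEq W] {H : SimpleGraph W}

/-- the clique, the bijection and the other vertices given by a copy -/
private noncomputable def PCop_split {T : Finset W} {N : ℕ} (hT : H.IsNClique N T)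
    (y : {e : W // e ∉ T} → {t : W // t ∈ T})
    (hadj : ∀ (e : {e : W // e ∉ T}) (t : {t : W // t ∈ T}), t ≠ y e → H.Adj e t)
    (f : Copy H G) : Σ Q : {Q // Q ∈ G.cliqueFinset N},
      Σ g : {t : W // t ∈ T} ≃ {v : V // v ∈ Q.1},
        ((e : {e : W // e ∉ T}) → {v : V // v ∈ cnb G (Q.1.erase (g (y e) : V))}) :=
  ⟨⟨T.image f, by
    rw [mem_cliqueFinset_iff, isNClique_iff]
    constructor
    · intro a ha b hb hab
      rw [mem_coe, mem_image] at ha hb
      obtain ⟨s, hs, rfl⟩ := ha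
      obtain ⟨t, ht, rfl⟩ := hb
      exact f.toHom.map_adj (hT.isClique (mem_coe.2 hs) (mem_coe.2 ht) (fun h => hab (by rw [h])))
    · rw [card_image_of_injective T (f := fun a => f a) (fun a b h => f.injective h)]
      exact hT.card_eq⟩,
   ⟨Equiv.ofBijective (fun t : {t : W // t ∈ T} =>
      (⟨f t, mem_image_of_mem _ t.2⟩ : {v : V // v ∈ T.image f})) ⟨fun a b h => by
        have h1 : f a = f b := congrArg Subtype.val h
        exact Subtype.ext (f.injective h1), fun v => by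
        obtain ⟨t, ht, h⟩ := mem_image.1 v.2
        exact ⟨⟨t, ht⟩, Subtype.ext h⟩⟩,
    fun e => ⟨f e.1, by
      rw [mem_cnb]
      intro d hd
      rw [mem_erase, mem_image] at hd
      obtain ⟨hne, t, ht, rfl⟩ := hd
      refine f.toHom.map_adj (hadj e ⟨t, ht⟩ (fun h => hne ?_))
      change f t = f (y e : W)
      rw [← h]⟩⟩⟩

omit [Fintype W] in
private theorem PCop_inj {T : Finset W} {N : ℕ} (hT : H.IsNClique N T)
    (y : {e : W // e ∉ T} → {t : W // t ∈ T})
    (hadj : ∀ (e : {e : W // e ∉ T}) (t : {t : W // t ∈ T}), t ≠ y e → H.Adj e t) :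
    Function.Injective (PCop_split (G := G) hT y hadj) := by
  intro f g hfg
  have h1 := congrArg (fun z : (Σ Q : {Q // Q ∈ G.cliqueFinset N},
      Σ g : {t : W // t ∈ T} ≃ {v : V // v ∈ Q.1},
        ((e : {e : W // e ∉ T}) → {v : V // v ∈ cnb G (Q.1.erase (g (y e) : V))})) =>
      fun t : {t : W // t ∈ T} => ((z.2.1 t : {v : V // v ∈ z.1.1}) : V)) hfg
  have h2 := congrArg (fun z : (Σ Q : {Q // Q ∈ G.cliqueFinset N},
      Σ g : {t : W // t ∈ T} ≃ {v : V // v ∈ Q.1},
        ((e : {e : W // e ∉ T}) → {v : V // v ∈ cnb G (Q.1.erase (g (y e) : V))})) =>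
      fun e : {e : W // e ∉ T} =>
        ((z.2.2 e : {v : V // v ∈ cnb G (z.1.1.erase (z.2.1 (y e) : V))}) : V)) hfg
  apply Copy.ext
  intro w
  by_cases hw : w ∈ T
  · exact congrFun h1 ⟨w, hw⟩
  · exact congrFun h2 ⟨w, hw⟩

theorem card_copy_le_bij {T : Finset W} {N : ℕ} (hT : H.IsNClique N T)
    (y : {e : W // e ∉ T} → {t : W // t ∈ T})
    (hadj : ∀ (e : {e : W // e ∉ T}) (t : {t : W // t ∈ T}), t ≠ y e → H.Adj e t) :
    Nat.card (Copy H G) ≤
      ∑ Q ∈ G.cliqueFinset N, ∑ g : {t : W // t ∈ T} ≃ {v : V // v ∈ Q},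
        ∏ e : {e : W // e ∉ T}, cm G (Q.erase (g (y e) : V)) := by
  refine (Nat.card_le_card_of_injective _ (PCop_inj (G := G) hT y hadj)).trans
    (le_of_eq ?_)
  rw [Nat.card_sigma]
  have h : ∀ Q : {Q // Q ∈ G.cliqueFinset N},
      Nat.card (Σ g : {t : W // t ∈ T} ≃ {v : V // v ∈ Q.1},
        ((e : {e : W // e ∉ T}) → {v : V // v ∈ cnb G (Q.1.erase (g (y e) : V))})) =
      ∑ g : {t : W // t ∈ T} ≃ {v : V // v ∈ Q.1},
        ∏ e : {e : W // e ∉ T}, cm G (Q.1.erase (g (y e) : V)) := by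
    intro Q
    rw [Nat.card_sigma]
    refine Fintype.sum_congr _ _ fun g => ?_
    rw [Nat.card_pi]
    refine Fintype.prod_congr _ _ fun e => ?_
    rw [Nat.card_eq_fintype_card, Fintype.card_coe]
    rfl
  rw [Fintype.sum_congr _ _ h]
  exact sum_coe_sort (G.cliqueFinset N)
    (fun Q => ∑ g : {t : W // t ∈ T} ≃ {v : V // v ∈ Q},
        ∏ e : {e : W // e ∉ T}, cm G (Q.erase (g (y e) : V)))

end MP5cc280
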