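import Pool.Agent.H.MP_5cc280_co.PCopG

/-!
Copies of a graph with a clique `T` and two adjacent vertices outside `T`.
-/

namespace MP5cc280

open Finset SimpleGraph

variable {V : Type*} [Fintype V] [DecidableEq V] {G : SimpleGraph V} [DecidableRel G.Adj]
  {W : Type*} [Fintype W] [DecidableEq W] {H : SimpleGraph W}

variable (G) in
/-- the vertices that can be the image of a vertex outside `T` -/
private def PCopE_set (Q : Finset V) {T : Finset W} (M : Finset {t : W // t ∈ T})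
    (g : {t : W // t ∈ T} ≃ {v : V // v ∈ Q}) : Finset V :=
  univ.filter (fun x => ∀ t, t ∉ M → g t ∉ nadj G Q x)

variable (G) in
/-- the pairs of adjacent vertices of this kind -/
private def PCopE_pr (Q : Finset V) {T : Finset W} (A B : Finset {t : W // t ∈ T})
    (g : {t : W // t ∈ T} ≃ {v : V // v ∈ Q}) : Finset (V × V) :=
  (PCopE_set G Q A g ×ˢ PCopE_set G Q B g).filter (fun z => G.Adj z.1 z.2)

/-- the clique, the bijection and the two other vertices given by a copy -/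
private noncomputable def PCopE_split {T : Finset W} {N : ℕ} (hT : H.IsNClique N T)
    (M : {e : W // e ∉ T} → Finset {t : W // t ∈ T})
    (hadj : ∀ (e : {e : W // e ∉ T}) (t : {t : W // t ∈ T}), t ∉ M e → H.Adj e t)
    {a b : {e : W // e ∉ T}} (hab : H.Adj a b)
    (f : Copy H G) : Σ Q : {Q // Q ∈ G.cliqueFinset N},
      Σ g : {t : W // t ∈ T} ≃ {v : V // v ∈ Q.1},
        {z : V × V // z ∈ PCopE_pr G Q.1 (M a) (M b) g} :=
  ⟨⟨T.image f, by
    rw [mem_cliqueFinset_iff, isNClique_iff]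
    constructor
    · intro a ha b hb hab
      rw [mem_coe, mem_image] at ha hb
      obtain ⟨s, hs, rfl⟩ := ha
      obtain ⟨t, ht, rfl⟩ := hb
      exact f.toHom.map_adj (hT.isClique (mem_coe.2 hs) (mem_coe.2 ht) (fun h => hab (by rw [h])))
    · rw [card_image_of_injective T (f := fun a => f a) (fun a b h => f.injective h)]
      exact hT.card_eq⟩,
   ⟨Equiv.ofBijective (fun t : {t : W // t ∈ T} =>
      (⟨f t, mem_image_of_mem _ t.2⟩ : {v : V // v ∈ T.image f})) ⟨fun a b h => by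
        have h1 : f a = f b := congrArg Subtype.val h
        exact Subtype.ext (f.injective h1), fun v => by
        obtain ⟨t, ht, h⟩ := mem_image.1 v.2
        exact ⟨⟨t, ht⟩, Subtype.ext h⟩⟩,
    ⟨(f a.1, f b.1), by
      unfold PCopE_pr
      rw [mem_filter, mem_product]
      refine ⟨⟨?_, ?_⟩, f.toHom.map_adj hab⟩
      · unfold PCopE_set
        rw [mem_filter]
        refine ⟨mem_univ _, fun t ht hmem => ?_⟩
        unfold nadj at hmem
        rw [mem_filter] at hmem
        exact hmem.2 (f.toHom.map_adj (hadj a t ht))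
      · unfold PCopE_set
        rw [mem_filter]
        refine ⟨mem_univ _, fun t ht hmem => ?_⟩
        unfold nadj at hmem
        rw [mem_filter] at hmem
        exact hmem.2 (f.toHom.map_adj (hadj b t ht))⟩⟩⟩

omit [Fintype W] in
private theorem PCopE_inj {T : Finset W} {N : ℕ} (hT : H.IsNClique N T)
    (M : {e : W // e ∉ T} → Finset {t : W // t ∈ T})
    (hadj : ∀ (e : {e : W // e ∉ T}) (t : {t : W // t ∈ T}), t ∉ M e → H.Adj e t)
    {a b : {e : W // e ∉ T}} (hab : H.Adj a b) (hall : ∀ e, e = a ∨ e = b) :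
    Function.Injective (PCopE_split (G := G) hT M hadj hab) := by
  intro f g hfg
  have h1 := congrArg (fun z : (Σ Q : {Q // Q ∈ G.cliqueFinset N},
      Σ g : {t : W // t ∈ T} ≃ {v : V // v ∈ Q.1},
        {z : V × V // z ∈ PCopE_pr G Q.1 (M a) (M b) g}) =>
      fun t : {t : W // t ∈ T} => ((z.2.1 t : {v : V // v ∈ z.1.1}) : V)) hfg
  have h2 : ((f a.1, f b.1) : V × V) = (g a.1, g b.1) :=
    congrArg (fun z : (Σ Q : {Q // Q ∈ G.cliqueFinset N},
      Σ g : {t : W // t ∈ T} ≃ {v : V // v ∈ Q.1},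
        {z : V × V // z ∈ PCopE_pr G Q.1 (M a) (M b) g}) => (z.2.2 : V × V)) hfg
  apply Copy.ext
  intro w
  by_cases hw : w ∈ T
  · exact congrFun h1 ⟨w, hw⟩
  · rcases hall ⟨w, hw⟩ with h | h
    · have h3 : w = a.1 := congrArg Subtype.val h
      rw [h3]
      exact congrArg Prod.fst h2
    · have h3 : w = b.1 := congrArg Subtype.val h
      rw [h3]
      exact congrArg Prod.snd h2

theorem card_copy_le_edge {T : Finset W} {N : ℕ} (hT : H.IsNClique N T)
    (M : {e : W // e ∉ T} → Finset {t : W // t ∈ T})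
    (hadj : ∀ (e : {e : W // e ∉ T}) (t : {t : W // t ∈ T}), t ∉ M e → H.Adj e t)
    {a b : {e : W // e ∉ T}} (hab : H.Adj a b) (hall : ∀ e, e = a ∨ e = b) :
    Nat.card (Copy H G) ≤
      ∑ Q ∈ G.cliqueFinset N, ∑ g : {t : W // t ∈ T} ≃ {v : V // v ∈ Q},
        ((univ.filter (fun x => ∀ t, t ∉ M a → g t ∉ nadj G Q x) ×ˢ
          univ.filter (fun x => ∀ t, t ∉ M b → g t ∉ nadj G Q x)).filter
            (fun z => G.Adj z.1 z.2)).card := by
  refine (Nat.card_le_card_of_injective _ (PCopE_inj (G := G) hT M hadj hab hall)).trans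
    (le_of_eq ?_)
  rw [Nat.card_sigma]
  have h : ∀ Q : {Q // Q ∈ G.cliqueFinset N},
      Nat.card (Σ g : {t : W // t ∈ T} ≃ {v : V // v ∈ Q.1},
        {z : V × V // z ∈ PCopE_pr G Q.1 (M a) (M b) g}) =
      ∑ g : {t : W // t ∈ T} ≃ {v : V // v ∈ Q.1}, (PCopE_pr G Q.1 (M a) (M b) g).card := by
    intro Q
    rw [Nat.card_sigma]
    refine Fintype.sum_congr _ _ fun g => ?_
    rw [Nat.card_eq_fintype_card, Fintype.card_coe]
  rw [Fintype.sum_congr _ _ h]
  exact sum_coe_sort (G.cliqueFinset N)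
    (fun Q => ∑ g : {t : W // t ∈ T} ≃ {v : V // v ∈ Q}, (PCopE_pr G Q (M a) (M b) g).card)

theorem edge_count {Q : Finset V} {ι : Type*} [Fintype ι] [DecidableEq ι]
    (A B : Finset ι) (g : ι ≃ {v : V // v ∈ Q}) :
    (((univ.filter (fun x => ∀ t, t ∉ A → g t ∉ nadj G Q x) ×ˢ
          univ.filter (fun x => ∀ t, t ∉ B → g t ∉ nadj G Q x)).filter
            (fun z => G.Adj z.1 z.2)).card : ℝ) ≤
      (xe (nadj G Q) A g : ℝ) * xe (nadj G Q) B g -
        ((cm G Q : ℝ) ^ 2 - ∑ v ∈ cnb G Q, (cm G (insert v Q) : ℝ)) := by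
  obtain ⟨X, hX⟩ : ∃ X, X = univ.filter (fun x => ∀ t, t ∉ A → g t ∉ nadj G Q x) := ⟨_, rfl⟩
  obtain ⟨Y, hY⟩ : ∃ Y, Y = univ.filter (fun x => ∀ t, t ∉ B → g t ∉ nadj G Q x) := ⟨_, rfl⟩
  have hXc : xe (nadj G Q) A g = X.card := by
    rw [hX]
    rfl
  have hYc : xe (nadj G Q) B g = Y.card := by
    rw [hY]
    rfl
  rw [← hX, ← hY, hXc, hYc]
  have hC : ∀ x ∈ cnb G Q, nadj G Q x = ∅ := by
    intro x hx
    unfold nadj
    rw [filter_eq_empty_iff]
    intro z _ h
    exact h (mem_cnb.1 hx z z.2)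
  have hCX : cnb G Q ⊆ X := by
    intro x hx
    rw [hX, mem_filter]
    refine ⟨mem_univ _, fun t _ => ?_⟩
    rw [hC x hx]
    exact notMem_empty _
  have hCY : cnb G Q ⊆ Y := by
    intro x hx
    rw [hY, mem_filter]
    refine ⟨mem_univ _, fun t _ => ?_⟩
    rw [hC x hx]
    exact notMem_empty _
  have h1 : ((X ×ˢ Y).filter (fun z => G.Adj z.1 z.2)).card +
      ((X ×ˢ Y).filter (fun z => ¬ G.Adj z.1 z.2)).card = X.card * Y.card := by
    rw [card_filter_add_card_filter_not, card_product]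
  have h2 : ((cnb G Q ×ˢ cnb G Q).filter (fun z => G.Adj z.1 z.2)).card +
      ((cnb G Q ×ˢ cnb G Q).filter (fun z => ¬ G.Adj z.1 z.2)).card = cm G Q * cm G Q := by
    rw [card_filter_add_card_filter_not, card_product, card_cnb]
  have h3 : ((cnb G Q ×ˢ cnb G Q).filter (fun z => ¬ G.Adj z.1 z.2)).card ≤
      ((X ×ˢ Y).filter (fun z => ¬ G.Adj z.1 z.2)).card :=
    card_le_card (filter_subset_filter _ (product_subset_product hCX hCY))
  have h4 : ((cnb G Q ×ˢ cnb G Q).filter (fun z => G.Adj z.1 z.2)).card =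
      ∑ v ∈ cnb G Q, cm G (insert v Q) := by
    rw [card_filter, sum_product]
    refine sum_congr rfl fun v _ => ?_
    rw [← card_cnb, cnb_insert, card_filter]
  have h1' : (((X ×ˢ Y).filter (fun z => G.Adj z.1 z.2)).card : ℝ) +
      ((X ×ˢ Y).filter (fun z => ¬ G.Adj z.1 z.2)).card = X.card * Y.card := by
    exact_mod_cast h1
  have h2' : (((cnb G Q ×ˢ cnb G Q).filter (fun z => G.Adj z.1 z.2)).card : ℝ) +
      ((cnb G Q ×ˢ cnb G Q).filter (fun z => ¬ G.Adj z.1 z.2)).card = cm G Q * cm G Q := by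
    exact_mod_cast h2
  have h3' : (((cnb G Q ×ˢ cnb G Q).filter (fun z => ¬ G.Adj z.1 z.2)).card : ℝ) ≤
      ((X ×ˢ Y).filter (fun z => ¬ G.Adj z.1 z.2)).card := by
    exact_mod_cast h3
  rw [h4, Nat.cast_sum] at h2'
  rw [sq]
  linarith

end MP5cc280
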