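import Mathlib

/-!
Swaps with a fixed position `d`.
-/

namespace MP5cc280

open Finset

variable {ι τ X E : Type*} [Fintype ι] [DecidableEq ι] [Fintype τ] [DecidableEq τ]
  [Fintype X] [DecidableEq X] [Fintype E] [DecidableEq E]

/-- the weights -/
noncomputable def xt (R : X → Finset τ) (N : ℕ) (z : τ) : ℝ :=
  ∑ x ∈ univ.filter (fun x => z ∈ R x), ((N : ℝ) - (R x).card) / ((R x).card * ((N : ℝ) - 1))

/-- the number of `x` with `R x` inside `g(M)` -/
def xe (R : X → Finset τ) (M : Finset ι) (g : ι ≃ τ) : ℕ :=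
  (univ.filter (fun x => ∀ t, t ∉ M → g t ∉ R x)).card

/-- the linear replacement of `xe` -/
noncomputable def ye (R : X → Finset τ) (N : ℕ) (M : Finset ι) (g : ι ≃ τ) : ℝ :=
  ((univ.filter (fun x => R x = ∅)).card : ℝ) + ∑ y ∈ M, xt R N (g y)

private theorem PSwap_h {M : Finset ι} {R : Finset τ} {g : ι ≃ τ} (h : ∀ t, t ∉ M → g t ∉ R) :
    (M.filter (fun y => g y ∈ R)).card = R.card := by
  have hi : (M.filter (fun y => g y ∈ R)).image g = R := by
    ext z
    simp only [mem_image, mem_filter]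
    constructor
    · rintro ⟨y, ⟨_, hy⟩, rfl⟩
      exact hy
    · intro hz
      refine ⟨g.symm z, ⟨?_, by simpa using hz⟩, by simp⟩
      by_contra hc
      exact h _ hc (by simpa using hz)
  rw [← card_image_of_injective (M.filter (fun y => g y ∈ R)) g.injective, hi]

private theorem PSwap_q {M : Finset ι} {R : Finset τ} {g : ι ≃ τ} {d y : ι} (hd : d ∉ M)
    (hy : y ∈ M) (h : ∀ t, t ∉ M → ((Equiv.swap y d).trans g) t ∉ R) (hg : g d ∈ R) :
    g y ∉ R ∧ (M.filter (fun y => g y ∈ R)).card + 1 = R.card := by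
  have h1 : g y ∉ R := by
    have h2 := h d hd
    simpa using h2
  refine ⟨h1, ?_⟩
  have hi : (M.filter (fun y => g y ∈ R)).image g = R.erase (g d) := by
    ext z
    simp only [mem_image, mem_filter, mem_erase]
    constructor
    · rintro ⟨t, ⟨ht, htR⟩, rfl⟩
      refine ⟨?_, htR⟩
      intro he
      have he' := g.injective he
      rw [he'] at ht
      exact hd ht
    · rintro ⟨hz1, hz⟩
      refine ⟨g.symm z, ⟨?_, by simpa using hz⟩, by simp⟩
      by_contra hc
      have ht1 : g.symm z ≠ y := by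
        intro e
        rw [e] at hc
        exact hc hy
      have ht2 : g.symm z ≠ d := by
        intro e
        apply hz1
        rw [← e]
        simp
      have h3 := h _ hc
      rw [Equiv.trans_apply, Equiv.swap_apply_of_ne_of_ne ht1 ht2] at h3
      exact h3 (by simpa using hz)
  have h4 := card_image_of_injective (M.filter (fun y => g y ∈ R)) g.injective
  rw [hi, card_erase_of_mem hg] at h4
  have hpos : 0 < R.card := card_pos.mpr ⟨_, hg⟩
  omega

private theorem PSwap_ite {p q : Prop} [Decidable p] [Decidable q] (h : p → q) :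
    (if p then (1 : ℝ) else 0) ≤ (if q then (1 : ℝ) else 0) := by
  by_cases hp : p
  · rw [if_pos hp, if_pos (h hp)]
  · rw [if_neg hp]
    split_ifs <;> norm_num

private theorem PSwap_one (F : (ι ≃ τ) → ℝ) (hF : ∀ g, 0 ≤ F g) (M : Finset ι) {d : ι} (hd : d ∉ M)
    (hinv : ∀ y ∈ M, ∀ g : ι ≃ τ, F ((Equiv.swap y d).trans g) = F g)
    (R : Finset τ) {y : ι} (hy : y ∈ M) :
    ∑ g : ι ≃ τ, F g * (if (∀ t, t ∉ M → g t ∉ R) ∧ g y ∈ R then (1 : ℝ) else 0) ≤
      ∑ g : ι ≃ τ, F g * (if ((M.filter (fun y => g y ∈ R)).card + 1 = R.card ∧ g d ∈ R) ∧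
        g y ∉ R then (1 : ℝ) else 0) := by
  let σ : (ι ≃ τ) ≃ (ι ≃ τ) :=
    { toFun := fun g => (Equiv.swap y d).trans g
      invFun := fun g => (Equiv.swap y d).trans g
      left_inv := by
        intro g
        ext t
        simp
      right_inv := by
        intro g
        ext t
        simp }
  have hs := Equiv.sum_comp σ
    (fun g : ι ≃ τ => F g * (if (∀ t, t ∉ M → g t ∉ R) ∧ g y ∈ R then (1 : ℝ) else 0))
  rw [← hs]
  refine sum_le_sum (fun g _ => ?_)
  have hσ : σ g = (Equiv.swap y d).trans g := rfl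
  rw [hσ, hinv y hy g]
  refine mul_le_mul_of_nonneg_left (PSwap_ite ?_) (hF g)
  rintro ⟨h1, h2⟩
  have h3 : g d ∈ R := by simpa using h2
  obtain ⟨h4, h5⟩ := PSwap_q hd hy h1 h3
  exact ⟨⟨h5, h3⟩, h4⟩

private theorem PSwap_sum_and (M : Finset ι) (P : Prop) [Decidable P] (q : ι → Prop)
    [DecidablePred q] (c : ℝ) :
    ∑ y ∈ M, c * (if P ∧ q y then (1 : ℝ) else 0) =
      c * (if P then (1 : ℝ) else 0) * ((M.filter q).card : ℝ) := by
  by_cases hP : P
  · simp only [hP, true_and, if_true, mul_one]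
    rw [← mul_sum, sum_boole]
  · simp [hP]

private theorem PSwap_final {A B N r m β : ℝ} (hA : 0 ≤ A) (hB : 0 ≤ B) (hr : 1 ≤ r) (hrN : r ≤ N)
    (hN : 2 ≤ N) (hm : m ≤ N - 1) (hk : r ≤ m) (hβ : β = (N - r) / (r * (N - 1)))
    (hAB : r * A ≤ (m - (r - 1)) * B) : A ≤ β * (r * A + (r - 1) * B) := by
  have hr0 : 0 < r := by linarith
  have hN1 : 0 < N - 1 := by linarith
  have hk1 : 0 < m - (r - 1) := by linarith
  have hγ : β * (N - 1) * r = N - r := by
    rw [hβ]
    field_simp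
  have hγ0 : 0 ≤ β * (N - 1) := by
    rw [hβ]
    apply mul_nonneg _ hN1.le
    apply div_nonneg (by linarith)
    positivity
  have h1 : (r - 1) * (r * A) ≤ (r - 1) * ((m - (r - 1)) * B) :=
    mul_le_mul_of_nonneg_left hAB (by linarith)
  have h2 : β * (N - 1) * (r * ((m - (r - 1)) * A) + (r - 1) * (r * A)) ≤
      β * (N - 1) * (r * ((m - (r - 1)) * A) + (r - 1) * ((m - (r - 1)) * B)) :=
    mul_le_mul_of_nonneg_left (by linarith) hγ0
  have h3 : β * (N - 1) * (r * ((m - (r - 1)) * A) + (r - 1) * (r * A)) = (N - r) * m * A := by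
    rw [← hγ]
    ring
  have h4 : (N - 1) * (m - (r - 1)) * A ≤ (N - r) * m * A := by
    apply mul_le_mul_of_nonneg_right _ hA
    nlinarith [mul_nonneg (by linarith : (0 : ℝ) ≤ r - 1) (by linarith : (0 : ℝ) ≤ N - 1 - m)]
  have h5 : (N - 1) * (m - (r - 1)) * A ≤
      (N - 1) * (m - (r - 1)) * (β * (r * A + (r - 1) * B)) := by
    calc (N - 1) * (m - (r - 1)) * A ≤ (N - r) * m * A := h4
      _ = β * (N - 1) * (r * ((m - (r - 1)) * A) + (r - 1) * (r * A)) := h3.symm
      _ ≤ _ := h2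
      _ = (N - 1) * (m - (r - 1)) * (β * (r * A + (r - 1) * B)) := by ring
  exact le_of_mul_le_mul_left h5 (mul_pos hN1 hk1)

theorem swap_ineq (F : (ι ≃ τ) → ℝ) (hF : ∀ g, 0 ≤ F g) (M : Finset ι) {d : ι} (hd : d ∉ M)
    (hinv : ∀ y ∈ M, ∀ g : ι ≃ τ, F ((Equiv.swap y d).trans g) = F g)
    (R : Finset τ) (hR : R.Nonempty) (hN : 2 ≤ Fintype.card ι) :
    ∑ g : ι ≃ τ, F g * (if ∀ t, t ∉ M → g t ∉ R then (1 : ℝ) else 0) ≤
      ∑ g : ι ≃ τ, F g * ((((Fintype.card ι : ℝ) - R.card) /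
        (R.card * ((Fintype.card ι : ℝ) - 1))) * ((M.filter (fun y => g y ∈ R)).card : ℝ)) := by
  rcases isEmpty_or_nonempty (ι ≃ τ) with hE | ⟨⟨g₀⟩⟩
  · simp
  have hcard : Fintype.card ι = Fintype.card τ := Fintype.card_congr g₀
  have hrN : R.card ≤ Fintype.card ι := by
    rw [hcard]
    exact card_le_univ R
  have hr1 : 1 ≤ R.card := card_pos.mpr hR
  have hmN : M.card + 1 ≤ Fintype.card ι := by
    have h1 : (insert d M).card = M.card + 1 := card_insert_of_notMem hd
    rw [← h1]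
    exact card_le_univ _
  have hrNR : (R.card : ℝ) ≤ (Fintype.card ι : ℝ) := by exact_mod_cast hrN
  have hr1R : (1 : ℝ) ≤ (R.card : ℝ) := by exact_mod_cast hr1
  have hmNR : (M.card : ℝ) ≤ (Fintype.card ι : ℝ) - 1 := by
    have h1 : ((M.card + 1 : ℕ) : ℝ) ≤ (Fintype.card ι : ℝ) := by exact_mod_cast hmN
    push_cast at h1
    linarith
  have hNR : (2 : ℝ) ≤ (Fintype.card ι : ℝ) := by exact_mod_cast hN
  set β : ℝ := ((Fintype.card ι : ℝ) - R.card) / (R.card * ((Fintype.card ι : ℝ) - 1)) with hβ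
  have hβ0 : 0 ≤ β := by
    rw [hβ]
    apply div_nonneg (by linarith)
    apply mul_nonneg (by linarith) (by linarith)
  set A : ℝ := ∑ g : ι ≃ τ, F g * (if ∀ t, t ∉ M → g t ∉ R then (1 : ℝ) else 0) with hA
  set B : ℝ := ∑ g : ι ≃ τ, F g * (if (M.filter (fun y => g y ∈ R)).card + 1 = R.card ∧ g d ∈ R
    then (1 : ℝ) else 0) with hB
  have hB0 : 0 ≤ B := by
    rw [hB]
    refine sum_nonneg (fun g _ => mul_nonneg (hF g) ?_)
    split_ifs <;> norm_num
  have hA0 : 0 ≤ A := by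
    rw [hA]
    refine sum_nonneg (fun g _ => mul_nonneg (hF g) ?_)
    split_ifs <;> norm_num
  -- double counting
  have hAB : (R.card : ℝ) * A ≤ ((M.card : ℝ) - ((R.card : ℝ) - 1)) * B := by
    have h1 : ∑ y ∈ M, ∑ g : ι ≃ τ,
        F g * (if (∀ t, t ∉ M → g t ∉ R) ∧ g y ∈ R then (1 : ℝ) else 0) ≤
        ∑ y ∈ M, ∑ g : ι ≃ τ, F g * (if ((M.filter (fun y => g y ∈ R)).card + 1 = R.card ∧
          g d ∈ R) ∧ g y ∉ R then (1 : ℝ) else 0) :=
      sum_le_sum (fun y hy => PSwap_one F hF M hd hinv R hy)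
    have h2 : ∑ y ∈ M, ∑ g : ι ≃ τ,
        F g * (if (∀ t, t ∉ M → g t ∉ R) ∧ g y ∈ R then (1 : ℝ) else 0) = (R.card : ℝ) * A := by
      rw [sum_comm, hA, mul_sum]
      refine sum_congr rfl (fun g _ => ?_)
      rw [PSwap_sum_and M (∀ t, t ∉ M → g t ∉ R) (fun y => g y ∈ R) (F g)]
      by_cases hP : ∀ t, t ∉ M → g t ∉ R
      · rw [if_pos hP, PSwap_h hP]
        ring
      · rw [if_neg hP]
        ring
    have h3 : ∑ y ∈ M, ∑ g : ι ≃ τ, F g * (if ((M.filter (fun y => g y ∈ R)).card + 1 = R.card ∧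
          g d ∈ R) ∧ g y ∉ R then (1 : ℝ) else 0) =
          ((M.card : ℝ) - ((R.card : ℝ) - 1)) * B := by
      rw [sum_comm, hB, mul_sum]
      refine sum_congr rfl (fun g _ => ?_)
      rw [PSwap_sum_and M ((M.filter (fun y => g y ∈ R)).card + 1 = R.card ∧ g d ∈ R)
        (fun y => g y ∉ R) (F g)]
      by_cases hP : (M.filter (fun y => g y ∈ R)).card + 1 = R.card ∧ g d ∈ R
      · rw [if_pos hP]
        have h4 : (M.filter (fun y => g y ∈ R)).card + (M.filter (fun y => g y ∉ R)).card =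
            M.card := card_filter_add_card_filter_not (fun y => g y ∈ R)
        have h5 : ((M.filter (fun y => g y ∈ R)).card : ℝ) +
            ((M.filter (fun y => g y ∉ R)).card : ℝ) = (M.card : ℝ) := by exact_mod_cast h4
        have h6 : ((M.filter (fun y => g y ∈ R)).card : ℝ) + 1 = (R.card : ℝ) := by
          exact_mod_cast hP.1
        have h7 : ((M.filter (fun y => g y ∉ R)).card : ℝ) =
            (M.card : ℝ) - ((R.card : ℝ) - 1) := by linarith
        rw [h7]
        ring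
      · rw [if_neg hP]
        ring
    rw [h2, h3] at h1
    exact h1
  -- lower bound for the right side
  have hR1 : β * ((R.card : ℝ) * A + ((R.card : ℝ) - 1) * B) ≤
      ∑ g : ι ≃ τ, F g * (β * ((M.filter (fun y => g y ∈ R)).card : ℝ)) := by
    rw [hA, hB, mul_sum, mul_sum, ← sum_add_distrib, mul_sum]
    refine sum_le_sum (fun g _ => ?_)
    have key : (R.card : ℝ) * (if ∀ t, t ∉ M → g t ∉ R then (1 : ℝ) else 0) +
        ((R.card : ℝ) - 1) * (if (M.filter (fun y => g y ∈ R)).card + 1 = R.card ∧ g d ∈ R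
          then (1 : ℝ) else 0) ≤ ((M.filter (fun y => g y ∈ R)).card : ℝ) := by
      by_cases hP : ∀ t, t ∉ M → g t ∉ R
      · have hQ : ¬ ((M.filter (fun y => g y ∈ R)).card + 1 = R.card ∧ g d ∈ R) :=
          fun hq => hP d hd hq.2
        rw [if_pos hP, if_neg hQ, PSwap_h hP]
        linarith
      · rw [if_neg hP]
        by_cases hQ : (M.filter (fun y => g y ∈ R)).card + 1 = R.card ∧ g d ∈ R
        · rw [if_pos hQ]
          have h6 : ((M.filter (fun y => g y ∈ R)).card : ℝ) + 1 = (R.card : ℝ) := by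
            exact_mod_cast hQ.1
          linarith
        · rw [if_neg hQ]
          have h8 : (0 : ℝ) ≤ ((M.filter (fun y => g y ∈ R)).card : ℝ) := Nat.cast_nonneg _
          linarith
    have h9 := mul_le_mul_of_nonneg_left key (mul_nonneg (hF g) hβ0)
    linarith
  refine le_trans ?_ hR1
  by_cases hex : ∃ g : ι ≃ τ, ∀ t, t ∉ M → g t ∉ R
  · obtain ⟨g, hg⟩ := hex
    have hrm : R.card ≤ M.card := by
      rw [← PSwap_h hg]
      exact card_filter_le _ _
    have hrmR : (R.card : ℝ) ≤ (M.card : ℝ) := by exact_mod_cast hrm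
    exact PSwap_final hA0 hB0 hr1R hrNR hNR hmNR hrmR hβ hAB
  · have hAz : A = 0 := by
      rw [hA]
      refine sum_eq_zero (fun g _ => ?_)
      rw [if_neg (fun hc => hex ⟨g, hc⟩), mul_zero]
    rw [hAz]
    apply mul_nonneg hβ0
    have h10 : 0 ≤ ((R.card : ℝ) - 1) * B := mul_nonneg (by linarith) hB0
    linarith

end MP5cc280
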