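import Pool.Agent.H.MP_5cc280_co.Two
import Pool.Agent.H.MP_5cc280_co.PSwap

/-!
The weights at a clique of a graph, and products of affine functions of the codegree.
-/

namespace MP5cc280

open Finset SimpleGraph

variable {V : Type*} [Fintype V] [DecidableEq V] {G : SimpleGraph V} [DecidableRel G.Adj]

variable (G) in
/-- the non-neighbours of `x` in `Q` -/
def nadj (Q : Finset V) (x : V) : Finset {v : V // v ∈ Q} := univ.filter (fun z => ¬ G.Adj x z)

theorem card_nadj_empty (Q : Finset V) :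
    (univ.filter (fun x => nadj G Q x = ∅)).card = cm G Q := by
  unfold cm nadj
  congr 1
  ext x
  simp only [mem_filter, mem_univ, true_and, filter_eq_empty_iff, not_not]
  constructor
  · intro h d hd
    exact h (x := ⟨d, hd⟩) trivial
  · intro h z _
    exact h z z.2

theorem sum_xt_le {N Δ : ℕ} (hN : 2 ≤ N) {Q : Finset V} (hQ : Q ∈ G.cliqueFinset N)
    (hΔ : ∀ v, G.degree v ≤ Δ) :
    ∑ z : {v : V // v ∈ Q}, xt (nadj G Q) N z ≤ N * (((Δ : ℝ) - cm G Q) / (N - 1)) := by
  have hQc : Q.card = N := (mem_cliqueFinset_iff.1 hQ).card_eq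
  have hN2 : (2 : ℝ) ≤ N := by exact_mod_cast hN
  have hN1 : (0 : ℝ) < (N : ℝ) - 1 := by linarith
  have hcQ : Fintype.card {v : V // v ∈ Q} = N := by rw [Fintype.card_coe, hQc]
  -- exchange
  have h1 : ∑ z : {v : V // v ∈ Q}, xt (nadj G Q) N z =
      ∑ x : V, (if nadj G Q x = ∅ then 0 else ((N : ℝ) - (nadj G Q x).card) / (N - 1)) := by
    unfold xt
    simp_rw [sum_filter]
    rw [sum_comm]
    refine sum_congr rfl fun x _ => ?_
    rw [← sum_filter, sum_const, nsmul_eq_mul]
    have e1 : (univ.filter (fun z => z ∈ nadj G Q x)) = nadj G Q x := by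
      ext z
      simp
    rw [e1]
    by_cases h : nadj G Q x = ∅
    · rw [if_pos h, h]
      simp
    · rw [if_neg h]
      have h2 : (0 : ℝ) < (nadj G Q x).card := by
        exact_mod_cast Finset.card_pos.2 (nonempty_iff_ne_empty.2 h)
      field_simp
  have h2 : ∀ x : V, ((N : ℝ) - (nadj G Q x).card) =
      ((univ.filter (fun z : {v : V // v ∈ Q} => G.Adj x z)).card : ℝ) := by
    intro x
    have h := card_filter_add_card_filter_not (s := (univ : Finset {v : V // v ∈ Q}))
      (fun z => G.Adj x z)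
    rw [card_univ, hcQ] at h
    have h3 : (nadj G Q x).card = (univ.filter (fun z : {v : V // v ∈ Q} => ¬ G.Adj x z)).card :=
      rfl
    rw [h3, ← h]
    push_cast
    ring
  have h3 : ∑ x : V, ((N : ℝ) - (nadj G Q x).card) ≤ N * Δ := by
    rw [sum_congr rfl (fun x _ => h2 x)]
    have e1 : ∑ x : V, ((univ.filter (fun z : {v : V // v ∈ Q} => G.Adj x z)).card : ℝ) =
        ∑ z : {v : V // v ∈ Q}, (G.degree z : ℝ) := by
      simp only [card_filter, Nat.cast_sum]
      rw [sum_comm]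
      refine sum_congr rfl fun z _ => ?_
      rw [← card_neighborFinset_eq_degree, neighborFinset_eq_filter, card_filter, Nat.cast_sum]
      refine sum_congr rfl fun x _ => ?_
      simp only [G.adj_comm]
    rw [e1]
    calc ∑ z : {v : V // v ∈ Q}, (G.degree z : ℝ) ≤ ∑ _z : {v : V // v ∈ Q}, (Δ : ℝ) :=
          sum_le_sum fun z _ => by exact_mod_cast hΔ z
      _ = N * Δ := by rw [sum_const, card_univ, hcQ, nsmul_eq_mul]
  have h4 : ∑ x : V, (if nadj G Q x = ∅ then 0 else ((N : ℝ) - (nadj G Q x).card)) +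
      (N : ℝ) * cm G Q = ∑ x : V, ((N : ℝ) - (nadj G Q x).card) := by
    rw [← card_nadj_empty, card_filter, Nat.cast_sum, mul_sum, ← sum_add_distrib]
    refine sum_congr rfl fun x _ => ?_
    by_cases h : nadj G Q x = ∅
    · rw [if_pos h, if_pos h, h]
      simp
    · rw [if_neg h, if_neg h]
      simp
  have h5 : ∑ x : V, (if nadj G Q x = ∅ then 0 else ((N : ℝ) - (nadj G Q x).card) / (N - 1)) =
      (∑ x : V, (if nadj G Q x = ∅ then 0 else ((N : ℝ) - (nadj G Q x).card))) / (N - 1) := by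
    rw [sum_div]
    refine sum_congr rfl fun x _ => ?_
    split_ifs
    · simp
    · rfl
  rw [h1, h5, div_le_iff₀ hN1]
  have e : (N : ℝ) * (((Δ : ℝ) - cm G Q) / (N - 1)) * (N - 1) = N * Δ - N * cm G Q := by
    field_simp
  rw [e]
  linarith

theorem PSumG_prod {ι E : Type*} [Fintype E] [DecidableEq E] (s : Finset ι) (c : ι → ℝ)
    {th k : ℝ} (α γ : E → ℝ) (hα : ∀ e, 0 ≤ α e) (hγ : ∀ e, 0 ≤ γ e)
    (h : ∀ i ≤ Fintype.card E, ∑ q ∈ s, c q ^ i ≤ th ^ i * k) :
    ∑ q ∈ s, ∏ e, (α e * c q + γ e) ≤ (∏ e, (α e * th + γ e)) * k := by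
  have key : ∀ z : ℝ, ∏ e, (α e * z + γ e) =
      ∑ A ∈ (univ : Finset E).powerset, ((∏ e ∈ A, α e) * ∏ e ∈ univ \ A, γ e) * z ^ A.card := by
    intro z
    rw [prod_add]
    refine sum_congr rfl fun A _ => ?_
    rw [prod_mul_distrib, prod_const]
    ring
  calc ∑ q ∈ s, ∏ e, (α e * c q + γ e)
      = ∑ q ∈ s, ∑ A ∈ (univ : Finset E).powerset,
          ((∏ e ∈ A, α e) * ∏ e ∈ univ \ A, γ e) * c q ^ A.card :=
        sum_congr rfl fun q _ => key (c q)
    _ = ∑ A ∈ (univ : Finset E).powerset,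
          ((∏ e ∈ A, α e) * ∏ e ∈ univ \ A, γ e) * ∑ q ∈ s, c q ^ A.card := by
        rw [sum_comm]
        exact sum_congr rfl fun A _ => (mul_sum _ _ _).symm
    _ ≤ ∑ A ∈ (univ : Finset E).powerset,
          ((∏ e ∈ A, α e) * ∏ e ∈ univ \ A, γ e) * (th ^ A.card * k) := by
        refine sum_le_sum fun A _ => mul_le_mul_of_nonneg_left (h _ (card_le_univ A)) ?_
        exact mul_nonneg (prod_nonneg fun e _ => hα e) (prod_nonneg fun e _ => hγ e)
    _ = (∏ e, (α e * th + γ e)) * k := by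
        rw [key th, sum_mul]
        exact sum_congr rfl fun A _ => by ring

theorem sum_prod_le {E : Type*} [Fintype E] [DecidableEq E] {N w Δ : ℕ} (hN : 2 ≤ N)
    (hNw : N ≤ w) (hf : G.CliqueFree (w + 1)) (hΔ : ∀ v, G.degree v ≤ Δ)
    (hj : w = N ∨ Fintype.card E ≤ 2 ∨ Fintype.card E * (N - 1) ≤ w - 1)
    (α γ : E → ℝ) (hα : ∀ e, 0 ≤ α e) (hγ : ∀ e, 0 ≤ γ e) :
    ∑ Q ∈ G.cliqueFinset N, ∏ e, (α e * cm G Q + γ e) ≤
      (∏ e, (α e * (((w : ℝ) - N) / (w - 1) * Δ) + γ e)) * kk G N := by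
  refine PSumG_prod _ (fun Q => (cm G Q : ℝ)) α γ hα hγ ?_
  intro i hi
  rcases hNw.eq_or_lt with rfl | hlt
  · have hcm : ∀ Q ∈ G.cliqueFinset N, (cm G Q : ℝ) = 0 := by
      intro Q hQ
      have : cm G Q = 0 := by
        rw [← card_cnb, card_eq_zero, eq_empty_iff_forall_notMem]
        intro v hv
        exact hf (insert v Q) ((mem_cliqueFinset_iff.1 hQ).insert fun d hd => mem_cnb.1 hv d hd)
      rw [this, Nat.cast_zero]
    rcases i with _ | i
    · simp only [pow_zero, sum_const, nsmul_eq_mul, mul_one, one_mul]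
      exact le_rfl
    · rw [sum_eq_zero (fun Q hQ => by rw [hcm Q hQ]; simp)]
      simp
  · rcases i with _ | i
    · simp only [pow_zero, sum_const, nsmul_eq_mul, mul_one, one_mul]
      exact le_rfl
    · refine power_sum hN hlt hf hΔ ?_
      rcases hj.resolve_left (by omega) with h | h
      · by_cases h1 : i = 1
        · exact Or.inl h1
        · right
          have h2 : i = 0 := by omega
          rw [h2, zero_add, one_mul]
          omega
      · right
        exact (Nat.mul_le_mul_right _ hi).trans h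

end MP5cc280
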