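import Pool.Agent.H.MP_5cc280_co.Cnt
import Pool.Agent.H.MP_5cc280_co.PSumG

/-!
Copies of a graph with a clique `T`: cliques, bijections and images of the other vertices.
-/

namespace MP5cc280

open Finset SimpleGraph

variable {V : Type*} [Fintype V] [DecidableEq V] {G : SimpleGraph V} [DecidableRel G.Adj]
  {W : Type*} [Fintype W] [DecidableEq W] {H : SimpleGraph W}

variable (G) in
/-- the vertices that can be the image of a vertex outside `T` -/
private def PCopG_set (Q : Finset V) {T : Finset W} (M : Finset {t : W // t ∈ T})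
    (g : {t : W // t ∈ T} ≃ {v : V // v ∈ Q}) : Finset V :=
  univ.filter (fun x => ∀ t, t ∉ M → g t ∉ nadj G Q x)

/-- the clique, the bijection and the other vertices given by a copy -/
private noncomputable def PCopG_split {T : Finset W} {N : ℕ} (hT : H.IsNClique N T)
    (M : {e : W // e ∉ T} → Finset {t : W // t ∈ T})
    (hadj : ∀ (e : {e : W // e ∉ T}) (t : {t : W // t ∈ T}), t ∉ M e → H.Adj e t)
    (f : Copy H G) : Σ Q : {Q // Q ∈ G.cliqueFinset N},
      Σ g : {t : W // t ∈ T} ≃ {v : V // v ∈ Q.1},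
        ((e : {e : W // e ∉ T}) → {v : V // v ∈ PCopG_set G Q.1 (M e) g}) :=
  ⟨⟨T.image f, by
    rw [mem_cliqueFinset_iff, isNClique_iff]
    constructor
    · intro a ha b hb hab
      rw [mem_coe, mem_image] at ha hb
      obtain ⟨s, hs, rfl⟩ := ha
      obtain ⟨t, ht, rfl⟩ := hb
      exact f.toHom.map_adj (hT.isClique (mem_coe.2 hs) (mem_coe.2 ht) (fun h => hab (by rw [h])))
    · rw [card_image_of_injective T (f := fun a => f a) (fun a b h => f.injective h)]
      exact hT.card_eq⟩,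
   ⟨Equiv.ofBijective (fun t : {t : W // t ∈ T} =>
      (⟨f t, mem_image_of_mem _ t.2⟩ : {v : V // v ∈ T.image f})) ⟨fun a b h => by
        have h1 : f a = f b := congrArg Subtype.val h
        exact Subtype.ext (f.injective h1), fun v => by
        obtain ⟨t, ht, h⟩ := mem_image.1 v.2
        exact ⟨⟨t, ht⟩, Subtype.ext h⟩⟩,
    fun e => ⟨f e.1, by
      unfold PCopG_set
      rw [mem_filter]
      refine ⟨mem_univ _, fun t ht hmem => ?_⟩
      unfold nadj at hmem
      rw [mem_filter] at hmem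
      exact hmem.2 (f.toHom.map_adj (hadj e t ht))⟩⟩⟩

omit [Fintype W] in
private theorem PCopG_inj {T : Finset W} {N : ℕ} (hT : H.IsNClique N T)
    (M : {e : W // e ∉ T} → Finset {t : W // t ∈ T})
    (hadj : ∀ (e : {e : W // e ∉ T}) (t : {t : W // t ∈ T}), t ∉ M e → H.Adj e t) :
    Function.Injective (PCopG_split (G := G) hT M hadj) := by
  intro f g hfg
  have h1 := congrArg (fun z : (Σ Q : {Q // Q ∈ G.cliqueFinset N},
      Σ g : {t : W // t ∈ T} ≃ {v : V // v ∈ Q.1},
        ((e : {e : W // e ∉ T}) → {v : V // v ∈ PCopG_set G Q.1 (M e) g})) =>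
      fun t : {t : W // t ∈ T} => ((z.2.1 t : {v : V // v ∈ z.1.1}) : V)) hfg
  have h2 := congrArg (fun z : (Σ Q : {Q // Q ∈ G.cliqueFinset N},
      Σ g : {t : W // t ∈ T} ≃ {v : V // v ∈ Q.1},
        ((e : {e : W // e ∉ T}) → {v : V // v ∈ PCopG_set G Q.1 (M e) g})) =>
      fun e : {e : W // e ∉ T} =>
        ((z.2.2 e : {v : V // v ∈ PCopG_set G z.1.1 (M e) z.2.1}) : V)) hfg
  apply Copy.ext
  intro w
  by_cases hw : w ∈ T
  · exact congrFun h1 ⟨w, hw⟩
  · exact congrFun h2 ⟨w, hw⟩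

theorem card_copy_le_gen {T : Finset W} {N : ℕ} (hT : H.IsNClique N T)
    (M : {e : W // e ∉ T} → Finset {t : W // t ∈ T})
    (hadj : ∀ (e : {e : W // e ∉ T}) (t : {t : W // t ∈ T}), t ∉ M e → H.Adj e t) :
    Nat.card (Copy H G) ≤
      ∑ Q ∈ G.cliqueFinset N, ∑ g : {t : W // t ∈ T} ≃ {v : V // v ∈ Q},
        ∏ e : {e : W // e ∉ T}, xe (nadj G Q) (M e) g := by
  refine (Nat.card_le_card_of_injective _ (PCopG_inj (G := G) hT M hadj)).trans
    (le_of_eq ?_)
  rw [Nat.card_sigma]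
  have h : ∀ Q : {Q // Q ∈ G.cliqueFinset N},
      Nat.card (Σ g : {t : W // t ∈ T} ≃ {v : V // v ∈ Q.1},
        ((e : {e : W // e ∉ T}) → {v : V // v ∈ PCopG_set G Q.1 (M e) g})) =
      ∑ g : {t : W // t ∈ T} ≃ {v : V // v ∈ Q.1},
        ∏ e : {e : W // e ∉ T}, xe (nadj G Q.1) (M e) g := by
    intro Q
    rw [Nat.card_sigma]
    refine Fintype.sum_congr _ _ fun g => ?_
    rw [Nat.card_pi]
    refine Fintype.prod_congr _ _ fun e => ?_
    rw [Nat.card_eq_fintype_card, Fintype.card_coe]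
    rfl
  rw [Fintype.sum_congr _ _ h]
  exact sum_coe_sort (G.cliqueFinset N)
    (fun Q => ∑ g : {t : W // t ∈ T} ≃ {v : V // v ∈ Q},
        ∏ e : {e : W // e ∉ T}, xe (nadj G Q) (M e) g)

end MP5cc280
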