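import Mathlib

/-!
Maclaurin for products of affine forms in disjoint blocks of variables.
-/

namespace MP5cc280

open Finset

variable {ι τ E : Type*} [Fintype ι] [DecidableEq ι] [Fintype τ] [DecidableEq τ]
  [Fintype E] [DecidableEq E]

private theorem PExp_sum {ι τ : Type*} [Fintype ι] [DecidableEq ι] [Fintype τ] [DecidableEq τ]
    (σ : Equiv.Perm ι) (F : (ι ≃ τ) → ℝ) : ∑ g : ι ≃ τ, F (σ.trans g) = ∑ g : ι ≃ τ, F g := by
  let e : (ι ≃ τ) ≃ (ι ≃ τ) :=
    { toFun := fun g => σ.trans g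
      invFun := fun g => σ.symm.trans g
      left_inv := fun g => by
        ext i
        simp
      right_inv := fun g => by
        ext i
        simp }
  exact Equiv.sum_comp e F

private theorem PExp_fix {ι τ : Type*} [DecidableEq ι] (x : τ → ℝ) (c : ℝ) {M : Finset ι}
    {a b : ι} (ha : a ∉ M) (hb : b ∉ M) (g : ι ≃ τ) :
    c + ∑ y ∈ M, x (((Equiv.swap a b).trans g) y) = c + ∑ y ∈ M, x (g y) := by
  congr 1
  refine Finset.sum_congr rfl fun i hi => ?_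
  have hi1 : i ≠ b := fun h => hb (h ▸ hi)
  have hi2 : i ≠ a := fun h => ha (h ▸ hi)
  rw [Equiv.trans_apply, Equiv.swap_apply_of_ne_of_ne hi2 hi1]

theorem exp_step (x : τ → ℝ) (hx : ∀ t, 0 ≤ x t) {c : ℝ} (hc : 0 ≤ c) (M : E → Finset ι)
    (hdis : ∀ a b, a ≠ b → Disjoint (M a) (M b)) (B : Finset E) {a : ι} (ha : ∀ e ∈ B, a ∉ M e)
    (b : ι) :
    ∑ g : ι ≃ τ, (∏ e ∈ B, (c + ∑ y ∈ M e, x (g y))) * x (g a) ≤
      ∑ g : ι ≃ τ, (∏ e ∈ B, (c + ∑ y ∈ M e, x (g y))) * x (g b) := by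
  have hga : ∀ g : ι ≃ τ, ((Equiv.swap a b).trans g) b = g a := fun g => by
    rw [Equiv.trans_apply, Equiv.swap_apply_right]
  by_cases hb : ∃ e ∈ B, b ∈ M e
  · obtain ⟨e0, he0, hbe⟩ := hb
    obtain ⟨K, hK⟩ : ∃ K : (ι ≃ τ) → ℝ, K = fun g => c + ∑ y ∈ (M e0).erase b, x (g y) :=
      ⟨_, rfl⟩
    obtain ⟨P, hP⟩ : ∃ P : (ι ≃ τ) → ℝ,
        P = fun g => ∏ e ∈ B.erase e0, (c + ∑ y ∈ M e, x (g y)) := ⟨_, rfl⟩
    have hK0 : ∀ g, 0 ≤ K g := fun g => by
      rw [hK]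
      exact add_nonneg hc (Finset.sum_nonneg fun y _ => hx _)
    have hP0 : ∀ g, 0 ≤ P g := fun g => by
      rw [hP]
      exact Finset.prod_nonneg fun e _ => add_nonneg hc (Finset.sum_nonneg fun y _ => hx _)
    have hKs : ∀ g, K ((Equiv.swap a b).trans g) = K g := fun g => by
      rw [hK]
      exact PExp_fix x c (fun h => ha e0 he0 (Finset.mem_of_mem_erase h))
        (Finset.notMem_erase b _) g
    have hPs : ∀ g, P ((Equiv.swap a b).trans g) = P g := fun g => by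
      rw [hP]
      refine Finset.prod_congr rfl fun e he => ?_
      refine PExp_fix x c (ha e (Finset.mem_of_mem_erase he)) (fun h => ?_) g
      exact Finset.disjoint_left.1 (hdis e e0 (Finset.ne_of_mem_erase he)) h hbe
    have hfac : ∀ g : ι ≃ τ, (∏ e ∈ B, (c + ∑ y ∈ M e, x (g y))) = (K g + x (g b)) * P g := by
      intro g
      rw [← Finset.mul_prod_erase B (fun e => c + ∑ y ∈ M e, x (g y)) he0, hK, hP]
      simp only
      rw [← Finset.add_sum_erase (M e0) (fun y => x (g y)) hbe]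
      ring
    have e1 : ∑ g : ι ≃ τ, P g * K g * x (g a) = ∑ g : ι ≃ τ, P g * K g * x (g b) := by
      rw [← PExp_sum (Equiv.swap a b) fun g => P g * K g * x (g b)]
      refine Finset.sum_congr rfl fun g _ => ?_
      show _ = P ((Equiv.swap a b).trans g) * K ((Equiv.swap a b).trans g) *
        x (((Equiv.swap a b).trans g) b)
      rw [hPs, hKs, hga]
    have e2 : ∑ g : ι ≃ τ, P g * x (g a) ^ 2 = ∑ g : ι ≃ τ, P g * x (g b) ^ 2 := by
      rw [← PExp_sum (Equiv.swap a b) fun g => P g * x (g b) ^ 2]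
      refine Finset.sum_congr rfl fun g _ => ?_
      show _ = P ((Equiv.swap a b).trans g) * x (((Equiv.swap a b).trans g) b) ^ 2
      rw [hPs, hga]
    have e3 : ∀ g : ι ≃ τ, 2 * ((∏ e ∈ B, (c + ∑ y ∈ M e, x (g y))) * x (g a)) ≤
        2 * (P g * K g * x (g a)) + P g * x (g a) ^ 2 + P g * x (g b) ^ 2 := by
      intro g
      rw [hfac g]
      have h2 := mul_le_mul_of_nonneg_left (two_mul_le_add_sq (x (g a)) (x (g b))) (hP0 g)
      linarith
    have e4 : ∑ g : ι ≃ τ, (∏ e ∈ B, (c + ∑ y ∈ M e, x (g y))) * x (g b) =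
        ∑ g : ι ≃ τ, P g * K g * x (g b) + ∑ g : ι ≃ τ, P g * x (g b) ^ 2 := by
      rw [← Finset.sum_add_distrib]
      refine Finset.sum_congr rfl fun g _ => ?_
      rw [hfac g]
      ring
    have e5 := Finset.sum_le_sum fun g (_ : g ∈ (Finset.univ : Finset (ι ≃ τ))) => e3 g
    rw [← Finset.mul_sum, Finset.sum_add_distrib, Finset.sum_add_distrib, ← Finset.mul_sum, e1,
      e2] at e5
    rw [e4]
    linarith
  · refine le_of_eq ?_
    rw [← PExp_sum (Equiv.swap a b) fun g => (∏ e ∈ B, (c + ∑ y ∈ M e, x (g y))) * x (g b)]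
    refine Finset.sum_congr rfl fun g _ => ?_
    have h1 : ∏ e ∈ B, (c + ∑ y ∈ M e, x (((Equiv.swap a b).trans g) y)) =
        ∏ e ∈ B, (c + ∑ y ∈ M e, x (g y)) := by
      refine Finset.prod_congr rfl fun e he => ?_
      exact PExp_fix x c (ha e he) (fun h => hb ⟨e, he, h⟩) g
    show _ = (∏ e ∈ B, (c + ∑ y ∈ M e, x (((Equiv.swap a b).trans g) y))) *
      x (((Equiv.swap a b).trans g) b)
    rw [h1, hga]

private theorem PExp_le [Nonempty ι] (x : τ → ℝ) (hx : ∀ t, 0 ≤ x t) {c : ℝ} (hc : 0 ≤ c)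
    (M : E → Finset ι) (hdis : ∀ a b, a ≠ b → Disjoint (M a) (M b)) {A : ℝ}
    (hA : ∑ t, x t ≤ Fintype.card ι * A) (B : Finset E) :
    ∑ g : ι ≃ τ, ∏ e ∈ B, (c + ∑ y ∈ M e, x (g y)) ≤
      (Fintype.card (ι ≃ τ) : ℝ) * ∏ e ∈ B, (c + (M e).card * A) := by
  have hk : (0 : ℝ) < Fintype.card ι := by exact_mod_cast Fintype.card_pos
  have hA0 : 0 ≤ A := by
    have h1 : 0 ≤ ∑ t, x t := Finset.sum_nonneg fun t _ => hx t
    by_contra h
    have h2 := mul_neg_of_pos_of_neg hk (not_le.1 h)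
    linarith
  induction B using Finset.induction_on with
  | empty =>
    simp
  | insert e B he ih =>
    obtain ⟨S, hS⟩ : ∃ S : ℝ, S = ∑ g : ι ≃ τ, ∏ e ∈ B, (c + ∑ y ∈ M e, x (g y)) := ⟨_, rfl⟩
    rw [← hS] at ih
    have hS0 : 0 ≤ S := by
      rw [hS]
      exact Finset.sum_nonneg fun g _ => Finset.prod_nonneg fun e _ =>
        add_nonneg hc (Finset.sum_nonneg fun y _ => hx _)
    have hstep : ∀ a ∈ M e, ∑ g : ι ≃ τ, (∏ e ∈ B, (c + ∑ y ∈ M e, x (g y))) * x (g a) ≤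
        A * S := by
      intro a hae
      have ha : ∀ e' ∈ B, a ∉ M e' := by
        intro e' he' h
        have hne : e ≠ e' := fun h => he (h ▸ he')
        exact Finset.disjoint_left.1 (hdis e e' hne) hae h
      have h2 : (Fintype.card ι : ℝ) *
          ∑ g : ι ≃ τ, (∏ e ∈ B, (c + ∑ y ∈ M e, x (g y))) * x (g a) ≤
          ∑ b : ι, ∑ g : ι ≃ τ, (∏ e ∈ B, (c + ∑ y ∈ M e, x (g y))) * x (g b) := by
        have h1 := Finset.sum_le_sum fun b (_ : b ∈ (Finset.univ : Finset ι)) =>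
          exp_step x hx hc M hdis B ha b
        rwa [Finset.sum_const, Finset.card_univ, nsmul_eq_mul] at h1
      have h3 : ∑ b : ι, ∑ g : ι ≃ τ, (∏ e ∈ B, (c + ∑ y ∈ M e, x (g y))) * x (g b) =
          S * ∑ t, x t := by
        rw [Finset.sum_comm, hS, Finset.sum_mul]
        refine Finset.sum_congr rfl fun g _ => ?_
        rw [← Finset.mul_sum, Equiv.sum_comp g x]
      have h4 : S * ∑ t, x t ≤ S * (Fintype.card ι * A) := mul_le_mul_of_nonneg_left hA hS0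
      refine le_of_mul_le_mul_left ?_ hk
      calc (Fintype.card ι : ℝ) *
          ∑ g : ι ≃ τ, (∏ e ∈ B, (c + ∑ y ∈ M e, x (g y))) * x (g a)
          ≤ ∑ b : ι, ∑ g : ι ≃ τ, (∏ e ∈ B, (c + ∑ y ∈ M e, x (g y))) * x (g b) := h2
        _ = S * ∑ t, x t := h3
        _ ≤ S * (Fintype.card ι * A) := h4
        _ = (Fintype.card ι : ℝ) * (A * S) := by ring
    have h6 : ∑ g : ι ≃ τ, ∏ e' ∈ insert e B, (c + ∑ y ∈ M e', x (g y)) =
        c * S + ∑ a ∈ M e, ∑ g : ι ≃ τ, (∏ e ∈ B, (c + ∑ y ∈ M e, x (g y))) * x (g a) := by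
      rw [hS, Finset.sum_comm, Finset.mul_sum, ← Finset.sum_add_distrib]
      refine Finset.sum_congr rfl fun g _ => ?_
      rw [Finset.prod_insert he, ← Finset.mul_sum]
      ring
    have h7 : ∑ a ∈ M e, ∑ g : ι ≃ τ, (∏ e ∈ B, (c + ∑ y ∈ M e, x (g y))) * x (g a) ≤
        (M e).card * (A * S) := by
      refine (Finset.sum_le_sum hstep).trans (le_of_eq ?_)
      rw [Finset.sum_const, nsmul_eq_mul]
    rw [h6, Finset.prod_insert he]
    have h8 : 0 ≤ c + (M e).card * A := by positivity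
    have h9 := mul_le_mul_of_nonneg_left ih h8
    calc c * S + ∑ a ∈ M e, ∑ g : ι ≃ τ, (∏ e ∈ B, (c + ∑ y ∈ M e, x (g y))) * x (g a)
        ≤ c * S + (M e).card * (A * S) := by linarith
      _ = (c + (M e).card * A) * S := by ring
      _ ≤ (c + (M e).card * A) *
          ((Fintype.card (ι ≃ τ) : ℝ) * ∏ e ∈ B, (c + (M e).card * A)) := h9
      _ = (Fintype.card (ι ≃ τ) : ℝ) *
          ((c + (M e).card * A) * ∏ e ∈ B, (c + (M e).card * A)) := by ring

theorem exp_le [Nonempty ι] (x : τ → ℝ) (hx : ∀ t, 0 ≤ x t) {c : ℝ} (hc : 0 ≤ c)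
    (M : E → Finset ι) (hdis : ∀ a b, a ≠ b → Disjoint (M a) (M b)) {A : ℝ}
    (hA : ∑ t, x t ≤ Fintype.card ι * A) :
    ∑ g : ι ≃ τ, ∏ e, (c + ∑ y ∈ M e, x (g y)) ≤
      (Fintype.card (ι ≃ τ) : ℝ) * ∏ e, (c + (M e).card * A) :=
  PExp_le x hx hc M hdis hA Finset.univ

end MP5cc280
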