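import Pool.Agent.H.MP_5cc280_co.PSwap

/-!
Replacing the factors one at a time.
-/

namespace MP5cc280

open Finset

variable {ι τ X E : Type*} [Fintype ι] [DecidableEq ι] [Fintype τ] [DecidableEq τ]
  [Fintype X] [DecidableEq X] [Fintype E] [DecidableEq E]

omit [Fintype ι] [Fintype τ] [DecidableEq X] in
theorem PHyb_xe (R : X → Finset τ) (M : Finset ι) (g : ι ≃ τ)
    [DecidablePred fun x => ∀ t, t ∉ M → g t ∉ R x] :
    (((univ.filter (fun x => ∀ t, t ∉ M → g t ∉ R x)).card : ℕ) : ℝ) =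
      ((univ.filter (fun x => R x = ∅)).card : ℝ) +
      ∑ x ∈ univ.filter (fun x => ¬ R x = ∅), (if ∀ t, t ∉ M → g t ∉ R x then (1 : ℝ) else 0) := by
  rw [Finset.card_filter]
  push_cast
  rw [← Finset.sum_filter_add_sum_filter_not univ (fun x => R x = ∅)]
  congr 1
  rw [Finset.card_eq_sum_ones]
  push_cast
  refine Finset.sum_congr rfl (fun x hx => ?_)
  rw [Finset.mem_filter] at hx
  rw [if_pos]
  intro t _
  rw [hx.2]
  exact Finset.notMem_empty _

omit [Fintype ι] [DecidableEq ι] [Fintype τ] [DecidableEq X] in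
theorem PHyb_ye (R : X → Finset τ) (N : ℕ) (M : Finset ι) (g : ι ≃ τ) :
    ye R N M g = ((univ.filter (fun x => R x = ∅)).card : ℝ) +
      ∑ x ∈ univ.filter (fun x => ¬ R x = ∅),
        (((N : ℝ) - (R x).card) / ((R x).card * ((N : ℝ) - 1))) *
          ((M.filter (fun y => g y ∈ R x)).card : ℝ) := by
  unfold ye xt
  congr 1
  have h1 : ∀ y ∈ M, ∑ x ∈ univ.filter (fun x => g y ∈ R x),
      ((N : ℝ) - (R x).card) / ((R x).card * ((N : ℝ) - 1)) =
      ∑ x, (if g y ∈ R x then ((N : ℝ) - (R x).card) / ((R x).card * ((N : ℝ) - 1)) else 0) := by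
    intro y _
    rw [Finset.sum_filter]
  rw [Finset.sum_congr rfl h1, Finset.sum_comm]
  have h2 : ∀ x, ∑ y ∈ M,
      (if g y ∈ R x then ((N : ℝ) - (R x).card) / ((R x).card * ((N : ℝ) - 1)) else 0) =
      (((N : ℝ) - (R x).card) / ((R x).card * ((N : ℝ) - 1))) *
          ((M.filter (fun y => g y ∈ R x)).card : ℝ) := by
    intro x
    rw [← Finset.sum_filter, Finset.sum_const, nsmul_eq_mul, mul_comm]
  rw [Finset.sum_congr rfl (fun x _ => h2 x)]
  symm
  refine Finset.sum_subset (Finset.filter_subset _ _) (fun x _ hx => ?_)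
  have hx' : R x = ∅ := by
    by_contra h
    exact hx (Finset.mem_filter.2 ⟨Finset.mem_univ _, h⟩)
  rw [hx']
  simp

theorem hyb_step (R : X → Finset τ) (F : (ι ≃ τ) → ℝ) (hF : ∀ g, 0 ≤ F g) (M : Finset ι) {d : ι}
    (hd : d ∉ M) (hinv : ∀ y ∈ M, ∀ g : ι ≃ τ, F ((Equiv.swap y d).trans g) = F g)
    (hN : 2 ≤ Fintype.card ι) :
    ∑ g : ι ≃ τ, F g * (xe R M g : ℝ) ≤ ∑ g : ι ≃ τ, F g * ye R (Fintype.card ι) M g := by
  have h1 : ∑ g : ι ≃ τ, F g * (xe R M g : ℝ) =
      ∑ g : ι ≃ τ, F g * ((univ.filter (fun x => R x = ∅)).card : ℝ) +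
      ∑ x ∈ univ.filter (fun x => ¬ R x = ∅), ∑ g : ι ≃ τ,
        F g * (if ∀ t, t ∉ M → g t ∉ R x then (1 : ℝ) else 0) := by
    rw [Finset.sum_comm, ← Finset.sum_add_distrib]
    refine Finset.sum_congr rfl (fun g _ => ?_)
    unfold xe
    rw [PHyb_xe, mul_add, Finset.mul_sum]
  have h2 : ∑ g : ι ≃ τ, F g * ye R (Fintype.card ι) M g =
      ∑ g : ι ≃ τ, F g * ((univ.filter (fun x => R x = ∅)).card : ℝ) +
      ∑ x ∈ univ.filter (fun x => ¬ R x = ∅), ∑ g : ι ≃ τ,
        F g * ((((Fintype.card ι : ℝ) - (R x).card) /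
        ((R x).card * ((Fintype.card ι : ℝ) - 1))) *
          ((M.filter (fun y => g y ∈ R x)).card : ℝ)) := by
    rw [Finset.sum_comm, ← Finset.sum_add_distrib]
    refine Finset.sum_congr rfl (fun g _ => ?_)
    rw [PHyb_ye, mul_add, Finset.mul_sum]
  rw [h1, h2]
  refine add_le_add le_rfl (Finset.sum_le_sum (fun x hx => ?_))
  rw [Finset.mem_filter] at hx
  exact swap_ineq F hF M hd hinv (R x) (Finset.nonempty_iff_ne_empty.2 hx.2) hN

omit [Fintype ι] in
theorem PHyb_swap {S : Finset ι} {y d : ι} (hy : y ∉ S) (hd : d ∉ S) {t : ι} (ht : t ∉ S) :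
    Equiv.swap y d t ∉ S := by
  rw [Equiv.swap_apply_def]
  split_ifs
  · exact hd
  · exact hy
  · exact ht

theorem PHyb_xe_swap (R : X → Finset τ) {S : Finset ι} {y d : ι} (hy : y ∉ S) (hd : d ∉ S)
    (g : ι ≃ τ) : xe R S ((Equiv.swap y d).trans g) = xe R S g := by
  unfold xe
  congr 1
  refine Finset.filter_congr (fun x _ => ?_)
  constructor
  · intro h t ht
    have h1 := h (Equiv.swap y d t) (PHyb_swap hy hd ht)
    rw [Equiv.trans_apply, Equiv.swap_apply_self] at h1
    exact h1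
  · intro h t ht
    rw [Equiv.trans_apply]
    exact h _ (PHyb_swap hy hd ht)

theorem PHyb_ye_swap (R : X → Finset τ) (N : ℕ) {S : Finset ι} {y d : ι} (hy : y ∉ S) (hd : d ∉ S)
    (g : ι ≃ τ) : ye R N S ((Equiv.swap y d).trans g) = ye R N S g := by
  unfold ye
  congr 1
  refine Finset.sum_congr rfl (fun t ht => ?_)
  have h1 : t ≠ y := fun h => hy (h ▸ ht)
  have h2 : t ≠ d := fun h => hd (h ▸ ht)
  rw [Equiv.trans_apply, Equiv.swap_apply_of_ne_of_ne h1 h2]

theorem PHyb_ye_nonneg (R : X → Finset τ) (S : Finset ι) (hN : 2 ≤ Fintype.card ι) (g : ι ≃ τ) :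
    0 ≤ ye R (Fintype.card ι) S g := by
  have hN' : (2 : ℝ) ≤ (Fintype.card ι : ℝ) := by exact_mod_cast hN
  have h1 : ∀ z, 0 ≤ xt R (Fintype.card ι) z := by
    intro z
    unfold xt
    refine Finset.sum_nonneg (fun x _ => ?_)
    have h2 : (R x).card ≤ Fintype.card ι := by
      rw [Fintype.card_congr g]
      exact Finset.card_le_univ _
    have h3 : ((R x).card : ℝ) ≤ (Fintype.card ι : ℝ) := by exact_mod_cast h2
    refine div_nonneg (by linarith) (mul_nonneg (Nat.cast_nonneg _) (by linarith))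
  unfold ye
  exact add_nonneg (Nat.cast_nonneg _) (Finset.sum_nonneg (fun y _ => h1 _))

theorem PHyb_aux (R : X → Finset τ) (M : E → Finset ι) (hdis : ∀ a b, a ≠ b → Disjoint (M a) (M b))
    {d : ι} (hd : ∀ e, d ∉ M e) (hN : 2 ≤ Fintype.card ι) (B : Finset E) :
    ∑ g : ι ≃ τ, (∏ e ∈ B, (xe R (M e) g : ℝ)) * ∏ e ∈ univ \ B, ye R (Fintype.card ι) (M e) g ≤
      ∑ g : ι ≃ τ, ∏ e, ye R (Fintype.card ι) (M e) g := by
  induction B using Finset.induction_on with
  | empty =>
    refine le_of_eq (Finset.sum_congr rfl (fun g _ => ?_))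
    rw [Finset.prod_empty, one_mul, Finset.sdiff_empty]
  | insert a B ha ih =>
    have hset : univ \ B = insert a (univ \ insert a B) := by
      ext e
      simp only [Finset.mem_sdiff, Finset.mem_univ, true_and, Finset.mem_insert, not_or]
      constructor
      · intro h
        by_cases h1 : e = a
        · exact Or.inl h1
        · exact Or.inr ⟨h1, h⟩
      · rintro (h | h)
        · rw [h]
          exact ha
        · exact h.2
    have hnot : a ∉ univ \ insert a B := by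
      simp
    have hdy : ∀ e, e ≠ a → ∀ y ∈ M a, y ∉ M e := by
      intro e he y hy hy'
      exact (Finset.disjoint_left.1 (hdis e a he)) hy' hy
    have hst := hyb_step R (fun g : ι ≃ τ => (∏ e ∈ B, (xe R (M e) g : ℝ)) *
      ∏ e ∈ univ \ insert a B, ye R (Fintype.card ι) (M e) g) ?_ (M a) (hd a) ?_ hN
    · refine le_trans (le_of_eq ?_) (le_trans hst (le_trans (le_of_eq ?_) ih))
      · refine Finset.sum_congr rfl (fun g _ => ?_)
        rw [Finset.prod_insert ha]
        ring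
      · refine Finset.sum_congr rfl (fun g _ => ?_)
        rw [hset, Finset.prod_insert hnot]
        ring
    · intro g
      refine mul_nonneg (Finset.prod_nonneg (fun e _ => Nat.cast_nonneg _))
        (Finset.prod_nonneg (fun e _ => PHyb_ye_nonneg R (M e) hN g))
    · intro y hy g
      congr 1
      · refine Finset.prod_congr rfl (fun e he => ?_)
        rw [PHyb_xe_swap R (hdy e (fun h => ha (h ▸ he)) y hy) (hd e)]
      · refine Finset.prod_congr rfl (fun e he => ?_)
        have he' : e ≠ a := fun h => by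
          rw [h] at he
          exact hnot he
        rw [PHyb_ye_swap R _ (hdy e he' y hy) (hd e)]

theorem hyb (R : X → Finset τ) (M : E → Finset ι) (hdis : ∀ a b, a ≠ b → Disjoint (M a) (M b))
    {d : ι} (hd : ∀ e, d ∉ M e) (hN : 2 ≤ Fintype.card ι) :
    ∑ g : ι ≃ τ, ∏ e, (xe R (M e) g : ℝ) ≤
      ∑ g : ι ≃ τ, ∏ e, ye R (Fintype.card ι) (M e) g := by
  refine le_trans (le_of_eq ?_) (PHyb_aux R M hdis hd hN univ)
  refine Finset.sum_congr rfl (fun g _ => ?_)
  rw [Finset.sdiff_self, Finset.prod_empty, mul_one]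

end MP5cc280
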