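import Mathlib

/-!
Maclaurin for sums over bijections.
-/

namespace MP5cc280

open Finset

private theorem PMac_sum {ι τ : Type*} [Fintype ι] [DecidableEq ι] [Fintype τ] [DecidableEq τ]
    (σ : Equiv.Perm ι) (F : (ι ≃ τ) → ℝ) : ∑ g : ι ≃ τ, F (σ.trans g) = ∑ g : ι ≃ τ, F g := by
  let e : (ι ≃ τ) ≃ (ι ≃ τ) :=
    { toFun := fun g => σ.trans g
      invFun := fun g => σ.symm.trans g
      left_inv := fun g => by
        ext i
        simp
      right_inv := fun g => by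
        ext i
        simp }
  exact Equiv.sum_comp e F

theorem mac_step {ι τ : Type*} [Fintype ι] [DecidableEq ι] [Fintype τ] [DecidableEq τ]
    (x : τ → ℝ) (hx : ∀ t, 0 ≤ x t) (J : Finset ι) {a : ι} (ha : a ∉ J) (b : ι) :
    ∑ g : ι ≃ τ, (∏ i ∈ J, x (g i)) * x (g a) ≤
      ∑ g : ι ≃ τ, (∏ i ∈ J, x (g i)) * x (g b) := by
  by_cases hb : b ∈ J
  · have hA : ∑ g : ι ≃ τ, (∏ i ∈ J.erase b, x (g i)) * x (g a) ^ 2 =
        ∑ g : ι ≃ τ, (∏ i ∈ J.erase b, x (g i)) * x (g b) ^ 2 := by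
      rw [← PMac_sum (Equiv.swap a b) fun g => (∏ i ∈ J.erase b, x (g i)) * x (g b) ^ 2]
      refine Finset.sum_congr rfl fun g _ => ?_
      have h1 : ∏ i ∈ J.erase b, x (((Equiv.swap a b).trans g) i) = ∏ i ∈ J.erase b, x (g i) := by
        refine Finset.prod_congr rfl fun i hi => ?_
        have hi1 : i ≠ b := Finset.ne_of_mem_erase hi
        have hi2 : i ≠ a := fun h => ha (h ▸ Finset.mem_of_mem_erase hi)
        rw [Equiv.trans_apply, Equiv.swap_apply_of_ne_of_ne hi2 hi1]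
      have h2 : ((Equiv.swap a b).trans g) b = g a := by
        rw [Equiv.trans_apply, Equiv.swap_apply_right]
      show _ = (∏ i ∈ J.erase b, x (((Equiv.swap a b).trans g) i)) *
        x (((Equiv.swap a b).trans g) b) ^ 2
      rw [h1, h2]
    have hB : ∀ g : ι ≃ τ, 2 * ((∏ i ∈ J, x (g i)) * x (g a)) ≤
        (∏ i ∈ J.erase b, x (g i)) * x (g a) ^ 2 + (∏ i ∈ J.erase b, x (g i)) * x (g b) ^ 2 := by
      intro g
      rw [← Finset.mul_prod_erase J (fun i => x (g i)) hb]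
      have h1 : 0 ≤ ∏ i ∈ J.erase b, x (g i) := Finset.prod_nonneg fun i _ => hx _
      have h2 := mul_le_mul_of_nonneg_left (two_mul_le_add_sq (x (g a)) (x (g b))) h1
      linarith
    have hC : ∑ g : ι ≃ τ, (∏ i ∈ J, x (g i)) * x (g b) =
        ∑ g : ι ≃ τ, (∏ i ∈ J.erase b, x (g i)) * x (g b) ^ 2 := by
      refine Finset.sum_congr rfl fun g _ => ?_
      rw [← Finset.mul_prod_erase J (fun i => x (g i)) hb]
      ring
    have hD := Finset.sum_le_sum fun g (_ : g ∈ (Finset.univ : Finset (ι ≃ τ))) => hB g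
    rw [← Finset.mul_sum, Finset.sum_add_distrib, hA] at hD
    rw [hC]
    linarith
  · refine le_of_eq ?_
    rw [← PMac_sum (Equiv.swap a b) fun g => (∏ i ∈ J, x (g i)) * x (g b)]
    refine Finset.sum_congr rfl fun g _ => ?_
    have h1 : ∏ i ∈ J, x (((Equiv.swap a b).trans g) i) = ∏ i ∈ J, x (g i) := by
      refine Finset.prod_congr rfl fun i hi => ?_
      have hi1 : i ≠ b := fun h => hb (h ▸ hi)
      have hi2 : i ≠ a := fun h => ha (h ▸ hi)
      rw [Equiv.trans_apply, Equiv.swap_apply_of_ne_of_ne hi2 hi1]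
    have h2 : ((Equiv.swap a b).trans g) b = g a := by
      rw [Equiv.trans_apply, Equiv.swap_apply_right]
    show _ = (∏ i ∈ J, x (((Equiv.swap a b).trans g) i)) * x (((Equiv.swap a b).trans g) b)
    rw [h1, h2]

theorem mac {ι τ : Type*} [Fintype ι] [DecidableEq ι] [Fintype τ] [DecidableEq τ] [Nonempty ι]
    (x : τ → ℝ) (hx : ∀ t, 0 ≤ x t) {M : ℝ} (hM : ∑ t, x t ≤ Fintype.card ι * M)
    (J : Finset ι) :
    ∑ g : ι ≃ τ, ∏ i ∈ J, x (g i) ≤ (Fintype.card (ι ≃ τ) : ℝ) * M ^ J.card := by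
  have hk : (0 : ℝ) < Fintype.card ι := by exact_mod_cast Fintype.card_pos
  have hM0 : 0 ≤ M := by
    have h1 : 0 ≤ ∑ t, x t := Finset.sum_nonneg fun t _ => hx t
    by_contra h
    have h2 := mul_neg_of_pos_of_neg hk (not_le.1 h)
    linarith
  induction J using Finset.induction_on with
  | empty =>
    simp
  | insert a J ha ih =>
    have h2 : (Fintype.card ι : ℝ) * ∑ g : ι ≃ τ, (∏ i ∈ J, x (g i)) * x (g a) ≤
        ∑ b : ι, ∑ g : ι ≃ τ, (∏ i ∈ J, x (g i)) * x (g b) := by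
      have h1 := Finset.sum_le_sum fun b (_ : b ∈ (Finset.univ : Finset ι)) => mac_step x hx J ha b
      rwa [Finset.sum_const, Finset.card_univ, nsmul_eq_mul] at h1
    have h3 : ∑ b : ι, ∑ g : ι ≃ τ, (∏ i ∈ J, x (g i)) * x (g b) =
        (∑ g : ι ≃ τ, ∏ i ∈ J, x (g i)) * ∑ t, x t := by
      rw [Finset.sum_comm, Finset.sum_mul]
      refine Finset.sum_congr rfl fun g _ => ?_
      rw [← Finset.mul_sum, Equiv.sum_comp g x]
    have h0 : 0 ≤ ∑ g : ι ≃ τ, ∏ i ∈ J, x (g i) :=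
      Finset.sum_nonneg fun g _ => Finset.prod_nonneg fun i _ => hx _
    have h4 : (∑ g : ι ≃ τ, ∏ i ∈ J, x (g i)) * ∑ t, x t ≤
        (∑ g : ι ≃ τ, ∏ i ∈ J, x (g i)) * (Fintype.card ι * M) :=
      mul_le_mul_of_nonneg_left hM h0
    have h5 : (∑ g : ι ≃ τ, ∏ i ∈ J, x (g i)) * (Fintype.card ι * M) ≤
        ((Fintype.card (ι ≃ τ) : ℝ) * M ^ J.card) * (Fintype.card ι * M) :=
      mul_le_mul_of_nonneg_right ih (by positivity)
    have h6 : ∑ g : ι ≃ τ, ∏ i ∈ insert a J, x (g i) =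
        ∑ g : ι ≃ τ, (∏ i ∈ J, x (g i)) * x (g a) := by
      refine Finset.sum_congr rfl fun g _ => ?_
      rw [Finset.prod_insert ha, mul_comm]
    rw [h6, Finset.card_insert_of_notMem ha]
    refine le_of_mul_le_mul_left ?_ hk
    calc (Fintype.card ι : ℝ) * ∑ g : ι ≃ τ, (∏ i ∈ J, x (g i)) * x (g a)
        ≤ ∑ b : ι, ∑ g : ι ≃ τ, (∏ i ∈ J, x (g i)) * x (g b) := h2
      _ = (∑ g : ι ≃ τ, ∏ i ∈ J, x (g i)) * ∑ t, x t := h3
      _ ≤ (∑ g : ι ≃ τ, ∏ i ∈ J, x (g i)) * (Fintype.card ι * M) := h4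
      _ ≤ ((Fintype.card (ι ≃ τ) : ℝ) * M ^ J.card) * (Fintype.card ι * M) := h5
      _ = (Fintype.card ι : ℝ) * ((Fintype.card (ι ≃ τ) : ℝ) * M ^ (J.card + 1)) := by ring

end MP5cc280
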