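import Pool.Agent.H.MP_5cc280_co.Two

/-!
Averages of the codegrees over a clique, and their power sums.
-/

namespace MP5cc280

open Finset SimpleGraph

variable {V : Type*} [Fintype V] [DecidableEq V] {G : SimpleGraph V} [DecidableRel G.Adj]

theorem sum_erase_avg {N Δ : ℕ} (hN : 2 ≤ N) {Q : Finset V} (hQ : Q ∈ G.cliqueFinset N)
    (hΔ : ∀ v, G.degree v ≤ Δ) :
    ∑ z : {v : V // v ∈ Q}, (cm G (Q.erase (z : V)) : ℝ) ≤
      N * (((Δ : ℝ) + (N - 2) * cm G Q) / (N - 1)) := by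
  obtain ⟨u, rfl⟩ : ∃ u, N = u + 1 := ⟨N - 1, by omega⟩
  have hu : (1 : ℝ) ≤ u := by exact_mod_cast (by omega : 1 ≤ u)
  have hTc : Q.card = u + 1 := (mem_cliqueFinset_iff.1 hQ).2
  have h1 : ∀ x ∈ Q, (∑ y ∈ Q, (cm G (Q.erase y) : ℝ)) - cm G (Q.erase x) -
      u * cm G Q + cm G Q ≤ Δ := by
    intro x hx
    have h2 := sum_private_le hQ hx
    have h3 : (G.degree x : ℝ) ≤ Δ := by exact_mod_cast hΔ x
    rw [sum_sub_distrib, sum_const, card_erase_of_mem hx, hTc, nsmul_eq_mul] at h2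
    rw [← add_sum_erase Q (fun y => (cm G (Q.erase y) : ℝ)) hx]
    have h4 : ((u + 1 - 1 : ℕ) : ℝ) = u := by simp
    rw [h4] at h2
    linarith
  have h2 := sum_le_sum h1
  rw [sum_add_distrib, sum_sub_distrib, sum_sub_distrib, sum_const, sum_const, sum_const,
    sum_const, hTc] at h2
  simp only [nsmul_eq_mul] at h2
  push_cast at h2
  have h5 : ∑ z : {v : V // v ∈ Q}, (cm G (Q.erase (z : V)) : ℝ) =
      ∑ y ∈ Q, (cm G (Q.erase y) : ℝ) := sum_coe_sort Q (fun y => (cm G (Q.erase y) : ℝ))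
  rw [h5]
  push_cast
  have e : ((u : ℝ) + 1) * (((Δ : ℝ) + ((u : ℝ) + 1 - 2) * cm G Q) / ((u : ℝ) + 1 - 1)) =
      ((u + 1) * Δ + (u + 1) * (u - 1) * cm G Q) / u := by
    rw [add_sub_cancel_right]
    ring
  rw [e, le_div_iff₀ (by linarith)]
  linarith

private theorem PSum_binom {ι : Type*} (s : Finset ι) (c : ι → ℝ) {a b th k : ℝ} (ha : 0 ≤ a)
    (hb : 0 ≤ b) (j : ℕ) (h : ∀ i ≤ j, ∑ q ∈ s, c q ^ i ≤ th ^ i * k) :
    ∑ q ∈ s, (b * c q + a) ^ j ≤ (b * th + a) ^ j * k := by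
  calc ∑ q ∈ s, (b * c q + a) ^ j
      = ∑ q ∈ s, ∑ i ∈ range (j + 1), (b ^ i * a ^ (j - i) * (j.choose i)) * c q ^ i := by
        refine sum_congr rfl fun q _ => ?_
        rw [add_pow]
        refine sum_congr rfl fun i _ => ?_
        rw [mul_pow]
        ring
    _ = ∑ i ∈ range (j + 1), (b ^ i * a ^ (j - i) * (j.choose i)) * ∑ q ∈ s, c q ^ i := by
        rw [sum_comm]
        exact sum_congr rfl fun i _ => (mul_sum _ _ _).symm
    _ ≤ ∑ i ∈ range (j + 1), (b ^ i * a ^ (j - i) * (j.choose i)) * (th ^ i * k) := by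
        refine sum_le_sum fun i hi => mul_le_mul_of_nonneg_left (h i ?_) (by positivity)
        rw [mem_range] at hi
        omega
    _ = (b * th + a) ^ j * k := by
        rw [add_pow, sum_mul]
        refine sum_congr rfl fun i _ => ?_
        rw [mul_pow]
        ring

private theorem PSum_cm {N : ℕ} (hf : G.CliqueFree (N + 1)) {Q : Finset V}
    (hQ : Q ∈ G.cliqueFinset N) : cm G Q = 0 := by
  rw [← card_cnb, card_eq_zero, eq_empty_iff_forall_notMem]
  intro v hv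
  exact hf (insert v Q) ((mem_cliqueFinset_iff.1 hQ).insert fun d hd => mem_cnb.1 hv d hd)

theorem sum_avg_pow {N w Δ j : ℕ} (hN : 2 ≤ N) (hNw : N ≤ w) (hf : G.CliqueFree (w + 1))
    (hΔ : ∀ v, G.degree v ≤ Δ) (hj : w = N ∨ j ≤ 2 ∨ j * (N - 1) ≤ w - 1) :
    ∑ Q ∈ G.cliqueFinset N, (((Δ : ℝ) + (N - 2) * cm G Q) / (N - 1)) ^ j ≤
      (((w : ℝ) - N + 1) / (w - 1) * Δ) ^ j * kk G N := by
  have hN2 : (2 : ℝ) ≤ N := by exact_mod_cast hN
  rcases hNw.eq_or_lt with rfl | hlt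
  · have h1 : ∀ Q ∈ G.cliqueFinset N, (((Δ : ℝ) + (N - 2) * cm G Q) / (N - 1)) ^ j =
        (((N : ℝ) - N + 1) / (N - 1) * Δ) ^ j := by
      intro Q hQ
      rw [PSum_cm hf hQ, Nat.cast_zero]
      congr 1
      ring
    rw [sum_congr rfl h1, sum_const, nsmul_eq_mul, mul_comm]
    exact le_rfl
  · have hj' : j ≤ 2 ∨ j * (N - 1) ≤ w - 1 := hj.resolve_left (by omega)
    have hNw' : (N : ℝ) < w := by exact_mod_cast hlt
    have hN1 : (0 : ℝ) < (N : ℝ) - 1 := by linarith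
    have hw1 : (0 : ℝ) < (w : ℝ) - 1 := by linarith
    have hb : (0 : ℝ) ≤ ((N : ℝ) - 2) / (N - 1) := div_nonneg (by linarith) hN1.le
    have ha : (0 : ℝ) ≤ (Δ : ℝ) / (N - 1) := div_nonneg (Nat.cast_nonneg _) hN1.le
    have hmom : ∀ i ≤ j, ∑ Q ∈ G.cliqueFinset N, (cm G Q : ℝ) ^ i ≤
        (((w : ℝ) - N) / (w - 1) * Δ) ^ i * kk G N := by
      intro i hi
      rcases i with _ | i
      · simp only [pow_zero, sum_const, nsmul_eq_mul, mul_one, one_mul]
        exact le_rfl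
      · refine power_sum hN hlt hf hΔ ?_
        rcases hj' with h | h
        · by_cases h1 : i = 1
          · exact Or.inl h1
          · right
            have h2 : i = 0 := by omega
            rw [h2, zero_add, one_mul]
            omega
        · right
          exact (Nat.mul_le_mul_right _ hi).trans h
    have h1 := PSum_binom (G.cliqueFinset N) (fun Q => (cm G Q : ℝ)) ha hb j hmom
    have e1 : ∀ Q ∈ G.cliqueFinset N, (((Δ : ℝ) + (N - 2) * cm G Q) / (N - 1)) ^ j =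
        (((N : ℝ) - 2) / (N - 1) * cm G Q + Δ / (N - 1)) ^ j := by
      intro Q _
      congr 1
      ring
    have e2 : ((w : ℝ) - N + 1) / (w - 1) * Δ =
        ((N : ℝ) - 2) / (N - 1) * (((w : ℝ) - N) / (w - 1) * Δ) + Δ / (N - 1) := by
      field_simp
      ring
    rw [sum_congr rfl e1, e2]
    exact h1

end MP5cc280
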