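import Pool.Agent.H.MP_5cc280_co.Two

/-!
A quadratic function of the codegree, summed over the cliques.
-/

namespace MP5cc280

open Finset SimpleGraph

variable {V : Type*} [Fintype V] [DecidableEq V] {G : SimpleGraph V} [DecidableRel G.Adj]

private theorem PSumE_key {n κ A B : ℝ} (hn : 0 < n) (hκ : 1 ≤ κ) (hA : 0 ≤ A) (hB : 0 ≤ B)
    (hAB : n * (A + B) ≤ n - 1) :
    0 ≤ 2 * ((1 - A) * (1 - B) - 1 / κ) * (κ / (n + κ)) + ((1 - A) * B + (1 - B) * A) := by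
  have hκ0 : 0 < κ := by linarith
  have hW : 0 < n + κ := by linarith
  have h1 : A + B ≤ 1 := by
    by_contra h
    push Not at h
    have h2 := mul_lt_mul_of_pos_left h hn
    linarith
  have h2 : 0 ≤ κ * (2 - A - B) - 2 + n * (A + B - 2 * A * B) := by
    have h3 : 2 - A - B ≤ κ * (2 - A - B) := le_mul_of_one_le_left (by linarith) hκ
    have h4 : n * (A + B) * (A + B) ≤ (n - 1) * (A + B) :=
      mul_le_mul_of_nonneg_right hAB (by linarith)
    have h5 : 0 ≤ n * (A ^ 2 + B ^ 2) := by positivity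
    linarith
  have h3 : 2 * ((1 - A) * (1 - B) - 1 / κ) * (κ / (n + κ)) + ((1 - A) * B + (1 - B) * A) =
      (κ * (2 - A - B) - 2 + n * (A + B - 2 * A * B)) / (n + κ) := by
    field_simp
    ring
  rw [h3]
  exact div_nonneg h2 hW.le

private theorem PSumE_real {n κ A B D S0 S1 S2 : ℝ} (hn : 0 < n) (hκ : 1 ≤ κ) (hA : 0 ≤ A)
    (hB : 0 ≤ B) (hAB : n * (A + B) ≤ n - 1) (hD : 0 ≤ D) (hS0 : 0 ≤ S0) (hS1 : 0 ≤ S1)
    (hS2 : 0 ≤ S2) (h2 : S2 ≤ (κ / (n + κ) * D) ^ 2 * S0) (h3 : S1 ^ 2 ≤ S0 * S2) :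
    ((1 - A) * (1 - B) - 1 / κ) * S2 + ((1 - A) * B + (1 - B) * A) * D * S1 +
      A * B * D ^ 2 * S0 ≤ (((κ + A * n) * (κ + B * n) - κ) / (n + κ) ^ 2 * D ^ 2) * S0 := by
  have hκ0 : 0 < κ := by linarith
  have hW : 0 < n + κ := by linarith
  have h1 : A + B ≤ 1 := by
    by_contra h
    push Not at h
    have h2 := mul_lt_mul_of_pos_left h hn
    linarith
  have hA1 : 0 ≤ 1 - A := by linarith
  have hB1 : 0 ≤ 1 - B := by linarith
  have hid : ((κ + A * n) * (κ + B * n) - κ) / (n + κ) ^ 2 * D ^ 2 =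
      ((1 - A) * (1 - B) - 1 / κ) * (κ / (n + κ) * D) ^ 2 +
        ((1 - A) * B + (1 - B) * A) * D * (κ / (n + κ) * D) + A * B * D ^ 2 := by
    field_simp
    ring
  have hkey := mul_nonneg (PSumE_key hn hκ hA hB hAB) hD
  rw [hid]
  set c : ℝ := (1 - A) * (1 - B) - 1 / κ with hc
  set b : ℝ := ((1 - A) * B + (1 - B) * A) * D with hb
  set θ : ℝ := κ / (n + κ) * D with hθ
  have hθ0 : 0 ≤ θ := by positivity
  have hb0 : 0 ≤ b := by positivity
  have hkey' : 0 ≤ 2 * c * θ + b := by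
    rw [hθ, hb]
    linarith
  have hS1θ : S1 ≤ θ * S0 := by
    by_contra h
    push Not at h
    have h4 : 0 ≤ θ * S0 := by positivity
    have h5 : (θ * S0) ^ 2 < S1 ^ 2 := by
      exact pow_lt_pow_left₀ h h4 (by norm_num)
    have h6 := mul_le_mul_of_nonneg_left h2 hS0
    linarith [h3, h6, h5]
  rcases le_or_gt 0 c with hc0 | hc0
  · have h4 := mul_le_mul_of_nonneg_left h2 hc0
    have h5 := mul_le_mul_of_nonneg_left hS1θ hb0
    linarith
  · rcases hS0.eq_or_lt with h0 | hpos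
    · rw [← h0] at h2 h3 ⊢
      have h4 : S2 = 0 := le_antisymm (by simpa using h2) hS2
      have h5 : S1 = 0 := by
        rw [zero_mul] at h3
        exact pow_eq_zero_iff (by norm_num) |>.1 (le_antisymm h3 (sq_nonneg _))
      rw [h4, h5]
      simp
    · obtain ⟨s, hs⟩ : ∃ s, S1 = s * S0 := ⟨S1 / S0, by field_simp⟩
      rw [hs] at h3 hS1θ hS1 ⊢
      have hs0 : 0 ≤ s := by
        by_contra h
        push Not at h
        have := mul_neg_of_neg_of_pos h hpos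
        linarith
      have hsθ : s ≤ θ := le_of_mul_le_mul_right hS1θ hpos
      have h4 : s ^ 2 * S0 ≤ S2 := by
        refine le_of_mul_le_mul_left ?_ hpos
        calc S0 * (s ^ 2 * S0) = (s * S0) ^ 2 := by ring
          _ ≤ _ := h3
      have h5 : c * S2 ≤ c * (s ^ 2 * S0) := mul_le_mul_of_nonpos_left h4 hc0.le
      have h6 : 0 ≤ c * (θ + s) + b := by
        have h7 : c * (2 * θ) ≤ c * (θ + s) := mul_le_mul_of_nonpos_left (by linarith) hc0.le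
        linarith
      have h7 : 0 ≤ (θ - s) * (c * (θ + s) + b) * S0 :=
        mul_nonneg (mul_nonneg (by linarith) h6) hS0
      linarith

theorem sum_edge_le {N w Δ : ℕ} (hN : 2 ≤ N) (hNw : N < w) (hf : G.CliqueFree (w + 1))
    (hΔ : ∀ v, G.degree v ≤ Δ) {p q : ℝ} (hp : 0 ≤ p) (hq : 0 ≤ q) (hpq : p + q ≤ N - 2) :
    ∑ Q ∈ G.cliqueFinset N, (((1 - p / (N - 1)) * cm G Q + p * Δ / (N - 1)) *
        ((1 - q / (N - 1)) * cm G Q + q * Δ / (N - 1)) - (cm G Q : ℝ) ^ 2 / (w - N)) ≤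
      (((w - N + p) * (w - N + q) - (w - N)) / ((w : ℝ) - 1) ^ 2 * (Δ : ℝ) ^ 2) * kk G N := by
  have hN' : (2 : ℝ) ≤ N := by exact_mod_cast hN
  have hw' : (N : ℝ) + 1 ≤ w := by exact_mod_cast hNw
  have hn : (0 : ℝ) < (N : ℝ) - 1 := by linarith
  have hκ : (1 : ℝ) ≤ (w : ℝ) - N := by linarith
  have hcs : (∑ Q ∈ G.cliqueFinset N, (cm G Q : ℝ)) ^ 2 ≤
      kk G N * ∑ Q ∈ G.cliqueFinset N, (cm G Q : ℝ) ^ 2 := by
    have h := sum_sq_le_sum_mul_sum_of_sq_le_mul (G.cliqueFinset N)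
      (r := fun Q => (cm G Q : ℝ)) (f := fun _ => (1 : ℝ)) (g := fun Q => (cm G Q : ℝ) ^ 2)
      (fun _ _ => zero_le_one) (fun _ _ => sq_nonneg _) (fun Q _ => by rw [one_mul])
    rw [sum_const, nsmul_eq_mul, mul_one] at h
    exact h
  have h2 := square_sum_le (G := G) hN hNw hf hΔ
  have e1 : (w : ℝ) - 1 = ((N : ℝ) - 1) + ((w : ℝ) - N) := by ring
  have h4 := PSumE_real (n := (N : ℝ) - 1) (κ := (w : ℝ) - N) (A := p / ((N : ℝ) - 1))
    (B := q / ((N : ℝ) - 1)) (D := (Δ : ℝ)) (S0 := (kk G N : ℝ))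
    (S1 := ∑ Q ∈ G.cliqueFinset N, (cm G Q : ℝ))
    (S2 := ∑ Q ∈ G.cliqueFinset N, (cm G Q : ℝ) ^ 2) hn hκ (div_nonneg hp hn.le)
    (div_nonneg hq hn.le) (by
      rw [← add_div, mul_div_cancel₀ _ hn.ne']
      linarith) (Nat.cast_nonneg _) (Nat.cast_nonneg _)
    (sum_nonneg fun _ _ => Nat.cast_nonneg _) (sum_nonneg fun _ _ => sq_nonneg _)
    (by rw [← e1]; exact h2) hcs
  rw [div_mul_cancel₀ _ hn.ne', div_mul_cancel₀ _ hn.ne', ← e1] at h4
  refine le_trans (le_of_eq ?_) h4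
  rw [mul_sum, mul_sum]
  have e2 : (p / ((N : ℝ) - 1)) * (q / ((N : ℝ) - 1)) * (Δ : ℝ) ^ 2 * (kk G N : ℝ) =
      ∑ Q ∈ G.cliqueFinset N, (p / ((N : ℝ) - 1)) * (q / ((N : ℝ) - 1)) * (Δ : ℝ) ^ 2 := by
    rw [sum_const, nsmul_eq_mul, mul_comm]
    rfl
  rw [e2, ← sum_add_distrib, ← sum_add_distrib]
  refine sum_congr rfl fun Q _ => ?_
  ring

end MP5cc280
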