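import Pool.Agent.H.MP_5cc280_co.PMac
import Pool.Agent.H.MP_5cc280_co.PCop
import Pool.Agent.H.MP_5cc280_co.PSum
import Pool.Agent.H.MP_5cc280_co.PCol

/-!
The upper bound.
-/

namespace MP5cc280

open Finset SimpleGraph

variable {V : Type*} [Fintype V] [DecidableEq V] {G : SimpleGraph V} [DecidableRel G.Adj]
  {W : Type*} [Fintype W] [DecidableEq W] {H : SimpleGraph W}

theorem copies_le_cliques {T : Finset W} {N w j Δ : ℕ} (hT : H.IsNClique N T)
    (y : {e : W // e ∉ T} → {t : W // t ∈ T}) (hy : Function.Injective y)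
    (hadj : ∀ (e : {e : W // e ∉ T}) (t : {t : W // t ∈ T}), t ≠ y e → H.Adj e t)
    (hcard : Fintype.card {e : W // e ∉ T} = j) (hN : 2 ≤ N) (hNw : N ≤ w)
    (hf : G.CliqueFree (w + 1)) (hΔ : ∀ v, G.degree v ≤ Δ)
    (hj : w = N ∨ j ≤ 2 ∨ j * (N - 1) ≤ w - 1) :
    (Nat.card (Copy H G) : ℝ) ≤
      N.factorial * (((w : ℝ) - N + 1) / (w - 1) * Δ) ^ j * kk G N := by
  have hTc : T.card = N := hT.card_eq
  have h1 : (Nat.card (Copy H G) : ℝ) ≤
      ∑ Q ∈ G.cliqueFinset N, ∑ g : {t : W // t ∈ T} ≃ {v : V // v ∈ Q},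
        ∏ e : {e : W // e ∉ T}, (cm G (Q.erase (g (y e) : V)) : ℝ) := by
    exact_mod_cast card_copy_le_bij (G := G) hT y hadj
  have h2 : ∀ Q ∈ G.cliqueFinset N, ∑ g : {t : W // t ∈ T} ≃ {v : V // v ∈ Q},
        ∏ e : {e : W // e ∉ T}, (cm G (Q.erase (g (y e) : V)) : ℝ) ≤
      N.factorial * (((Δ : ℝ) + (N - 2) * cm G Q) / (N - 1)) ^ j := by
    intro Q hQ
    have hQc : Q.card = N := (mem_cliqueFinset_iff.1 hQ).card_eq
    have hcι : Fintype.card {t : W // t ∈ T} = N := by rw [Fintype.card_coe, hTc]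
    have hcτ : Fintype.card {v : V // v ∈ Q} = N := by rw [Fintype.card_coe, hQc]
    have hne : Nonempty {t : W // t ∈ T} := Fintype.card_pos_iff.1 (by omega)
    obtain ⟨e0⟩ : Nonempty ({t : W // t ∈ T} ≃ {v : V // v ∈ Q}) :=
      ⟨Fintype.equivOfCardEq (by rw [hcι, hcτ])⟩
    have h3 : ∀ g : {t : W // t ∈ T} ≃ {v : V // v ∈ Q},
        ∏ e : {e : W // e ∉ T}, (cm G (Q.erase (g (y e) : V)) : ℝ) =
        ∏ i ∈ univ.image y, (cm G (Q.erase (g i : V)) : ℝ) := by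
      intro g
      rw [prod_image (fun a _ b _ h => hy h)]
    rw [sum_congr rfl (fun g _ => h3 g)]
    have h4 := mac (ι := {t : W // t ∈ T}) (τ := {v : V // v ∈ Q})
      (fun z => (cm G (Q.erase (z : V)) : ℝ)) (fun _ => Nat.cast_nonneg _)
      (M := ((Δ : ℝ) + (N - 2) * cm G Q) / (N - 1))
      (by rw [hcι]; exact sum_erase_avg hN hQ hΔ) (univ.image y)
    rw [Fintype.card_equiv e0, hcι, card_image_of_injective _ hy, card_univ, hcard] at h4
    exact h4
  refine h1.trans ((sum_le_sum h2).trans ?_)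
  rw [← mul_sum, mul_assoc]
  exact mul_le_mul_of_nonneg_left (sum_avg_pow hN hNw hf hΔ hj) (by positivity)

theorem upper_pendant {T : Finset W} {u N w j Δ : ℕ} (hT : H.IsNClique N T)
    (y : {e : W // e ∉ T} → {t : W // t ∈ T}) (hy : Function.Injective y)
    (hadj : ∀ (e : {e : W // e ∉ T}) (t : {t : W // t ∈ T}), t ≠ y e ↔ H.Adj e t)
    (hcard : Fintype.card {e : W // e ∉ T} = j) (hu : 2 ≤ u) (huN : u ≤ N) (hNw : N ≤ w)
    (huw : u < w)
    (hf : G.CliqueFree (w + 1)) (hΔ : ∀ v, G.degree v ≤ Δ)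
    (hj : w = N ∨ (∀ a ∉ T, ∀ b ∉ T, ¬ H.Adj a b) ∧ (j ≤ 2 ∨ j * (N - 1) ≤ w - 1)) :
    (Nat.card (Copy H G) : ℝ) ≤
      Nat.card (H →g (⊤ : SimpleGraph (Fin w))) /
        (w.choose u * ((w : ℝ) - 1) ^ (Fintype.card W - u)) *
        (Δ : ℝ) ^ (Fintype.card W - u) * kk G u := by
  have hTc : T.card = N := hT.card_eq
  have hW : Fintype.card {e : W // e ∉ T} + N = Fintype.card W := card_rest T hTc
  rw [hcard] at hW
  have hs : Fintype.card W - u = j + (N - u) := by omega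
  have hw1 : (0 : ℝ) < (w : ℝ) - 1 := by
    have : (2 : ℝ) < w := by exact_mod_cast (by omega : 2 < w)
    linarith
  have hch : (0 : ℝ) < (w.choose u : ℝ) := by exact_mod_cast Nat.choose_pos huw.le
  have hwN : (0 : ℝ) ≤ (w : ℝ) - N + 1 := by
    have : (N : ℝ) ≤ w := by exact_mod_cast hNw
    linarith
  have h1 := copies_le_cliques (G := G) hT y hy (fun e t h => (hadj e t).1 h) hcard
    (hu.trans huN) hNw hf hΔ (by
      rcases hj with h | ⟨_, h⟩
      · exact Or.inl h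
      · exact Or.inr h)
  have h2 : (kk G N : ℝ) * w.choose u * ((w : ℝ) - 1) ^ (N - u) ≤
      w.choose N * (Δ : ℝ) ^ (N - u) * kk G u := by
    obtain ⟨r, rfl⟩ : ∃ r, w = r + 1 := ⟨w - 1, by omega⟩
    obtain ⟨s, rfl⟩ : ∃ s, u = s + 1 := ⟨u - 1, by omega⟩
    have h3 := main_bound (G := G) (r := r) (Δ := Δ) hf hΔ s (N - (s + 1))
    have e1 : s + 1 + (N - (s + 1)) = N := by omega
    rw [e1] at h3
    have e2 : ((r + 1 : ℕ) : ℝ) - 1 = r := by push_cast; ring
    rw [e2]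
    exact_mod_cast h3
  have h3 : ((w.descFactorial N : ℝ) * ((w : ℝ) - N + 1) ^ j) ≤
      Nat.card (H →g (⊤ : SimpleGraph (Fin w))) := by
    have h4 := card_col_ge (H := H) hTc hNw y hy (fun e h => (hadj e (y e)).2 h rfl) (by
      rcases hj with h | ⟨h, _⟩
      · exact Or.inl h
      · exact Or.inr h)
    rw [hcard] at h4
    have e1 : ((w - N + 1 : ℕ) : ℝ) = (w : ℝ) - N + 1 := by
      rw [Nat.cast_add, Nat.cast_sub hNw, Nat.cast_one]
    rw [← e1]
    exact_mod_cast h4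
  have h5 : (w.descFactorial N : ℝ) = N.factorial * w.choose N := by
    exact_mod_cast Nat.descFactorial_eq_factorial_mul_choose w N
  have h6 : (kk G N : ℝ) ≤ w.choose N * (Δ : ℝ) ^ (N - u) * kk G u /
      (w.choose u * ((w : ℝ) - 1) ^ (N - u)) := by
    rw [le_div_iff₀ (by positivity)]
    linarith
  calc (Nat.card (Copy H G) : ℝ)
      ≤ N.factorial * (((w : ℝ) - N + 1) / (w - 1) * Δ) ^ j * kk G N := h1
    _ ≤ N.factorial * (((w : ℝ) - N + 1) / (w - 1) * Δ) ^ j *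
        (w.choose N * (Δ : ℝ) ^ (N - u) * kk G u / (w.choose u * ((w : ℝ) - 1) ^ (N - u))) :=
        mul_le_mul_of_nonneg_left h6 (by positivity)
    _ = ((w.descFactorial N : ℝ) * ((w : ℝ) - N + 1) ^ j) /
        (w.choose u * ((w : ℝ) - 1) ^ (Fintype.card W - u)) *
        (Δ : ℝ) ^ (Fintype.card W - u) * kk G u := by
        rw [hs, h5, pow_add, pow_add, mul_pow, div_pow]
        field_simp
    _ ≤ _ := by
        gcongr

end MP5cc280
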