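import Pool.Agent.H.MP_5cc280_co.PUpG
import Pool.Agent.H.MP_5cc280_co.PCopE
import Pool.Agent.H.MP_5cc280_co.PSumE
import Pool.Agent.H.MP_5cc280_co.PColE

/-!
The upper bound, two adjacent vertices outside the clique `T`.
-/

namespace MP5cc280

open Finset SimpleGraph

variable {V : Type*} [Fintype V] [DecidableEq V] {G : SimpleGraph V} [DecidableRel G.Adj]
  {W : Type*} [Fintype W] [DecidableEq W] {H : SimpleGraph W}

theorem sum_xe_le {T : Finset W} {N Δ : ℕ} (hTc : T.card = N)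
    (M : {e : W // e ∉ T} → Finset {t : W // t ∈ T})
    (hdis : ∀ a b, a ≠ b → Disjoint (M a) (M b))
    {d : {t : W // t ∈ T}} (hd : ∀ e, d ∉ M e) (hN : 2 ≤ N)
    (hΔ : ∀ v, G.degree v ≤ Δ) {Q : Finset V} (hQ : Q ∈ G.cliqueFinset N) :
    ∑ g : {t : W // t ∈ T} ≃ {v : V // v ∈ Q},
        ∏ e : {e : W // e ∉ T}, (xe (nadj G Q) (M e) g : ℝ) ≤
      N.factorial * ∏ e, ((1 - ((M e).card : ℝ) / (N - 1)) * cm G Q +
        (M e).card * Δ / (N - 1)) := by
  have hN2 : (2 : ℝ) ≤ N := by exact_mod_cast hN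
  have hN1 : (0 : ℝ) < (N : ℝ) - 1 := by linarith
  have hcι : Fintype.card {t : W // t ∈ T} = N := by rw [Fintype.card_coe, hTc]
  have hQc : Q.card = N := (mem_cliqueFinset_iff.1 hQ).card_eq
  have hcτ : Fintype.card {v : V // v ∈ Q} = N := by rw [Fintype.card_coe, hQc]
  have hne : Nonempty {t : W // t ∈ T} := ⟨d⟩
  obtain ⟨e0⟩ : Nonempty ({t : W // t ∈ T} ≃ {v : V // v ∈ Q}) :=
    ⟨Fintype.equivOfCardEq (by rw [hcι, hcτ])⟩
  have h3 := hyb (nadj G Q) M hdis hd (by rw [hcι]; exact hN)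
  rw [hcι] at h3
  refine h3.trans ?_
  unfold ye
  rw [card_nadj_empty]
  have h4 := exp_le (ι := {t : W // t ∈ T}) (τ := {v : V // v ∈ Q}) (xt (nadj G Q) N)
    (fun z => xt_nonneg hN hQc z) (c := (cm G Q : ℝ)) (Nat.cast_nonneg _) M hdis
    (A := (((Δ : ℝ) - cm G Q) / (N - 1))) (by rw [hcι]; exact sum_xt_le hN hQ hΔ)
  rw [Fintype.card_equiv e0, hcι] at h4
  refine h4.trans (le_of_eq ?_)
  congr 1
  refine prod_congr rfl fun e _ => ?_
  field_simp
  ring

theorem PUpE_alg {a b R c x D1 D2 k z : ℝ} (hc : c ≠ 0) (hx : x ≠ 0) (hz : z ≠ 0) :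
    a * ((R / z * D1) * (b * D2 * k / (c * x))) =
      ((a * b) * R) / (c * (z * x)) * (D1 * D2) * k := by
  field_simp

theorem copies_le_edge {T : Finset W} {N w Δ : ℕ} (hT : H.IsNClique N T)
    (M : {e : W // e ∉ T} → Finset {t : W // t ∈ T})
    (hdis : ∀ a b, a ≠ b → Disjoint (M a) (M b))
    (hadj : ∀ (e : {e : W // e ∉ T}) (t : {t : W // t ∈ T}), t ∉ M e → H.Adj e t)
    {d : {t : W // t ∈ T}} (hd : ∀ e, d ∉ M e)
    {a b : {e : W // e ∉ T}} (hab : H.Adj a b) (hall : ∀ e, e = a ∨ e = b)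
    (hm : (M a).card + (M b).card + 2 ≤ N) (hN : 2 ≤ N) (hNw : N < w)
    (hf : G.CliqueFree (w + 1)) (hΔ : ∀ v, G.degree v ≤ Δ) :
    (Nat.card (Copy H G) : ℝ) ≤
      N.factorial * (((((w : ℝ) - N + (M a).card) * ((w : ℝ) - N + (M b).card) -
        ((w : ℝ) - N)) / ((w : ℝ) - 1) ^ 2 * (Δ : ℝ) ^ 2) * kk G N) := by
  have hTc : T.card = N := hT.card_eq
  have hne : a ≠ b := fun h => hab.ne (congrArg Subtype.val h)
  have huniv : (univ : Finset {e : W // e ∉ T}) = {a, b} := by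
    ext e
    simp only [mem_univ, mem_insert, mem_singleton, true_iff]
    exact hall e
  have hκ : (0 : ℝ) < (w : ℝ) - N := by
    have : (N : ℝ) < w := by exact_mod_cast hNw
    linarith
  have h1 : (Nat.card (Copy H G) : ℝ) ≤
      ∑ Q ∈ G.cliqueFinset N, ∑ g : {t : W // t ∈ T} ≃ {v : V // v ∈ Q},
        (((univ.filter (fun x => ∀ t, t ∉ M a → g t ∉ nadj G Q x) ×ˢ
          univ.filter (fun x => ∀ t, t ∉ M b → g t ∉ nadj G Q x)).filter
            (fun z => G.Adj z.1 z.2)).card : ℝ) := by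
    exact_mod_cast card_copy_le_edge (G := G) hT M hadj hab hall
  have h2 : ∀ Q ∈ G.cliqueFinset N, ∑ g : {t : W // t ∈ T} ≃ {v : V // v ∈ Q},
        (((univ.filter (fun x => ∀ t, t ∉ M a → g t ∉ nadj G Q x) ×ˢ
          univ.filter (fun x => ∀ t, t ∉ M b → g t ∉ nadj G Q x)).filter
            (fun z => G.Adj z.1 z.2)).card : ℝ) ≤
      N.factorial * (((1 - ((M a).card : ℝ) / (N - 1)) * cm G Q + (M a).card * Δ / (N - 1)) *
        ((1 - ((M b).card : ℝ) / (N - 1)) * cm G Q + (M b).card * Δ / (N - 1)) -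
        (cm G Q : ℝ) ^ 2 / (w - N)) := by
    intro Q hQ
    have hcι : Fintype.card {t : W // t ∈ T} = N := by rw [Fintype.card_coe, hTc]
    have hQc : Q.card = N := (mem_cliqueFinset_iff.1 hQ).card_eq
    have hcτ : Fintype.card {v : V // v ∈ Q} = N := by rw [Fintype.card_coe, hQc]
    obtain ⟨e0⟩ : Nonempty ({t : W // t ∈ T} ≃ {v : V // v ∈ Q}) :=
      ⟨Fintype.equivOfCardEq (by rw [hcι, hcτ])⟩
    have h3 := sum_xe_le (G := G) hTc M hdis hd hN hΔ hQ
    simp only [huniv, prod_pair hne] at h3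
    have h4 := local_lin hNw hf hQ
    have h5 : (cm G Q : ℝ) ^ 2 / (w - N) ≤
        (cm G Q : ℝ) ^ 2 - ∑ v ∈ cnb G Q, (cm G (insert v Q) : ℝ) := by
      rw [div_le_iff₀ hκ]
      nlinarith
    calc _ ≤ ∑ g : {t : W // t ∈ T} ≃ {v : V // v ∈ Q},
        ((xe (nadj G Q) (M a) g : ℝ) * xe (nadj G Q) (M b) g -
          (cm G Q : ℝ) ^ 2 / (w - N)) := by
          refine sum_le_sum fun g _ => (edge_count (G := G) (M a) (M b) g).trans ?_
          linarith
      _ = (∑ g : {t : W // t ∈ T} ≃ {v : V // v ∈ Q},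
        ((xe (nadj G Q) (M a) g : ℝ) * xe (nadj G Q) (M b) g)) -
          N.factorial * ((cm G Q : ℝ) ^ 2 / (w - N)) := by
          rw [sum_sub_distrib, sum_const, card_univ, Fintype.card_equiv e0, hcι, nsmul_eq_mul]
      _ ≤ _ := by
          rw [mul_sub]
          linarith
  have hpq : ((M a).card : ℝ) + (M b).card ≤ N - 2 := by
    have : (((M a).card + (M b).card + 2 : ℕ) : ℝ) ≤ N := by exact_mod_cast hm
    push_cast at this
    linarith
  have h3 := sum_edge_le (G := G) hN hNw hf hΔ (Nat.cast_nonneg (M a).card)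
    (Nat.cast_nonneg (M b).card) hpq
  refine h1.trans ((sum_le_sum h2).trans ?_)
  rw [← mul_sum]
  exact mul_le_mul_of_nonneg_left h3 (by positivity)

theorem upper_edge {T : Finset W} {u N w Δ : ℕ} (hT : H.IsNClique N T)
    (M : {e : W // e ∉ T} → Finset {t : W // t ∈ T})
    (hdis : ∀ a b t, t ∈ M a → t ∈ M b → a = b)
    (hadj : ∀ (e : {e : W // e ∉ T}) (t : {t : W // t ∈ T}), t ∉ M e ↔ H.Adj e t)
    {d : {t : W // t ∈ T}} (hd : ∀ e, d ∉ M e)
    {a b : {e : W // e ∉ T}} (hab : H.Adj a b) (hall : ∀ e, e = a ∨ e = b)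
    (hm : (M a).card + (M b).card + 2 ≤ N) (hu : 2 ≤ u) (huN : u ≤ N) (hNw : N < w)
    (hf : G.CliqueFree (w + 1)) (hΔ : ∀ v, G.degree v ≤ Δ) :
    (Nat.card (Copy H G) : ℝ) ≤
      Nat.card (H →g (⊤ : SimpleGraph (Fin w))) /
        (w.choose u * ((w : ℝ) - 1) ^ (Fintype.card W - u)) *
        (Δ : ℝ) ^ (Fintype.card W - u) * kk G u := by
  have hTc : T.card = N := hT.card_eq
  have hne : a ≠ b := fun h => hab.ne (congrArg Subtype.val h)
  have huniv : (univ : Finset {e : W // e ∉ T}) = {a, b} := by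
    ext e
    simp only [mem_univ, mem_insert, mem_singleton, true_iff]
    exact hall e
  have hc2 : Fintype.card {e : W // e ∉ T} = 2 := by
    rw [← card_univ, huniv, card_pair hne]
  have hW : Fintype.card {e : W // e ∉ T} + N = Fintype.card W := card_rest T hTc
  rw [hc2] at hW
  have hs : Fintype.card W - u = 2 + (N - u) := by omega
  have hw1 : (0 : ℝ) < (w : ℝ) - 1 := by
    have : (2 : ℝ) < w := by exact_mod_cast (by omega : 2 < w)
    linarith
  have hch : (0 : ℝ) < (w.choose u : ℝ) := by exact_mod_cast Nat.choose_pos (by omega)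
  have hwN : (1 : ℝ) ≤ (w : ℝ) - N := by
    have : ((N + 1 : ℕ) : ℝ) ≤ w := by exact_mod_cast hNw
    push_cast at this
    linarith
  have h1 := copies_le_edge (G := G) hT M (fun a b hab => by
      rw [Finset.disjoint_left]
      exact fun t ha hb => hab (hdis a b t ha hb)) (fun e t h => (hadj e t).1 h) hd hab hall hm
    (hu.trans huN) hNw hf hΔ
  have h2 : (kk G N : ℝ) * w.choose u * ((w : ℝ) - 1) ^ (N - u) ≤
      w.choose N * (Δ : ℝ) ^ (N - u) * kk G u := by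
    obtain ⟨r, rfl⟩ : ∃ r, w = r + 1 := ⟨w - 1, by omega⟩
    obtain ⟨s, rfl⟩ : ∃ s, u = s + 1 := ⟨u - 1, by omega⟩
    have h3 := main_bound (G := G) (r := r) (Δ := Δ) hf hΔ s (N - (s + 1))
    have e1 : s + 1 + (N - (s + 1)) = N := by omega
    rw [e1] at h3
    have e2 : ((r + 1 : ℕ) : ℝ) - 1 = r := by push_cast; ring
    rw [e2]
    exact_mod_cast h3
  have h3 := card_col_ge_edge (H := H) (w := w) hTc hNw.le M
      (fun e t ht h => (hadj e t).2 h ht) hdis hne hall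
  have h5 : (w.descFactorial N : ℝ) = N.factorial * w.choose N := by
    exact_mod_cast Nat.descFactorial_eq_factorial_mul_choose w N
  have h6 : (kk G N : ℝ) ≤ w.choose N * (Δ : ℝ) ^ (N - u) * kk G u /
      (w.choose u * ((w : ℝ) - 1) ^ (N - u)) := by
    rw [le_div_iff₀ (by positivity)]
    linarith
  have hR : 0 ≤ ((w : ℝ) - N + (M a).card) * ((w : ℝ) - N + (M b).card) - ((w : ℝ) - N) := by
    have ha : (0 : ℝ) ≤ (M a).card := Nat.cast_nonneg _
    have hb : (0 : ℝ) ≤ (M b).card := Nat.cast_nonneg _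
    nlinarith
  calc (Nat.card (Copy H G) : ℝ)
      ≤ N.factorial * (((((w : ℝ) - N + (M a).card) * ((w : ℝ) - N + (M b).card) -
        ((w : ℝ) - N)) / ((w : ℝ) - 1) ^ 2 * (Δ : ℝ) ^ 2) * kk G N) := h1
    _ ≤ N.factorial * (((((w : ℝ) - N + (M a).card) * ((w : ℝ) - N + (M b).card) -
        ((w : ℝ) - N)) / ((w : ℝ) - 1) ^ 2 * (Δ : ℝ) ^ 2) *
        (w.choose N * (Δ : ℝ) ^ (N - u) * kk G u /
          (w.choose u * ((w : ℝ) - 1) ^ (N - u)))) := by
        refine mul_le_mul_of_nonneg_left (mul_le_mul_of_nonneg_left h6 ?_) (by positivity)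
        positivity
    _ = ((w.descFactorial N : ℝ) * (((w : ℝ) - N + (M a).card) * ((w : ℝ) - N + (M b).card) -
        ((w : ℝ) - N))) / (w.choose u * ((w : ℝ) - 1) ^ (Fintype.card W - u)) *
        (Δ : ℝ) ^ (Fintype.card W - u) * kk G u := by
        rw [hs, h5, pow_add, pow_add]
        exact PUpE_alg hch.ne' (pow_ne_zero _ hw1.ne') (pow_ne_zero _ hw1.ne')
    _ ≤ _ := by
        gcongr

end MP5cc280
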