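import Pool.Agent.H.MP_5cc280_co.PHyb
import Pool.Agent.H.MP_5cc280_co.PExp
import Pool.Agent.H.MP_5cc280_co.PCopG
import Pool.Agent.H.MP_5cc280_co.PColG

/-!
The upper bound, for a clique `T` whose vertices have at most one non-neighbour.
-/

namespace MP5cc280

open Finset SimpleGraph

variable {V : Type*} [Fintype V] [DecidableEq V] {G : SimpleGraph V} [DecidableRel G.Adj]
  {W : Type*} [Fintype W] [DecidableEq W] {H : SimpleGraph W}

theorem PUpG_alg {a b P c x y D1 D2 k : ℝ} (hc : c ≠ 0) (hx : x ≠ 0) (hy : y ≠ 0) :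
    a * ((P / x * D1) * (b * D2 * k / (c * y))) =
      ((a * b) * P) / (c * (x * y)) * (D1 * D2) * k := by
  field_simp

theorem xt_nonneg {Q : Finset V} {N : ℕ} (hN : 2 ≤ N) (hQ : Q.card = N)
    (z : {v : V // v ∈ Q}) : 0 ≤ xt (nadj G Q) N z := by
  unfold xt
  refine sum_nonneg fun x _ => ?_
  have h1 : (nadj G Q x).card ≤ N := by
    have := card_le_univ (nadj G Q x)
    rwa [Fintype.card_coe, hQ] at this
  have h2 : ((nadj G Q x).card : ℝ) ≤ N := by exact_mod_cast h1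
  have h3 : (2 : ℝ) ≤ N := by exact_mod_cast hN
  exact div_nonneg (by linarith) (mul_nonneg (Nat.cast_nonneg _) (by linarith))

theorem copies_le_cliquesG {T : Finset W} {N w Δ : ℕ} (hT : H.IsNClique N T)
    (M : {e : W // e ∉ T} → Finset {t : W // t ∈ T})
    (hdis : ∀ a b, a ≠ b → Disjoint (M a) (M b))
    (hadj : ∀ (e : {e : W // e ∉ T}) (t : {t : W // t ∈ T}), t ∉ M e → H.Adj e t)
    {d : {t : W // t ∈ T}} (hd : ∀ e, d ∉ M e) (hN : 2 ≤ N) (hNw : N ≤ w)
    (hf : G.CliqueFree (w + 1)) (hΔ : ∀ v, G.degree v ≤ Δ)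
    (hj : w = N ∨ Fintype.card {e : W // e ∉ T} ≤ 2 ∨
      Fintype.card {e : W // e ∉ T} * (N - 1) ≤ w - 1) :
    (Nat.card (Copy H G) : ℝ) ≤
      N.factorial * ((∏ e, (((w : ℝ) - N + (M e).card) / (w - 1) * Δ)) * kk G N) := by
  have hTc : T.card = N := hT.card_eq
  have hN2 : (2 : ℝ) ≤ N := by exact_mod_cast hN
  have hw2 : (N : ℝ) ≤ w := by exact_mod_cast hNw
  have hN1 : (0 : ℝ) < (N : ℝ) - 1 := by linarith
  have hw1 : (0 : ℝ) < (w : ℝ) - 1 := by linarith
  have hcι : Fintype.card {t : W // t ∈ T} = N := by rw [Fintype.card_coe, hTc]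
  have hm : ∀ e, ((M e).card : ℝ) ≤ (N : ℝ) - 1 := by
    intro e
    have h1 : (M e).card < N := by
      rw [← hcι, ← card_univ]
      exact card_lt_card ⟨subset_univ _, fun h => hd e (h (mem_univ d))⟩
    have h2 : (M e).card + 1 ≤ N := h1
    have h3 : ((M e).card : ℝ) + 1 ≤ N := by exact_mod_cast h2
    linarith
  have h1 : (Nat.card (Copy H G) : ℝ) ≤
      ∑ Q ∈ G.cliqueFinset N, ∑ g : {t : W // t ∈ T} ≃ {v : V // v ∈ Q},
        ∏ e : {e : W // e ∉ T}, (xe (nadj G Q) (M e) g : ℝ) := by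
    exact_mod_cast card_copy_le_gen (G := G) hT M hadj
  have h2 : ∀ Q ∈ G.cliqueFinset N, ∑ g : {t : W // t ∈ T} ≃ {v : V // v ∈ Q},
        ∏ e : {e : W // e ∉ T}, (xe (nadj G Q) (M e) g : ℝ) ≤
      N.factorial * ∏ e, ((1 - ((M e).card : ℝ) / (N - 1)) * cm G Q +
        (M e).card * Δ / (N - 1)) := by
    intro Q hQ
    have hQc : Q.card = N := (mem_cliqueFinset_iff.1 hQ).card_eq
    have hcτ : Fintype.card {v : V // v ∈ Q} = N := by rw [Fintype.card_coe, hQc]
    have hne : Nonempty {t : W // t ∈ T} := ⟨d⟩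
    obtain ⟨e0⟩ : Nonempty ({t : W // t ∈ T} ≃ {v : V // v ∈ Q}) :=
      ⟨Fintype.equivOfCardEq (by rw [hcι, hcτ])⟩
    have h3 := hyb (nadj G Q) M hdis hd (by rw [hcι]; exact hN)
    rw [hcι] at h3
    refine h3.trans ?_
    unfold ye
    rw [card_nadj_empty]
    have h4 := exp_le (ι := {t : W // t ∈ T}) (τ := {v : V // v ∈ Q}) (xt (nadj G Q) N)
      (fun z => xt_nonneg hN hQc z) (c := (cm G Q : ℝ)) (Nat.cast_nonneg _) M hdis
      (A := (((Δ : ℝ) - cm G Q) / (N - 1))) (by rw [hcι]; exact sum_xt_le hN hQ hΔ)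
    rw [Fintype.card_equiv e0, hcι] at h4
    refine h4.trans (le_of_eq ?_)
    congr 1
    refine prod_congr rfl fun e _ => ?_
    field_simp
    ring
  have h3 := sum_prod_le (G := G) (E := {e : W // e ∉ T}) hN hNw hf hΔ hj
    (fun e => 1 - ((M e).card : ℝ) / (N - 1)) (fun e => (M e).card * Δ / (N - 1))
    (fun e => by
      have := hm e
      rw [sub_nonneg, div_le_one hN1]
      exact this)
    (fun e => by positivity)
  refine h1.trans ((sum_le_sum h2).trans ?_)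
  rw [← mul_sum]
  refine mul_le_mul_of_nonneg_left (h3.trans (le_of_eq ?_)) (by positivity)
  congr 1
  refine prod_congr rfl fun e _ => ?_
  field_simp
  ring

theorem upper_pendantG {T : Finset W} {u N w Δ : ℕ} (hT : H.IsNClique N T)
    (M : {e : W // e ∉ T} → Finset {t : W // t ∈ T})
    (hdis : ∀ a b t, t ∈ M a → t ∈ M b → a = b)
    (hadj : ∀ (e : {e : W // e ∉ T}) (t : {t : W // t ∈ T}), t ∉ M e ↔ H.Adj e t)
    {d : {t : W // t ∈ T}} (hd : ∀ e, d ∉ M e) (hu : 2 ≤ u) (huN : u ≤ N) (hNw : N ≤ w)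
    (huw : u < w) (hf : G.CliqueFree (w + 1)) (hΔ : ∀ v, G.degree v ≤ Δ)
    (hj : w = N ∨ (∀ a ∉ T, ∀ b ∉ T, ¬ H.Adj a b) ∧ (Fintype.card {e : W // e ∉ T} ≤ 2 ∨
      Fintype.card {e : W // e ∉ T} * (N - 1) ≤ w - 1)) :
    (Nat.card (Copy H G) : ℝ) ≤
      Nat.card (H →g (⊤ : SimpleGraph (Fin w))) /
        (w.choose u * ((w : ℝ) - 1) ^ (Fintype.card W - u)) *
        (Δ : ℝ) ^ (Fintype.card W - u) * kk G u := by
  have hTc : T.card = N := hT.card_eq
  have hW : Fintype.card {e : W // e ∉ T} + N = Fintype.card W := card_rest T hTc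
  have hs : Fintype.card W - u = Fintype.card {e : W // e ∉ T} + (N - u) := by omega
  have hw1 : (0 : ℝ) < (w : ℝ) - 1 := by
    have : (2 : ℝ) < w := by exact_mod_cast (by omega : 2 < w)
    linarith
  have hch : (0 : ℝ) < (w.choose u : ℝ) := by exact_mod_cast Nat.choose_pos huw.le
  have hwN : (0 : ℝ) ≤ (w : ℝ) - N := by
    have : (N : ℝ) ≤ w := by exact_mod_cast hNw
    linarith
  have h1 := copies_le_cliquesG (G := G) hT M (fun a b hab => by
      rw [Finset.disjoint_left]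
      exact fun t ha hb => hab (hdis a b t ha hb)) (fun e t h => (hadj e t).1 h) hd
    (hu.trans huN) hNw hf hΔ (hj.imp_right fun h => h.2)
  have h2 : (kk G N : ℝ) * w.choose u * ((w : ℝ) - 1) ^ (N - u) ≤
      w.choose N * (Δ : ℝ) ^ (N - u) * kk G u := by
    obtain ⟨r, rfl⟩ : ∃ r, w = r + 1 := ⟨w - 1, by omega⟩
    obtain ⟨s, rfl⟩ : ∃ s, u = s + 1 := ⟨u - 1, by omega⟩
    have h3 := main_bound (G := G) (r := r) (Δ := Δ) hf hΔ s (N - (s + 1))
    have e1 : s + 1 + (N - (s + 1)) = N := by omega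
    rw [e1] at h3
    have e2 : ((r + 1 : ℕ) : ℝ) - 1 = r := by push_cast; ring
    rw [e2]
    exact_mod_cast h3
  have h3 : ((w.descFactorial N : ℝ) * ∏ e, ((w : ℝ) - N + (M e).card)) ≤
      Nat.card (H →g (⊤ : SimpleGraph (Fin w))) := by
    have h4 := card_col_geM (H := H) (w := w) hTc M
      (fun e t ht h => (hadj e t).2 h ht) hdis (hj.imp_right fun h => h.1)
    have e1 : ∀ e, ((w - N + (M e).card : ℕ) : ℝ) = (w : ℝ) - N + (M e).card := by
      intro e
      rw [Nat.cast_add, Nat.cast_sub hNw]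
    have e2 : (∏ e, ((w : ℝ) - N + (M e).card)) =
        ((∏ e, (w - N + (M e).card) : ℕ) : ℝ) := by
      rw [Nat.cast_prod]
      exact prod_congr rfl fun e _ => (e1 e).symm
    rw [e2]
    exact_mod_cast h4
  have h5 : (w.descFactorial N : ℝ) = N.factorial * w.choose N := by
    exact_mod_cast Nat.descFactorial_eq_factorial_mul_choose w N
  have h6 : (kk G N : ℝ) ≤ w.choose N * (Δ : ℝ) ^ (N - u) * kk G u /
      (w.choose u * ((w : ℝ) - 1) ^ (N - u)) := by
    rw [le_div_iff₀ (by positivity)]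
    linarith
  have h7 : (∏ e : {e : W // e ∉ T}, (((w : ℝ) - N + (M e).card) / (w - 1) * Δ)) =
      (∏ e, ((w : ℝ) - N + (M e).card)) / ((w : ℝ) - 1) ^ Fintype.card {e : W // e ∉ T} *
        (Δ : ℝ) ^ Fintype.card {e : W // e ∉ T} := by
    rw [prod_mul_distrib, prod_div_distrib, prod_const, prod_const, card_univ]
  have hprod : 0 ≤ ∏ e : {e : W // e ∉ T}, ((w : ℝ) - N + (M e).card) :=
    prod_nonneg fun e _ => by positivity
  calc (Nat.card (Copy H G) : ℝ)
      ≤ N.factorial * ((∏ e, (((w : ℝ) - N + (M e).card) / (w - 1) * Δ)) * kk G N) := h1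
    _ ≤ N.factorial * ((∏ e, (((w : ℝ) - N + (M e).card) / (w - 1) * Δ)) *
        (w.choose N * (Δ : ℝ) ^ (N - u) * kk G u /
          (w.choose u * ((w : ℝ) - 1) ^ (N - u)))) := by
        refine mul_le_mul_of_nonneg_left (mul_le_mul_of_nonneg_left h6 ?_) (by positivity)
        rw [h7]
        positivity
    _ = ((w.descFactorial N : ℝ) * ∏ e, ((w : ℝ) - N + (M e).card)) /
        (w.choose u * ((w : ℝ) - 1) ^ (Fintype.card W - u)) *
        (Δ : ℝ) ^ (Fintype.card W - u) * kk G u := by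
        rw [hs, h5, h7, pow_add, pow_add]
        exact PUpG_alg hch.ne' (pow_ne_zero _ hw1.ne') (pow_ne_zero _ hw1.ne')
    _ ≤ _ := by
        gcongr

end MP5cc280
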