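import Pool.Agent.H.MP_5cc280_co.Cnt
import Pool.Agent.H.MP_5cc280_co.Lim

/-!
# The Turán graph `T_ω(Δ + ⌊Δ/(ω-1)⌋)` and the limit of the lower bound
-/

namespace MP5cc280

open Finset SimpleGraph Filter Topology

/-- the number of vertices of the Turán graph of the problem -/
def tn (Δ w : ℕ) : ℕ := Δ + Δ / (w - 1)

theorem tn_bounds {Δ w : ℕ} (hw : 2 ≤ w) :
    w * (Δ / (w - 1)) ≤ tn Δ w ∧ tn Δ w < w * (Δ / (w - 1) + 1) := by
  have h1 : (w - 1) * (Δ / (w - 1)) + Δ % (w - 1) = Δ := Nat.div_add_mod Δ (w - 1)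
  have h2 : Δ % (w - 1) < w - 1 := Nat.mod_lt _ (by omega)
  set m := Δ / (w - 1) with hm
  have h3 : w * m = (w - 1) * m + m := by
    obtain ⟨k, rfl⟩ : ∃ k, w = k + 1 := ⟨w - 1, by omega⟩
    simp only [Nat.add_sub_cancel]
    ring
  unfold tn
  rw [← hm]
  constructor
  · omega
  · rw [Nat.mul_add, Nat.mul_one]
    omega

theorem turan_degree {Δ w : ℕ} (hw : 2 ≤ w) (v : Fin (tn Δ w)) :
    (turanGraph (tn Δ w) w).degree v ≤ Δ := by
  obtain ⟨h1, _⟩ := tn_bounds (Δ := Δ) hw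
  set m := Δ / (w - 1) with hm
  have hlt : ∀ j : Fin m, (v : ℕ) % w + w * j < tn Δ w := by
    intro j
    have h2 : (v : ℕ) % w < w := Nat.mod_lt _ (by omega)
    have h3 : (j : ℕ) + 1 ≤ m := j.2
    have h4 : w * ((j : ℕ) + 1) ≤ w * m := Nat.mul_le_mul_left w h3
    rw [Nat.mul_add, Nat.mul_one] at h4
    omega
  have hsub : (turanGraph (tn Δ w) w).neighborFinset v ⊆
      univ \ univ.image (fun j : Fin m => (⟨(v : ℕ) % w + w * j, hlt j⟩ : Fin (tn Δ w))) := by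
    intro x hx
    rw [mem_neighborFinset, turanGraph_adj] at hx
    rw [Finset.mem_sdiff]
    refine ⟨mem_univ _, fun h => ?_⟩
    rw [Finset.mem_image] at h
    obtain ⟨j, _, rfl⟩ := h
    apply hx
    simp
  have hinj : Function.Injective
      (fun j : Fin m => (⟨(v : ℕ) % w + w * j, hlt j⟩ : Fin (tn Δ w))) := by
    intro a b h
    have h2 : (v : ℕ) % w + w * a = (v : ℕ) % w + w * b := congrArg Fin.val h
    have h3 : w * (a : ℕ) = w * b := by omega
    exact Fin.ext (Nat.eq_of_mul_eq_mul_left (by omega) h3)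
  have hc := card_le_card hsub
  rw [card_neighborFinset_eq_degree, card_sdiff_of_subset (subset_univ _),
    card_image_of_injective _ hinj, card_univ, Fintype.card_fin, card_univ,
    Fintype.card_fin] at hc
  have h5 : tn Δ w - m = Δ := by
    unfold tn
    rw [← hm]
    omega
  omega

/-- the Turán graph contains the balanced graph with parts `⌊Δ/(ω-1)⌋` -/
def turanLow {Δ w : ℕ} (hw : 2 ≤ w) :
    Copy (completeEquipartiteGraph w (Δ / (w - 1))) (turanGraph (tn Δ w) w) :=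
  ⟨⟨fun x => ⟨(x.1 : ℕ) + w * x.2, by
      obtain ⟨h1, _⟩ := tn_bounds (Δ := Δ) hw
      have h3 : (x.2 : ℕ) + 1 ≤ Δ / (w - 1) := x.2.2
      have h4 : w * ((x.2 : ℕ) + 1) ≤ w * (Δ / (w - 1)) := Nat.mul_le_mul_left w h3
      rw [Nat.mul_add, Nat.mul_one] at h4
      have h5 := x.1.2
      omega⟩, by
    intro a b hab
    rw [completeEquipartiteGraph_adj] at hab
    rw [turanGraph_adj]
    simp only [Nat.add_mul_mod_self_left]
    rw [Nat.mod_eq_of_lt a.1.2, Nat.mod_eq_of_lt b.1.2]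
    exact fun h => hab (Fin.ext h)⟩, by
    intro a b h
    have h1 : (a.1 : ℕ) + w * a.2 = b.1 + w * b.2 := congrArg Fin.val h
    have h2 : ((a.1 : ℕ) + w * a.2) % w = (b.1 + w * b.2) % w := by rw [h1]
    rw [Nat.add_mul_mod_self_left, Nat.add_mul_mod_self_left, Nat.mod_eq_of_lt a.1.2,
      Nat.mod_eq_of_lt b.1.2] at h2
    have h3 : w * (a.2 : ℕ) = w * b.2 := by omega
    have h4 : (a.2 : ℕ) = b.2 := Nat.eq_of_mul_eq_mul_left (by omega) h3
    exact Prod.ext (Fin.ext h2) (Fin.ext h4)⟩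

/-- the Turán graph is contained in the balanced graph with parts `⌊Δ/(ω-1)⌋ + 1` -/
def turanUp {Δ w : ℕ} (hw : 2 ≤ w) :
    Copy (turanGraph (tn Δ w) w) (completeEquipartiteGraph w (Δ / (w - 1) + 1)) :=
  ⟨⟨fun v => (⟨(v : ℕ) % w, Nat.mod_lt _ (by omega)⟩, ⟨(v : ℕ) / w, by
      obtain ⟨_, h2⟩ := tn_bounds (Δ := Δ) hw
      rw [Nat.div_lt_iff_lt_mul (by omega), Nat.mul_comm]
      exact v.2.trans h2⟩), by
    intro a b hab
    rw [turanGraph_adj] at hab
    rw [completeEquipartiteGraph_adj]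
    exact fun h => hab (congrArg Fin.val h)⟩, by
    intro a b h
    have h1 : (a : ℕ) % w = b % w := congrArg (fun z => (z.1 : ℕ)) h
    have h2 : (a : ℕ) / w = b / w := congrArg (fun z => (z.2 : ℕ)) h
    apply Fin.ext
    rw [← Nat.div_add_mod (a : ℕ) w, ← Nat.div_add_mod (b : ℕ) w, h1, h2]⟩

theorem turan_FF {Δ w : ℕ} (hw : 2 ≤ w) : ∀ A ∈ FF Δ w, A.2.Free (turanGraph (tn Δ w) w) := by
  intro A hA
  rcases hA with rfl | rfl
  · rw [star_free_iff]
    exact turan_degree hw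
  · change (⊤ : SimpleGraph (Fin (w + 1))).Free (turanGraph (tn Δ w) w)
    rw [← cliqueFree_iff_top_free, Fintype.card_fin]
    exact turanGraph_cliqueFree (by omega)

/-- the lower bound of the problem, `ρ_u(H, T_ω(Δ + ⌊Δ/(ω-1)⌋))` -/
noncomputable def rho {W : Type*} (H : SimpleGraph W) (u w Δ : ℕ) : ℝ :=
  ((turanGraph (Δ + Δ / (w - 1)) w).copyCount H : ℝ) /
    (turanGraph (Δ + Δ / (w - 1)) w).copyCount (⊤ : SimpleGraph (Fin u))

/-- the constant: `P_H(ω) / (|Aut H| binom(ω, u) (ω-1)^(|V(H)|-u))`, where `P_H(ω)` is the number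
of proper colourings of `H` with `ω` colours -/
noncomputable def Lc {W : Type*} [Fintype W] (H : SimpleGraph W) (u w : ℕ) : ℝ :=
  (Nat.card (H →g (⊤ : SimpleGraph (Fin w))) : ℝ) /
    (Nat.card (H ≃g H) * w.choose u * ((w : ℝ) - 1) ^ (Fintype.card W - u))

section

variable {W : Type*} [Fintype W] [DecidableEq W] {H : SimpleGraph W}

theorem cLim_eq {D : Finset W} {u w : ℕ} (hD : D.card = u)
    (hdom : ∀ v ∈ D, ∀ w, w ≠ v → H.Adj v w) (huw : u ≤ w) :
    cLim H D u w = Lc H u w := by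
  have h1 := card_rest D hD
  have h2 : Fintype.card {w : W // w ∉ D} = Fintype.card W - u := by omega
  have h3 : (0 : ℝ) < (w.choose u : ℝ) := by exact_mod_cast Nat.choose_pos huw
  unfold cLim Lc
  rw [card_col hD hdom w, Nat.descFactorial_eq_factorial_mul_choose, h2]
  push_cast
  have e1 : ∀ a b c d e : ℝ, a * c * b / (d * c * e) = (a * b) * c / ((d * e) * c) := by
    intro a b c d e
    ring_nf
  rw [e1, mul_div_mul_right _ _ h3.ne']

/-- lower bound for the Turán ratio -/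
theorem rho_ge {D : Finset W} {u w Δ : ℕ} (hD : D.card = u)
    (hdom : ∀ v ∈ D, ∀ w, w ≠ v → H.Adj v w) (hw : 2 ≤ w) (huw : u ≤ w)
    (hm : 0 < Δ / (w - 1)) :
    Lc H u w * ((w : ℝ) - 1) ^ (Fintype.card W - u) *
      ((Δ / (w - 1) + 1 - Fintype.card W : ℕ) : ℝ) ^ Fintype.card W /
      ((Δ / (w - 1) + 1 : ℕ) : ℝ) ^ u ≤ rho H u w Δ := by
  set m := Δ / (w - 1) with hmdef
  have haut : (0 : ℝ) < Nat.card (H ≃g H) := by exact_mod_cast aut_pos (H := H)
  have hch : (0 : ℝ) < (w.choose u : ℝ) := by exact_mod_cast Nat.choose_pos huw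
  have hw1 : (0 : ℝ) < (w : ℝ) - 1 := by
    have : (2 : ℝ) ≤ w := by exact_mod_cast hw
    linarith
  have h1 := copyCount_mono (H := H) (turanLow (Δ := Δ) hw)
  have h2 := copyCount_mono (H := (⊤ : SimpleGraph (Fin u))) (turanUp (Δ := Δ) hw)
  have h3 := copyCount_mono (H := (⊤ : SimpleGraph (Fin u))) (turanLow (Δ := Δ) hw)
  rw [copyCount_top (G := completeEquipartiteGraph w (Δ / (w - 1) + 1)), kk_equi] at h2
  rw [copyCount_top (G := completeEquipartiteGraph w (Δ / (w - 1))), kk_equi] at h3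
  rw [← hmdef] at h1 h2 h3
  have h4 := card_copy_ge (H := H) hD w m
  rw [← mul_assoc, ← card_col hD hdom w, card_copy (G := completeEquipartiteGraph w m)] at h4
  have h5 : (m + 1 - Fintype.card W) ^ Fintype.card W ≤ m.descFactorial (Fintype.card W) :=
    Nat.pow_sub_le_descFactorial m (Fintype.card W)
  have h6 : Nat.card (H →g (⊤ : SimpleGraph (Fin w))) *
      (m + 1 - Fintype.card W) ^ Fintype.card W ≤
      (turanGraph (tn Δ w) w).copyCount H * Nat.card (H ≃g H) :=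
    ((Nat.mul_le_mul_left _ h5).trans h4).trans (Nat.mul_le_mul_right _ h1)
  have h7 : (Nat.card (H →g (⊤ : SimpleGraph (Fin w))) : ℝ) *
      ((m + 1 - Fintype.card W : ℕ) : ℝ) ^ Fintype.card W ≤
      (turanGraph (tn Δ w) w).copyCount H * Nat.card (H ≃g H) := by exact_mod_cast h6
  have hpos : 0 < (turanGraph (tn Δ w) w).copyCount (⊤ : SimpleGraph (Fin u)) :=
    lt_of_lt_of_le (Nat.mul_pos (Nat.choose_pos huw) (pow_pos hm u)) h3
  have hpos' : (0 : ℝ) < (turanGraph (tn Δ w) w).copyCount (⊤ : SimpleGraph (Fin u)) := by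
    exact_mod_cast hpos
  have h8 : ((turanGraph (tn Δ w) w).copyCount (⊤ : SimpleGraph (Fin u)) : ℝ) ≤
      w.choose u * ((m + 1 : ℕ) : ℝ) ^ u := by exact_mod_cast h2
  have h9 : rho H u w Δ = ((turanGraph (tn Δ w) w).copyCount H : ℝ) /
    (turanGraph (tn Δ w) w).copyCount (⊤ : SimpleGraph (Fin u)) := rfl
  rw [h9]
  have h10 : Lc H u w * ((w : ℝ) - 1) ^ (Fintype.card W - u) *
      ((m + 1 - Fintype.card W : ℕ) : ℝ) ^ Fintype.card W / ((m + 1 : ℕ) : ℝ) ^ u =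
      ((Nat.card (H →g (⊤ : SimpleGraph (Fin w))) : ℝ) *
      ((m + 1 - Fintype.card W : ℕ) : ℝ) ^ Fintype.card W / Nat.card (H ≃g H)) /
      (w.choose u * ((m + 1 : ℕ) : ℝ) ^ u) := by
    unfold Lc
    have hm1 : (0 : ℝ) < ((m + 1 : ℕ) : ℝ) := by positivity
    field_simp
  rw [h10]
  have h11 : (Nat.card (H →g (⊤ : SimpleGraph (Fin w))) : ℝ) *
      ((m + 1 - Fintype.card W : ℕ) : ℝ) ^ Fintype.card W / Nat.card (H ≃g H) ≤
      (turanGraph (tn Δ w) w).copyCount H := by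
    rw [div_le_iff₀ haut]
    exact h7
  exact div_le_div₀ (Nat.cast_nonneg _) h11 hpos' h8

theorem floor_div (w Δ : ℕ) (hw : 2 ≤ w) : ⌊1 / ((w : ℝ) - 1) * Δ⌋₊ = Δ / (w - 1) := by
  have h : 1 / ((w : ℝ) - 1) * Δ = (Δ : ℝ) / ((w - 1 : ℕ) : ℝ) := by
    rw [Nat.cast_sub (by omega)]
    push_cast
    ring
  rw [h, Nat.floor_div_eq_div]

/-- the lower bound tends to the constant -/
theorem low_tendsto {u w h : ℕ} (hw : 2 ≤ w) (L : ℝ) (huh : u ≤ h) :
    Tendsto (fun Δ : ℕ => L * ((w : ℝ) - 1) ^ (h - u) *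
      ((Δ / (w - 1) + 1 - h : ℕ) : ℝ) ^ h / ((Δ / (w - 1) + 1 : ℕ) : ℝ) ^ u /
      (Δ : ℝ) ^ (h - u)) atTop (𝓝 L) := by
  have hw1 : (0 : ℝ) < (w : ℝ) - 1 := by
    have : (2 : ℝ) ≤ w := by exact_mod_cast hw
    linarith
  set a : ℝ := 1 / ((w : ℝ) - 1) with ha
  have ha0 : 0 < a := by positivity
  have t1 : Tendsto (fun Δ : ℕ => ((Δ / (w - 1) + 1 - h : ℕ) : ℝ) / Δ) atTop (𝓝 a) := by
    have := lim_floor_sub ha0.le h
    refine this.congr fun Δ => ?_
    rw [ha, floor_div w Δ hw]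
  have t2 : Tendsto (fun Δ : ℕ => ((Δ / (w - 1) + 1 : ℕ) : ℝ) / Δ) atTop (𝓝 a) := by
    have := lim_floor_sub ha0.le 0
    refine this.congr fun Δ => ?_
    rw [ha, floor_div w Δ hw, Nat.sub_zero]
  have t3 : Tendsto (fun Δ : ℕ => L * ((w : ℝ) - 1) ^ (h - u) *
      ((((Δ / (w - 1) + 1 - h : ℕ) : ℝ) / Δ) ^ h /
        (((Δ / (w - 1) + 1 : ℕ) : ℝ) / Δ) ^ u)) atTop
      (𝓝 (L * ((w : ℝ) - 1) ^ (h - u) * (a ^ h / a ^ u))) :=
    ((t1.pow h).div (t2.pow u) (by positivity)).const_mul _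
  have e : L * ((w : ℝ) - 1) ^ (h - u) * (a ^ h / a ^ u) = L := by
    have h1 : a ^ h / a ^ u = a ^ (h - u) := by
      rw [div_eq_iff (by positivity), ← pow_add]
      congr 1
      omega
    rw [h1, ha, one_div, inv_pow, mul_assoc, mul_inv_cancel₀ (by positivity), mul_one]
  rw [e] at t3
  refine t3.congr' ?_
  filter_upwards [eventually_gt_atTop 0] with Δ hΔ
  have hΔ' : (0 : ℝ) < Δ := by exact_mod_cast hΔ
  have hp : (0 : ℝ) < ((Δ / (w - 1) + 1 : ℕ) : ℝ) := by positivity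
  have h2 : (Δ : ℝ) ^ h = (Δ : ℝ) ^ (h - u) * (Δ : ℝ) ^ u := by
    rw [← pow_add]
    congr 1
    omega
  rw [div_pow, div_pow, h2]
  field_simp

end

end MP5cc280
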