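import Pool.Agent.H.MP_5cc280_co.Bal

/-!
# The sum of the squares of the codegrees of the `u`-cliques
-/

namespace MP5cc280

open Finset SimpleGraph

variable {V : Type*} [Fintype V] [DecidableEq V] {G : SimpleGraph V} [DecidableRel G.Adj]

/-- linear form of the local Caro–Wei inequality -/
theorem local_lin {u w : ℕ} (huw : u < w) (hf : G.CliqueFree (w + 1)) {Q : Finset V}
    (hQ : Q ∈ G.cliqueFinset u) :
    ((w : ℝ) - u) * ∑ v ∈ cnb G Q, (cm G (insert v Q) : ℝ) ≤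
      ((w : ℝ) - u - 1) * (cm G Q : ℝ) ^ 2 := by
  have hQ' := mem_cliqueFinset_iff.1 hQ
  have hκ : (0 : ℝ) < (w : ℝ) - u := by
    have : (u : ℝ) < w := by exact_mod_cast huw
    linarith
  have hpos : ∀ v ∈ cnb G Q, 0 < (cm G Q : ℝ) - cm G (insert v Q) := by
    intro v hv
    have hT : insert v Q ∈ G.cliqueFinset (u + 1) := by
      rw [mem_cliqueFinset_iff]
      exact hQ'.insert (fun d hd => mem_cnb.1 hv d hd)
    have hvQ : v ∉ Q := fun h => G.loopless.irrefl v (mem_cnb.1 hv v h)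
    have h1 := cm_lt hT (mem_insert_self v Q)
    rw [erase_insert hvQ] at h1
    have : (cm G (insert v Q) : ℝ) < cm G Q := by exact_mod_cast h1
    linarith
  have h1 := local_cw hf hQ
  have h2 := sum_sq_le_sum_mul_sum_of_sq_le_mul (cnb G Q) (r := fun _ => (1 : ℝ))
    (f := fun v => (cm G Q : ℝ) - cm G (insert v Q))
    (g := fun v => 1 / ((cm G Q : ℝ) - cm G (insert v Q)))
    (fun v hv => (hpos v hv).le) (fun v hv => (one_div_pos.2 (hpos v hv)).le)
    (fun v hv => by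
      rw [one_pow, mul_one_div_cancel (hpos v hv).ne'])
  rw [sum_const, nsmul_eq_mul, mul_one, card_cnb, sum_sub_distrib, sum_const, nsmul_eq_mul,
    card_cnb] at h2
  have h3 : 0 ≤ (cm G Q : ℝ) * cm G Q - ∑ v ∈ cnb G Q, (cm G (insert v Q) : ℝ) := by
    have h4 := sum_nonneg (fun v hv => (hpos v hv).le)
    rw [sum_sub_distrib, sum_const, nsmul_eq_mul, card_cnb] at h4
    exact h4
  have h5 := mul_le_mul_of_nonneg_left h1 h3
  nlinarith

/-- **The sum of the squares.** -/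
theorem square_sum_le {u w Δ : ℕ} (hu : 2 ≤ u) (huw : u < w) (hf : G.CliqueFree (w + 1))
    (hΔ : ∀ v, G.degree v ≤ Δ) :
    ∑ Q ∈ G.cliqueFinset u, (cm G Q : ℝ) ^ 2 ≤
      (((w : ℝ) - u) / (w - 1) * Δ) ^ 2 * kk G u := by
  have hκ : (0 : ℝ) < (w : ℝ) - u := by
    have : (u : ℝ) < w := by exact_mod_cast huw
    linarith
  have hu2 : (2 : ℝ) ≤ u := by exact_mod_cast hu
  have hw1 : (0 : ℝ) < (w : ℝ) - 1 := by linarith
  set S1 : ℝ := ∑ Q ∈ G.cliqueFinset u, (cm G Q : ℝ) with hS1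
  set S2 : ℝ := ∑ Q ∈ G.cliqueFinset u, (cm G Q : ℝ) ^ 2 with hS2
  set τ : ℝ := ∑ T ∈ G.cliqueFinset (u + 1), (cm G T : ℝ) with hτ
  have hS1n : 0 ≤ S1 := sum_nonneg fun _ _ => Nat.cast_nonneg _
  have hS2n : 0 ≤ S2 := sum_nonneg fun _ _ => sq_nonneg _
  -- the number of (u+1)-cliques
  have e1 : ((u : ℝ) + 1) * (G.cliqueFinset (u + 1)).card = S1 := by
    have h := sum_eraseR (G := G) (fun _ => (1 : ℝ)) u
    have h2 : ∀ T ∈ G.cliqueFinset (u + 1), ∑ _a ∈ T, (1 : ℝ) = (u : ℝ) + 1 := by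
      intro T hT
      rw [sum_const, (mem_cliqueFinset_iff.1 hT).2, nsmul_eq_mul]
      push_cast
      ring
    rw [sum_congr rfl h2, sum_const, nsmul_eq_mul] at h
    simp only [mul_one] at h
    rw [hS1, ← h]
    ring
  -- the local inequality at a (u+1)-clique
  have e2 : ∀ T ∈ G.cliqueFinset (u + 1), (u : ℝ) * ∑ a ∈ T, (cm G (T.erase a) : ℝ) ≤
      (u + 1) * Δ + (u + 1) * (u - 1) * cm G T := by
    intro T hT
    have hTc : T.card = u + 1 := (mem_cliqueFinset_iff.1 hT).2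
    have h1 : ∀ x ∈ T, (∑ y ∈ T, (cm G (T.erase y) : ℝ)) - cm G (T.erase x) -
        u * cm G T + cm G T ≤ Δ := by
      intro x hx
      have h2 := sum_private_le hT hx
      have h3 : (G.degree x : ℝ) ≤ Δ := by exact_mod_cast hΔ x
      rw [sum_sub_distrib, sum_const, card_erase_of_mem hx, hTc, nsmul_eq_mul] at h2
      rw [← add_sum_erase T (fun y => (cm G (T.erase y) : ℝ)) hx]
      have h4 : ((u + 1 - 1 : ℕ) : ℝ) = u := by simp
      rw [h4] at h2
      linarith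
    have h2 := sum_le_sum h1
    rw [sum_add_distrib, sum_sub_distrib, sum_sub_distrib, sum_const, sum_const, sum_const,
      sum_const, hTc] at h2
    simp only [nsmul_eq_mul] at h2
    push_cast at h2
    linarith
  have h1 := sum_le_sum e2
  rw [← mul_sum, sum_eraseR (G := G) (fun Q => (cm G Q : ℝ)) u, sum_add_distrib, sum_const,
    nsmul_eq_mul, ← mul_sum, ← hτ] at h1
  have e3 : ∑ Q ∈ G.cliqueFinset u, (cm G Q : ℝ) * cm G Q = S2 :=
    sum_congr rfl fun Q _ => by ring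
  rw [e3] at h1
  -- summing the linear local inequality
  have e4 : ((u : ℝ) + 1) * τ = ∑ Q ∈ G.cliqueFinset u, ∑ v ∈ cnb G Q,
      (cm G (insert v Q) : ℝ) := by
    rw [← sum_erase2 (G := G) (fun Q v => (cm G (insert v Q) : ℝ)) u, hτ, mul_sum]
    refine sum_congr rfl fun T hT => ?_
    have h2 : ∀ a ∈ T, (cm G (insert a (T.erase a)) : ℝ) = cm G T := fun a ha => by
      rw [insert_erase ha]
    rw [sum_congr rfl h2, sum_const, (mem_cliqueFinset_iff.1 hT).2, nsmul_eq_mul]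
    push_cast
    ring
  have h2 : ((w : ℝ) - u) * (((u : ℝ) + 1) * τ) ≤ ((w : ℝ) - u - 1) * S2 := by
    rw [e4, mul_sum, hS2, mul_sum]
    exact sum_le_sum fun Q hQ => local_lin huw hf hQ
  -- combine
  have h3 : ((w : ℝ) - 1) * S2 ≤ ((w : ℝ) - u) * Δ * S1 := by
    have h4 : ((w : ℝ) - u) * (u * S2) ≤ ((w : ℝ) - u) * (Δ * S1 +
        (u - 1) * (((u : ℝ) + 1) * τ)) := by
      refine mul_le_mul_of_nonneg_left ?_ hκ.le
      rw [← e1]
      linarith
    have h5 : ((u : ℝ) - 1) * (((w : ℝ) - u) * (((u : ℝ) + 1) * τ)) ≤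
        (u - 1) * (((w : ℝ) - u - 1) * S2) := mul_le_mul_of_nonneg_left h2 (by linarith)
    nlinarith
  have hcs : S1 ^ 2 ≤ kk G u * S2 := by
    have h := sum_sq_le_sum_mul_sum_of_sq_le_mul (G.cliqueFinset u)
      (r := fun Q => (cm G Q : ℝ)) (f := fun _ => (1 : ℝ)) (g := fun Q => (cm G Q : ℝ) ^ 2)
      (fun _ _ => zero_le_one) (fun _ _ => sq_nonneg _) (fun Q _ => by rw [one_mul])
    rw [sum_const, nsmul_eq_mul, mul_one] at h
    exact h
  rcases hS2n.eq_or_lt with h0 | hpos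
  · rw [← h0]
    positivity
  · have h4 : (((w : ℝ) - 1) * S2) ^ 2 ≤ (((w : ℝ) - u) * Δ) ^ 2 * (kk G u * S2) := by
      have h5 := pow_le_pow_left₀ (by positivity) h3 2
      refine h5.trans ?_
      rw [mul_pow (((w : ℝ) - u) * Δ) S1]
      exact mul_le_mul_of_nonneg_left hcs (by positivity)
    have h5 : (((w : ℝ) - 1) ^ 2 * S2) * S2 ≤ ((((w : ℝ) - u) * Δ) ^ 2 * kk G u) * S2 := by
      calc (((w : ℝ) - 1) ^ 2 * S2) * S2 = (((w : ℝ) - 1) * S2) ^ 2 := by ring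
        _ ≤ _ := h4
        _ = _ := by ring
    have h6 := le_of_mul_le_mul_right h5 hpos
    have e5 : (((w : ℝ) - u) / (w - 1) * Δ) ^ 2 * kk G u =
        ((((w : ℝ) - u) * Δ) ^ 2 * kk G u) / ((w : ℝ) - 1) ^ 2 := by
      field_simp
    rw [e5, le_div_iff₀ (by positivity)]
    linarith

/-- **The power sums of the codegrees.** -/
theorem power_sum {u w n Δ : ℕ} (hu : 2 ≤ u) (huw : u < w) (hf : G.CliqueFree (w + 1))
    (hΔ : ∀ v, G.degree v ≤ Δ) (hn : n = 1 ∨ (n + 1) * (u - 1) ≤ w - 1) :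
    ∑ Q ∈ G.cliqueFinset u, (cm G Q : ℝ) ^ (n + 1) ≤
      (((w : ℝ) - u) / (w - 1) * Δ) ^ (n + 1) * kk G u := by
  rcases hn with rfl | hn
  · exact square_sum_le hu huw hf hΔ
  · exact power_sum_le hu huw hf hΔ hn

end MP5cc280
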